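import Pool.Agent.Work.MP_b30479_gt.DT.PDefs
import Pool.Agent.Work.MP_b30479_gt.TB.Defo
import Pool.Agent.Work.MP_b30479_gt.TB.Tt

/-!
# Definitions for the volume conjecture of the double twist links `C(a,a)`
-/

namespace Pool.Agent.Work.MP_b30479_gt.DT

open Finset TB AX

/-- the summand: `Ak k = f(k)² |(G^a)_{0k}|`; the invariant is `∑_k (Ak k)²` up to a phase -/
noncomputable def Ak (a s k : ℕ) : ℝ := ‖Gm s (tt s) 1 a 0 k‖ * fS (2 * s + 1) k ^ 2

end Pool.Agent.Work.MP_b30479_gt.DT
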