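import Pool.Agent.Work.MP_b30479_gt.TwoBridgeAlt

/-!
# Definitions for the statement on the double twist links `C(a,a)`
-/

namespace Pool.Agent.Work.MP_b30479_gt.DT

/-- The word `σ_2^{-a} σ_1^a`; its two-bridge link is the double twist link `C(a,a)`: a knot for
even `a` (`4_1, 8_3, ...` for `a = 2, 4, ...`), a link with two components for odd `a`. -/
def dtWord (a : ℕ) : List (Fin 2 × Bool) :=
  List.replicate a ((1 : Fin 2), false) ++ List.replicate a ((0 : Fin 2), true)

/-- The Bloch-Wigner dilogarithm `D(z) = Im Li₂(z) + arg(1-z) log|z|` for `|z| ≤ 1`: the volume of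
the ideal tetrahedron with shape `z`. -/
noncomputable def BWd (z : ℂ) : ℝ :=
  (∑' k : ℕ, z ^ (k + 1) / ((k : ℂ) + 1) ^ 2).im + (1 - z).arg * Real.log ‖z‖

/-- The equations of the hyperbolic structure of the complement of `C(a,a)`, in the variables `η`
(real) and `u` (complex), in the region `|Re u| < min(η, 1/4)`, `η < 1/2`, `Im u > 0`.

Let `x = e^{2πiη}`, `q = e^{2πiu}`.  The complement of `C(a,a)` is obtained by filling from two
ideal octahedra; each is cut into four ideal tetrahedra around an axis, with shapes `-1/x`, `q x`,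
`-1/x`, `x/q` and `-1/x`, `q̄ x`, `-1/x`, `x/q̄` (of product `1`).  `filling` is the logarithm of the
filling equation `- x q^a (1 - q/x) = 1 - q x` of one twist region (the other one is its complex
conjugate), `gluing` is the edge equation
`(1 - q x)(1 - q/x)(1 - q̄ x)(1 - q̄/x) = (q q̄) ((1+x)²/x)²` (its square root, `(1+x)²/x` being the
positive number `4 cos² πη`). -/
structure IsGeom (a : ℕ) (η : ℝ) (u : ℂ) : Prop where
  im_pos : 0 < u.im
  re_lt : |u.re| < η
  re_lt' : |u.re| < 1 / 4
  lt_half : η < 1 / 2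
  filling : Complex.log (1 - Complex.exp (2 * Real.pi * Complex.I * (u - η))) -
    Complex.log (1 - Complex.exp (2 * Real.pi * Complex.I * (u + η))) +
    2 * Real.pi * Complex.I * (a * u + 1 / 2 + η) = 0
  gluing : ‖1 - Complex.exp (2 * Real.pi * Complex.I * (u - η))‖ *
    ‖1 - Complex.exp (2 * Real.pi * Complex.I * (u + η))‖ =
    4 * Real.cos (Real.pi * η) ^ 2 * Real.exp (-(2 * Real.pi * u.im))

/-- The volume: the sum of the Bloch-Wigner dilogarithms of the eight shapes (`D(x/q) = D(q̄ x)`
because `x` has absolute value `1`). -/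
noncomputable def volDT (η : ℝ) (u : ℂ) : ℝ :=
  4 * BWd (-Complex.exp (-(2 * Real.pi * Complex.I * η))) +
  2 * BWd (Complex.exp (2 * Real.pi * Complex.I * (u + η))) +
  2 * BWd (Complex.exp (2 * Real.pi * Complex.I * (η - (starRingEnd ℂ) u)))

end Pool.Agent.Work.MP_b30479_gt.DT
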