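import Pool.Agent.Work.MP_b30479_gt.AX.SinF
import Pool.Agent.Work.MP_b30479_gt.DT.Defs
import Pool.Agent.Work.MP_b30479_gt.DT.Stmt
import Pool.Agent.Work.MP_b30479_gt.TB.TwistFinal

/-!
# The invariant of `C(a,a)` as a sum of squares
-/

namespace Pool.Agent.Work.MP_b30479_gt.DT

open Finset TB AX

/-- the framing phase -/
noncomputable def phase (W : ℤ) (s : ℕ) : ℂ :=
  Complex.exp (-(2 * Real.pi * Complex.I * W * (s * (s + 1)) / ((2 * s + 1 : ℕ) : ℂ)))

lemma norm_qf_fS {s k : ℕ} (hk : k ≤ 2 * s) : ‖qf (tt s) k‖ = fS (2 * s + 1) k := by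
  rw [qf_tt hk, norm_mul, norm_mul, norm_pow, norm_neg, Complex.norm_I, one_pow,
    Complex.norm_exp_ofReal_mul_I, mul_one, mul_one, Complex.norm_real, Real.norm_of_nonneg
    (fS_pos (by omega)).le]

lemma dtWord_eq (a : ℕ) : dtWord a = mirrorRev (List.replicate a (lett true)) ++
    List.replicate a (lett true) := by
  rw [mirrorRev_block]
  rfl

theorem kashaev_eq (a : ℕ) (δ : ℤ) (s : ℕ) :
    twoBridgeKashaev (dtWord a) δ (2 * s + 1) =
      phase (orientedWrithe (dtWord a) ![1, δ, -δ]) s *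
        ((∑ k ∈ range (2 * s + 1), Ak a s k ^ 2 : ℝ) : ℂ) := by
  have e1 : (2 * s + 1 - 1) / 2 = s := by omega
  unfold twoBridgeKashaev
  rw [e1]
  set u : ℂˣ := Units.mk0 (Complex.exp (2 * Real.pi * Complex.I / ((2 * s + 1 : ℕ) : ℂ)))
    (Complex.exp_ne_zero _) with hu0
  have hu : (u : ℂ) = tt s := rfl
  have h : IsPrimitiveRoot (u : ℂ) (2 * s + 1) := by rw [hu]; exact tt_prim s
  unfold twoBridgeJones
  congr 1
  · unfold phase
    rw [Units.val_zpow_eq_zpow_val, hu]
    unfold tt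
    rw [← Complex.exp_int_mul]
    congr 1
    push_cast
    ring
  · rw [dtWord_eq, tangleValue_mirror h, opL_block]
    simp only [if_true]
    rw [(qn_eq h (HW_pw h (HW_eta h) a)).1, qn_parseval h (HW_pw h (HW_eta h) a)]
    congr 1
    apply Finset.sum_congr rfl
    intro k hk
    rw [mem_range] at hk
    have hk' : k ≤ 2 * s := by omega
    have pk := norm_qf_pos h hk'
    have x0 : ∀ j, j ≤ 2 * s → xi s u j (eta s u) = if j = 0 then 1 else 0 := by
      intro j hj
      split_ifs with hj0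
      · subst hj0
        exact HH_eta h
      · exact HH_uu_orth h (k := 0) hj0 hj (by omega)
    rw [xi_pw h (HW_eta h) a hk', Finset.sum_eq_single 0]
    · have n0 : NN (u : ℂ) 0 = 1 := by unfold NN; simp
      rw [x0 0 (by omega), if_pos rfl, n0, div_one, one_mul, norm_mul, NN_norm]
      have e2 := norm_qf_fS hk'
      rw [← hu] at e2
      unfold Ak
      rw [← e2, ← hu, div_eq_iff (by positivity)]
      ring
    · intro j hj hj0
      rw [mem_range] at hj
      rw [x0 j (by omega), if_neg hj0]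
      ring
    · intro hc
      exact absurd (mem_range.mpr (by omega)) hc

lemma orientAfter_odd (w : List (Fin 2 × Bool)) (o : Fin 3 → ℤ) (ho : ∀ l, Odd (o l)) :
    ∀ l, Odd (orientAfter w o l) := by
  obtain ⟨π, hπ⟩ := orientAfter_perm w
  intro l
  rw [hπ]
  exact ho _

lemma writhe_parity (w : List (Fin 2 × Bool)) (o : Fin 3 → ℤ) (ho : ∀ l, Odd (o l)) :
    Even (orientedWrithe w o - w.length) := by
  induction w with
  | nil => simp [orientedWrithe]
  | cons g w ih =>
    have h1 := orientAfter_odd w o ho g.1.castSucc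
    have h2 := orientAfter_odd w o ho g.1.succ
    have h3 : Odd ((if g.2 then (1 : ℤ) else -1) *
        (orientAfter w o g.1.castSucc * orientAfter w o g.1.succ)) := by
      apply Odd.mul _ (h1.mul h2)
      split_ifs
      · exact odd_one
      · exact odd_neg.mpr odd_one
    have e : orientedWrithe (g :: w) o - ((g :: w).length : ℤ) =
        (orientedWrithe w o - w.length) + ((if g.2 then (1 : ℤ) else -1) *
        (orientAfter w o g.1.castSucc * orientAfter w o g.1.succ) - 1) := by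
      show orientedWrithe w o + (if g.2 then (1 : ℤ) else -1) *
        (orientAfter w o g.1.castSucc * orientAfter w o g.1.succ) - ((g :: w).length : ℤ) = _
      rw [List.length_cons]
      push_cast
      ring
    rw [e]
    exact ih.add (h3.sub_odd odd_one)

theorem writhe_even (a : ℕ) {δ : ℤ} (hδ : δ = 1 ∨ δ = -1) :
    Even (orientedWrithe (dtWord a) ![1, δ, -δ]) := by
  have ho : ∀ l, Odd ((![1, δ, -δ] : Fin 3 → ℤ) l) := by
    intro l
    rcases hδ with rfl | rfl
    · fin_cases l <;> decide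
    · fin_cases l <;> decide
  have h1 := writhe_parity (dtWord a) ![1, δ, -δ] ho
  have h2 : ((dtWord a).length : ℤ) = a + a := by
    unfold dtWord
    simp
  have h3 : orientedWrithe (dtWord a) ![1, δ, -δ] =
      (orientedWrithe (dtWord a) ![1, δ, -δ] - ((dtWord a).length : ℤ)) + (a + a) := by
    rw [h2]
    ring
  rw [h3]
  exact h1.add ⟨(a : ℤ), rfl⟩

theorem phase_ratio {W : ℤ} (hW : Even W) :
    Filter.Tendsto (fun s : ℕ => phase W (s + 1) / phase W s) Filter.atTop (nhds 1) := by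
  obtain ⟨V, rfl⟩ := hW
  have e : ∀ s : ℕ, phase (V + V) (s + 1) / phase (V + V) s = Complex.exp
      (-(2 * Real.pi * Complex.I * (V : ℂ) *
        (((1 / (2 * ((2 * s + 1 : ℕ) : ℝ)) - 1 / (2 * ((2 * (s + 1) + 1 : ℕ) : ℝ)) : ℝ) : ℂ)))) := by
    intro s
    unfold phase
    rw [← Complex.exp_sub]
    have h1 : ((2 * s + 1 : ℕ) : ℂ) ≠ 0 := by exact_mod_cast (by omega : 2 * s + 1 ≠ 0)
    have h2 : ((2 * (s + 1) + 1 : ℕ) : ℂ) ≠ 0 := by
      exact_mod_cast (by omega : 2 * (s + 1) + 1 ≠ 0)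
    have h3 : Complex.exp (-(2 * Real.pi * Complex.I * (V : ℂ))) = 1 := by
      rw [show -(2 * Real.pi * Complex.I * (V : ℂ)) = ((-V : ℤ) : ℂ) * (2 * Real.pi * Complex.I) by
        push_cast; ring]
      exact Complex.exp_int_mul_two_pi_mul_I _
    have h4 : -(2 * (Real.pi : ℂ) * Complex.I * ((V + V : ℤ) : ℂ) *
          (((s + 1 : ℕ) : ℂ) * (((s + 1 : ℕ) : ℂ) + 1)) / ((2 * (s + 1) + 1 : ℕ) : ℂ)) -
        -(2 * (Real.pi : ℂ) * Complex.I * ((V + V : ℤ) : ℂ) * ((s : ℂ) * ((s : ℂ) + 1)) /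
          ((2 * s + 1 : ℕ) : ℂ)) = -(2 * Real.pi * Complex.I * (V : ℂ) *
        (((1 / (2 * ((2 * s + 1 : ℕ) : ℝ)) - 1 / (2 * ((2 * (s + 1) + 1 : ℕ) : ℝ)) : ℝ) : ℂ))) +
        -(2 * Real.pi * Complex.I * (V : ℂ)) := by
      push_cast at h1 h2 ⊢
      field_simp
      ring
    rw [h4, Complex.exp_add, h3, mul_one]
  simp only [e]
  have h1 : Filter.Tendsto (fun s : ℕ => (1 / (2 * ((2 * s + 1 : ℕ) : ℝ)) -
      1 / (2 * ((2 * (s + 1) + 1 : ℕ) : ℝ)) : ℝ)) Filter.atTop (nhds 0) := by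
    have h2 : Filter.Tendsto (fun s : ℕ => (1 / (2 * ((2 * s + 1 : ℕ) : ℝ)) : ℝ))
        Filter.atTop (nhds 0) := by
      apply Filter.Tendsto.div_atTop tendsto_const_nhds
      apply Filter.Tendsto.const_mul_atTop (by norm_num)
      apply tendsto_natCast_atTop_atTop.comp
      apply Filter.tendsto_atTop_mono (f := fun s : ℕ => s) (fun s => by omega) Filter.tendsto_id
    have h3 : Filter.Tendsto (fun s : ℕ => (1 / (2 * ((2 * (s + 1) + 1 : ℕ) : ℝ)) : ℝ))
        Filter.atTop (nhds 0) := h2.comp (Filter.tendsto_add_atTop_nat 1)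
    simpa using h2.sub h3
  have h4 : Filter.Tendsto (fun s : ℕ => (-(2 * Real.pi * Complex.I * (V : ℂ) *
        (((1 / (2 * ((2 * s + 1 : ℕ) : ℝ)) - 1 / (2 * ((2 * (s + 1) + 1 : ℕ) : ℝ)) : ℝ) : ℂ)))))
      Filter.atTop (nhds (-(2 * Real.pi * Complex.I * (V : ℂ) * ((0 : ℝ) : ℂ)))) :=
    (((Complex.continuous_ofReal.tendsto 0).comp h1).const_mul _).neg
  have h5 := (Complex.continuous_exp.tendsto _).comp h4
  rw [Complex.ofReal_zero, mul_zero, neg_zero, Complex.exp_zero] at h5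
  exact h5

end Pool.Agent.Work.MP_b30479_gt.DT
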