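import Pool.Agent.Work.MP_b30479_gt.DT.El

/-!
# Continuity of `Lr` and `H`
-/

namespace Pool.Agent.Work.MP_b30479_gt.DT

open Finset TB AX

namespace LrCont

theorem measurable_el_cont (ρ : ℝ) : Measurable (el ρ) := by
  unfold el
  fun_prop

theorem ae_sin_ne : ∀ᵐ v : ℝ, Real.sin (Real.pi * v) ≠ 0 := by
  have h1 : (Set.range fun k : ℤ => (k : ℝ)).Countable := Set.countable_range _
  have h2 : MeasureTheory.volume (Set.range fun k : ℤ => (k : ℝ)) = 0 := h1.measure_zero _
  rw [MeasureTheory.ae_iff]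
  refine MeasureTheory.measure_mono_null ?_ h2
  intro v hv
  simp only [ne_eq, not_not, Set.mem_ofPred_eq] at hv
  rw [Real.sin_eq_zero_iff] at hv
  obtain ⟨k, hk⟩ := hv
  refine ⟨k, ?_⟩
  have hpi := Real.pi_ne_zero
  have : Real.pi * (k - v) = 0 := by linarith only [hk]
  rcases mul_eq_zero.mp this with h | h
  · exact absurd h hpi
  · simp only
    linarith only [h]

/-- the upper bound of `el` for heights up to `B` -/
noncomputable def bb (B : ℝ) : ℝ := Real.log (2 * Real.cosh (2 * Real.pi * B) + 2) / 2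

theorem bb_nonneg (B : ℝ) : 0 ≤ bb B := by
  unfold bb
  have h := Real.one_le_cosh (2 * Real.pi * B)
  have := Real.log_nonneg (show (1 : ℝ) ≤ 2 * Real.cosh (2 * Real.pi * B) + 2 by linarith only [h])
  linarith only [this]

theorem abs_el_le {B ρ v : ℝ} (hρ : |ρ| ≤ B) (hv : Real.sin (Real.pi * v) ≠ 0) :
    ‖el ρ v‖ ≤ |el 0 v| + bb B := by
  have h1 : el ρ v = el |ρ| v := by
    rcases abs_choice ρ with h | h
    · rw [h]
    · rw [h, el_neg_left]
  rw [h1]
  have h2 : el 0 v ≤ el |ρ| v := el_mono le_rfl (abs_nonneg ρ) fun _ => hv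
  have h3 : el |ρ| v ≤ bb B := by
    unfold el bb
    have h4 := el_arg_pos' (ρ := |ρ|) (v := v) fun _ => hv
    have h5 : Real.cosh (2 * Real.pi * |ρ|) ≤ Real.cosh (2 * Real.pi * B) := by
      rw [Real.cosh_le_cosh, abs_mul, abs_mul (2 * Real.pi) B, abs_abs]
      exact mul_le_mul_of_nonneg_left (hρ.trans (le_abs_self B)) (abs_nonneg _)
    have h6 := Real.neg_one_le_cos (2 * Real.pi * v)
    have := Real.log_le_log h4 (show 2 * Real.cosh (2 * Real.pi * |ρ|) -
      2 * Real.cos (2 * Real.pi * v) ≤ 2 * Real.cosh (2 * Real.pi * B) + 2 by linarith only [h5, h6])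
    linarith only [this]
  rw [Real.norm_eq_abs, abs_le]
  have h4 := neg_abs_le (el 0 v)
  have h5 := abs_nonneg (el 0 v)
  have h6 := bb_nonneg B
  constructor <;> linarith only [h2, h4, h6, h3, h5]

theorem bound_intble (B a b : ℝ) :
    IntervalIntegrable (fun v => |el 0 v| + bb B) MeasureTheory.volume a b :=
  (el_intble 0 a b).abs.add (continuous_const.intervalIntegrable _ _)

theorem continuousAt_el_left {ρ v : ℝ} (hv : Real.sin (Real.pi * v) ≠ 0) :
    ContinuousAt (fun ρ => el ρ v) ρ := by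
  unfold el
  refine ContinuousAt.div_const (ContinuousAt.log (by fun_prop) ?_) 2
  exact (el_arg_pos' (ρ := ρ) (v := v) fun _ => hv).ne'

theorem continuous_Lr_left (x : ℝ) : Continuous fun ρ => Lr ρ x := by
  rw [continuous_iff_continuousAt]
  intro ρ
  unfold Lr
  refine intervalIntegral.continuousAt_of_dominated_interval
    (bound := fun v => |el 0 v| + bb (|ρ| + 1))
    (Filter.Eventually.of_forall fun r => (measurable_el_cont r).aestronglyMeasurable) ?_
    (bound_intble _ _ _) ?_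
  · have h1 : ∀ᶠ r in nhds ρ, |r| < |ρ| + 1 :=
      (continuous_abs.tendsto ρ).eventually_lt_const (by linarith only [])
    filter_upwards [h1] with r hr
    filter_upwards [ae_sin_ne] with v hv _
    exact abs_el_le hr.le hv
  · filter_upwards [ae_sin_ne] with v hv _
    exact continuousAt_el_left hv

theorem tail_tendsto (p : ℝ × ℝ) :
    Filter.Tendsto (fun q : ℝ × ℝ => ∫ v in p.2..q.2, el q.1 v) (nhds p) (nhds 0) := by
  have h1 : ∀ᶠ q : ℝ × ℝ in nhds p, |q.1| < |p.1| + 1 :=
    ((continuous_abs.comp continuous_fst).tendsto p).eventually_lt_const (by simp)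
  have h2 : Filter.Tendsto (fun q : ℝ × ℝ => |∫ v in p.2..q.2, (|el 0 v| + bb (|p.1| + 1))|)
      (nhds p) (nhds 0) := by
    have h3 := (intervalIntegral.continuous_primitive
      (fun a b => bound_intble (|p.1| + 1) a b) p.2)
    have h4 := (h3.comp continuous_snd).abs.tendsto p
    simpa using h4
  refine squeeze_zero_norm' ?_ h2
  filter_upwards [h1] with q hq
  refine intervalIntegral.norm_integral_le_abs_of_norm_le ?_ (bound_intble _ _ _)
  exact MeasureTheory.ae_restrict_of_ae (by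
    filter_upwards [ae_sin_ne] with v hv
    exact abs_el_le hq.le hv)

end LrCont

open LrCont

theorem continuous_Lr : Continuous fun p : ℝ × ℝ => Lr p.1 p.2 := by
  rw [continuous_iff_continuousAt]
  intro p
  have h1 : (fun q : ℝ × ℝ => Lr q.1 q.2) =
      fun q : ℝ × ℝ => Lr q.1 p.2 + ∫ v in p.2..q.2, el q.1 v := by
    funext q
    rw [← Lr_sub]
    ring
  have h2 : Filter.Tendsto (fun q : ℝ × ℝ => Lr q.1 p.2) (nhds p) (nhds (Lr p.1 p.2)) :=
    ((continuous_Lr_left p.2).comp continuous_fst).tendsto p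
  have h3 := h2.add (tail_tendsto p)
  rw [add_zero] at h3
  unfold ContinuousAt
  rw [h1]
  simpa using h3

theorem continuous_H (a : ℕ) : Continuous fun p : ℝ × ℝ × ℝ => H a p.1 p.2.1 p.2.2 := by
  unfold H
  have h1 : Continuous fun p : ℝ × ℝ × ℝ => Lr 0 (1 / 2 + p.1) :=
    continuous_Lr.comp (f := fun p : ℝ × ℝ × ℝ => ((0 : ℝ), 1 / 2 + p.1)) (by fun_prop)
  have h2 : Continuous fun p : ℝ × ℝ × ℝ => Lr p.2.2 (p.1 + p.2.1) :=
    continuous_Lr.comp (f := fun p : ℝ × ℝ × ℝ => (p.2.2, p.1 + p.2.1)) (by fun_prop)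
  have h3 : Continuous fun p : ℝ × ℝ × ℝ => Lr p.2.2 (p.1 - p.2.1) :=
    continuous_Lr.comp (f := fun p : ℝ × ℝ × ℝ => (p.2.2, p.1 - p.2.1)) (by fun_prop)
  fun_prop

end Pool.Agent.Work.MP_b30479_gt.DT
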