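import Pool.Agent.Work.MP_b30479_gt.DT.Crit
import Pool.Agent.Work.MP_b30479_gt.DT.LrCont
import Pool.Agent.Work.MP_b30479_gt.DT.Stmt

/-!
# The critical value as a sum of values of the Bloch-Wigner dilogarithm
-/

namespace Pool.Agent.Work.MP_b30479_gt.DT

open Finset TB AX

/-- the nome as a function of `x` -/
private noncomputable def qb (ρ x : ℝ) : ℂ :=
  Complex.exp (2 * Real.pi * Complex.I * (x + ρ * Complex.I))

private lemma norm_qb (ρ x : ℝ) : ‖qb ρ x‖ = Real.exp (-(2 * Real.pi * ρ)) := by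
  unfold qb
  rw [Complex.norm_exp]
  congr 1
  simp [Complex.mul_re, Complex.mul_im]

private lemma norm_qb_lt {ρ : ℝ} (hρ : 0 < ρ) (x : ℝ) : ‖qb ρ x‖ < 1 := by
  rw [norm_qb, Real.exp_lt_one_iff]
  have := Real.pi_pos
  nlinarith only [this, hρ, mul_pos this hρ]

private lemma norm_qb_le {ρ : ℝ} (hρ : 0 ≤ ρ) (x : ℝ) : ‖qb ρ x‖ ≤ 1 := by
  rw [norm_qb, Real.exp_le_one_iff]
  have := Real.pi_pos
  nlinarith only [this, hρ, mul_nonneg this.le hρ]

private lemma hasDerivAt_qq (ρ x : ℝ) :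
    HasDerivAt (fun x : ℝ => qb ρ x) (qb ρ x * (2 * Real.pi * Complex.I)) x := by
  unfold qb
  have h1 : HasDerivAt (fun x : ℝ => 2 * Real.pi * Complex.I * ((x : ℂ) + ρ * Complex.I))
      (2 * Real.pi * Complex.I * 1) x :=
    ((Complex.ofRealCLM.hasDerivAt (x := x)).add_const (ρ * Complex.I)).const_mul _
  simpa using h1.cexp

private lemma summable_inv : Summable fun k : ℕ => (1 : ℝ) / ((k : ℝ) + 1) ^ 2 := by
  have := (summable_nat_add_iff 1).2 (Real.summable_one_div_nat_pow.2 one_lt_two)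
  simpa using this

private lemma norm_term_le {z : ℂ} (hz : ‖z‖ ≤ 1) (k : ℕ) :
    ‖z ^ (k + 1) / ((k : ℂ) + 1) ^ 2‖ ≤ 1 / ((k : ℝ) + 1) ^ 2 := by
  rw [norm_div, norm_pow, norm_pow]
  have : ‖(k : ℂ) + 1‖ = (k : ℝ) + 1 := by
    have := Complex.norm_natCast (k + 1)
    push_cast at this
    exact this
  rw [this]
  gcongr
  exact pow_le_one₀ (norm_nonneg _) hz

private lemma summable_dl {z : ℂ} (hz : ‖z‖ ≤ 1) :
    Summable fun k : ℕ => z ^ (k + 1) / ((k : ℂ) + 1) ^ 2 :=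
  Summable.of_norm_bounded summable_inv (norm_term_le hz)

private lemma tsum_log {z : ℂ} (hz : ‖z‖ < 1) :
    ∑' k : ℕ, z ^ (k + 1) / ((k : ℂ) + 1) = -Complex.log (1 - z) := by
  have h := Complex.hasSum_taylorSeries_neg_log hz
  have h2 := (hasSum_nat_add_iff' 1).2 h
  simp only [sum_range_one, CharP.cast_eq_zero, div_zero, sub_zero, Nat.cast_add,
    Nat.cast_one] at h2
  exact h2.tsum_eq

private lemma hasDerivAt_dl {ρ : ℝ} (hρ : 0 < ρ) (x : ℝ) :
    HasDerivAt (fun x : ℝ => ∑' k : ℕ, qb ρ x ^ (k + 1) / ((k : ℂ) + 1) ^ 2)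
      (-(2 * Real.pi * Complex.I) * Complex.log (1 - qb ρ x)) x := by
  have hs : Summable fun k : ℕ => 2 * Real.pi * Real.exp (-(2 * Real.pi * ρ)) ^ (k + 1) := by
    apply Summable.mul_left
    have : Real.exp (-(2 * Real.pi * ρ)) < 1 := by
      have := norm_qb_lt hρ x
      rwa [norm_qb] at this
    exact (summable_nat_add_iff 1).2
      (summable_geometric_of_lt_one (Real.exp_pos _).le this)
  have hd : ∀ (k : ℕ) (y : ℝ), HasDerivAt (fun y : ℝ => qb ρ y ^ (k + 1) / ((k : ℂ) + 1) ^ 2)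
      ((2 * Real.pi * Complex.I) * (qb ρ y ^ (k + 1) / ((k : ℂ) + 1))) y := by
    intro k y
    have h1 := ((hasDerivAt_qq ρ y).pow (k + 1)).div_const (((k : ℂ) + 1) ^ 2)
    refine h1.congr_deriv ?_
    have hk : ((k : ℂ) + 1) ≠ 0 := by exact_mod_cast Nat.succ_ne_zero k
    simp only [Nat.add_sub_cancel, Nat.cast_add, Nat.cast_one]
    field_simp
    ring
  have hb : ∀ (k : ℕ) (y : ℝ), ‖(2 * Real.pi * Complex.I) * (qb ρ y ^ (k + 1) / ((k : ℂ) + 1))‖ ≤
      2 * Real.pi * Real.exp (-(2 * Real.pi * ρ)) ^ (k + 1) := by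
    intro k y
    have hk : ‖(k : ℂ) + 1‖ = (k : ℝ) + 1 := by
      have := Complex.norm_natCast (k + 1)
      push_cast at this
      exact this
    rw [norm_mul, norm_div, norm_pow, norm_qb, hk]
    have e : ‖(2 * Real.pi * Complex.I : ℂ)‖ = 2 * Real.pi := by
      simp [abs_of_pos Real.pi_pos]
    rw [e]
    have hp := Real.pi_pos
    have h3 : (0 : ℝ) < Real.exp (-(2 * Real.pi * ρ)) ^ (k + 1) := by positivity
    have h4 : (1 : ℝ) ≤ (k : ℝ) + 1 := by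
      have : (0 : ℝ) ≤ k := Nat.cast_nonneg k
      linarith only []
    have := div_le_self h3.le h4
    gcongr
  have h := hasDerivAt_tsum hs hd hb (y₀ := x) (summable_dl (norm_qb_lt hρ x).le) x
  refine h.congr_deriv ?_
  rw [tsum_mul_left, tsum_log (norm_qb_lt hρ x)]
  ring

private lemma Lr_series_pos {ρ : ℝ} (hρ : 0 < ρ) (x : ℝ) : Lr ρ x = Real.pi * ρ * x -
    (∑' k : ℕ, qb ρ x ^ (k + 1) / ((k : ℂ) + 1) ^ 2).im / (2 * Real.pi) := by
  have hd : ∀ x : ℝ, HasDerivAt (fun x : ℝ => Lr ρ x - (Real.pi * ρ * x -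
      (∑' k : ℕ, qb ρ x ^ (k + 1) / ((k : ℂ) + 1) ^ 2).im / (2 * Real.pi))) 0 x := by
    intro x
    have h1 := hasDerivAt_Lr (x := x) hρ
    have h2 : HasDerivAt (fun x : ℝ => (∑' k : ℕ, qb ρ x ^ (k + 1) / ((k : ℂ) + 1) ^ 2).im)
        (-(2 * Real.pi * Complex.I) * Complex.log (1 - qb ρ x)).im x := by
      exact Complex.imCLM.hasFDerivAt.comp_hasDerivAt x (hasDerivAt_dl hρ x)
    have h3 := ((hasDerivAt_id x).const_mul (Real.pi * ρ)).sub (h2.div_const (2 * Real.pi))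
    refine (h1.sub h3).congr_deriv ?_
    rw [el_eq_exp hρ.ne']
    have e1 : (-(2 * Real.pi * Complex.I) * Complex.log (1 - qb ρ x)).im =
        -(2 * Real.pi) * Real.log ‖1 - qb ρ x‖ := by
      rw [← Complex.log_re]
      simp [Complex.mul_im, Complex.mul_re]
    rw [e1]
    have hp := Real.pi_pos
    unfold qb
    field_simp
    ring
  have hc := is_const_of_deriv_eq_zero (fun x => (hd x).differentiableAt)
    (fun x => (hd x).deriv) x 0
  simp only [Lr_zero_right, mul_zero, zero_sub] at hc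
  have h0 : (∑' k : ℕ, qb ρ 0 ^ (k + 1) / ((k : ℂ) + 1) ^ 2).im = 0 := by
    have e : ∀ k : ℕ, qb ρ 0 ^ (k + 1) / ((k : ℂ) + 1) ^ 2 =
        ((Real.exp (-(2 * Real.pi * ρ)) ^ (k + 1) / ((k : ℝ) + 1) ^ 2 : ℝ) : ℂ) := by
      intro k
      have : qb ρ 0 = ((Real.exp (-(2 * Real.pi * ρ)) : ℝ) : ℂ) := by
        unfold qb
        rw [Complex.ofReal_exp]
        congr 1
        push_cast
        ring_nf
        rw [Complex.I_sq]
        ring
      rw [this]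
      push_cast
      ring
    simp_rw [e]
    rw [← Complex.ofReal_tsum, Complex.ofReal_im]
  rw [h0, zero_div, neg_zero, neg_zero] at hc
  linarith only [hc, hc]

theorem Lr_series {ρ : ℝ} (hρ : 0 ≤ ρ) (x : ℝ) : Lr ρ x = Real.pi * ρ * x -
    (∑' k : ℕ, Complex.exp (2 * Real.pi * Complex.I * (x + ρ * Complex.I)) ^ (k + 1) /
      ((k : ℂ) + 1) ^ 2).im / (2 * Real.pi) := by
  rcases hρ.eq_or_lt with h0 | h0
  · subst h0
    -- continuity at `0`
    have c1 : Filter.Tendsto (fun ρ : ℝ => Lr ρ x) (nhdsWithin 0 (Set.Ioi 0)) (nhds (Lr 0 x)) := by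
      have : Continuous fun ρ : ℝ => Lr ρ x :=
        continuous_Lr.comp (continuous_id.prodMk continuous_const)
      exact (this.tendsto 0).mono_left nhdsWithin_le_nhds
    have c2 : ContinuousOn (fun ρ : ℝ => Real.pi * ρ * x -
        (∑' k : ℕ, qb ρ x ^ (k + 1) / ((k : ℂ) + 1) ^ 2).im / (2 * Real.pi)) (Set.Ici 0) := by
      have c3 : ContinuousOn (fun ρ : ℝ => ∑' k : ℕ, qb ρ x ^ (k + 1) / ((k : ℂ) + 1) ^ 2)
          (Set.Ici 0) := by
        refine continuousOn_tsum (u := fun k : ℕ => (1 : ℝ) / ((k : ℝ) + 1) ^ 2) ?_ summable_inv ?_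
        · intro k
          apply Continuous.continuousOn
          unfold qb
          fun_prop
        · intro k ρ hρ
          exact norm_term_le (norm_qb_le hρ x) k
      apply ContinuousOn.sub
      · fun_prop
      · exact (Complex.continuous_im.comp_continuousOn c3).div_const _
    have c4 := (c2 0 Set.self_mem_Ici).mono_left
      (nhdsWithin_mono (0 : ℝ) (Set.Ioi_subset_Ici_self (a := (0 : ℝ))))
    have c5 : Filter.Tendsto (fun ρ : ℝ => Lr ρ x) (nhdsWithin 0 (Set.Ioi 0))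
        (nhds (Real.pi * 0 * x -
        (∑' k : ℕ, qb 0 x ^ (k + 1) / ((k : ℂ) + 1) ^ 2).im / (2 * Real.pi))) := by
      refine c4.congr' ?_
      filter_upwards [self_mem_nhdsWithin] with ρ hρ
      exact (Lr_series_pos hρ x).symm
    exact tendsto_nhds_unique c1 c5
  · exact Lr_series_pos h0 x

theorem vol_BW {a : ℕ} {η₀ ς₀ ρ₀ : ℝ} (h : IsSad a η₀ ς₀ ρ₀) :
    4 * Real.pi * H a η₀ ς₀ ρ₀ =
      4 * BWd (-Complex.exp (-(2 * Real.pi * Complex.I * η₀))) +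
      2 * BWd (Complex.exp (2 * Real.pi * Complex.I * ((ς₀ + ρ₀ * Complex.I) + η₀))) +
      2 * BWd (Complex.exp (2 * Real.pi * Complex.I * (η₀ - (ς₀ - ρ₀ * Complex.I)))) := by
  have hρ := h.ρpos
  have hp := Real.pi_pos
  obtain ⟨-, -, e3⟩ := crit_real h
  -- the three arguments
  have q1 : Complex.exp (2 * Real.pi * Complex.I * ((ς₀ + ρ₀ * Complex.I) + η₀)) =
      qb ρ₀ (η₀ + ς₀) := by
    unfold qb
    congr 1
    push_cast
    ring
  have q2 : Complex.exp (2 * Real.pi * Complex.I * (η₀ - (ς₀ - ρ₀ * Complex.I))) =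
      qb ρ₀ (η₀ - ς₀) := by
    unfold qb
    congr 1
    push_cast
    ring
  have q0 : -Complex.exp (-(2 * Real.pi * Complex.I * η₀)) =
      (starRingEnd ℂ) (qb 0 (1 / 2 + η₀)) := by
    unfold qb
    rw [← Complex.exp_conj]
    have e : (starRingEnd ℂ) (2 * Real.pi * Complex.I * (((1 / 2 + η₀ : ℝ) : ℂ) +
        ((0 : ℝ) : ℂ) * Complex.I)) = -(2 * Real.pi * Complex.I * η₀) - Real.pi * Complex.I := by
      simp only [map_mul, map_add, Complex.conj_ofReal, Complex.conj_I, map_ofNat]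
      push_cast
      ring
    rw [e, Complex.exp_sub, Complex.exp_pi_mul_I]
    ring
  rw [q0, q1, q2]
  unfold H
  rw [Lr_series le_rfl (1 / 2 + η₀), Lr_series hρ.le (η₀ + ς₀), Lr_series hρ.le (η₀ - ς₀)]
  have f : ∀ ρ x : ℝ, Complex.exp (2 * Real.pi * Complex.I * (x + ρ * Complex.I)) = qb ρ x :=
    fun _ _ => rfl
  rw [f, f, f]
  unfold BWd
  have n0 : ‖(starRingEnd ℂ) (qb 0 (1 / 2 + η₀))‖ = 1 := by
    rw [RCLike.norm_conj, norm_qb]
    simp
  have n1 : Real.log ‖qb ρ₀ (η₀ + ς₀)‖ = -(2 * Real.pi * ρ₀) := by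
    rw [norm_qb, Real.log_exp]
  have n2 : Real.log ‖qb ρ₀ (η₀ - ς₀)‖ = -(2 * Real.pi * ρ₀) := by
    rw [norm_qb, Real.log_exp]
  rw [n0, n1, n2, Real.log_one]
  have s0 : (∑' k : ℕ, (starRingEnd ℂ) (qb 0 (1 / 2 + η₀)) ^ (k + 1) / ((k : ℂ) + 1) ^ 2) =
      (starRingEnd ℂ) (∑' k : ℕ, qb 0 (1 / 2 + η₀) ^ (k + 1) / ((k : ℂ) + 1) ^ 2) := by
    rw [Complex.conj_tsum]
    congr 1
    ext k
    simp
  rw [s0, Complex.conj_im]
  unfold Tr at e3
  rw [f, f] at e3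
  set A1 := (1 - qb ρ₀ (η₀ + ς₀)).arg
  set A2 := (1 - qb ρ₀ (η₀ - ς₀)).arg
  set S0 := (∑' k : ℕ, qb 0 (1 / 2 + η₀) ^ (k + 1) / ((k : ℂ) + 1) ^ 2).im
  set S1 := (∑' k : ℕ, qb ρ₀ (η₀ + ς₀) ^ (k + 1) / ((k : ℂ) + 1) ^ 2).im
  set S2 := (∑' k : ℕ, qb ρ₀ (η₀ - ς₀) ^ (k + 1) / ((k : ℂ) + 1) ^ 2).im
  have e4 : A1 + A2 = Real.pi * (2 * η₀) + Real.pi * (1 + 2 * a * ς₀) := by linarith only [e3]
  have hA : A2 = Real.pi * (2 * η₀) + Real.pi * (1 + 2 * a * ς₀) - A1 := by linarith only [e3]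
  rw [hA]
  field_simp
  ring

end Pool.Agent.Work.MP_b30479_gt.DT
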