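import Pool.Agent.Work.MP_b30479_gt.DT.LrDer
import Pool.Agent.Work.MP_b30479_gt.DT.LrCont

/-!
# Concavity in `(η, ς)`
-/

namespace Pool.Agent.Work.MP_b30479_gt.DT

open Finset TB AX

theorem convex_KK : Convex ℝ KK := by
  rintro ⟨x1, x2⟩ hx ⟨y1, y2⟩ hy s t hs ht hst
  simp only [KK, Set.mem_ofPred_eq, abs_le] at hx hy ⊢
  simp only [Prod.smul_mk, smul_eq_mul, Prod.mk_add_mk]
  obtain ⟨a1, a2, ⟨a3, a4⟩, a5, a6⟩ := hx
  obtain ⟨b1, b2, ⟨b3, b4⟩, b5, b6⟩ := hy
  have e : t = 1 - s := by linarith only [hst]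
  subst e
  refine ⟨by positivity, ?_, ⟨?_, ?_⟩, ?_, ?_⟩ <;> nlinarith only [hs, a2, b2, ht, a3, b3, a4, b4, a5, b5, a6, b6]

theorem isCompact_KK : IsCompact KK := by
  have hc : IsClosed KK := by
    have : KK = {p : ℝ × ℝ | 0 ≤ p.1} ∩ {p | p.1 ≤ 1 / 2} ∩ {p | |p.2| ≤ p.1} ∩
        {p | |p.2| ≤ 1 / 4} := by
      ext p; simp only [KK, Set.mem_ofPred_eq, Set.mem_inter_iff]; tauto
    rw [this]
    refine (((isClosed_le continuous_const continuous_fst).inter
      (isClosed_le continuous_fst continuous_const)).inter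
      (isClosed_le (continuous_abs.comp continuous_snd) continuous_fst)).inter
      (isClosed_le (continuous_abs.comp continuous_snd) continuous_const)
  refine (isCompact_Icc.prod isCompact_Icc : IsCompact
    (Set.Icc (0 : ℝ) (1 / 2) ×ˢ Set.Icc (-(1 / 4) : ℝ) (1 / 4))).of_isClosed_subset hc ?_
  rintro ⟨x, y⟩ ⟨h1, h2, _, h4⟩
  exact ⟨⟨h1, h2⟩, (abs_le.1 h4).1, (abs_le.1 h4).2⟩

theorem den_pos {ρ : ℝ} (hρ : 0 < ρ) (v : ℝ) :
    0 < Real.cosh (2 * Real.pi * ρ) - Real.cos (2 * Real.pi * v) := by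
  have h1 : 1 < Real.cosh (2 * Real.pi * ρ) := Real.one_lt_cosh.2 (by positivity)
  have h2 := Real.cos_le_one (2 * Real.pi * v)
  linarith only [h1, h2]

/-- closed form of `P + Q` -/
theorem rr_add_eq {η ς ρ : ℝ} (hρ : 0 < ρ) :
    rr ρ (η + ς) + rr ρ (η - ς) =
      2 * Real.sin (2 * Real.pi * η) *
        (Real.cosh (2 * Real.pi * ρ) * Real.cos (2 * Real.pi * ς) - Real.cos (2 * Real.pi * η)) /
      ((Real.cosh (2 * Real.pi * ρ) - Real.cos (2 * Real.pi * (η + ς))) *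
        (Real.cosh (2 * Real.pi * ρ) - Real.cos (2 * Real.pi * (η - ς)))) := by
  have d1 := den_pos hρ (η + ς)
  have d2 := den_pos hρ (η - ς)
  have e1 : 2 * Real.pi * (η + ς) = 2 * Real.pi * η + 2 * Real.pi * ς := by ring
  have e2 : 2 * Real.pi * (η - ς) = 2 * Real.pi * η - 2 * Real.pi * ς := by ring
  unfold rr
  rw [div_add_div _ _ d1.ne' d2.ne', div_left_inj' (mul_pos d1 d2).ne', e1, e2,
    Real.sin_add, Real.sin_sub, Real.cos_add, Real.cos_sub]
  have h := Real.sin_sq_add_cos_sq (2 * Real.pi * ς)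
  linear_combination (-2 * Real.sin (2 * Real.pi * η) * Real.cos (2 * Real.pi * η)) * h

/-- closed form of `P Q + tan (πη) / 2 (P + Q)` -/
theorem rr_det_eq {η ς ρ : ℝ} (hη : Real.cos (Real.pi * η) ≠ 0) (hρ : 0 < ρ) :
    rr ρ (η + ς) * rr ρ (η - ς) +
      Real.tan (Real.pi * η) / 2 * (rr ρ (η + ς) + rr ρ (η - ς)) =
      (Real.cos (2 * Real.pi * ς) ^ 2 + Real.cosh (2 * Real.pi * ρ) * Real.cos (2 * Real.pi * ς) *
        (1 - Real.cos (2 * Real.pi * η)) - Real.cos (2 * Real.pi * η)) /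
      ((Real.cosh (2 * Real.pi * ρ) - Real.cos (2 * Real.pi * (η + ς))) *
        (Real.cosh (2 * Real.pi * ρ) - Real.cos (2 * Real.pi * (η - ς)))) := by
  have d1 := den_pos hρ (η + ς)
  have d2 := den_pos hρ (η - ς)
  have e1 : 2 * Real.pi * (η + ς) = 2 * Real.pi * η + 2 * Real.pi * ς := by ring
  have e2 : 2 * Real.pi * (η - ς) = 2 * Real.pi * η - 2 * Real.pi * ς := by ring
  have hm : rr ρ (η + ς) * rr ρ (η - ς) =
      (Real.cos (2 * Real.pi * ς) ^ 2 - Real.cos (2 * Real.pi * η) ^ 2) /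
      ((Real.cosh (2 * Real.pi * ρ) - Real.cos (2 * Real.pi * (η + ς))) *
        (Real.cosh (2 * Real.pi * ρ) - Real.cos (2 * Real.pi * (η - ς)))) := by
    unfold rr
    rw [div_mul_div_comm, div_left_inj' (mul_pos d1 d2).ne', e1, e2, Real.sin_add, Real.sin_sub]
    have h := Real.sin_sq_add_cos_sq (2 * Real.pi * ς)
    have h' := Real.sin_sq_add_cos_sq (2 * Real.pi * η)
    linear_combination (-Real.cos (2 * Real.pi * η) ^ 2) * h +
      Real.cos (2 * Real.pi * ς) ^ 2 * h'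
  have ht : Real.tan (Real.pi * η) * Real.sin (2 * Real.pi * η) =
      1 - Real.cos (2 * Real.pi * η) := by
    have e3 : 2 * Real.pi * η = 2 * (Real.pi * η) := by ring
    rw [Real.tan_eq_sin_div_cos, e3, Real.sin_two_mul, Real.cos_two_mul]
    have h := Real.sin_sq_add_cos_sq (Real.pi * η)
    field_simp
    linear_combination (2 : ℝ) * h
  rw [hm, rr_add_eq hρ, ← mul_div_assoc, ← add_div, div_left_inj' (mul_pos d1 d2).ne']
  linear_combination (Real.cosh (2 * Real.pi * ρ) * Real.cos (2 * Real.pi * ς) -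
    Real.cos (2 * Real.pi * η)) * ht

theorem cos_sig_nonneg {ς : ℝ} (h : |ς| ≤ 1 / 4) : 0 ≤ Real.cos (2 * Real.pi * ς) := by
  obtain ⟨h1, h2⟩ := abs_le.1 h
  have := Real.pi_pos
  apply Real.cos_nonneg_of_neg_pi_div_two_le_of_le <;> nlinarith only [h1, this, h2]

theorem cos_sig_pos {ς : ℝ} (h : |ς| < 1 / 4) : 0 < Real.cos (2 * Real.pi * ς) := by
  obtain ⟨h1, h2⟩ := abs_lt.1 h
  have := Real.pi_pos
  apply Real.cos_pos_of_mem_Ioo
  constructor <;> nlinarith only [h1, this, h2]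

theorem cos_le_cos_sig {η ς : ℝ} (h1 : η ≤ 1 / 2) (h2 : |ς| ≤ η) :
    Real.cos (2 * Real.pi * η) ≤ Real.cos (2 * Real.pi * ς) := by
  have := Real.pi_pos
  have e : Real.cos (2 * Real.pi * ς) = Real.cos (2 * Real.pi * |ς|) := by
    rw [← Real.cos_abs (2 * Real.pi * ς), abs_mul, abs_of_pos (by positivity : 0 < 2 * Real.pi)]
  rw [e]
  apply Real.cos_le_cos_of_nonneg_of_le_pi
  · positivity
  · nlinarith only [h1, this]
  · gcongr

theorem sin_eta_nonneg {η : ℝ} (h0 : 0 ≤ η) (h1 : η ≤ 1 / 2) :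
    0 ≤ Real.sin (2 * Real.pi * η) := by
  have := Real.pi_pos
  apply Real.sin_nonneg_of_nonneg_of_le_pi
  · positivity
  · nlinarith only [h1, this]

theorem sin_eta_pos {η : ℝ} (h0 : 0 < η) (h1 : η < 1 / 2) :
    0 < Real.sin (2 * Real.pi * η) := by
  have := Real.pi_pos
  apply Real.sin_pos_of_pos_of_lt_pi
  · positivity
  · nlinarith only [h1, this]

theorem cos_eta_pos {η : ℝ} (h0 : 0 ≤ η) (h1 : η < 1 / 2) :
    0 < Real.cos (Real.pi * η) := by
  have := Real.pi_pos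
  apply Real.cos_pos_of_mem_Ioo
  constructor <;> nlinarith only [this, h0, h1]

/-- `P + Q ≥ 0` on `KK` -/
theorem rr_add_nonneg {η ς ρ : ℝ} (h : (η, ς) ∈ KK) (hρ : 0 < ρ) :
    0 ≤ rr ρ (η + ς) + rr ρ (η - ς) := by
  obtain ⟨h0, h1, h2, h3⟩ := h
  simp only at h0 h1 h2 h3
  rw [rr_add_eq hρ]
  have d1 := den_pos hρ (η + ς)
  have d2 := den_pos hρ (η - ς)
  have hX := cos_sig_nonneg h3
  have hZ := cos_le_cos_sig h1 h2
  have hS := sin_eta_nonneg h0 h1
  have hc : 1 < Real.cosh (2 * Real.pi * ρ) := Real.one_lt_cosh.2 (by positivity)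
  apply div_nonneg _ (mul_pos d1 d2).le
  apply mul_nonneg (by positivity)
  nlinarith only [hZ, hX, hc]

theorem rr_add_pos {η ς ρ : ℝ} (h0 : 0 < η) (h1 : η < 1 / 2) (h2 : |ς| ≤ η) (h3 : |ς| < 1 / 4)
    (hρ : 0 < ρ) : 0 < rr ρ (η + ς) + rr ρ (η - ς) := by
  rw [rr_add_eq hρ]
  have d1 := den_pos hρ (η + ς)
  have d2 := den_pos hρ (η - ς)
  have hX := cos_sig_pos h3
  have hZ := cos_le_cos_sig h1.le h2
  have hS := sin_eta_pos h0 h1
  have hc : 1 < Real.cosh (2 * Real.pi * ρ) := Real.one_lt_cosh.2 (by positivity)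
  apply div_pos _ (mul_pos d1 d2)
  apply mul_pos (by positivity)
  nlinarith only [hZ, hX, hc]

/-- the determinant condition -/
theorem rr_det_nonneg {η ς ρ : ℝ} (h : (η, ς) ∈ KK) (h1 : η < 1 / 2) (hρ : 0 < ρ) :
    0 ≤ rr ρ (η + ς) * rr ρ (η - ς) +
      Real.tan (Real.pi * η) / 2 * (rr ρ (η + ς) + rr ρ (η - ς)) := by
  obtain ⟨h0, h1', h2, h3⟩ := h
  simp only at h0 h1' h2 h3
  rw [rr_det_eq (cos_eta_pos h0 h1).ne' hρ]
  have d1 := den_pos hρ (η + ς)
  have d2 := den_pos hρ (η - ς)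
  have hX := cos_sig_nonneg h3
  have hZ := cos_le_cos_sig h1.le h2
  have hZ1 := Real.cos_le_one (2 * Real.pi * η)
  have hc : 1 < Real.cosh (2 * Real.pi * ρ) := Real.one_lt_cosh.2 (by positivity)
  apply div_nonneg _ (mul_pos d1 d2).le
  have k1 : 0 ≤ (Real.cosh (2 * Real.pi * ρ) - 1) *
      (Real.cos (2 * Real.pi * ς) * (1 - Real.cos (2 * Real.pi * η))) :=
    mul_nonneg (by linarith only [hc]) (mul_nonneg hX (by linarith only [hZ1]))
  have k2 : 0 ≤ (Real.cos (2 * Real.pi * ς) + 1) *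
      (Real.cos (2 * Real.pi * ς) - Real.cos (2 * Real.pi * η)) :=
    mul_nonneg (by linarith only [hX]) (by linarith only [hZ])
  nlinarith only [k1, k2]

theorem rr_det_pos {η ς ρ : ℝ} (h0 : 0 < η) (h1 : η < 1 / 2) (h2 : |ς| ≤ η) (h3 : |ς| < 1 / 4)
    (hρ : 0 < ρ) :
    0 < rr ρ (η + ς) * rr ρ (η - ς) +
      Real.tan (Real.pi * η) / 2 * (rr ρ (η + ς) + rr ρ (η - ς)) := by
  rw [rr_det_eq (cos_eta_pos h0.le h1).ne' hρ]
  have d1 := den_pos hρ (η + ς)
  have d2 := den_pos hρ (η - ς)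
  have hX := cos_sig_pos h3
  have hZ := cos_le_cos_sig h1.le h2
  have hZ1 : Real.cos (2 * Real.pi * η) < 1 := by
    have := Real.pi_pos
    rw [← Real.cos_zero]
    apply Real.cos_lt_cos_of_nonneg_of_le_pi le_rfl
    · nlinarith only [h1, this]
    · positivity
  have hc : 1 < Real.cosh (2 * Real.pi * ρ) := Real.one_lt_cosh.2 (by positivity)
  apply div_pos _ (mul_pos d1 d2)
  have k1 : 0 < (Real.cosh (2 * Real.pi * ρ) - 1) *
      (Real.cos (2 * Real.pi * ς) * (1 - Real.cos (2 * Real.pi * η))) :=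
    mul_pos (by linarith only [hc]) (mul_pos hX (by linarith only [hZ1]))
  have k2 : 0 ≤ (Real.cos (2 * Real.pi * ς) + 1) *
      (Real.cos (2 * Real.pi * ς) - Real.cos (2 * Real.pi * η)) :=
    mul_nonneg (by linarith only [hX]) (by linarith only [hZ])
  nlinarith only [k1, k2]

/-- a binary quadratic form with nonnegative trace and determinant is nonnegative -/
theorem quad_nonneg {A B T p q : ℝ} (h1 : 0 ≤ A + B) (h2 : T ^ 2 ≤ 4 * (A * B)) :
    0 ≤ A * p ^ 2 + B * q ^ 2 + T * p * q := by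
  rcases h1.lt_or_eq with h | h
  · have key : 0 ≤ (A + B) * (A * p ^ 2 + B * q ^ 2 + T * p * q) := by
      have e : (A + B) * (A * p ^ 2 + B * q ^ 2 + T * p * q) =
          (A * p + T * q / 2) ^ 2 + (B * q + T * p / 2) ^ 2 +
            (A * B - T ^ 2 / 4) * (p ^ 2 + q ^ 2) := by ring
      rw [e]
      have : 0 ≤ A * B - T ^ 2 / 4 := by linarith only [h2]
      positivity
    exact nonneg_of_mul_nonneg_right key h
  · have hB : B = -A := by linarith only [h1, h]
    subst hB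
    have hA : A = 0 := by nlinarith only [h2, sq_nonneg A, sq_nonneg T]
    subst hA
    have hT : T = 0 := by nlinarith only [h2, sq_nonneg T]
    subst hT
    simp

/-- the second derivative of `H` along a segment is nonpositive -/
theorem second_nonpos {η ς ρ : ℝ} (h : (η, ς) ∈ KK) (h1 : η < 1 / 2) (hρ : 0 < ρ) (α β : ℝ) :
    0 ≤ 2 * Real.tan (Real.pi * η) * α ^ 2 + rr ρ (η + ς) * (α + β) ^ 2 +
      rr ρ (η - ς) * (α - β) ^ 2 := by
  have hT : 0 ≤ Real.tan (Real.pi * η) := by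
    obtain ⟨h0, -, -, -⟩ := h
    simp only at h0
    rw [Real.tan_eq_sin_div_cos]
    have := Real.pi_pos
    apply div_nonneg _ (cos_eta_pos h0 h1).le
    apply Real.sin_nonneg_of_nonneg_of_le_pi
    · positivity
    · nlinarith only [this, h1]
  have k1 := rr_add_nonneg h hρ
  have k2 := rr_det_nonneg h h1 hρ
  set P := rr ρ (η + ς)
  set Q := rr ρ (η - ς)
  set T := Real.tan (Real.pi * η)
  have := quad_nonneg (A := P + T / 2) (B := Q + T / 2) (T := T) (p := α + β) (q := α - β)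
    (by linarith only [k1, hT]) (by nlinarith only [k2])
  nlinarith only [this]

/-- the first derivative of `H` along a segment -/
theorem hasDerivAt_H_seg (a : ℕ) {η ς ρ α β t : ℝ} (hρ : 0 < ρ)
    (hs : Real.sin (Real.pi * (1 / 2 + (η + t * α))) ≠ 0) :
    HasDerivAt (fun t => H a (η + t * α) (ς + t * β) ρ)
      (2 * (el 0 (1 / 2 + (η + t * α)) * α) -
        el ρ ((η + t * α) + (ς + t * β)) * (α + β) -
        el ρ ((η + t * α) - (ς + t * β)) * (α - β) - Real.pi * ρ * (2 * a * β)) t := by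
  have l1 : HasDerivAt (fun t : ℝ => η + t * α) α t := by
    simpa using ((hasDerivAt_id t).mul_const α).const_add η
  have l2 : HasDerivAt (fun t : ℝ => ς + t * β) β t := by
    simpa using ((hasDerivAt_id t).mul_const β).const_add ς
  have m1 := (hasDerivAt_Lr_zero hs).comp t (l1.const_add (1 / 2))
  have m2 := (hasDerivAt_Lr (ρ := ρ) (x := (η + t * α) + (ς + t * β)) hρ).comp t (l1.add l2)
  have m3 := (hasDerivAt_Lr (ρ := ρ) (x := (η + t * α) - (ς + t * β)) hρ).comp t (l1.sub l2)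
  have m4 := ((l2.const_mul (2 * (a : ℝ))).const_add 1).const_mul (Real.pi * ρ)
  exact (((m1.const_mul 2).sub m2).sub m3).sub m4

/-- the second derivative of `H` along a segment -/
theorem hasDerivAt_H_seg' (a : ℕ) {η ς ρ α β t : ℝ} (hρ : 0 < ρ)
    (hs : Real.sin (Real.pi * (1 / 2 + (η + t * α))) ≠ 0) :
    HasDerivAt (fun t => 2 * (el 0 (1 / 2 + (η + t * α)) * α) -
        el ρ ((η + t * α) + (ς + t * β)) * (α + β) -
        el ρ ((η + t * α) - (ς + t * β)) * (α - β) - Real.pi * ρ * (2 * a * β))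
      (-(Real.pi * (2 * Real.tan (Real.pi * (η + t * α)) * α ^ 2 +
        rr ρ ((η + t * α) + (ς + t * β)) * (α + β) ^ 2 +
        rr ρ ((η + t * α) - (ς + t * β)) * (α - β) ^ 2))) t := by
  have l1 : HasDerivAt (fun t : ℝ => η + t * α) α t := by
    simpa using ((hasDerivAt_id t).mul_const α).const_add η
  have l2 : HasDerivAt (fun t : ℝ => ς + t * β) β t := by
    simpa using ((hasDerivAt_id t).mul_const β).const_add ς
  have m1 := (hasDerivAt_el_zero hs).comp t (l1.const_add (1 / 2))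
  have m2 := (hasDerivAt_el (ρ := ρ) (v := (η + t * α) + (ς + t * β)) hρ).comp t (l1.add l2)
  have m3 := (hasDerivAt_el (ρ := ρ) (v := (η + t * α) - (ς + t * β)) hρ).comp t (l1.sub l2)
  have key := ((((m1.mul_const α).const_mul 2).sub (m2.mul_const (α + β))).sub
    (m3.mul_const (α - β))).sub_const (Real.pi * ρ * (2 * a * β))
  refine key.congr_deriv ?_
  have e1 : Real.pi * (1 / 2 + (η + t * α)) = Real.pi * (η + t * α) + Real.pi / 2 := by ring
  rw [e1, Real.cos_add_pi_div_two, Real.sin_add_pi_div_two, Real.tan_eq_sin_div_cos]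
  ring

/-- `H` along a segment is concave -/
theorem concaveOn_seg (a : ℕ) {η ς ρ α β : ℝ} (hρ : 0 < ρ)
    (h : ∀ t ∈ Set.Ioo (0 : ℝ) 1, (η + t * α, ς + t * β) ∈ KK ∧ η + t * α < 1 / 2) :
    ConcaveOn ℝ (Set.Icc (0 : ℝ) 1) (fun t => H a (η + t * α) (ς + t * β) ρ) := by
  have hs : ∀ t ∈ Set.Ioo (0 : ℝ) 1, Real.sin (Real.pi * (1 / 2 + (η + t * α))) ≠ 0 := by
    intro t ht
    obtain ⟨⟨h0, -, -, -⟩, h1⟩ := h t ht
    simp only at h0
    have e1 : Real.pi * (1 / 2 + (η + t * α)) = Real.pi * (η + t * α) + Real.pi / 2 := by ring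
    rw [e1, Real.sin_add_pi_div_two]
    exact (cos_eta_pos h0 h1).ne'
  have hd : ∀ t ∈ Set.Ioo (0 : ℝ) 1, deriv (fun t => H a (η + t * α) (ς + t * β) ρ) t =
      2 * (el 0 (1 / 2 + (η + t * α)) * α) -
        el ρ ((η + t * α) + (ς + t * β)) * (α + β) -
        el ρ ((η + t * α) - (ς + t * β)) * (α - β) - Real.pi * ρ * (2 * a * β) :=
    fun t ht => (hasDerivAt_H_seg a hρ (hs t ht)).deriv
  have hev : ∀ t ∈ Set.Ioo (0 : ℝ) 1, deriv (fun t => H a (η + t * α) (ς + t * β) ρ) =ᶠ[nhds t]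
      fun t => 2 * (el 0 (1 / 2 + (η + t * α)) * α) -
        el ρ ((η + t * α) + (ς + t * β)) * (α + β) -
        el ρ ((η + t * α) - (ς + t * β)) * (α - β) - Real.pi * ρ * (2 * a * β) := by
    intro t ht
    filter_upwards [isOpen_Ioo.mem_nhds ht] with t' ht' using hd t' ht'
  have hd2 : ∀ t ∈ Set.Ioo (0 : ℝ) 1,
      HasDerivAt (deriv (fun t => H a (η + t * α) (ς + t * β) ρ))
      (-(Real.pi * (2 * Real.tan (Real.pi * (η + t * α)) * α ^ 2 +
        rr ρ ((η + t * α) + (ς + t * β)) * (α + β) ^ 2 +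
        rr ρ ((η + t * α) - (ς + t * β)) * (α - β) ^ 2))) t :=
    fun t ht => (hasDerivAt_H_seg' a hρ (hs t ht)).congr_of_eventuallyEq (hev t ht)
  apply concaveOn_of_deriv2_nonpos (convex_Icc 0 1)
  · have hc : Continuous fun t : ℝ => ((η + t * α, ς + t * β, ρ) : ℝ × ℝ × ℝ) := by fun_prop
    exact (Continuous.comp (continuous_H a) hc).continuousOn
  · rw [interior_Icc]
    exact fun t ht => (hasDerivAt_H_seg a hρ (hs t ht)).differentiableAt.differentiableWithinAt
  · rw [interior_Icc]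
    exact fun t ht => (hd2 t ht).differentiableAt.differentiableWithinAt
  · rw [interior_Icc]
    intro t ht
    simp only [Function.iterate_succ, Function.iterate_zero, Function.comp_apply, id_eq,
      (hd2 t ht).deriv]
    have := second_nonpos (h t ht).1 (h t ht).2 hρ α β
    have := Real.pi_pos
    nlinarith

theorem concaveOn_H_pos (a : ℕ) {ρ : ℝ} (hρ : 0 < ρ) :
    ConcaveOn ℝ KK (fun p : ℝ × ℝ => H a p.1 p.2 ρ) := by
  refine ⟨convex_KK, ?_⟩
  rintro ⟨x1, x2⟩ hx ⟨y1, y2⟩ hy s t hs ht hst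
  simp only [Prod.smul_mk, smul_eq_mul, Prod.mk_add_mk]
  by_cases hb : x1 = 1 / 2 ∧ y1 = 1 / 2
  · obtain ⟨rfl, rfl⟩ := hb
    have e0 : ∀ ς : ℝ, H a (1 / 2) ς ρ = 2 * Lr 0 1 - 2 * (Real.pi * ρ) -
        Real.pi * ρ * (2 * a * ς) := by
      intro ς
      unfold H
      have := Lr_half_add hρ.le ς
      have e : (1 / 2 + 1 / 2 : ℝ) = 1 := by norm_num
      rw [e]
      linarith only [this]
    have e1 : s * (1 / 2) + t * (1 / 2) = (1 / 2 : ℝ) := by rw [← add_mul, hst, one_mul]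
    rw [e1, e0, e0, e0]
    apply le_of_eq
    have : t = 1 - s := by linarith only [hst]
    subst this
    ring
  · have key : ∀ r ∈ Set.Ioo (0 : ℝ) 1,
        (x1 + r * (y1 - x1), x2 + r * (y2 - x2)) ∈ KK ∧ x1 + r * (y1 - x1) < 1 / 2 := by
      intro r hr
      constructor
      · have := convex_KK hx hy (a := 1 - r) (b := r) (by linarith only [hr, hr.2]) hr.1.le (by ring)
        simp only [Prod.smul_mk, smul_eq_mul, Prod.mk_add_mk] at this
        have e1 : (1 - r) * x1 + r * y1 = x1 + r * (y1 - x1) := by ring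
        have e2 : (1 - r) * x2 + r * y2 = x2 + r * (y2 - x2) := by ring
        rwa [e1, e2] at this
      · have hx1 := hx.2.1
        have hy1 := hy.2.1
        simp only at hx1 hy1
        rcases hx1.lt_or_eq with h | h
        · nlinarith only [hy1, hr, h, hr.1, hr.2, mul_pos hr.1 (sub_pos.2 hr.2)]
        · rcases hy1.lt_or_eq with h' | h'
          · subst h; nlinarith only [h', hr, hr.1, hr.2]
          · exact absurd ⟨h, h'⟩ hb
    have hc := concaveOn_seg a hρ key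
    have := hc.2 (x := 0) (by simp) (y := 1) (by simp) hs ht hst
    simp only [smul_eq_mul, mul_zero, zero_mul, add_zero, mul_one, zero_add, one_mul] at this
    have e1 : s * x1 + t * y1 = x1 + t * (y1 - x1) := by
      have : s = 1 - t := by linarith only [hst]
      subst this; ring
    have e2 : s * x2 + t * y2 = x2 + t * (y2 - x2) := by
      have : s = 1 - t := by linarith only [hst]
      subst this; ring
    have e3 : x1 + (y1 - x1) = y1 := by ring
    have e4 : x2 + (y2 - x2) = y2 := by ring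
    rw [e3, e4] at this
    rw [e1, e2]
    exact this

theorem concaveOn_H (a : ℕ) {ρ : ℝ} (hρ : 0 ≤ ρ) :
    ConcaveOn ℝ KK (fun p : ℝ × ℝ => H a p.1 p.2 ρ) := by
  rcases hρ.lt_or_eq with h | h
  · exact concaveOn_H_pos a h
  subst h
  refine ⟨convex_KK, ?_⟩
  intro x hx y hy s t hs ht hst
  have hlim : ∀ p : ℝ × ℝ, Filter.Tendsto (fun ρ : ℝ => H a p.1 p.2 ρ)
      (nhdsWithin 0 (Set.Ioi 0)) (nhds (H a p.1 p.2 0)) := by
    intro p
    have hc : Continuous fun ρ : ℝ => ((p.1, p.2, ρ) : ℝ × ℝ × ℝ) := by fun_prop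
    have hc' := Continuous.comp (continuous_H a) hc
    exact (hc'.tendsto 0).mono_left nhdsWithin_le_nhds
  refine le_of_tendsto_of_tendsto (((hlim x).const_smul s).add ((hlim y).const_smul t))
    (hlim (s • x + t • y)) ?_
  filter_upwards [self_mem_nhdsWithin] with ρ hρ
  exact (concaveOn_H_pos a hρ).2 hx hy hs ht hst

end Pool.Agent.Work.MP_b30479_gt.DT
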