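import Pool.Agent.Work.MP_b30479_gt.DT.DDCont

/-!
# The matrix entries as contour integrals
-/

namespace Pool.Agent.Work.MP_b30479_gt.DT

open Finset TB AX

/-! ### the full product -/

lemma cont_prod_root {n : ℕ} {ζ : ℂ} (hn : 0 < n) (h : IsPrimitiveRoot ζ n) (x w : ℂ) :
    ∏ l ∈ range n, (x - ζ ^ l * w) = x ^ n - w ^ n := by
  rw [h.pow_sub_pow_eq_prod_sub_mul x w hn]
  have h1 := h.nthRoots_eq (one_pow n)
  have h2 : ∏ μ ∈ Polynomial.nthRootsFinset n (1 : ℂ), (x - μ * w) =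
      (Multiset.map (fun μ => x - μ * w) (Polynomial.nthRoots n (1 : ℂ))).prod := by
    rw [Finset.prod, Polynomial.nthRootsFinset, Multiset.toFinset_val,
      Multiset.dedup_eq_self.mpr h.nthRoots_one_nodup]
  rw [h2, h1, Multiset.map_map]
  simp only [mul_one]
  rfl

lemma cont_cc_exp (n : ℕ) (z : ℂ) : cc n z = Complex.exp (2 * Real.pi * Complex.I * z / n) +
    (Complex.exp (2 * Real.pi * Complex.I * z / n))⁻¹ := by
  rw [← Complex.exp_neg, cc, Complex.cos]
  rw [show 2 * (Real.pi : ℂ) * z / n * Complex.I = 2 * Real.pi * Complex.I * z / n by ring,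
    show -(2 * (Real.pi : ℂ) * z / n) * Complex.I = -(2 * Real.pi * Complex.I * z / n) by ring]
  ring

theorem prod_cc (s : ℕ) (z : ℂ) :
    ∏ l ∈ range (2 * s + 1), (cc (2 * s + 1) z - cc (2 * s + 1) ((l : ℂ) - s)) =
      -4 * Complex.sin (Real.pi * z) ^ 2 := by
  have hn0 : (((2 * s + 1 : ℕ) : ℕ) : ℂ) ≠ 0 := by
    exact_mod_cast Nat.succ_ne_zero (2 * s)
  have hprim := tt_prim s
  have ht0 : tt s ≠ 0 := hprim.ne_zero (by omega)
  set x := Complex.exp (2 * Real.pi * Complex.I * z / ((2 * s + 1 : ℕ) : ℂ)) with hx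
  have hx0 : x ≠ 0 := Complex.exp_ne_zero _
  set v := (tt s ^ s)⁻¹ with hv
  have hv0 : v ≠ 0 := inv_ne_zero (pow_ne_zero _ ht0)
  have hy : ∀ l : ℕ, Complex.exp (2 * Real.pi * Complex.I * ((l : ℂ) - s) /
      ((2 * s + 1 : ℕ) : ℂ)) = tt s ^ l * v := by
    intro l
    rw [hv, ← div_eq_mul_inv, eq_div_iff (pow_ne_zero _ ht0)]
    unfold tt
    rw [← Complex.exp_nat_mul, ← Complex.exp_nat_mul, ← Complex.exp_add]
    congr 1
    field_simp
    ring
  have e : ∀ l ∈ range (2 * s + 1), cc (2 * s + 1) z - cc (2 * s + 1) ((l : ℂ) - s) =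
      x⁻¹ * ((x - tt s ^ l * v) * (x - (tt s)⁻¹ ^ l * v⁻¹)) := by
    intro l _
    rw [cont_cc_exp, cont_cc_exp, ← hx, hy l]
    have h1 : tt s ^ l ≠ 0 := pow_ne_zero _ ht0
    rw [inv_pow]
    field_simp
    ring
  rw [Finset.prod_congr rfl e, Finset.prod_mul_distrib, Finset.prod_mul_distrib,
    cont_prod_root (by omega) hprim, cont_prod_root (by omega) hprim.inv, Finset.prod_const,
    card_range]
  have hvn : v ^ (2 * s + 1) = 1 := by
    rw [hv, inv_pow, ← pow_mul, mul_comm s, pow_mul, hprim.pow_eq_one, one_pow, inv_one]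
  have hxn : x ^ (2 * s + 1) = Complex.exp (2 * Real.pi * Complex.I * z) := by
    rw [hx, ← Complex.exp_nat_mul]
    congr 1
    field_simp
  rw [inv_pow v, hvn, inv_one, inv_pow, hxn, Complex.sin]
  have e1 : Complex.exp (2 * Real.pi * Complex.I * z) =
      Complex.exp (Real.pi * z * Complex.I) ^ 2 := by
    rw [← Complex.exp_nat_mul]
    congr 1
    push_cast
    ring
  have e2 : Complex.exp (-(Real.pi * z) * Complex.I) = (Complex.exp (Real.pi * z * Complex.I))⁻¹ := by
    rw [← Complex.exp_neg]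
    congr 1
    ring
  rw [e1, e2]
  have h3 := Complex.exp_ne_zero (Real.pi * z * Complex.I)
  set y := Complex.exp (Real.pi * z * Complex.I)
  have hI : Complex.I ^ 2 = -1 := Complex.I_sq
  field_simp
  rw [hI]
  ring

/-! ### the integrand on the path -/

lemma cont_cc_ne {n : ℕ} (hn : 0 < n) {z : ℂ} {x : ℝ} (hx : |x| < (n : ℝ) / 2)
    (hz : z.im ≠ 0 ∨ |z.re| = (n : ℝ) / 2) : cc n z - cc n (x : ℂ) ≠ 0 := by
  intro h0
  have hn' : (0 : ℝ) < n := by exact_mod_cast hn
  have hnc : (n : ℂ) ≠ 0 := by exact_mod_cast hn.ne'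
  have hpi : (Real.pi : ℂ) ≠ 0 := by exact_mod_cast Real.pi_ne_zero
  rw [sub_eq_zero] at h0
  unfold cc at h0
  have h1 := mul_left_cancel₀ (two_ne_zero) h0
  rw [Complex.cos_eq_cos_iff] at h1
  obtain ⟨m, hm⟩ := h1
  have h2 : (x : ℂ) = m * n + z ∨ (x : ℂ) = m * n - z := by
    rcases hm with hm | hm
    · left
      field_simp at hm
      linear_combination hm
    · right
      field_simp at hm
      linear_combination hm
  have h3 : z.im = 0 := by
    rcases h2 with h2 | h2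
    · have := congrArg Complex.im h2
      simp at this
      exact this.symm
    · have := congrArg Complex.im h2
      simp at this
      exact this
  rcases hz with hz | hz
  · exact hz h3
  · have h4 : x = m * n + z.re ∨ x = m * n - z.re := by
      rcases h2 with h2 | h2
      · left
        have := congrArg Complex.re h2
        simp at this
        exact this
      · right
        have := congrArg Complex.re h2
        simp at this
        exact this
    have h5 : x = (2 * m + 1 : ℤ) * ((n : ℝ) / 2) ∨ x = (2 * m - 1 : ℤ) * ((n : ℝ) / 2) := by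
      rcases abs_eq (by positivity : (0 : ℝ) ≤ (n : ℝ) / 2) |>.mp hz with hr | hr <;>
      rcases h4 with h4 | h4 <;> rw [hr] at h4
      · left; rw [h4]; push_cast; ring
      · right; rw [h4]; push_cast; ring
      · right; rw [h4]; push_cast; ring
      · left; rw [h4]; push_cast; ring
    have h6 : ∀ j : ℤ, Odd j → |x| < (n : ℝ) / 2 → x = (j : ℝ) * ((n : ℝ) / 2) → False := by
      intro j hj hxx hxe
      rw [hxe, abs_mul, abs_of_pos (by positivity : (0 : ℝ) < (n : ℝ) / 2)] at hxx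
      have h7 : |(j : ℝ)| < 1 := by
        by_contra hcon
        push Not at hcon
        nlinarith
      have h8 : |j| < 1 := by exact_mod_cast h7
      rw [Int.abs_lt_one_iff] at h8
      rw [h8] at hj
      simp at hj
    rcases h5 with h5 | h5
    · exact h6 _ (by use m) hx h5
    · exact h6 _ (by use m - 1; ring) hx h5

lemma cont_node {s l : ℕ} (hl : l ≤ 2 * s) {ε : ℝ} (h : |ε| < 1 / 2) :
    |((l : ℝ) - s + ε)| < ((2 * s + 1 : ℕ) : ℝ) / 2 := by
  have h1 : (l : ℝ) ≤ 2 * s := by exact_mod_cast hl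
  have h2 : (0 : ℝ) ≤ l := Nat.cast_nonneg l
  rw [abs_lt] at h ⊢
  push_cast
  constructor <;> linarith [h.1, h.2]

lemma cont_prod_ne {s k : ℕ} (hk : k ≤ 2 * s) {ε : ℝ} (h : |ε| < 1 / 2) {z : ℂ}
    (hz : z.im ≠ 0 ∨ |z.re| = ((2 * s + 1 : ℕ) : ℝ) / 2) :
    ∏ l ∈ range (k + 1), (cc (2 * s + 1) z - cc (2 * s + 1) ((l : ℂ) - s + ε)) ≠ 0 := by
  rw [Finset.prod_ne_zero_iff]
  intro l hl
  rw [Finset.mem_range] at hl
  have := cont_cc_ne (n := 2 * s + 1) (by omega) (cont_node (s := s) (l := l) (by omega) h) hz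
  push_cast at this ⊢
  exact this

lemma cont_sin_ne {s : ℕ} {z : ℂ} (hz : z.im ≠ 0 ∨ |z.re| = ((2 * s + 1 : ℕ) : ℝ) / 2) :
    Complex.sin (Real.pi * z) ≠ 0 := by
  have h1 := cont_prod_ne (s := s) (k := 2 * s) le_rfl (ε := 0) (by norm_num) hz
  have h2 := prod_cc s z
  simp only [Complex.ofReal_zero, add_zero] at h1
  rw [h2] at h1
  intro h3
  apply h1
  rw [h3]
  ring

lemma cont_Gk_eq {a s k : ℕ} (hk : k ≤ 2 * s) {z : ℂ}
    (hz : z.im ≠ 0 ∨ |z.re| = ((2 * s + 1 : ℕ) : ℝ) / 2) : Gk a s k z = -4 * Ge a s k 0 z := by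
  have h1 := cont_prod_ne (s := s) (k := k) hk (ε := 0) (by norm_num) hz
  have h2 := prod_cc s z
  have h3 := cont_sin_ne hz
  unfold Gk Ge
  simp only [Complex.ofReal_zero, add_zero] at h1 ⊢
  have h4 : (∏ l ∈ range (k + 1), (cc (2 * s + 1) z - cc (2 * s + 1) ((l : ℂ) - s))) * Qk s k z =
      -4 * Complex.sin (Real.pi * z) ^ 2 := by
    rw [← h2, Qk]
    have : Ioc k (2 * s) = Ico (k + 1) (2 * s + 1) := by
      ext l
      simp only [Finset.mem_Ioc, Finset.mem_Ico]
      omega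
    rw [this, Finset.prod_range_mul_prod_Ico _ (by omega)]
  rw [eq_comm, ← sub_eq_zero]
  set P := ∏ l ∈ range (k + 1), (cc (2 * s + 1) z - cc (2 * s + 1) ((l : ℂ) - s)) with hP
  set S := Complex.sin (Real.pi * z) with hS
  set E := Complex.exp (Real.pi * Complex.I * a * z ^ 2 / ((2 * s + 1 : ℕ) : ℂ))
  set T := Complex.sin (2 * Real.pi * z / ((2 * s + 1 : ℕ) : ℂ))
  have h5 : -4 * (E * T / P) - E * T * Qk s k z / S ^ 2 =
      E * T / (P * S ^ 2) * (-4 * S ^ 2 - P * Qk s k z) := by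
    field_simp
  rw [h5, h4, sub_self, mul_zero]

/-! ### dependence on the parameter -/

lemma cont_param {f : ℝ → ℝ → ℂ} {a b c d : ℝ} (hab : a ≤ b)
    (hf : ContinuousOn (Function.uncurry f) (Set.Icc c d ×ˢ Set.Icc a b)) :
    ContinuousOn (fun e => ∫ y in a..b, f e y) (Set.Icc c d) := by
  rw [continuousOn_iff_continuous_domRestrict]
  have h1 : Continuous (Function.uncurry fun (e : Set.Icc c d) (y : ℝ) =>
      f e (Set.projIcc a b hab y)) := by
    have h2 : Continuous fun p : (Set.Icc c d) × ℝ =>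
        (((p.1 : ℝ), ((Set.projIcc a b hab p.2 : Set.Icc a b) : ℝ)) : ℝ × ℝ) := by
      fun_prop
    have h3 := hf.comp_continuous h2 (fun p => ⟨p.1.2, (Set.projIcc a b hab p.2).2⟩)
    exact h3
  have h4 := intervalIntegral.continuous_parametric_intervalIntegral_of_continuous'
    (μ := MeasureTheory.volume) h1 a b
  convert h4 using 2 with e
  refine intervalIntegral.integral_congr fun y hy => ?_
  rw [Set.uIcc_of_le hab] at hy
  rw [Set.projIcc_of_mem hab hy]

lemma cont_Ge {a s k : ℕ} (hk : k ≤ 2 * s) :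
    ContinuousOn (fun p : ℝ × ℂ => Ge a s k p.1 p.2)
      {p | |p.1| < 1 / 2 ∧ (p.2.im ≠ 0 ∨ |p.2.re| = ((2 * s + 1 : ℕ) : ℝ) / 2)} := by
  unfold Ge cc
  refine ContinuousOn.div (by fun_prop) (by fun_prop) ?_
  intro p hp
  have := cont_prod_ne (s := s) hk hp.1 hp.2
  exact this

attribute [local irreducible] Ge in
lemma cont_path {a s k : ℕ} (hk : k ≤ 2 * s) {h : ℝ} (hh : 0 < h) :
    ContinuousOn (fun ε : ℝ => pathInt (Ge a s k ε) (hn s) (-(hn s)) h h)
      (Set.Icc (-(1 / 4)) (1 / 4)) := by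
  have hab : |hn s| = ((2 * s + 1 : ℕ) : ℝ) / 2 := by
    unfold hn
    exact abs_of_nonneg (by positivity)
  have hnn : 0 ≤ hn s := by unfold hn; positivity
  have hG := cont_Ge (a := a) hk
  have key : ∀ (φ : ℝ → ℂ) (u v : ℝ), u ≤ v → Continuous φ →
      (∀ y ∈ Set.Icc u v, (φ y).im ≠ 0 ∨ |(φ y).re| = ((2 * s + 1 : ℕ) : ℝ) / 2) →
      ContinuousOn (fun ε : ℝ => ∫ y in u..v, Ge a s k ε (φ y)) (Set.Icc (-(1 / 4)) (1 / 4)) := by
    intro φ u v huv hφ hφ2
    refine cont_param huv ?_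
    rw [Function.uncurry_def]
    have h2 : Continuous fun p : ℝ × ℝ => (p.1, φ p.2) := by fun_prop
    refine ContinuousOn.comp (g := fun p : ℝ × ℂ => Ge a s k p.1 p.2)
      (f := fun p : ℝ × ℝ => (p.1, φ p.2)) hG h2.continuousOn ?_
    rintro ⟨e, y⟩ ⟨he, hy⟩
    simp only [Set.mem_Icc] at he
    refine ⟨?_, hφ2 y hy⟩
    have : |e| < 1 / 2 := by
      rw [abs_lt]
      constructor <;> linarith [he.1, he.2]
    exact this
  unfold pathInt
  simp only [intervalIntegral.integral_same, mul_zero, sub_zero]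
  refine ContinuousOn.sub (ContinuousOn.sub (ContinuousOn.mul continuousOn_const ?_) ?_)
    (ContinuousOn.mul continuousOn_const ?_)
  · refine key (fun y => (hn s : ℂ) + y * Complex.I) 0 h hh.le (by fun_prop) ?_
    intro y _
    right
    simp [hab]
  · refine key (fun x => (x : ℂ) + h * Complex.I) (-(hn s)) (hn s) (by linarith) (by fun_prop) ?_
    intro y _
    left
    simp [hh.ne']
  · refine key (fun y => ((-(hn s) : ℝ) : ℂ) + y * Complex.I) 0 h hh.le (by fun_prop) ?_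
    intro y _
    right
    simp [hab]

lemma cont_gz {s j k : ℕ} (hk : k ≤ 2 * s) : ContinuousAt (fun z => gz s (tt s) z j k) 1 := by
  unfold gz
  by_cases hjk : j ≤ k
  · simp only [if_pos hjk]
    refine ContinuousAt.div (by fun_prop) ?_ ?_
    · unfold pz
      fun_prop
    · unfold pz
      refine mul_ne_zero ?_ (qf_ne_zero (tt_prim s) (by omega))
      rw [Finset.prod_ne_zero_iff]
      intro l hl
      rw [Finset.mem_Ico] at hl
      rw [one_mul]
      exact one_sub_pow_ne (tt_prim s) (by omega) (by omega)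
  · simp only [if_neg hjk]
    exact continuousAt_const

lemma cont_Gm {s : ℕ} (a j k : ℕ) (hk : k ≤ 2 * s) :
    ContinuousAt (fun z => Gm s (tt s) z a j k) 1 := by
  induction a generalizing k with
  | zero =>
    unfold Gm
    exact continuousAt_const
  | succ a ih =>
    unfold Gm
    refine tendsto_finsetSum _ fun l hl => ?_
    rw [Finset.mem_range] at hl
    exact (ih l (by omega)).mul (cont_gz hk)

/-- the limit `ε → 0` -/
theorem contour_one {s a k : ℕ} (hk : k ≤ 2 * s) {h : ℝ} (hh : 0 < h) :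
    ‖Gm s (tt s) 1 a 0 k‖ =
      ‖pathInt (Gk a s k) (hn s) (-(hn s)) h h‖ / (2 * ((2 * s + 1 : ℕ) : ℝ)) := by
  have hab : |hn s| = ((2 * s + 1 : ℕ) : ℝ) / 2 := by
    unfold hn
    exact abs_of_nonneg (by positivity)
  have hnn : 0 ≤ hn s := by unfold hn; positivity
  have hn' : (0 : ℝ) < ((2 * s + 1 : ℕ) : ℝ) := by positivity
  -- the two limits
  have hze : Filter.Tendsto (ze s) (nhdsWithin 0 (Set.Ioi 0)) (nhds 1) := by
    have : Continuous (ze s) := by unfold ze; fun_prop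
    have h0 : ze s 0 = 1 := by simp [ze]
    have := this.tendsto 0
    rw [h0] at this
    exact this.mono_left nhdsWithin_le_nhds
  have l1 : Filter.Tendsto (fun ε : ℝ => ‖Gm s (tt s) (ze s ε) a 0 k‖)
      (nhdsWithin 0 (Set.Ioi 0)) (nhds ‖Gm s (tt s) 1 a 0 k‖) :=
    ((cont_Gm a 0 k hk).tendsto.comp hze).norm
  have l2 : Filter.Tendsto (fun ε : ℝ => 2 / ((2 * s + 1 : ℕ) : ℝ) *
      ‖pathInt (Ge a s k ε) (hn s) (-(hn s)) h h‖)
      (nhdsWithin 0 (Set.Ioi 0)) (nhds (2 / ((2 * s + 1 : ℕ) : ℝ) *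
      ‖pathInt (Ge a s k 0) (hn s) (-(hn s)) h h‖)) := by
    have h1 := (cont_path (a := a) hk hh).continuousAt
      (Icc_mem_nhds (by norm_num : -(1 / 4 : ℝ) < 0) (by norm_num : (0 : ℝ) < 1 / 4))
    exact ((h1.tendsto.mono_left nhdsWithin_le_nhds).norm).const_mul _
  have heq : (fun ε : ℝ => ‖Gm s (tt s) (ze s ε) a 0 k‖) =ᶠ[nhdsWithin 0 (Set.Ioi 0)]
      (fun ε : ℝ => 2 / ((2 * s + 1 : ℕ) : ℝ) *
      ‖pathInt (Ge a s k ε) (hn s) (-(hn s)) h h‖) := by
    have h1 : Set.Ioo (0 : ℝ) (1 / 2) ∈ nhdsWithin (0 : ℝ) (Set.Ioi 0) :=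
      Ioo_mem_nhdsGT (by norm_num)
    filter_upwards [h1] with ε hε
    rw [Gm_ze hk hε.1 hε.2, dd_contour hk hε.1 hε.2 hh]
  have h3 := tendsto_nhds_unique l1 (l2.congr' heq.symm)
  have h4 : pathInt (Gk a s k) (hn s) (-(hn s)) h h =
      -4 * pathInt (Ge a s k 0) (hn s) (-(hn s)) h h := by
    unfold pathInt
    simp only [intervalIntegral.integral_same, mul_zero, sub_zero]
    have e1 : (∫ y in (0 : ℝ)..h, Gk a s k ((hn s : ℂ) + y * Complex.I)) =
        -4 * ∫ y in (0 : ℝ)..h, Ge a s k 0 ((hn s : ℂ) + y * Complex.I) := by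
      rw [← intervalIntegral.integral_const_mul]
      refine intervalIntegral.integral_congr fun y _ => cont_Gk_eq hk (Or.inr ?_)
      simp [hab]
    have e2 : (∫ x in (-(hn s))..(hn s), Gk a s k ((x : ℂ) + h * Complex.I)) =
        -4 * ∫ x in (-(hn s))..(hn s), Ge a s k 0 ((x : ℂ) + h * Complex.I) := by
      rw [← intervalIntegral.integral_const_mul]
      refine intervalIntegral.integral_congr fun y _ => cont_Gk_eq hk (Or.inl ?_)
      simp [hh.ne']
    have e3 : (∫ y in (0 : ℝ)..h, Gk a s k (((-(hn s) : ℝ) : ℂ) + y * Complex.I)) =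
        -4 * ∫ y in (0 : ℝ)..h, Ge a s k 0 (((-(hn s) : ℝ) : ℂ) + y * Complex.I) := by
      rw [← intervalIntegral.integral_const_mul]
      refine intervalIntegral.integral_congr fun y _ => cont_Gk_eq hk (Or.inr ?_)
      simp [hab]
    rw [e1, e2, e3]
    ring
  rw [h3, h4, norm_mul]
  norm_num
  field_simp
  ring

/-! ### deformation of the path -/

lemma cont_Gk_diff {a s k : ℕ} {z : ℂ} (hz : Complex.sin (Real.pi * z) ≠ 0) :
    DifferentiableAt ℂ (Gk a s k) z := by
  unfold Gk Qk cc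
  refine DifferentiableAt.div (by fun_prop) (by fun_prop) (pow_ne_zero _ hz)

/-- deformation of the path -/
theorem contour {s a k : ℕ} (hk : k ≤ 2 * s) {x₁ h₁ h₂ : ℝ} (hx : |x₁| ≤ hn s) (hh1 : 0 < h₁)
    (hh2 : 0 < h₂) :
    ‖Gm s (tt s) 1 a 0 k‖ =
      ‖pathInt (Gk a s k) (hn s) x₁ h₁ h₂‖ / (2 * ((2 * s + 1 : ℕ) : ℝ)) := by
  rw [contour_one hk hh1]
  congr 2
  have hab : |hn s| = ((2 * s + 1 : ℕ) : ℝ) / 2 := by
    unfold hn
    exact abs_of_nonneg (by positivity)
  have hdiff : ∀ z : ℂ, 0 < z.im → DifferentiableAt ℂ (Gk a s k) z := fun z hz =>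
    cont_Gk_diff (cont_sin_ne (s := s) (Or.inl hz.ne'))
  -- the rectangle
  have hrect := Complex.integral_boundary_rect_eq_zero_of_differentiableOn (Gk a s k)
    (⟨-(hn s), h₂⟩ : ℂ) (⟨x₁, h₁⟩ : ℂ) (by
      intro z hz
      have h1 : z.im ∈ Set.uIcc h₂ h₁ := hz.2
      rw [Set.mem_uIcc] at h1
      have : 0 < z.im := by
        rcases h1 with h1 | h1
        · exact lt_of_lt_of_le hh2 h1.1
        · exact lt_of_lt_of_le hh1 h1.1
      exact (hdiff z this).differentiableWithinAt)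
  simp only [smul_eq_mul] at hrect
  -- continuity along the sides
  have c1 : ∀ h : ℝ, 0 < h → Continuous fun x : ℝ => Gk a s k ((x : ℂ) + h * Complex.I) := by
    intro h hh
    rw [continuous_iff_continuousAt]
    intro x
    have h2 : (0 : ℝ) < ((x : ℂ) + h * Complex.I).im := by simp [hh]
    have h3 := (hdiff _ h2).continuousAt
    exact ContinuousAt.comp (f := fun x : ℝ => ((x : ℂ) + h * Complex.I)) h3 (by fun_prop)
  have c2 : Continuous fun y : ℝ => Gk a s k (((-(hn s) : ℝ) : ℂ) + y * Complex.I) := by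
    rw [continuous_iff_continuousAt]
    intro y
    have h2 : Complex.sin (Real.pi * (((-(hn s) : ℝ) : ℂ) + y * Complex.I)) ≠ 0 :=
      cont_sin_ne (s := s) (Or.inr (by simp [hab]))
    have h3 := (cont_Gk_diff (a := a) (s := s) (k := k) h2).continuousAt
    exact ContinuousAt.comp (f := fun y : ℝ => (((-(hn s) : ℝ) : ℂ) + y * Complex.I)) h3
      (by fun_prop)
  have s1 : (∫ x in (-(hn s))..x₁, Gk a s k ((x : ℂ) + h₁ * Complex.I)) +
      (∫ x in x₁..(hn s), Gk a s k ((x : ℂ) + h₁ * Complex.I)) =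
      ∫ x in (-(hn s))..(hn s), Gk a s k ((x : ℂ) + h₁ * Complex.I) :=
    intervalIntegral.integral_add_adjacent_intervals ((c1 h₁ hh1).intervalIntegrable _ _)
      ((c1 h₁ hh1).intervalIntegrable _ _)
  have s2 : (∫ y in (0 : ℝ)..h₂, Gk a s k (((-(hn s) : ℝ) : ℂ) + y * Complex.I)) +
      (∫ y in h₂..h₁, Gk a s k (((-(hn s) : ℝ) : ℂ) + y * Complex.I)) =
      ∫ y in (0 : ℝ)..h₁, Gk a s k (((-(hn s) : ℝ) : ℂ) + y * Complex.I) :=
    intervalIntegral.integral_add_adjacent_intervals (c2.intervalIntegrable _ _)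
      (c2.intervalIntegrable _ _)
  unfold pathInt
  simp only [intervalIntegral.integral_same, mul_zero, sub_zero]
  linear_combination s1 + Complex.I * s2 + hrect

end Pool.Agent.Work.MP_b30479_gt.DT
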