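import Pool.Agent.Work.MP_b30479_gt.DT.Conc

/-!
# Convexity in `ρ`
-/

namespace Pool.Agent.Work.MP_b30479_gt.DT

open Finset TB AX

theorem hasDerivAt_H_rho (a : ℕ) {η ς ρ : ℝ} (hρ : 0 < ρ) :
    HasDerivAt (fun ρ : ℝ => H a η ς ρ)
      (-Tr ρ (η + ς) - Tr ρ (η - ς) - Real.pi * (1 + 2 * a * ς)) ρ := by
  have m1 := hasDerivAt_Lr_left (ρ := ρ) (x := η + ς) hρ
  have m2 := hasDerivAt_Lr_left (ρ := ρ) (x := η - ς) hρ
  have m3 : HasDerivAt (fun ρ : ℝ => Real.pi * ρ * (1 + 2 * a * ς))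
      (Real.pi * (1 + 2 * a * ς)) ρ := by
    simpa using ((hasDerivAt_id ρ).const_mul Real.pi).mul_const (1 + 2 * a * ς)
  have key := ((m1.const_sub (2 * Lr 0 (1 / 2 + η))).sub m2).sub m3
  exact key

theorem hasDerivAt_H_rho' (a : ℕ) {η ς ρ : ℝ} (hρ : 0 < ρ) :
    HasDerivAt (fun ρ : ℝ => -Tr ρ (η + ς) - Tr ρ (η - ς) - Real.pi * (1 + 2 * a * ς))
      (Real.pi * (rr ρ (η + ς) + rr ρ (η - ς))) ρ := by
  have m1 := hasDerivAt_Tr_left (ρ := ρ) (x := η + ς) hρ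
  have m2 := hasDerivAt_Tr_left (ρ := ρ) (x := η - ς) hρ
  refine ((m1.neg.sub m2).sub_const _).congr_deriv ?_
  ring

theorem convexOn_H (a : ℕ) {η ς : ℝ} (h : (η, ς) ∈ KK) :
    ConvexOn ℝ (Set.Ici 0) (fun ρ : ℝ => H a η ς ρ) := by
  have hd : ∀ ρ ∈ Set.Ioi (0 : ℝ), HasDerivAt (deriv fun ρ : ℝ => H a η ς ρ)
      (Real.pi * (rr ρ (η + ς) + rr ρ (η - ς))) ρ := by
    intro ρ hρ
    refine (hasDerivAt_H_rho' a hρ).congr_of_eventuallyEq ?_
    filter_upwards [isOpen_Ioi.mem_nhds hρ] with r hr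
    exact (hasDerivAt_H_rho a hr).deriv
  apply convexOn_of_deriv2_nonneg (convex_Ici 0)
  · have hc : Continuous fun r : ℝ => ((η, ς, r) : ℝ × ℝ × ℝ) := by fun_prop
    exact (Continuous.comp (continuous_H a) hc).continuousOn
  · rw [interior_Ici]
    exact fun ρ hρ => (hasDerivAt_H_rho a hρ).differentiableAt.differentiableWithinAt
  · rw [interior_Ici]
    exact fun ρ hρ => (hd ρ hρ).differentiableAt.differentiableWithinAt
  · rw [interior_Ici]
    intro ρ hρ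
    simp only [Function.iterate_succ, Function.iterate_zero, Function.comp_apply, id_eq,
      (hd ρ hρ).deriv]
    have := rr_add_nonneg h hρ
    have := Real.pi_pos
    positivity

end Pool.Agent.Work.MP_b30479_gt.DT
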