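import Pool.Agent.Work.MP_b30479_gt.DT.LrDer

/-!
# The critical point equations
-/

namespace Pool.Agent.Work.MP_b30479_gt.DT

open Finset TB AX

theorem el_zero_half {η : ℝ} (h0 : -(1 / 2) < η) (h1 : η < 1 / 2) :
    el 0 (1 / 2 + η) = Real.log (2 * Real.cos (Real.pi * η)) := by
  have hc : 0 < Real.cos (Real.pi * η) := by
    apply Real.cos_pos_of_mem_Ioo
    have := Real.pi_pos
    constructor <;> nlinarith only [h0, this, h1]
  have h2 : 2 * Real.cosh (2 * Real.pi * 0) - 2 * Real.cos (2 * Real.pi * (1 / 2 + η)) =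
      (2 * Real.cos (Real.pi * η)) ^ 2 := by
    have e1 : 2 * Real.pi * (1 / 2 + η) = 2 * (Real.pi * η) + Real.pi := by ring
    rw [e1, Real.cos_add_pi, Real.cos_two_mul, mul_zero, Real.cosh_zero]
    ring
  unfold el
  rw [h2, Real.log_pow]
  push_cast
  ring

theorem crit_real {a : ℕ} {η₀ ς₀ ρ₀ : ℝ} (h : IsSad a η₀ ς₀ ρ₀) :
    2 * Real.log (2 * Real.cos (Real.pi * η₀)) = el ρ₀ (η₀ + ς₀) + el ρ₀ (η₀ - ς₀) ∧
    el ρ₀ (η₀ - ς₀) - el ρ₀ (η₀ + ς₀) = 2 * Real.pi * a * ρ₀ ∧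
    Tr ρ₀ (η₀ + ς₀) + Tr ρ₀ (η₀ - ς₀) + Real.pi * (1 + 2 * a * ς₀) = 0 := by
  have hη0 : 0 < η₀ := lt_of_le_of_lt (abs_nonneg _) h.h1
  have hpi := Real.pi_pos
  have hev : ∀ᶠ p : ℝ × ℝ in nhds (η₀, ς₀), p ∈ KK := by
    have hU : IsOpen {p : ℝ × ℝ | 0 < p.1 ∧ p.1 < 1 / 2 ∧ |p.2| < p.1 ∧ |p.2| < 1 / 4} := by
      apply IsOpen.inter (isOpen_lt continuous_const continuous_fst)
      apply IsOpen.inter (isOpen_lt continuous_fst continuous_const)
      apply IsOpen.inter (isOpen_lt continuous_snd.abs continuous_fst)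
      exact isOpen_lt continuous_snd.abs continuous_const
    filter_upwards [hU.mem_nhds ⟨hη0, h.h3, h.h1, h.h2⟩] with p hp
    exact ⟨hp.1.le, hp.2.1.le, hp.2.2.1.le, hp.2.2.2.le⟩
  have hsin : Real.sin (Real.pi * (1 / 2 + η₀)) ≠ 0 := by
    have e1 : Real.pi * (1 / 2 + η₀) = Real.pi * η₀ + Real.pi / 2 := by ring
    rw [e1, Real.sin_add_pi_div_two]
    apply ne_of_gt
    apply Real.cos_pos_of_mem_Ioo
    have := h.h3
    constructor <;> nlinarith only [hpi, hη0, this]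
  refine ⟨?_, ?_, ?_⟩
  · have hm : IsLocalMax (fun η : ℝ => H a η ς₀ ρ₀) η₀ := by
      have ht : Filter.Tendsto (fun η : ℝ => (η, ς₀)) (nhds η₀) (nhds (η₀, ς₀)) :=
        (continuous_id.prodMk continuous_const).tendsto η₀
      filter_upwards [ht.eventually hev] with η hη
      exact h.max η ς₀ hη
    have hd : HasDerivAt (fun η : ℝ => H a η ς₀ ρ₀)
        (2 * el 0 (1 / 2 + η₀) - el ρ₀ (η₀ + ς₀) - el ρ₀ (η₀ - ς₀) - 0) η₀ := by
      have d1 : HasDerivAt (fun η : ℝ => 1 / 2 + η) 1 η₀ := (hasDerivAt_id η₀).const_add _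
      have d2 : HasDerivAt (fun η : ℝ => η + ς₀) 1 η₀ := (hasDerivAt_id η₀).add_const _
      have d3 : HasDerivAt (fun η : ℝ => η - ς₀) 1 η₀ := (hasDerivAt_id η₀).sub_const _
      have c1 := ((hasDerivAt_Lr_zero hsin).comp η₀ d1).const_mul 2
      have c2 := (hasDerivAt_Lr (x := η₀ + ς₀) h.ρpos).comp η₀ d2
      have c3 := (hasDerivAt_Lr (x := η₀ - ς₀) h.ρpos).comp η₀ d3
      have c4 := hasDerivAt_const η₀ (Real.pi * ρ₀ * (1 + 2 * a * ς₀))
      have := ((c1.sub c2).sub c3).sub c4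
      simp only [mul_one] at this
      exact this
    have h0 := hm.hasDerivAt_eq_zero hd
    rw [← el_zero_half (by linarith only [hη0]) h.h3]
    linarith only [h0]
  · have hm : IsLocalMax (fun ς : ℝ => H a η₀ ς ρ₀) ς₀ := by
      have ht : Filter.Tendsto (fun ς : ℝ => (η₀, ς)) (nhds ς₀) (nhds (η₀, ς₀)) :=
        (continuous_const.prodMk continuous_id).tendsto ς₀
      filter_upwards [ht.eventually hev] with ς hς
      exact h.max η₀ ς hς
    have hd : HasDerivAt (fun ς : ℝ => H a η₀ ς ρ₀)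
        (0 - el ρ₀ (η₀ + ς₀) - el ρ₀ (η₀ - ς₀) * (-1) - Real.pi * ρ₀ * (2 * a)) ς₀ := by
      have d2 : HasDerivAt (fun ς : ℝ => η₀ + ς) 1 ς₀ := (hasDerivAt_id ς₀).const_add _
      have d3 : HasDerivAt (fun ς : ℝ => η₀ - ς) (-1) ς₀ := (hasDerivAt_id ς₀).const_sub _
      have c1 := hasDerivAt_const ς₀ (2 * Lr 0 (1 / 2 + η₀))
      have c2 := (hasDerivAt_Lr (x := η₀ + ς₀) h.ρpos).comp ς₀ d2
      have c3 := (hasDerivAt_Lr (x := η₀ - ς₀) h.ρpos).comp ς₀ d3
      have c4 : HasDerivAt (fun ς : ℝ => Real.pi * ρ₀ * (1 + 2 * a * ς))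
          (Real.pi * ρ₀ * (2 * a)) ς₀ := by
        have := (((hasDerivAt_id ς₀).const_mul (2 * (a : ℝ))).const_add 1).const_mul
          (Real.pi * ρ₀)
        simp only [mul_one, id_eq] at this
        exact this
      have := ((c1.sub c2).sub c3).sub c4
      simp only [mul_one] at this
      exact this
    have h0 := hm.hasDerivAt_eq_zero hd
    linarith only [h0]
  · have hm : IsLocalMin (fun ρ : ℝ => H a η₀ ς₀ ρ) ρ₀ := by
      filter_upwards [lt_mem_nhds h.ρpos] with ρ hρ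
      exact h.min ρ hρ.le
    have hd : HasDerivAt (fun ρ : ℝ => H a η₀ ς₀ ρ)
        (0 - Tr ρ₀ (η₀ + ς₀) - Tr ρ₀ (η₀ - ς₀) - Real.pi * (1 + 2 * a * ς₀)) ρ₀ := by
      have c1 := hasDerivAt_const ρ₀ (2 * Lr 0 (1 / 2 + η₀))
      have c2 := hasDerivAt_Lr_left (x := η₀ + ς₀) h.ρpos
      have c3 := hasDerivAt_Lr_left (x := η₀ - ς₀) h.ρpos
      have c4 : HasDerivAt (fun ρ : ℝ => Real.pi * ρ * (1 + 2 * a * ς₀))
          (Real.pi * (1 + 2 * a * ς₀)) ρ₀ := by
        have := ((hasDerivAt_id ρ₀).const_mul Real.pi).mul_const (1 + 2 * a * ς₀)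
        simp only [mul_one, id_eq] at this
        exact this
      exact ((c1.sub c2).sub c3).sub c4
    have h0 := hm.hasDerivAt_eq_zero hd
    linarith only [h0]

/-- the critical equation in complex form (`u = ς₀ + iρ₀`) -/
theorem crit_complex {a : ℕ} {η₀ ς₀ ρ₀ : ℝ} (h : IsSad a η₀ ς₀ ρ₀) :
    Complex.log (1 - Complex.exp (2 * Real.pi * Complex.I * ((ς₀ + ρ₀ * Complex.I) - η₀))) -
      Complex.log (1 - Complex.exp (2 * Real.pi * Complex.I * ((ς₀ + ρ₀ * Complex.I) + η₀))) +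
      2 * Real.pi * Complex.I * (a * (ς₀ + ρ₀ * Complex.I) + 1 / 2 + η₀) = 0 := by
  obtain ⟨-, h2, h3⟩ := crit_real h
  have hρ := h.ρpos
  have hρ' : ρ₀ ≠ 0 := hρ.ne'
  have hpi := Real.pi_pos
  set E1 : ℂ := Complex.exp (2 * Real.pi * Complex.I * ((η₀ + ς₀ : ℝ) + ρ₀ * Complex.I)) with hE1
  set E2 : ℂ := Complex.exp (2 * Real.pi * Complex.I * ((η₀ - ς₀ : ℝ) + ρ₀ * Complex.I)) with hE2
  have a1 : Complex.exp (2 * Real.pi * Complex.I * ((ς₀ + ρ₀ * Complex.I) + η₀)) = E1 := by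
    rw [hE1]
    congr 1
    push_cast
    ring
  have a2 : Complex.exp (2 * Real.pi * Complex.I * ((ς₀ + ρ₀ * Complex.I) - η₀)) =
      (starRingEnd ℂ) E2 := by
    rw [hE2, ← Complex.exp_conj]
    congr 1
    simp only [map_mul, map_add, Complex.conj_ofReal, Complex.conj_I, map_ofNat]
    push_cast
    ring
  have hn2 : ‖E2‖ < 1 := by
    rw [hE2, Complex.norm_exp, Real.exp_lt_one_iff]
    simp only [Complex.mul_re, Complex.re_ofNat, Complex.ofReal_re, Complex.im_ofNat,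
      Complex.ofReal_im, mul_zero, sub_zero, Complex.I_re, Complex.mul_im, zero_mul, add_zero,
      Complex.I_im, mul_one, sub_self, Complex.add_re, zero_sub, Complex.add_im, zero_add]
    nlinarith only [hpi, hρ, mul_pos hpi hρ]
  have hre2 : 0 < (1 - E2).re := by
    have := Complex.re_le_norm E2
    simp only [Complex.sub_re, Complex.one_re]
    linarith only [hn2, this]
  have harg : (1 - (starRingEnd ℂ) E2).arg = -(1 - E2).arg := by
    have e : (1 - (starRingEnd ℂ) E2) = (starRingEnd ℂ) (1 - E2) := by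
      simp only [map_sub, map_one]
    rw [e, Complex.arg_conj, if_neg]
    intro hcon
    rw [Complex.arg_eq_pi_iff] at hcon
    linarith only [hre2, hcon, hcon.1]
  have hnorm : ‖1 - (starRingEnd ℂ) E2‖ = ‖1 - E2‖ := by
    have e : (1 - (starRingEnd ℂ) E2) = (starRingEnd ℂ) (1 - E2) := by
      simp only [map_sub, map_one]
    rw [e, Complex.norm_conj]
  have l1 : el ρ₀ (η₀ + ς₀) = Real.pi * ρ₀ + Real.log ‖1 - E1‖ := el_eq_exp hρ'
  have l2 : el ρ₀ (η₀ - ς₀) = Real.pi * ρ₀ + Real.log ‖1 - E2‖ := el_eq_exp hρ'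
  have t1 : Tr ρ₀ (η₀ + ς₀) = Real.pi * (η₀ + ς₀) - (1 - E1).arg := rfl
  have t2 : Tr ρ₀ (η₀ - ς₀) = Real.pi * (η₀ - ς₀) - (1 - E2).arg := rfl
  rw [a1, a2]
  apply Complex.ext
  · simp only [Complex.add_re, Complex.sub_re, Complex.log_re, hnorm, Complex.mul_re,
      Complex.re_ofNat, Complex.ofReal_re, Complex.im_ofNat, Complex.ofReal_im, mul_zero,
      sub_zero, Complex.I_re, Complex.mul_im, zero_mul, add_zero, Complex.I_im, mul_one,
      Complex.natCast_re, Complex.natCast_im, Complex.add_im, zero_add,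
      Complex.zero_re, sub_self, Complex.div_im, Complex.one_im, Complex.one_re,
      Complex.div_re]
    rw [l1, l2] at h2
    norm_num
    linarith only [h2]
  · simp only [Complex.add_im, Complex.sub_im, Complex.log_im, harg, Complex.mul_re,
      Complex.re_ofNat, Complex.ofReal_re, Complex.im_ofNat, Complex.ofReal_im, mul_zero,
      sub_zero, Complex.I_re, Complex.mul_im, zero_mul, add_zero, Complex.I_im, mul_one,
      Complex.natCast_re, Complex.natCast_im, Complex.add_re, zero_add,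
      Complex.zero_im, sub_self, Complex.div_im, Complex.one_im, Complex.one_re,
      Complex.div_re]
    rw [t1, t2] at h3
    norm_num
    linarith only [h3]

end Pool.Agent.Work.MP_b30479_gt.DT
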