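import Pool.Agent.Work.MP_b30479_gt.DT.RDefs

/-!
# Integrals over the boundary of a rectangle
-/

namespace Pool.Agent.Work.MP_b30479_gt.DT

open Finset TB AX

/-- boundary integral over the rectangle `[-b, b] × [-h, h]` (counterclockwise) -/
noncomputable def rectInt (F : ℂ → ℂ) (b h : ℝ) : ℂ :=
  (∫ x in (-b)..b, F ((x : ℂ) - h * Complex.I)) +
    Complex.I * (∫ y in (-h)..h, F ((b : ℂ) + y * Complex.I)) -
    (∫ x in (-b)..b, F ((x : ℂ) + h * Complex.I)) -
    Complex.I * (∫ y in (-h)..h, F (((-b : ℝ) : ℂ) + y * Complex.I))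

/-- the function is continuous at all points of the four lines through the sides -/
def BC (F : ℂ → ℂ) (b h : ℝ) : Prop :=
  ∀ z : ℂ, (z.im = h ∨ z.im = -h ∨ z.re = b ∨ z.re = -b) → ContinuousAt F z

theorem rectInt_congr {F G : ℂ → ℂ} {b h : ℝ}
    (hFG : ∀ z : ℂ, (z.im = h ∨ z.im = -h ∨ z.re = b ∨ z.re = -b) → F z = G z) :
    rectInt F b h = rectInt G b h := by
  unfold rectInt
  congr 1
  · congr 1
    · congr 1
      · refine intervalIntegral.integral_congr fun x _ => hFG _ ?_
        simp
      · congr 1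
        refine intervalIntegral.integral_congr fun x _ => hFG _ ?_
        simp
    · refine intervalIntegral.integral_congr fun x _ => hFG _ ?_
      simp
  · congr 1
    refine intervalIntegral.integral_congr fun x _ => hFG _ ?_
    simp

theorem BC.bot {F : ℂ → ℂ} {b h : ℝ} (hF : BC F b h) :
    Continuous fun x : ℝ => F ((x : ℂ) - h * Complex.I) := by
  rw [continuous_iff_continuousAt]
  intro x
  have h1 : ContinuousAt F ((x : ℂ) - h * Complex.I) := hF _ (by simp)
  exact ContinuousAt.comp (f := fun x : ℝ => (x : ℂ) - h * Complex.I) h1 (by fun_prop)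

theorem BC.top {F : ℂ → ℂ} {b h : ℝ} (hF : BC F b h) :
    Continuous fun x : ℝ => F ((x : ℂ) + h * Complex.I) := by
  rw [continuous_iff_continuousAt]
  intro x
  have h1 : ContinuousAt F ((x : ℂ) + h * Complex.I) := hF _ (by simp)
  exact ContinuousAt.comp (f := fun x : ℝ => (x : ℂ) + h * Complex.I) h1 (by fun_prop)

theorem BC.rt {F : ℂ → ℂ} {b h : ℝ} (hF : BC F b h) :
    Continuous fun y : ℝ => F ((b : ℂ) + y * Complex.I) := by
  rw [continuous_iff_continuousAt]
  intro x
  have h1 : ContinuousAt F ((b : ℂ) + x * Complex.I) := hF _ (by simp)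
  exact ContinuousAt.comp (f := fun x : ℝ => (b : ℂ) + x * Complex.I) h1 (by fun_prop)

theorem BC.lt {F : ℂ → ℂ} {b h : ℝ} (hF : BC F b h) :
    Continuous fun y : ℝ => F (((-b : ℝ) : ℂ) + y * Complex.I) := by
  rw [continuous_iff_continuousAt]
  intro x
  have h1 : ContinuousAt F (((-b : ℝ) : ℂ) + x * Complex.I) := hF _ (by simp)
  exact ContinuousAt.comp (f := fun x : ℝ => ((-b : ℝ) : ℂ) + x * Complex.I) h1 (by fun_prop)

theorem rectInt_add {F G : ℂ → ℂ} {b h : ℝ} (hF : BC F b h) (hG : BC G b h) :
    rectInt (fun z => F z + G z) b h = rectInt F b h + rectInt G b h := by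
  unfold rectInt
  rw [intervalIntegral.integral_add (hF.bot.intervalIntegrable _ _) (hG.bot.intervalIntegrable _ _),
    intervalIntegral.integral_add (hF.rt.intervalIntegrable _ _) (hG.rt.intervalIntegrable _ _),
    intervalIntegral.integral_add (hF.top.intervalIntegrable _ _) (hG.top.intervalIntegrable _ _),
    intervalIntegral.integral_add (hF.lt.intervalIntegrable _ _) (hG.lt.intervalIntegrable _ _)]
  ring

theorem rectInt_mul (c : ℂ) (F : ℂ → ℂ) (b h : ℝ) :
    rectInt (fun z => c * F z) b h = c * rectInt F b h := by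
  unfold rectInt
  rw [intervalIntegral.integral_const_mul, intervalIntegral.integral_const_mul,
    intervalIntegral.integral_const_mul, intervalIntegral.integral_const_mul]
  ring

theorem BC.add {F G : ℂ → ℂ} {b h : ℝ} (hF : BC F b h) (hG : BC G b h) :
    BC (fun z => F z + G z) b h := fun z hz => (hF z hz).add (hG z hz)

theorem BC.mul {F G : ℂ → ℂ} {b h : ℝ} (hF : BC F b h) (hG : BC G b h) :
    BC (fun z => F z * G z) b h := fun z hz => (hF z hz).mul (hG z hz)

theorem BC.const_mul {F : ℂ → ℂ} {b h : ℝ} (c : ℂ) (hF : BC F b h) :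
    BC (fun z => c * F z) b h := fun z hz => continuousAt_const.mul (hF z hz)

theorem BC.sum {ι : Type*} {F : ι → ℂ → ℂ} {b h : ℝ} (I : Finset ι)
    (hF : ∀ i ∈ I, BC (F i) b h) : BC (fun z => ∑ i ∈ I, F i z) b h := by
  intro z hz
  exact tendsto_finsetSum _ fun i hi => hF i hi z hz

theorem rectInt_sum {ι : Type*} {F : ι → ℂ → ℂ} {b h : ℝ} (I : Finset ι)
    (hF : ∀ i ∈ I, BC (F i) b h) :
    rectInt (fun z => ∑ i ∈ I, F i z) b h = ∑ i ∈ I, rectInt (F i) b h := by
  classical
  induction I using Finset.induction_on with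
  | empty => simp [rectInt]
  | insert i I hi ih =>
    have h1 : (fun z => ∑ j ∈ insert i I, F j z) = fun z => F i z + ∑ j ∈ I, F j z := by
      funext z
      rw [Finset.sum_insert hi]
    rw [h1, rectInt_add (hF i (Finset.mem_insert_self _ _))
      (BC.sum I fun j hj => hF j (Finset.mem_insert_of_mem hj)), Finset.sum_insert hi,
      ih fun j hj => hF j (Finset.mem_insert_of_mem hj)]

theorem side_ne {b h w : ℝ} (hh : 0 < h) (hw : |w| < b) {z : ℂ}
    (hz : z.im = h ∨ z.im = -h ∨ z.re = b ∨ z.re = -b) : z - (w : ℂ) ≠ 0 := by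
  rw [abs_lt] at hw
  intro h0
  have h1 : z = w := sub_eq_zero.mp h0
  rw [h1] at hz
  simp only [Complex.ofReal_im, Complex.ofReal_re] at hz
  rcases hz with hz | hz | hz | hz <;> linarith only [hh, hz, hw, hw.1, hw.2]

theorem rect_inv {b h w : ℝ} (hh : 0 < h) (hw : |w| < b) :
    rectInt (fun z => 1 / (z - w)) b h = 2 * Real.pi * Complex.I := by
  have hw' := abs_lt.mp hw
  have key : ∀ (g g' : ℝ → ℂ) (p q : ℝ), Continuous g' → (∀ x, HasDerivAt g (g' x) x) →
      ∫ x in p..q, g' x = g q - g p := by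
    intro g g' p q hc hd
    exact intervalIntegral.integral_eq_sub_of_hasDerivAt (fun x _ => hd x)
      (hc.intervalIntegrable _ _)
  have hBC : BC (fun z => 1 / (z - w)) b h := by
    intro z hz
    have := side_ne hh hw hz
    fun_prop (disch := assumption)
  have i1 : ∫ x in (-b)..b, 1 / ((x : ℂ) - h * Complex.I - w) =
      Complex.log ((b : ℂ) - h * Complex.I - w) - Complex.log (((-b : ℝ) : ℂ) - h * Complex.I - w) := by
    refine key (fun x => Complex.log ((x : ℂ) - h * Complex.I - w)) _ _ _ hBC.bot fun x => ?_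
    have h1 : (x : ℂ) - h * Complex.I - w ∈ Complex.slitPlane := by
      rw [Complex.mem_slitPlane_iff]
      right
      simp
      linarith only [hh]
    have h2 : HasDerivAt (fun x : ℝ => (x : ℂ) - h * Complex.I - w) 1 x :=
      ((Complex.ofRealCLM.hasDerivAt (x := x)).sub_const _).sub_const _
    exact h2.clog_real h1
  have i2 : ∫ x in (-b)..b, 1 / ((x : ℂ) + h * Complex.I - w) =
      Complex.log ((b : ℂ) + h * Complex.I - w) - Complex.log (((-b : ℝ) : ℂ) + h * Complex.I - w) := by
    refine key (fun x => Complex.log ((x : ℂ) + h * Complex.I - w)) _ _ _ hBC.top fun x => ?_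
    have h1 : (x : ℂ) + h * Complex.I - w ∈ Complex.slitPlane := by
      rw [Complex.mem_slitPlane_iff]
      right
      simp
      linarith only [hh]
    have h2 : HasDerivAt (fun x : ℝ => (x : ℂ) + h * Complex.I - w) 1 x :=
      ((Complex.ofRealCLM.hasDerivAt (x := x)).add_const _).sub_const _
    exact h2.clog_real h1
  have i3 : Complex.I * ∫ y in (-h)..h, 1 / ((b : ℂ) + y * Complex.I - w) =
      Complex.log ((b : ℂ) + h * Complex.I - w) - Complex.log ((b : ℂ) + ((-h : ℝ) : ℂ) * Complex.I - w) := by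
    rw [← intervalIntegral.integral_const_mul]
    refine key (fun y => Complex.log ((b : ℂ) + y * Complex.I - w)) _ _ _
      (continuous_const.mul hBC.rt) fun y => ?_
    have h1 : (b : ℂ) + y * Complex.I - w ∈ Complex.slitPlane := by
      rw [Complex.mem_slitPlane_iff]
      left
      simp
      linarith only [hw']
    have h2 : HasDerivAt (fun y : ℝ => (b : ℂ) + y * Complex.I - w) Complex.I y := by
      have := (((Complex.ofRealCLM.hasDerivAt (x := y)).mul_const Complex.I).const_add (b : ℂ)).sub_const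
        (w : ℂ)
      simpa using this
    have h3 := h2.clog_real h1
    rw [mul_one_div]
    exact h3
  have i4 : Complex.I * ∫ y in (-h)..h, 1 / (((-b : ℝ) : ℂ) + y * Complex.I - w) =
      Complex.log (-(((-b : ℝ) : ℂ) + h * Complex.I - w)) -
        Complex.log (-(((-b : ℝ) : ℂ) + ((-h : ℝ) : ℂ) * Complex.I - w)) := by
    rw [← intervalIntegral.integral_const_mul]
    refine key (fun y => Complex.log (-(((-b : ℝ) : ℂ) + y * Complex.I - w))) _ _ _
      (continuous_const.mul hBC.lt) fun y => ?_
    have h1 : -(((-b : ℝ) : ℂ) + y * Complex.I - w) ∈ Complex.slitPlane := by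
      rw [Complex.mem_slitPlane_iff]
      left
      simp
      linarith only [hw']
    have h2 : HasDerivAt (fun y : ℝ => -(((-b : ℝ) : ℂ) + y * Complex.I - w)) (-Complex.I) y := by
      have := ((((Complex.ofRealCLM.hasDerivAt (x := y)).mul_const Complex.I).const_add
        ((-b : ℝ) : ℂ)).sub_const (w : ℂ)).fun_neg
      simpa only [Complex.ofRealCLM_apply, Complex.ofReal_one, one_mul] using this
    have h3 := h2.clog_real h1
    rw [mul_one_div]
    rw [neg_div_neg_eq] at h3
    exact h3
  unfold rectInt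
  simp only
  rw [i1, i2, i3, i4]
  set p : ℂ := (b : ℂ) + w with hp
  have e1 : ((-b : ℝ) : ℂ) - h * Complex.I - w = -(p + h * Complex.I) := by
    rw [hp]; push_cast; ring
  have e2 : ((-b : ℝ) : ℂ) + h * Complex.I - w = -(p - h * Complex.I) := by
    rw [hp]; push_cast; ring
  have e3 : (b : ℂ) + ((-h : ℝ) : ℂ) * Complex.I - w = (b : ℂ) - h * Complex.I - w := by
    push_cast; ring
  have e4 : ((-b : ℝ) : ℂ) + ((-h : ℝ) : ℂ) * Complex.I - w = -(p + h * Complex.I) := by
    rw [hp]; push_cast; ring
  rw [e1, e2, e3, e4, neg_neg, neg_neg]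
  have l1 : Complex.log (-(p + h * Complex.I)) = Complex.log (p + h * Complex.I) -
      Real.pi * Complex.I := by
    have : 0 < (p + h * Complex.I).im := by simp [hp, hh]
    unfold Complex.log
    rw [Complex.arg_neg_eq_arg_sub_pi_of_im_pos this, norm_neg]
    push_cast
    ring
  have l2 : Complex.log (-(p - h * Complex.I)) = Complex.log (p - h * Complex.I) +
      Real.pi * Complex.I := by
    have : (p - h * Complex.I).im < 0 := by simp [hp, hh]
    unfold Complex.log
    rw [Complex.arg_neg_eq_arg_add_pi_of_im_neg this, norm_neg]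
    push_cast
    ring
  rw [l1, l2]
  ring

/-- Cauchy's formula for the rectangle -/
theorem rect_cauchy {N : ℂ → ℂ} {b h w : ℝ} (hh : 0 < h) (hw : |w| < b)
    (hN : DifferentiableOn ℂ N (Set.Icc (-b) b ×ℂ Set.Icc (-h) h)) (hB : BC N b h) :
    rectInt (fun z => N z / (z - w)) b h = 2 * Real.pi * Complex.I * N w := by
  have hb : 0 < b := lt_of_le_of_lt (abs_nonneg _) hw
  have hw' := abs_lt.mp hw
  have hmem : (Set.Icc (-b) b ×ℂ Set.Icc (-h) h) ∈ nhds (w : ℂ) := by
    refine Filter.mem_of_superset ((isOpen_Ioo (a := -b) (b := b)).reProdIm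
      (isOpen_Ioo (a := -h) (b := h)) |>.mem_nhds ?_) ?_
    · rw [Complex.mem_reProdIm]
      simp only [Complex.ofReal_re, Complex.ofReal_im, Set.mem_Ioo]
      exact ⟨hw', by linarith only [hh], hh⟩
    · intro z hz
      rw [Complex.mem_reProdIm] at hz ⊢
      exact ⟨Set.Ioo_subset_Icc_self hz.1, Set.Ioo_subset_Icc_self hz.2⟩
  have hD := (Complex.differentiableOn_dslope hmem).mpr hN
  have h0 := Complex.integral_boundary_rect_eq_zero_of_differentiableOn (dslope N w)
    (⟨-b, -h⟩ : ℂ) (⟨b, h⟩ : ℂ) (by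
      simp only [Set.uIcc_of_le (show -b ≤ b by linarith only [hb]), Set.uIcc_of_le (show -h ≤ h by linarith only [hh])]
      exact hD)
  simp only [smul_eq_mul] at h0
  have h1 : rectInt (dslope N w) b h = 0 := by
    unfold rectInt
    rw [← h0]
    simp only [Complex.ofReal_neg, neg_mul, ← sub_eq_add_neg]
    ring
  have h2 : rectInt (fun z => N z / (z - w)) b h =
      rectInt (fun z => dslope N w z + N w * (1 / (z - w))) b h := by
    refine rectInt_congr fun z hz => ?_
    have hne := side_ne hh hw hz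
    rw [dslope_of_ne _ (sub_ne_zero.mp hne), slope_def_field]
    field_simp
    ring
  have hBD : BC (dslope N w) b h := by
    intro z hz
    have hne := side_ne hh hw hz
    rw [continuousAt_dslope_of_ne (sub_ne_zero.mp hne)]
    exact hB z hz
  have hBI : BC (fun z => 1 / (z - w)) b h := by
    intro z hz
    have := side_ne hh hw hz
    fun_prop (disch := assumption)
  rw [h2, rectInt_add hBD (hBI.const_mul (N w)), h1, rectInt_mul, rect_inv hh hw]
  ring

theorem sin_rect_ne {b w : ℝ} (hw : |w| < b) {z : ℂ} (hz : |z.re| ≤ b ∨ z.im ≠ 0)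
    (hne : z ≠ w) : Complex.sin (Real.pi * (z - w) / (2 * b)) ≠ 0 := by
  have hb : 0 < b := lt_of_le_of_lt (abs_nonneg _) hw
  intro h0
  rw [Complex.sin_eq_zero_iff] at h0
  obtain ⟨m, hm⟩ := h0
  have hb' : (b : ℂ) ≠ 0 := by exact_mod_cast hb.ne'
  have hpi : (Real.pi : ℂ) ≠ 0 := by exact_mod_cast Real.pi_ne_zero
  have h1 : z = w + 2 * b * m := by
    field_simp at hm
    linear_combination hm
  have h2 : z.re = w + 2 * b * m := by
    rw [h1]; simp
  have h3 : z.im = 0 := by
    rw [h1]; simp
  rcases hz with hz | hz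
  · have h4 : |2 * b * (m : ℝ)| < 2 * b := by
      have : 2 * b * (m : ℝ) = z.re - w := by linarith only [h2]
      rw [this]
      calc |z.re - w| ≤ |z.re| + |w| := abs_sub _ _
        _ < 2 * b := by linarith only [hw, hz]
    rw [abs_mul, abs_of_pos (by positivity : 0 < 2 * b)] at h4
    have h5 : |(m : ℝ)| < 1 := by
      by_contra hc
      push Not at hc
      nlinarith only [h4, hb, hc]
    have h6 : m = 0 := by
      have : |m| < 1 := by exact_mod_cast h5
      exact Int.abs_lt_one_iff.mp this
    apply hne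
    rw [h1, h6]
    simp
  · exact hz h3

theorem rect_cot {F : ℂ → ℂ} (hF : Differentiable ℂ F) {b h w : ℝ} (hh : 0 < h) (hw : |w| < b) :
    rectInt (fun z => F z * (Real.pi / (2 * b) * (Complex.cos (Real.pi * (z - w) / (2 * b)) /
      Complex.sin (Real.pi * (z - w) / (2 * b))))) b h = 2 * Real.pi * Complex.I * F w := by
  have hb : 0 < b := lt_of_le_of_lt (abs_nonneg _) hw
  have hb' : (b : ℂ) ≠ 0 := by exact_mod_cast hb.ne'
  have hpi : (Real.pi : ℂ) ≠ 0 := by exact_mod_cast Real.pi_ne_zero
  set sn : ℂ → ℂ := fun z => Complex.sin (Real.pi * (z - w) / (2 * b)) with hsn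
  set S : ℂ → ℂ := dslope sn w with hS
  have hsnd : Differentiable ℂ sn := by
    rw [hsn]
    fun_prop
  have hSd : Differentiable ℂ S := by
    rw [← differentiableOn_univ]
    exact (Complex.differentiableOn_dslope Filter.univ_mem).mpr hsnd.differentiableOn
  have hSw : S w = Real.pi / (2 * b) := by
    rw [hS, dslope_same]
    have h1 : HasDerivAt (fun z : ℂ => Real.pi * (z - w) / (2 * b)) (Real.pi / (2 * b) : ℂ) w := by
      have := (((hasDerivAt_id (w : ℂ)).sub_const (w : ℂ)).const_mul (Real.pi : ℂ)).div_const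
        ((2 * b : ℂ))
      simpa using this
    have h2 := h1.csin
    simp only [sub_self, mul_zero, zero_div, Complex.cos_zero, one_mul] at h2
    exact h2.deriv
  have hSne : ∀ z : ℂ, (|z.re| ≤ b ∨ z.im ≠ 0) → S z ≠ 0 := by
    intro z hz
    by_cases hzw : z = w
    · rw [hzw, hSw]
      exact div_ne_zero hpi (mul_ne_zero two_ne_zero hb')
    · rw [hS, dslope_of_ne _ hzw, slope_def_field, hsn]
      simp only [sub_self, mul_zero, zero_div, Complex.sin_zero, sub_zero]
      exact div_ne_zero (sin_rect_ne hw hz hzw) (sub_ne_zero.mpr hzw)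
  have hside : ∀ z : ℂ, (z.im = h ∨ z.im = -h ∨ z.re = b ∨ z.re = -b) →
      (|z.re| ≤ b ∨ z.im ≠ 0) := by
    intro z hz
    rcases hz with hz | hz | hz | hz
    · right; rw [hz]; exact hh.ne'
    · right; rw [hz]; linarith only [hh]
    · left; rw [hz, abs_of_pos hb]
    · left; rw [hz, abs_neg, abs_of_pos hb]
  set N : ℂ → ℂ := fun z => F z * (Real.pi / (2 * b) *
    (Complex.cos (Real.pi * (z - w) / (2 * b)) / S z)) with hN
  have hNd : ∀ z : ℂ, (|z.re| ≤ b ∨ z.im ≠ 0) → DifferentiableAt ℂ N z := by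
    intro z hz
    have h1 := hSne z hz
    have h2 : DifferentiableAt ℂ (fun z : ℂ => Complex.cos (Real.pi * (z - w) / (2 * b))) z := by
      fun_prop
    exact (hF z).mul ((differentiableAt_const _).mul (h2.div (hSd z) h1))
  have hc := rect_cauchy hh hw (N := N) (by
    intro z hz
    rw [Complex.mem_reProdIm] at hz
    exact (hNd z (Or.inl (abs_le.mpr hz.1))).differentiableWithinAt)
    (fun z hz => (hNd z (hside z hz)).continuousAt)
  rw [show N w = F w by
    rw [hN]
    simp only [hSw, sub_self, mul_zero, zero_div, Complex.cos_zero]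
    field_simp] at hc
  rw [← hc]
  refine rectInt_congr fun z hz => ?_
  have hne := side_ne hh hw hz
  have h1 : S z = sn z / (z - w) := by
    rw [hS, dslope_of_ne _ (sub_ne_zero.mp hne), slope_def_field, hsn]
    simp
  have h2 : sn z ≠ 0 := sin_rect_ne hw (hside z hz) (sub_ne_zero.mp hne)
  simp only [hN, h1]
  change F z * (Real.pi / (2 * b) * (Complex.cos (Real.pi * (z - w) / (2 * b)) / sn z)) = _
  field_simp

end Pool.Agent.Work.MP_b30479_gt.DT
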