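import Pool.Agent.Work.MP_b30479_gt.DT.Nodes
import Pool.Agent.Work.MP_b30479_gt.DT.Rect

/-!
# Divided differences as contour integrals
-/

namespace Pool.Agent.Work.MP_b30479_gt.DT

open Finset TB AX

/-- the integrand for `ε ≠ 0` -/
noncomputable def Ge (a s k : ℕ) (ε : ℝ) (z : ℂ) : ℂ :=
  Complex.exp (Real.pi * Complex.I * a * z ^ 2 / ((2 * s + 1 : ℕ) : ℂ)) *
    Complex.sin (2 * Real.pi * z / ((2 * s + 1 : ℕ) : ℂ)) /
    ∏ l ∈ range (k + 1), (cc (2 * s + 1) z - cc (2 * s + 1) ((l : ℂ) - s + ε))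

/-- partial fractions -/
theorem partial_fractions {c : ℕ → ℂ} {k : ℕ}
    (hc : ∀ i ∈ range (k + 1), ∀ l ∈ range (k + 1), i ≠ l → c i ≠ c l) {C : ℂ}
    (hC : ∀ i ∈ range (k + 1), C ≠ c i) :
    ∑ i ∈ range (k + 1), 1 / (∏ l ∈ (range (k + 1)).erase i, (c i - c l)) * (1 / (C - c i)) =
      1 / ∏ l ∈ range (k + 1), (C - c l) := by
  have hinj : Set.InjOn c (range (k + 1) : Finset ℕ) := by
    intro i hi l hl h
    by_contra hne
    exact hc i hi l hl hne h
  have h1 := Lagrange.eval_interpolate_not_at_node (s := range (k + 1)) (v := c) (x := C)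
    (fun _ => (1 : ℂ)) hC
  have h2 : Lagrange.interpolate (range (k + 1)) c (fun _ => (1 : ℂ)) = 1 := by
    have := Lagrange.interpolate_one (s := range (k + 1)) (v := c) hinj ⟨0, by simp⟩
    exact this
  rw [h2, Polynomial.eval_one, Lagrange.eval_nodal] at h1
  have h3 : ∏ l ∈ range (k + 1), (C - c l) ≠ 0 :=
    Finset.prod_ne_zero_iff.mpr fun i hi => sub_ne_zero.mpr (hC i hi)
  rw [eq_div_iff h3, mul_comm]
  rw [eq_comm] at h1
  convert h1 using 2
  refine Finset.sum_congr rfl fun i hi => ?_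
  rw [Lagrange.nodalWeight, Finset.prod_inv_distrib]
  simp

theorem cc_sub (n : ℕ) (z w : ℂ) : cc n z - cc n w =
    -4 * (Complex.sin (Real.pi * (z - w) / n) * Complex.sin (Real.pi * (z + w) / n)) := by
  unfold cc
  have h1 : (2 : ℂ) * Real.pi * z / n = Real.pi * (z - w) / n + Real.pi * (z + w) / n := by ring
  have h2 : (2 : ℂ) * Real.pi * w / n = Real.pi * (z + w) / n - Real.pi * (z - w) / n := by ring
  rw [h1, h2, Complex.cos_add, Complex.cos_sub]
  ring

theorem cc_side_ne {n : ℕ} {w h : ℝ} (hh : 0 < h) (hw : |w| < (n : ℝ) / 2) {z : ℂ}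
    (hz : z.im = h ∨ z.im = -h ∨ z.re = (n : ℝ) / 2 ∨ z.re = -((n : ℝ) / 2)) :
    Complex.sin (Real.pi * (z - w) / n) ≠ 0 := by
  have hb : 0 < (n : ℝ) / 2 := lt_of_le_of_lt (abs_nonneg _) hw
  have h1 := sin_rect_ne hw (z := z) (by
    rcases hz with hz | hz | hz | hz
    · right; rw [hz]; exact hh.ne'
    · right; rw [hz]; linarith
    · left; rw [hz, abs_of_pos hb]
    · left; rw [hz, abs_neg, abs_of_pos hb]) (sub_ne_zero.mp (side_ne hh hw hz))
  have h2 : (2 : ℂ) * ((((n : ℝ) / 2 : ℝ)) : ℂ) = n := by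
    push_cast; ring
  rwa [h2] at h1

/-- one node -/
theorem one_node {F : ℂ → ℂ} (hF : Differentiable ℂ F) (hev : ∀ z, F (-z) = F z) {n : ℕ} {w h : ℝ}
    (hh : 0 < h) (hw : |w| < (n : ℝ) / 2) :
    rectInt (fun z => F z * Complex.sin (2 * Real.pi * z / n) * (1 / (cc n z - cc n w)))
      ((n : ℝ) / 2) h = -(n * Complex.I) * F w := by
  have hb : 0 < (n : ℝ) / 2 := lt_of_le_of_lt (abs_nonneg _) hw
  have hn : (n : ℂ) ≠ 0 := by
    have : (0 : ℝ) < n := by linarith
    exact_mod_cast this.ne'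
  have hpi : (Real.pi : ℂ) ≠ 0 := by exact_mod_cast Real.pi_ne_zero
  have h1 := rect_cot hF hh hw
  have hw2 : |-w| < (n : ℝ) / 2 := by rwa [abs_neg]
  have h2 := rect_cot hF hh hw2
  have e2 : (2 : ℂ) * ((((n : ℝ) / 2 : ℝ)) : ℂ) = n := by
    push_cast; ring
  rw [e2] at h1 h2
  have hBC : ∀ v : ℝ, |v| < (n : ℝ) / 2 → BC (fun z => F z * (Real.pi / n *
      (Complex.cos (Real.pi * (z - v) / n) / Complex.sin (Real.pi * (z - v) / n)))) ((n : ℝ) / 2) h := by
    intro v hv z hz
    have hne := cc_side_ne hh hv hz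
    have hFz := (hF z).continuousAt
    fun_prop (disch := assumption)
  have h3 := rectInt_add (hBC w hw) (hBC (-w) hw2)
  rw [h1, h2] at h3
  rw [show F ((-w : ℝ) : ℂ) = F w by push_cast; exact hev _] at h3
  have h4 : rectInt (fun z => F z * Complex.sin (2 * Real.pi * z / n) * (1 / (cc n z - cc n w)))
      ((n : ℝ) / 2) h = rectInt (fun z => (-(n / (4 * Real.pi)) : ℂ) *
        (F z * (Real.pi / n * (Complex.cos (Real.pi * (z - w) / n) /
          Complex.sin (Real.pi * (z - w) / n))) +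
        F z * (Real.pi / n * (Complex.cos (Real.pi * (z - (-w : ℝ)) / n) /
          Complex.sin (Real.pi * (z - (-w : ℝ)) / n))))) ((n : ℝ) / 2) h := by
    refine rectInt_congr fun z hz => ?_
    have n1 := cc_side_ne hh hw hz
    have n2 := cc_side_ne hh hw2 hz
    rw [show z - ((-w : ℝ) : ℂ) = z + w by push_cast; ring] at n2 ⊢
    rw [cc_sub, show (2 : ℂ) * Real.pi * z / n = Real.pi * (z - w) / n + Real.pi * (z + w) / n by ring,
      Complex.sin_add]
    set A := Complex.sin (Real.pi * (z - w) / n)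
    set B := Complex.sin (Real.pi * (z + w) / n)
    set CA := Complex.cos (Real.pi * (z - w) / n)
    set CB := Complex.cos (Real.pi * (z + w) / n)
    field_simp
    ring
  rw [h4, rectInt_mul, h3]
  field_simp
  ring

/-- integral of an odd function -/
theorem rectInt_odd {F : ℂ → ℂ} {b h : ℝ} (hF : BC F b h) (hodd : ∀ z, F (-z) = -F z) :
    rectInt F b h = 2 * pathInt F b (-b) h h := by
  unfold rectInt pathInt
  have e1 : ∫ x in (-b)..b, F ((x : ℂ) - h * Complex.I) =
      -∫ x in (-b)..b, F ((x : ℂ) + h * Complex.I) := by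
    have := intervalIntegral.integral_comp_neg (a := -b) (b := b)
      (fun x : ℝ => F ((x : ℂ) - h * Complex.I))
    rw [neg_neg] at this
    rw [← this, ← intervalIntegral.integral_neg]
    refine intervalIntegral.integral_congr fun x _ => ?_
    rw [← hodd]
    congr 1
    push_cast
    ring
  have e2 : ∫ y in (-h)..h, F ((b : ℂ) + y * Complex.I) =
      (∫ y in (0 : ℝ)..h, F ((b : ℂ) + y * Complex.I)) -
        ∫ y in (0 : ℝ)..h, F (((-b : ℝ) : ℂ) + y * Complex.I) := by
    rw [← intervalIntegral.integral_add_adjacent_intervals (b := 0)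
      (hF.rt.intervalIntegrable _ _) (hF.rt.intervalIntegrable _ _)]
    have := intervalIntegral.integral_comp_neg (a := 0) (b := h)
      (fun y : ℝ => F ((b : ℂ) + y * Complex.I))
    rw [neg_zero] at this
    rw [← this, add_comm, sub_eq_add_neg, ← intervalIntegral.integral_neg]
    congr 1
    refine intervalIntegral.integral_congr fun x _ => ?_
    rw [← hodd]
    congr 1
    push_cast
    ring
  have e3 : ∫ y in (-h)..h, F (((-b : ℝ) : ℂ) + y * Complex.I) =
      (∫ y in (0 : ℝ)..h, F (((-b : ℝ) : ℂ) + y * Complex.I)) -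
        ∫ y in (0 : ℝ)..h, F ((b : ℂ) + y * Complex.I) := by
    rw [← intervalIntegral.integral_add_adjacent_intervals (b := 0)
      (hF.lt.intervalIntegrable _ _) (hF.lt.intervalIntegrable _ _)]
    have := intervalIntegral.integral_comp_neg (a := 0) (b := h)
      (fun y : ℝ => F (((-b : ℝ) : ℂ) + y * Complex.I))
    rw [neg_zero] at this
    rw [← this, add_comm, sub_eq_add_neg, ← intervalIntegral.integral_neg]
    congr 1
    refine intervalIntegral.integral_congr fun x _ => ?_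
    rw [← hodd]
    congr 1
    push_cast
    ring
  rw [e1, e2, e3]
  simp only [intervalIntegral.integral_same]
  ring

theorem dd_contour {s a k : ℕ} (hk : k ≤ 2 * s) {ε : ℝ} (h0 : 0 < ε) (h1 : ε < 1 / 2) {h : ℝ}
    (hh : 0 < h) :
    ‖dd (fun i => cc (2 * s + 1) ((i : ℂ) - s + ε))
      (fun i => Complex.exp (Real.pi * Complex.I * a * ((i : ℂ) - s + ε) ^ 2 /
        ((2 * s + 1 : ℕ) : ℂ))) 0 k‖ =
      2 / ((2 * s + 1 : ℕ) : ℝ) * ‖pathInt (Ge a s k ε) (hn s) (-(hn s)) h h‖ := by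
  set n : ℕ := 2 * s + 1 with hnn
  have hn0 : (n : ℂ) ≠ 0 := by
    rw [hnn]; exact_mod_cast (by omega : 2 * s + 1 ≠ 0)
  have hnpos : (0 : ℝ) < n := by
    rw [hnn]; exact_mod_cast (by omega : 0 < 2 * s + 1)
  have hhn : hn s = (n : ℝ) / 2 := rfl
  set Th : ℂ → ℂ := fun z => Complex.exp (Real.pi * Complex.I * a * z ^ 2 / (n : ℂ)) with hTh
  set w : ℕ → ℝ := fun i => (i : ℝ) - s + ε with hwdef
  have hwc : ∀ i : ℕ, ((w i : ℝ) : ℂ) = (i : ℂ) - s + ε := by
    intro i; rw [hwdef]; push_cast; ring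
  have hw : ∀ i ∈ range (k + 1), |w i| < (n : ℝ) / 2 := by
    intro i hi
    have h2 : (i : ℝ) ≤ 2 * s := by
      have : i ≤ 2 * s := by rw [Finset.mem_range] at hi; omega
      exact_mod_cast this
    have h3 : (0 : ℝ) ≤ i := Nat.cast_nonneg _
    rw [hwdef, hnn, abs_lt]
    push_cast
    constructor <;> linarith
  have hTd : Differentiable ℂ Th := by
    rw [hTh]; fun_prop
  have hTe : ∀ z, Th (-z) = Th z := by
    intro z; rw [hTh]; simp
  have hcn : ∀ i ∈ range (k + 1), ∀ l ∈ range (k + 1), i ≠ l →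
      (fun j : ℕ => cc n ((j : ℂ) - s + ε)) i ≠ (fun j : ℕ => cc n ((j : ℂ) - s + ε)) l := by
    intro i hi l hl hne
    rw [Finset.mem_range] at hi hl
    exact cc_ne h0 h1 (by omega) (by omega) hne
  have hC : ∀ z : ℂ, (z.im = h ∨ z.im = -h ∨ z.re = (n : ℝ) / 2 ∨ z.re = -((n : ℝ) / 2)) →
      ∀ i ∈ range (k + 1), cc n z ≠ cc n ((i : ℂ) - s + ε) := by
    intro z hz i hi
    rw [← sub_ne_zero, cc_sub, ← hwc]
    have n1 := cc_side_ne hh (hw i hi) hz
    have hw2 : |-(w i)| < (n : ℝ) / 2 := by rw [abs_neg]; exact hw i hi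
    have n2 := cc_side_ne hh hw2 hz
    rw [show z - ((-(w i) : ℝ) : ℂ) = z + w i by push_cast; ring] at n2
    exact mul_ne_zero (by norm_num) (mul_ne_zero n1 n2)
  have hccc : Continuous (cc n) := by
    unfold cc; fun_prop
  -- the integrand for one node
  have hBC : ∀ i ∈ range (k + 1), BC (fun z => 1 / (∏ l ∈ (range (k + 1)).erase i,
      (cc n ((i : ℂ) - s + ε) - cc n ((l : ℂ) - s + ε))) *
      (Th z * Complex.sin (2 * Real.pi * z / n) * (1 / (cc n z - cc n (w i))))) ((n : ℝ) / 2) h := by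
    intro i hi z hz
    have hne : cc n z - cc n (w i) ≠ 0 := by
      rw [hwc]; exact sub_ne_zero.mpr (hC z hz i hi)
    have c1 : ContinuousAt Th z := (hTd z).continuousAt
    have c2 : ContinuousAt (cc n) z := hccc.continuousAt
    fun_prop (disch := assumption)
  have h3 := rectInt_sum (range (k + 1)) hBC
  have h4 : rectInt (Ge a s k ε) ((n : ℝ) / 2) h = rectInt (fun z => ∑ i ∈ range (k + 1),
      1 / (∏ l ∈ (range (k + 1)).erase i,
      (cc n ((i : ℂ) - s + ε) - cc n ((l : ℂ) - s + ε))) *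
      (Th z * Complex.sin (2 * Real.pi * z / n) * (1 / (cc n z - cc n (w i))))) ((n : ℝ) / 2) h := by
    refine rectInt_congr fun z hz => ?_
    have h5 := partial_fractions hcn (hC z hz)
    unfold Ge
    rw [← hnn, div_eq_mul_one_div _ (∏ l ∈ range (k + 1), _)]
    rw [← h5, Finset.mul_sum]
    refine Finset.sum_congr rfl fun i _ => ?_
    rw [hwc]
    ring
  have h6 : dd (fun i => cc n ((i : ℂ) - s + ε))
      (fun i => Complex.exp (Real.pi * Complex.I * a * ((i : ℂ) - s + ε) ^ 2 / (n : ℂ))) 0 k =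
      ∑ i ∈ range (k + 1), Th (w i) / (∏ l ∈ (range (k + 1)).erase i,
      (cc n ((i : ℂ) - s + ε) - cc n ((l : ℂ) - s + ε))) := by
    unfold dd
    rw [show Icc 0 k = range (k + 1) by ext x; simp only [Finset.mem_Icc, Finset.mem_range]; omega]
    refine Finset.sum_congr rfl fun i _ => ?_
    rw [hwc]
  have h7 : rectInt (Ge a s k ε) ((n : ℝ) / 2) h = -(n * Complex.I) *
      dd (fun i => cc n ((i : ℂ) - s + ε))
      (fun i => Complex.exp (Real.pi * Complex.I * a * ((i : ℂ) - s + ε) ^ 2 / (n : ℂ))) 0 k := by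
    rw [h4, h3, h6, Finset.mul_sum]
    refine Finset.sum_congr rfl fun i hi => ?_
    rw [rectInt_mul, one_node hTd hTe hh (hw i hi)]
    ring
  have hGB : BC (Ge a s k ε) ((n : ℝ) / 2) h := by
    intro z hz
    have hne : ∏ l ∈ range (k + 1), (cc n z - cc n ((l : ℂ) - s + ε)) ≠ 0 :=
      Finset.prod_ne_zero_iff.mpr fun i hi => sub_ne_zero.mpr (hC z hz i hi)
    have c1 : ContinuousAt (fun z => ∏ l ∈ range (k + 1), (cc n z - cc n ((l : ℂ) - s + ε))) z := by
      refine Continuous.continuousAt ?_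
      exact continuous_finsetProd _ fun i _ => hccc.sub continuous_const
    unfold Ge
    refine ContinuousAt.div ?_ c1 hne
    fun_prop
  have hodd : ∀ z, Ge a s k ε (-z) = -Ge a s k ε z := by
    intro z
    unfold Ge cc
    have e1 : ∀ n' : ℂ, (2 : ℂ) * Real.pi * (-z) / n' = -(2 * Real.pi * z / n') := by
      intro n'; ring
    simp only [e1, Complex.sin_neg, Complex.cos_neg, neg_sq]
    ring
  have h8 := rectInt_odd hGB hodd
  rw [h7] at h8
  have h9 := congrArg norm h8
  rw [norm_mul, norm_mul, norm_neg, norm_mul, Complex.norm_I, mul_one, Complex.norm_natCast,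
    Complex.norm_ofNat] at h9
  rw [hhn]
  field_simp
  linarith

end Pool.Agent.Work.MP_b30479_gt.DT
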