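import Pool.Agent.Work.MP_b30479_gt.DT.RDefs
import Pool.Agent.Work.MP_b30479_gt.AX.DefsB

/-!
# The normalised integrals
-/

namespace Pool.Agent.Work.MP_b30479_gt.DT

open Finset TB AX

/-- the central value `f(k₀)² |G_{k₀}(z₀)|` -/
noncomputable def P0 (a : ℕ) (η₀ ς₀ ρ₀ : ℝ) (s : ℕ) : ℝ :=
  fS (2 * s + 1) (k0 η₀ s) ^ 2 *
    ‖Gk a s (k0 η₀ s) (((2 * s + 1 : ℕ) : ℂ) * (ς₀ + ρ₀ * Complex.I))‖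

/-- the normalised main integral -/
noncomputable def Uk (a : ℕ) (η₀ ς₀ ρ₀ : ℝ) (s k : ℕ) : ℂ :=
  ((fS (2 * s + 1) k ^ 2 / (P0 a η₀ ς₀ ρ₀ s * √((2 * s + 1 : ℕ) : ℝ)) : ℝ) : ℂ) * Mk a ρ₀ s k

end Pool.Agent.Work.MP_b30479_gt.DT
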