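import Pool.Agent.Work.MP_b30479_gt.DT.Conc

/-!
# Quadratic bound at the saddle point
-/

namespace Pool.Agent.Work.MP_b30479_gt.DT

open Finset TB AX

/-- the lower bound of the Hessian form -/
noncomputable def mq (ρ η ς : ℝ) : ℝ :=
  (rr ρ (η + ς) * rr ρ (η - ς) + Real.tan (Real.pi * η) / 2 * (rr ρ (η + ς) + rr ρ (η - ς))) /
    (rr ρ (η + ς) + rr ρ (η - ς) + Real.tan (Real.pi * η))

theorem tan_eta_pos {η : ℝ} (h0 : 0 < η) (h1 : η < 1 / 2) : 0 < Real.tan (Real.pi * η) := by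
  have := Real.pi_pos
  apply Real.tan_pos_of_pos_of_lt_pi_div_two
  · positivity
  · nlinarith only [h1, this]

theorem mq_pos {η ς ρ : ℝ} (h0 : 0 < η) (h1 : η < 1 / 2) (h2 : |ς| ≤ η) (h3 : |ς| < 1 / 4)
    (hρ : 0 < ρ) : 0 < mq ρ η ς := by
  have k1 := rr_add_pos h0 h1 h2 h3 hρ
  have k2 := rr_det_pos h0 h1 h2 h3 hρ
  have k3 := tan_eta_pos h0 h1
  exact div_pos k2 (by linarith only [k1, k3])

theorem mq_bound {η ς ρ : ℝ} (h0 : 0 < η) (h1 : η < 1 / 2) (h2 : |ς| ≤ η) (h3 : |ς| < 1 / 4)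
    (hρ : 0 < ρ) (α β : ℝ) :
    2 * mq ρ η ς * (α ^ 2 + β ^ 2) ≤
      2 * Real.tan (Real.pi * η) * α ^ 2 + rr ρ (η + ς) * (α + β) ^ 2 +
      rr ρ (η - ς) * (α - β) ^ 2 := by
  have k1 := rr_add_pos h0 h1 h2 h3 hρ
  have k3 := tan_eta_pos h0 h1
  unfold mq
  set P := rr ρ (η + ς)
  set Q := rr ρ (η - ς)
  set T := Real.tan (Real.pi * η)
  have hS : 0 < P + Q + T := by linarith only [k1, k3]
  have e : 2 * ((P * Q + T / 2 * (P + Q)) / (P + Q + T)) * (α ^ 2 + β ^ 2) =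
      (2 * (P * Q + T / 2 * (P + Q)) * (α ^ 2 + β ^ 2)) / (P + Q + T) := by ring
  rw [e, div_le_iff₀ hS]
  have e2 : (2 * T * α ^ 2 + P * (α + β) ^ 2 + Q * (α - β) ^ 2) * (P + Q + T) -
      2 * (P * Q + T / 2 * (P + Q)) * (α ^ 2 + β ^ 2) =
      ((P + T / 2) * (α + β) + T * (α - β) / 2) ^ 2 +
      ((Q + T / 2) * (α - β) + T * (α + β) / 2) ^ 2 := by ring
  nlinarith only [sq_nonneg ((P + T / 2) * (α + β) + T * (α - β) / 2),
    sq_nonneg ((Q + T / 2) * (α - β) + T * (α + β) / 2)]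

theorem continuous_rr {ρ : ℝ} (hρ : 0 < ρ) : Continuous (rr ρ) := by
  unfold rr
  apply Continuous.div (by fun_prop) (by fun_prop)
  intro v
  exact (den_pos hρ v).ne'

theorem continuousAt_mq {η ς ρ : ℝ} (h0 : 0 < η) (h1 : η < 1 / 2) (h2 : |ς| ≤ η)
    (h3 : |ς| < 1 / 4) (hρ : 0 < ρ) : ContinuousAt (fun p : ℝ × ℝ => mq ρ p.1 p.2) (η, ς) := by
  have k1 := rr_add_pos h0 h1 h2 h3 hρ
  have k3 := tan_eta_pos h0 h1
  have c1 : ContinuousAt (fun p : ℝ × ℝ => rr ρ (p.1 + p.2)) (η, ς) :=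
    (Continuous.comp (continuous_rr hρ) (by fun_prop :
      Continuous fun p : ℝ × ℝ => p.1 + p.2)).continuousAt
  have c2 : ContinuousAt (fun p : ℝ × ℝ => rr ρ (p.1 - p.2)) (η, ς) :=
    (Continuous.comp (continuous_rr hρ) (by fun_prop :
      Continuous fun p : ℝ × ℝ => p.1 - p.2)).continuousAt
  have c3 : ContinuousAt (fun p : ℝ × ℝ => Real.tan (Real.pi * p.1)) (η, ς) := by
    have hc : Continuous fun p : ℝ × ℝ => Real.pi * p.1 := by fun_prop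
    exact ContinuousAt.comp (g := Real.tan)
      (Real.continuousAt_tan.2 (cos_eta_pos h0.le h1).ne') hc.continuousAt
  unfold mq
  refine ((c1.mul c2).add ((c3.div_const 2).mul (c1.add c2))).div ((c1.add c2).add c3) ?_
  simp only
  linarith only [k1, k3]

/-- the quadratic bound near the saddle point -/
theorem quad_local {a : ℕ} {η₀ ς₀ ρ₀ : ℝ} (h : IsSad a η₀ ς₀ ρ₀) : ∃ r c : ℝ, 0 < r ∧ r < 1 ∧
    0 < c ∧ ∀ α β : ℝ, |α| ≤ r → |β| ≤ r →
      H a (η₀ + α) (ς₀ + β) ρ₀ ≤ H a η₀ ς₀ ρ₀ - c * (α ^ 2 + β ^ 2) := by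
  have hη : 0 < η₀ := lt_of_le_of_lt (abs_nonneg _) h.h1
  have hm := mq_pos hη h.h3 h.h1.le h.h2 h.ρpos
  have hc := continuousAt_mq hη h.h3 h.h1.le h.h2 h.ρpos
  have ev : ∀ᶠ p : ℝ × ℝ in nhds (η₀, ς₀), (0 < p.1 ∧ p.1 < 1 / 2 ∧ |p.2| < p.1 ∧
      |p.2| < 1 / 4) ∧ mq ρ₀ η₀ ς₀ / 2 < mq ρ₀ p.1 p.2 := by
    have i1 : ∀ᶠ p : ℝ × ℝ in nhds (η₀, ς₀), 0 < p.1 :=
      (isOpen_lt continuous_const continuous_fst).mem_nhds hη
    have i2 : ∀ᶠ p : ℝ × ℝ in nhds (η₀, ς₀), p.1 < 1 / 2 :=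
      (isOpen_lt continuous_fst continuous_const).mem_nhds h.h3
    have i3 : ∀ᶠ p : ℝ × ℝ in nhds (η₀, ς₀), |p.2| < p.1 :=
      (isOpen_lt (continuous_abs.comp continuous_snd) continuous_fst).mem_nhds h.h1
    have i4 : ∀ᶠ p : ℝ × ℝ in nhds (η₀, ς₀), |p.2| < 1 / 4 :=
      (isOpen_lt (continuous_abs.comp continuous_snd) continuous_const).mem_nhds h.h2
    have i5 : ∀ᶠ p : ℝ × ℝ in nhds (η₀, ς₀), mq ρ₀ η₀ ς₀ / 2 < mq ρ₀ p.1 p.2 :=
      hc.eventually (lt_mem_nhds (by simp only; linarith only [hm]))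
    filter_upwards [i1, i2, i3, i4, i5] with p a1 a2 a3 a4 a5 using ⟨⟨a1, a2, a3, a4⟩, a5⟩
  obtain ⟨r₁, hr₁, hr⟩ := Metric.nhds_basis_closedBall.eventually_iff.1 ev
  set r := min r₁ (1 / 2) with hrdef
  have hr0 : 0 < r := lt_min hr₁ (by norm_num)
  have hr2 : ∀ α β : ℝ, |α| ≤ r → |β| ≤ r → (0 < η₀ + α ∧ η₀ + α < 1 / 2 ∧ |ς₀ + β| < η₀ + α ∧
      |ς₀ + β| < 1 / 4) ∧ mq ρ₀ η₀ ς₀ / 2 < mq ρ₀ (η₀ + α) (ς₀ + β) := by
    intro α β hα hβ
    have := @hr (η₀ + α, ς₀ + β) (by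
      rw [Metric.mem_closedBall, Prod.dist_eq, Real.dist_eq, Real.dist_eq]
      simp only [add_sub_cancel_left]
      exact max_le (hα.trans (min_le_left _ _)) (hβ.trans (min_le_left _ _)))
    exact this
  set c := Real.pi * (mq ρ₀ η₀ ς₀ / 2) with hcdef
  have hc0 : 0 < c := by positivity
  refine ⟨r, c, hr0, lt_of_le_of_lt (min_le_right _ _) (by norm_num), hc0, ?_⟩
  intro α β hα hβ
  set K := c * (α ^ 2 + β ^ 2) with hK
  -- points of the segment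
  have hseg : ∀ t ∈ Set.Icc (-1 : ℝ) 1, |t * α| ≤ r ∧ |t * β| ≤ r := by
    intro t ht
    have ht' : |t| ≤ 1 := abs_le.2 ht
    constructor
    · rw [abs_mul]; nlinarith only [hr0, ht', hα, abs_nonneg t, abs_nonneg α]
    · rw [abs_mul]; nlinarith only [hr0, ht', hβ, abs_nonneg t, abs_nonneg β]
  have hsin : ∀ t ∈ Set.Icc (-1 : ℝ) 1, Real.sin (Real.pi * (1 / 2 + (η₀ + t * α))) ≠ 0 := by
    intro t ht
    obtain ⟨⟨b0, b1, -, -⟩, -⟩ := hr2 _ _ (hseg t ht).1 (hseg t ht).2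
    have e1 : Real.pi * (1 / 2 + (η₀ + t * α)) = Real.pi * (η₀ + t * α) + Real.pi / 2 := by ring
    rw [e1, Real.sin_add_pi_div_two]
    exact (cos_eta_pos b0.le b1).ne'
  have hd : ∀ t ∈ Set.Icc (-1 : ℝ) 1, _ :=
    fun t ht => hasDerivAt_H_seg (ς := ς₀) (β := β) a h.ρpos (hsin t ht)
  have hd' : ∀ t ∈ Set.Icc (-1 : ℝ) 1, _ :=
    fun t ht => hasDerivAt_H_seg' (ς := ς₀) (β := β) a h.ρpos (hsin t ht)
  set g : ℝ → ℝ := fun t => H a (η₀ + t * α) (ς₀ + t * β) ρ₀ with hg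
  set g' : ℝ → ℝ := fun t => 2 * (el 0 (1 / 2 + (η₀ + t * α)) * α) -
        el ρ₀ ((η₀ + t * α) + (ς₀ + t * β)) * (α + β) -
        el ρ₀ ((η₀ + t * α) - (ς₀ + t * β)) * (α - β) - Real.pi * ρ₀ * (2 * a * β) with hg'
  -- the derivative vanishes at the saddle point
  have hg0 : g' 0 = 0 := by
    have hmax : IsLocalMax g 0 := by
      have : Set.Icc (-1 : ℝ) 1 ∈ nhds (0 : ℝ) := Icc_mem_nhds (by norm_num) (by norm_num)
      filter_upwards [this] with t ht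
      obtain ⟨⟨b0, b1, b2, b3⟩, -⟩ := hr2 _ _ (hseg t ht).1 (hseg t ht).2
      have := h.max (η₀ + t * α) (ς₀ + t * β) ⟨b0.le, b1.le, b2.le, b3.le⟩
      simpa [hg] using this
    exact hmax.hasDerivAt_eq_zero (hd 0 (by norm_num))
  -- first step: the derivative is at most `-2 K t`
  have hs1 : AntitoneOn (fun t => g' t + 2 * K * t) (Set.Icc 0 1) := by
    have hD : ∀ t ∈ Set.Icc (0 : ℝ) 1, HasDerivAt (fun t => g' t + 2 * K * t)
        (-(Real.pi * (2 * Real.tan (Real.pi * (η₀ + t * α)) * α ^ 2 +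
          rr ρ₀ ((η₀ + t * α) + (ς₀ + t * β)) * (α + β) ^ 2 +
          rr ρ₀ ((η₀ + t * α) - (ς₀ + t * β)) * (α - β) ^ 2)) + 2 * K) t := by
      intro t ht
      have i1 := hd' t ⟨by linarith only [ht, ht.1], ht.2⟩
      have i2 : HasDerivAt (fun t : ℝ => 2 * K * t) (2 * K) t := by
        simpa using (hasDerivAt_id t).const_mul (2 * K)
      exact i1.add i2
    apply antitoneOn_of_deriv_nonpos (convex_Icc 0 1)
    · exact fun t ht => (hD t ht).continuousAt.continuousWithinAt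
    · rw [interior_Icc]
      exact fun t ht => (hD t (Set.Ioo_subset_Icc_self ht)).differentiableAt.differentiableWithinAt
    · rw [interior_Icc]
      intro t ht
      rw [(hD t (Set.Ioo_subset_Icc_self ht)).deriv]
      have ht' : t ∈ Set.Icc (-1 : ℝ) 1 := ⟨by linarith only [ht, ht.1], ht.2.le⟩
      obtain ⟨⟨b0, b1, b2, b3⟩, b4⟩ := hr2 _ _ (hseg t ht').1 (hseg t ht').2
      have := mq_bound b0 b1 b2.le b3 h.ρpos α β
      have h1 : mq ρ₀ η₀ ς₀ / 2 * (α ^ 2 + β ^ 2) ≤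
          mq ρ₀ (η₀ + t * α) (ς₀ + t * β) * (α ^ 2 + β ^ 2) :=
        mul_le_mul_of_nonneg_right b4.le (by positivity)
      have h2 : 2 * (mq ρ₀ η₀ ς₀ / 2 * (α ^ 2 + β ^ 2)) ≤
          2 * Real.tan (Real.pi * (η₀ + t * α)) * α ^ 2 +
          rr ρ₀ ((η₀ + t * α) + (ς₀ + t * β)) * (α + β) ^ 2 +
          rr ρ₀ ((η₀ + t * α) - (ς₀ + t * β)) * (α - β) ^ 2 := by linarith only [this, h1]
      have h3 := mul_le_mul_of_nonneg_left h2 Real.pi_pos.le
      have h4 : 2 * K = Real.pi * (2 * (mq ρ₀ η₀ ς₀ / 2 * (α ^ 2 + β ^ 2))) := by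
        rw [hK, hcdef]; ring
      linarith only [h3, h4]
  have hs2 : ∀ t ∈ Set.Icc (0 : ℝ) 1, g' t + 2 * K * t ≤ 0 := by
    intro t ht
    have := hs1 (by norm_num : (0 : ℝ) ∈ Set.Icc (0 : ℝ) 1) ht ht.1
    simp only [hg0, mul_zero, add_zero] at this
    exact this
  have hs3 : AntitoneOn (fun t => g t + K * t ^ 2) (Set.Icc 0 1) := by
    have hD : ∀ t ∈ Set.Icc (0 : ℝ) 1, HasDerivAt (fun t => g t + K * t ^ 2)
        (g' t + 2 * K * t) t := by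
      intro t ht
      have i1 := hd t ⟨by linarith only [ht, ht.1], ht.2⟩
      have i2 : HasDerivAt (fun t : ℝ => K * t ^ 2) (2 * K * t) t := by
        have := (hasDerivAt_pow 2 t).const_mul K
        refine this.congr_deriv ?_
        norm_num
        ring
      exact i1.add i2
    apply antitoneOn_of_deriv_nonpos (convex_Icc 0 1)
    · exact fun t ht => (hD t ht).continuousAt.continuousWithinAt
    · rw [interior_Icc]
      exact fun t ht => (hD t (Set.Ioo_subset_Icc_self ht)).differentiableAt.differentiableWithinAt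
    · rw [interior_Icc]
      intro t ht
      rw [(hD t (Set.Ioo_subset_Icc_self ht)).deriv]
      exact hs2 t (Set.Ioo_subset_Icc_self ht)
  have := hs3 (by norm_num : (0 : ℝ) ∈ Set.Icc (0 : ℝ) 1)
    (by norm_num : (1 : ℝ) ∈ Set.Icc (0 : ℝ) 1) zero_le_one
  simp only [hg, one_mul, zero_mul, add_zero] at this
  norm_num at this
  linarith only [this]

/-- the quadratic bound on `KK` -/
theorem quad_KK {a : ℕ} {η₀ ς₀ ρ₀ : ℝ} (h : IsSad a η₀ ς₀ ρ₀) : ∃ c : ℝ, 0 < c ∧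
    ∀ η ς : ℝ, (η, ς) ∈ KK →
      H a η ς ρ₀ ≤ H a η₀ ς₀ ρ₀ - c * ((η - η₀) ^ 2 + (ς - ς₀) ^ 2) := by
  obtain ⟨r, c, hr, hr1, hc, hq⟩ := quad_local h
  have hη : 0 < η₀ := lt_of_le_of_lt (abs_nonneg _) h.h1
  have h0 : (η₀, ς₀) ∈ KK := ⟨hη.le, h.h3.le, h.h1.le, h.h2.le⟩
  refine ⟨c * r, by positivity, ?_⟩
  intro η ς hp
  have k1 := (concaveOn_H a h.ρpos.le).2 h0 hp (by linarith only [hr1] : 0 ≤ 1 - r) hr.le (by ring)
  simp only [Prod.smul_mk, smul_eq_mul, Prod.mk_add_mk] at k1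
  have d1 : |η - η₀| ≤ 1 := by
    rw [abs_le]
    have := hp.1
    have := hp.2.1
    have := h.h3
    simp only at *
    constructor <;> linarith
  have d2 : |ς - ς₀| ≤ 1 := by
    have i1 := hp.2.2.2
    have i2 := h.h2
    simp only at i1
    have i3 := abs_le.1 i1
    have i4 := abs_lt.1 i2
    rw [abs_le]
    constructor <;> linarith only [hr, hr1, i3, i4, i3.1, i3.2, i4.1, i4.2]
  have k2 := hq (r * (η - η₀)) (r * (ς - ς₀))
    (by rw [abs_mul, abs_of_pos hr]; nlinarith only [hr, d1]) (by rw [abs_mul, abs_of_pos hr]; nlinarith only [hr, d2])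
  have e1 : (1 - r) * η₀ + r * η = η₀ + r * (η - η₀) := by ring
  have e2 : (1 - r) * ς₀ + r * ς = ς₀ + r * (ς - ς₀) := by ring
  rw [e1, e2] at k1
  have k3 := k1.trans k2
  have e3 : c * ((r * (η - η₀)) ^ 2 + (r * (ς - ς₀)) ^ 2) =
      r * (c * r * ((η - η₀) ^ 2 + (ς - ς₀) ^ 2)) := by ring
  rw [e3] at k3
  have k4 : r * H a η ς ρ₀ ≤
      r * (H a η₀ ς₀ ρ₀ - c * r * ((η - η₀) ^ 2 + (ς - ς₀) ^ 2)) := by linarith only [k1, k2]
  exact le_of_mul_le_mul_left k4 hr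

/-- `H` decreases in `ς` for `0 ≤ η ≤ 1/2`, `0 ≤ ς ≤ 1/2` -/
theorem H_anti_sig (a : ℕ) {η ς ς' ρ : ℝ} (h0 : 0 ≤ η) (h1 : η ≤ 1 / 2) (h2 : 0 ≤ ς)
    (h3 : ς ≤ ς') (h4 : ς' ≤ 1 / 2) (hρ : 0 < ρ) : H a η ς' ρ ≤ H a η ς ρ := by
  have hD : ∀ s : ℝ, HasDerivAt (fun s : ℝ => H a η s ρ)
      (el ρ (η - s) - el ρ (η + s) - 2 * Real.pi * a * ρ) s := by
    intro s
    have l1 : HasDerivAt (fun s : ℝ => η + s) 1 s := (hasDerivAt_id s).const_add η
    have l2 : HasDerivAt (fun s : ℝ => η - s) (-1) s := (hasDerivAt_id s).const_sub η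
    have m2 := (hasDerivAt_Lr (ρ := ρ) (x := η + s) hρ).comp s l1
    have m3 := (hasDerivAt_Lr (ρ := ρ) (x := η - s) hρ).comp s l2
    have m4 : HasDerivAt (fun s : ℝ => Real.pi * ρ * (1 + 2 * a * s))
        (Real.pi * ρ * (2 * a * 1)) s :=
      (((hasDerivAt_id s).const_mul (2 * (a : ℝ))).const_add 1).const_mul (Real.pi * ρ)
    have key := ((m2.const_sub (2 * Lr 0 (1 / 2 + η))).sub m3).sub m4
    refine key.congr_deriv ?_
    ring
  have hanti : AntitoneOn (fun s : ℝ => H a η s ρ) (Set.Icc 0 (1 / 2)) := by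
    apply antitoneOn_of_deriv_nonpos (convex_Icc _ _)
    · exact fun t _ => (hD t).continuousAt.continuousWithinAt
    · exact fun t _ => (hD t).differentiableAt.differentiableWithinAt
    · rw [interior_Icc]
      intro s hs
      rw [(hD s).deriv]
      have hle : el ρ (η - s) ≤ el ρ (η + s) := by
        apply el_le_el
        · intro h; exact absurd h hρ.ne'
        · have e1 : 2 * Real.pi * (η + s) = 2 * Real.pi * η + 2 * Real.pi * s := by ring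
          have e2 : 2 * Real.pi * (η - s) = 2 * Real.pi * η - 2 * Real.pi * s := by ring
          rw [e1, e2, Real.cos_add, Real.cos_sub]
          have := mul_nonneg (sin_eta_nonneg h0 h1) (sin_eta_nonneg hs.1.le hs.2.le)
          linarith only [this]
      have : 0 ≤ 2 * Real.pi * a * ρ := by positivity
      linarith only [hle, this]
  exact hanti ⟨h2, h3.trans h4⟩ ⟨h2.trans h3, h4⟩ h3

theorem quad {a : ℕ} {η₀ ς₀ ρ₀ : ℝ} (h : IsSad a η₀ ς₀ ρ₀) : ∃ c : ℝ, 0 < c ∧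
    ∀ η ς : ℝ, 0 ≤ η → η ≤ 1 / 2 → -(min η (1 / 4)) ≤ ς → ς ≤ 1 / 2 →
      H a η ς ρ₀ ≤ H a η₀ ς₀ ρ₀ - c * ((η - η₀) ^ 2 + (ς - ς₀) ^ 2) := by
  obtain ⟨c, hc, hq⟩ := quad_KK h
  set δ := min (η₀ - |ς₀|) (1 / 4 - |ς₀|) with hδ
  have hδ0 : 0 < δ := lt_min (by linarith only [h, h.h1]) (by linarith only [h, h.h2])
  have hη : 0 < η₀ := lt_of_le_of_lt (abs_nonneg _) h.h1
  have hδ1 : δ ≤ 1 / 4 := (min_le_right _ _).trans (by linarith only [abs_nonneg ς₀])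
  refine ⟨c * (δ ^ 2 / 2) / 2, by positivity, ?_⟩
  intro η ς h0 h1 h2 h3
  by_cases hς : ς ≤ min η (1 / 4)
  · have hp : (η, ς) ∈ KK := by
      have : |ς| ≤ min η (1 / 4) := abs_le.2 ⟨h2, hς⟩
      exact ⟨h0, h1, this.trans (min_le_left _ _), this.trans (min_le_right _ _)⟩
    have := hq η ς hp
    have e : c * (δ ^ 2 / 2) / 2 * ((η - η₀) ^ 2 + (ς - ς₀) ^ 2) ≤
        c * ((η - η₀) ^ 2 + (ς - ς₀) ^ 2) := by
      apply mul_le_mul_of_nonneg_right _ (by positivity)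
      have : δ ^ 2 / 2 / 2 ≤ 1 := by nlinarith only [hδ0, hδ1]
      calc c * (δ ^ 2 / 2) / 2 = c * (δ ^ 2 / 2 / 2) := by ring
        _ ≤ c * 1 := mul_le_mul_of_nonneg_left this hc.le
        _ = c := mul_one c
    linarith only [this, e]
  · push Not at hς
    set b := min η (1 / 4) with hb
    have hb0 : 0 ≤ b := le_min h0 (by norm_num)
    have hp : (η, b) ∈ KK := by
      have : |b| ≤ min η (1 / 4) := by rw [abs_of_nonneg hb0]
      exact ⟨h0, h1, this.trans (min_le_left _ _), this.trans (min_le_right _ _)⟩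
    have k1 := hq η b hp
    have k2 := H_anti_sig a h0 h1 hb0 hς.le h3 h.ρpos
    have k3 : δ ^ 2 / 2 ≤ (η - η₀) ^ 2 + (b - ς₀) ^ 2 := by
      have i1 := le_abs_self ς₀
      have : δ ≤ |η - η₀| + |b - ς₀| := by
        rcases min_choice η (1 / 4) with hm | hm
        · have e : b = η := hm
          rw [e]
          have := neg_abs_le (η - η₀)
          have := le_abs_self (η - ς₀)
          have : δ ≤ η₀ - |ς₀| := min_le_left _ _
          linarith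
        · have e : b = 1 / 4 := hm
          rw [e]
          have := abs_nonneg (η - η₀)
          have := le_abs_self (1 / 4 - ς₀)
          have : δ ≤ 1 / 4 - |ς₀| := min_le_right _ _
          linarith
      have i2 := sq_abs (η - η₀)
      have i3 := sq_abs (b - ς₀)
      nlinarith only [i2, i3, hδ0, this, hδ1, sq_nonneg (|η - η₀| - |b - ς₀|), abs_nonneg (η - η₀), abs_nonneg (b - ς₀)]
    have k4 : (η - η₀) ^ 2 + (ς - ς₀) ^ 2 ≤ 2 := by
      have i4 := abs_lt.1 h.h2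
      have : |η - η₀| ≤ 1 := by
        rw [abs_le]; have := h.h3; constructor <;> linarith only [hδ0, hδ1, h0, this, hη, h1]
      have : |ς - ς₀| ≤ 1 := by
        rw [abs_le]; constructor <;> linarith only [hδ0, hδ1, hς, hb0, i4, h3, i4.1, i4.2]
      have i2 := sq_abs (η - η₀)
      have i3 := sq_abs (ς - ς₀)
      nlinarith [abs_nonneg (η - η₀), abs_nonneg (ς - ς₀)]
    have k5 : c * (δ ^ 2 / 2) / 2 * ((η - η₀) ^ 2 + (ς - ς₀) ^ 2) ≤ c * (δ ^ 2 / 2) := by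
      have : 0 ≤ c * (δ ^ 2 / 2) := by positivity
      nlinarith only [hδ0, hδ1, k4, this]
    have k6 : c * (δ ^ 2 / 2) ≤ c * ((η - η₀) ^ 2 + (b - ς₀) ^ 2) :=
      mul_le_mul_of_nonneg_left k3 hc.le
    linarith only [k1, k2, k5, k6]

end Pool.Agent.Work.MP_b30479_gt.DT
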