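import Pool.Agent.Work.MP_b30479_gt.DT.GBd
import Pool.Agent.Work.MP_b30479_gt.DT.PDefs
import Pool.Agent.Work.MP_b30479_gt.DT.Quad

/-!
# Gaussian domination
-/

namespace Pool.Agent.Work.MP_b30479_gt.DT

open Finset TB AX

theorem k0_le {η₀ : ℝ} (h0 : 0 ≤ η₀) (h1 : η₀ < 1 / 2) (s : ℕ) : k0 η₀ s ≤ 2 * s := by
  unfold k0
  have h2 : ⌊η₀ * ((2 * s + 1 : ℕ) : ℝ)⌋₊ < s + 1 := by
    rw [Nat.floor_lt (by positivity)]
    push_cast
    nlinarith [Nat.cast_nonneg (α := ℝ) s]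
  omega

lemma ddom_norm_sin_pos {ς ρ : ℝ} (hρ : 0 < ρ) :
    0 < ‖Complex.sin (2 * Real.pi * ((ς : ℂ) + ρ * Complex.I))‖ := by
  rw [norm_pos_iff]
  intro h
  rw [Complex.sin_eq_zero_iff] at h
  obtain ⟨k, hk⟩ := h
  have h1 := congrArg Complex.im hk
  have h2 : (2 * (Real.pi : ℂ) * ((ς : ℂ) + ρ * Complex.I)).im = 2 * Real.pi * ρ := by simp
  have h3 : ((k : ℂ) * (Real.pi : ℂ)).im = 0 := by simp
  rw [h2, h3] at h1
  have := Real.pi_pos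
  have : 0 < 2 * Real.pi * ρ := by positivity
  linarith

lemma ddom_norm_sin_le (w : ℂ) : ‖Complex.sin w‖ ≤ Real.exp |w.im| := by
  rw [Complex.sin]
  rw [norm_div, norm_mul, Complex.norm_I, mul_one, Complex.norm_two]
  have h1 : ‖Complex.exp (-w * Complex.I) - Complex.exp (w * Complex.I)‖ ≤
      Real.exp |w.im| + Real.exp |w.im| := by
    refine (norm_sub_le _ _).trans (add_le_add ?_ ?_)
    · rw [Complex.norm_exp]
      apply Real.exp_le_exp.2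
      simp only [Complex.mul_re, Complex.neg_re, Complex.I_re, mul_zero, Complex.neg_im,
        Complex.I_im, mul_one, zero_sub, neg_neg]
      exact le_abs_self _
    · rw [Complex.norm_exp]
      apply Real.exp_le_exp.2
      simp only [Complex.mul_re, Complex.I_re, mul_zero, Complex.I_im, mul_one, zero_sub]
      exact neg_le_abs _
  linarith

lemma ddom_floor {η₀ : ℝ} (h0 : 0 ≤ η₀) (s : ℕ) :
    ((k0 η₀ s : ℕ) : ℝ) - s ≤ η₀ * ((2 * s + 1 : ℕ) : ℝ) ∧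
      η₀ * ((2 * s + 1 : ℕ) : ℝ) - 1 < ((k0 η₀ s : ℕ) : ℝ) - s := by
  have hn : (0 : ℝ) ≤ η₀ * ((2 * s + 1 : ℕ) : ℝ) := by positivity
  have h1 := Nat.floor_le hn
  have h2 := Nat.lt_floor_add_one (η₀ * ((2 * s + 1 : ℕ) : ℝ))
  unfold k0
  rw [Nat.cast_add]
  constructor <;> linarith

theorem P0_pos {a : ℕ} {η₀ ς₀ ρ₀ : ℝ} (h : IsSad a η₀ ς₀ ρ₀) (s : ℕ) : 0 < P0 a η₀ ς₀ ρ₀ s := by
  obtain ⟨C, hC, hb⟩ := Gk_bounds a (ρm := ρ₀) (B := ρ₀) h.ρpos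
  have hη : 0 ≤ η₀ := (abs_nonneg _).trans h.h1.le
  have h1 := (hb s (k0 η₀ s) (k0_le hη h.h3 s) ς₀ ρ₀ (by linarith [h.h2]) le_rfl le_rfl).1
  unfold P0
  refine lt_of_lt_of_le ?_ h1
  have := ddom_norm_sin_pos (ς := ς₀) h.ρpos
  positivity

lemma ddom_el_zero_bd {η₀ : ℝ} (h0 : 0 ≤ η₀) (h1 : η₀ < 1 / 2) {v : ℝ} (hv : 1 / 2 ≤ v)
    (hv' : v ≤ 1 / 2 + η₀) :
    |el 0 v| ≤ |Real.log (2 * (1 - Real.cos (Real.pi * (1 - 2 * η₀))))| + Real.log 4 := by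
  unfold el
  rw [mul_zero, Real.cosh_zero]
  have hc : Real.cos (Real.pi * (1 - 2 * η₀)) < 1 := by
    have := Real.cos_lt_cos_of_nonneg_of_le_pi (x := 0) (y := Real.pi * (1 - 2 * η₀)) le_rfl
      (by nlinarith [Real.pi_pos]) (by nlinarith [Real.pi_pos])
    rwa [Real.cos_zero] at this
  have h2 : Real.cos (2 * Real.pi * v) ≤ Real.cos (Real.pi * (1 - 2 * η₀)) := by
    have e : Real.cos (2 * Real.pi * v) = Real.cos (2 * Real.pi * (1 - v)) := by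
      rw [← Real.cos_neg, show 2 * Real.pi * (1 - v) = -(2 * Real.pi * v) + 2 * Real.pi by ring,
        Real.cos_add_two_pi]
    rw [e]
    apply Real.cos_le_cos_of_nonneg_of_le_pi
    · nlinarith [Real.pi_pos]
    · nlinarith [Real.pi_pos]
    · nlinarith [Real.pi_pos]
  have h3 : 0 < 2 * (1 - Real.cos (Real.pi * (1 - 2 * η₀))) := by linarith
  have h4 : 2 * (1 - Real.cos (Real.pi * (1 - 2 * η₀))) ≤
      2 * 1 - 2 * Real.cos (2 * Real.pi * v) := by linarith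
  have h5 : 2 * 1 - 2 * Real.cos (2 * Real.pi * v) ≤ 4 := by
    linarith [Real.neg_one_le_cos (2 * Real.pi * v)]
  have h6 := Real.log_le_log h3 h4
  have h7 := Real.log_le_log (h3.trans_le h4) h5
  have h8 : 0 ≤ Real.log 4 := Real.log_nonneg (by norm_num)
  have h9 := neg_abs_le (Real.log (2 * (1 - Real.cos (Real.pi * (1 - 2 * η₀)))))
  have h10 := abs_nonneg (Real.log (2 * (1 - Real.cos (Real.pi * (1 - 2 * η₀)))))
  rw [abs_div, abs_two]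
  have h11 : |Real.log (2 * 1 - 2 * Real.cos (2 * Real.pi * v))| ≤
      |Real.log (2 * (1 - Real.cos (Real.pi * (1 - 2 * η₀))))| + Real.log 4 := by
    rw [abs_le]
    constructor <;> linarith
  exact (half_le_self (abs_nonneg _)).trans h11

lemma ddom_el_bd {ρ : ℝ} (hρ : 0 < ρ) (v : ℝ) :
    |el ρ v| ≤ |Real.log (2 * Real.cosh (2 * Real.pi * ρ) - 2)| +
      Real.log (2 * Real.cosh (2 * Real.pi * ρ) + 2) := by
  unfold el
  have hc : 1 < Real.cosh (2 * Real.pi * ρ) := by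
    rw [Real.one_lt_cosh]
    have := Real.pi_pos
    positivity
  have h3 : 0 < 2 * Real.cosh (2 * Real.pi * ρ) - 2 := by linarith
  have h4 : 2 * Real.cosh (2 * Real.pi * ρ) - 2 ≤
      2 * Real.cosh (2 * Real.pi * ρ) - 2 * Real.cos (2 * Real.pi * v) := by
    linarith [Real.cos_le_one (2 * Real.pi * v)]
  have h5 : 2 * Real.cosh (2 * Real.pi * ρ) - 2 * Real.cos (2 * Real.pi * v) ≤
      2 * Real.cosh (2 * Real.pi * ρ) + 2 := by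
    linarith [Real.neg_one_le_cos (2 * Real.pi * v)]
  have h6 := Real.log_le_log h3 h4
  have h7 := Real.log_le_log (h3.trans_le h4) h5
  have h8 : 0 ≤ Real.log (2 * Real.cosh (2 * Real.pi * ρ) + 2) := Real.log_nonneg (by linarith)
  have h9 := neg_abs_le (Real.log (2 * Real.cosh (2 * Real.pi * ρ) - 2))
  have h10 := abs_nonneg (Real.log (2 * Real.cosh (2 * Real.pi * ρ) - 2))
  rw [abs_div, abs_two]
  have h11 : |Real.log (2 * Real.cosh (2 * Real.pi * ρ) - 2 * Real.cos (2 * Real.pi * v))| ≤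
      |Real.log (2 * Real.cosh (2 * Real.pi * ρ) - 2)| +
        Real.log (2 * Real.cosh (2 * Real.pi * ρ) + 2) := by
    rw [abs_le]
    constructor <;> linarith
  exact (half_le_self (abs_nonneg _)).trans h11

lemma ddom_Lr_lip {ρ K x y : ℝ} (hxy : x ≤ y) (hK : ∀ v, x ≤ v → v ≤ y → |el ρ v| ≤ K) :
    |Lr ρ y - Lr ρ x| ≤ K * (y - x) := by
  rw [Lr_sub]
  have h1 : ∀ v ∈ Set.uIoc x y, ‖el ρ v‖ ≤ K := by
    intro v hv
    rw [Set.uIoc_of_le hxy] at hv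
    exact hK v hv.1.le hv.2
  have h2 := intervalIntegral.norm_integral_le_of_norm_le_const h1
  rwa [Real.norm_eq_abs, abs_of_nonneg (sub_nonneg.2 hxy)] at h2

/-- `H` is Lipschitz in `η` below `η₀` -/
lemma ddom_H_lip (a : ℕ) {η₀ ρ₀ : ℝ} (ς₀ : ℝ) (h0 : 0 ≤ η₀) (h1 : η₀ < 1 / 2) (hρ : 0 < ρ₀) :
    ∃ K : ℝ, 0 ≤ K ∧ ∀ η : ℝ, 0 ≤ η → η ≤ η₀ →
      H a η₀ ς₀ ρ₀ - K * (η₀ - η) ≤ H a η ς₀ ρ₀ := by
  set K1 := |Real.log (2 * (1 - Real.cos (Real.pi * (1 - 2 * η₀))))| + Real.log 4 with hK1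
  set K2 := |Real.log (2 * Real.cosh (2 * Real.pi * ρ₀) - 2)| +
      Real.log (2 * Real.cosh (2 * Real.pi * ρ₀) + 2) with hK2
  have hK2' : 0 ≤ K2 := (abs_nonneg _).trans (ddom_el_bd hρ 0)
  have hK1' : 0 ≤ K1 := (abs_nonneg _).trans (ddom_el_zero_bd h0 h1 (v := 1 / 2) le_rfl
    (by linarith))
  refine ⟨2 * K1 + 2 * K2, by positivity, fun η hη hη' => ?_⟩
  have e1 := ddom_Lr_lip (ρ := 0) (K := K1) (x := 1 / 2 + η) (y := 1 / 2 + η₀) (by linarith)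
    (fun v hv hv' => ddom_el_zero_bd h0 h1 (by linarith) hv')
  have e2 := ddom_Lr_lip (ρ := ρ₀) (K := K2) (x := η + ς₀) (y := η₀ + ς₀) (by linarith)
    (fun v _ _ => ddom_el_bd hρ v)
  have e3 := ddom_Lr_lip (ρ := ρ₀) (K := K2) (x := η - ς₀) (y := η₀ - ς₀) (by linarith)
    (fun v _ _ => ddom_el_bd hρ v)
  rw [abs_le] at e1 e2 e3
  unfold H
  nlinarith [e1.1, e1.2, e2.1, e2.2, e3.1, e3.2]

/-- lower bound for the central value -/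
theorem P0_lower {a : ℕ} {η₀ ς₀ ρ₀ : ℝ} (h : IsSad a η₀ ς₀ ρ₀) : ∃ c : ℝ, 0 < c ∧ ∀ s : ℕ,
    c * (((2 * s + 1 : ℕ) : ℝ) * Real.exp (((2 * s + 1 : ℕ) : ℝ) * H a η₀ ς₀ ρ₀)) ≤
      P0 a η₀ ς₀ ρ₀ s := by
  obtain ⟨C, hC, hb⟩ := Gk_bounds a (ρm := ρ₀) (B := ρ₀) h.ρpos
  have hη : 0 ≤ η₀ := (abs_nonneg _).trans h.h1.le
  obtain ⟨K, hK, hlip⟩ := ddom_H_lip a ς₀ hη h.h3 h.ρpos
  have hsin := ddom_norm_sin_pos (ς := ς₀) h.ρpos
  set S := ‖Complex.sin (2 * Real.pi * ((ς₀ : ℂ) + ρ₀ * Complex.I))‖ with hS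
  refine ⟨C⁻¹ * S * Real.exp (-K), by positivity, fun s => ?_⟩
  have h1 := (hb s (k0 η₀ s) (k0_le hη h.h3 s) ς₀ ρ₀ (by linarith [h.h2]) le_rfl le_rfl).1
  unfold P0
  refine le_trans ?_ h1
  have hn : (0 : ℝ) < ((2 * s + 1 : ℕ) : ℝ) := by positivity
  obtain ⟨f1, f2⟩ := ddom_floor hη s
  have g1 : et s (k0 η₀ s) ≤ η₀ := by
    unfold et
    rw [div_le_iff₀ hn]
    exact f1
  have g2 : 0 ≤ et s (k0 η₀ s) := by
    unfold et
    apply div_nonneg _ hn.le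
    unfold k0
    rw [Nat.cast_add]
    have : (0 : ℝ) ≤ (⌊η₀ * ((2 * s + 1 : ℕ) : ℝ)⌋₊ : ℝ) := Nat.cast_nonneg _
    linarith
  have g3 : ((2 * s + 1 : ℕ) : ℝ) * (η₀ - et s (k0 η₀ s)) ≤ 1 := by
    unfold et
    rw [mul_sub, mul_div_cancel₀ _ hn.ne']
    linarith
  have g4 := hlip _ g2 g1
  have g5 : ((2 * s + 1 : ℕ) : ℝ) * H a η₀ ς₀ ρ₀ - K ≤
      ((2 * s + 1 : ℕ) : ℝ) * H a (et s (k0 η₀ s)) ς₀ ρ₀ := by
    have := mul_le_mul_of_nonneg_left g4 hn.le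
    nlinarith [mul_le_mul_of_nonneg_left g3 hK]
  have g6 := Real.exp_le_exp.2 g5
  rw [sub_eq_add_neg, Real.exp_add] at g6
  calc C⁻¹ * S * Real.exp (-K) * (((2 * s + 1 : ℕ) : ℝ) *
        Real.exp (((2 * s + 1 : ℕ) : ℝ) * H a η₀ ς₀ ρ₀))
      = C⁻¹ * (((2 * s + 1 : ℕ) : ℝ) * S) *
        (Real.exp (((2 * s + 1 : ℕ) : ℝ) * H a η₀ ς₀ ρ₀) * Real.exp (-K)) := by ring
    _ ≤ C⁻¹ * (((2 * s + 1 : ℕ) : ℝ) * S) *
        Real.exp (((2 * s + 1 : ℕ) : ℝ) * H a (et s (k0 η₀ s)) ς₀ ρ₀) := by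
        apply mul_le_mul_of_nonneg_left g6
        positivity
    _ = _ := by ring

theorem dom {a : ℕ} {η₀ ς₀ ρ₀ : ℝ} (h : IsSad a η₀ ς₀ ρ₀) : ∃ C c : ℝ, 0 < C ∧ 0 < c ∧
    ∀ s k : ℕ, s ≤ k → k ≤ 2 * s → ∀ x : ℝ, xk s k ≤ x → x ≤ hn s →
      fS (2 * s + 1) k ^ 2 *
          ‖Gk a s k ((x : ℂ) + ((((2 * s + 1 : ℕ) : ℝ) * ρ₀ : ℝ) : ℂ) * Complex.I)‖ ≤
        C * P0 a η₀ ς₀ ρ₀ s *
          Real.exp (-(c * (((k : ℝ) - k0 η₀ s) ^ 2 + (x - ((2 * s + 1 : ℕ) : ℝ) * ς₀) ^ 2) /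
            ((2 * s + 1 : ℕ) : ℝ))) := by
  obtain ⟨C, hC, hb⟩ := Gk_bounds a (ρm := ρ₀) (B := ρ₀) h.ρpos
  obtain ⟨c1, hc1, hP⟩ := P0_lower h
  obtain ⟨c, hc, hq⟩ := quad h
  have hη : 0 ≤ η₀ := (abs_nonneg _).trans h.h1.le
  set E := Real.exp (2 * Real.pi * ρ₀) with hE
  refine ⟨C * E * c1⁻¹ * Real.exp c, c / 2, by positivity, by positivity, ?_⟩
  intro s k hk1 hk2 x hx1 hx2
  have hn : (0 : ℝ) < ((2 * s + 1 : ℕ) : ℝ) := by positivity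
  have hn1 : (1 : ℝ) ≤ ((2 * s + 1 : ℕ) : ℝ) := by exact_mod_cast (by omega : 1 ≤ 2 * s + 1)
  set n : ℝ := ((2 * s + 1 : ℕ) : ℝ) with hn'
  obtain ⟨f1, f2⟩ := ddom_floor hη s
  have hk1' : (s : ℝ) ≤ k := by exact_mod_cast hk1
  have hk2' : (k : ℝ) ≤ 2 * s := by exact_mod_cast hk2
  have hnn : n = 2 * s + 1 := by rw [hn']; push_cast; ring
  have g0 : 0 ≤ et s k := by
    unfold et
    apply div_nonneg _ hn.le
    linarith
  have g1 : et s k ≤ 1 / 2 := by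
    unfold et
    rw [← hn', div_le_iff₀ hn, hnn]
    linarith
  -- the point
  have hxς : x = n * (x / n) := by field_simp
  have g2 : -(min (et s k) (1 / 4)) ≤ x / n := by
    rw [le_div_iff₀ hn]
    unfold xk at hx1
    linarith
  have g3 : x / n ≤ 1 / 2 := by
    rw [div_le_iff₀ hn]
    unfold DT.hn at hx2
    linarith
  have g2' : -(1 / 2) ≤ x / n := by
    have : min (et s k) (1 / 4) ≤ 1 / 4 := min_le_right _ _
    linarith
  have h1 := (hb s k hk2 (x / n) ρ₀ (abs_le.2 ⟨by linarith, g3⟩) le_rfl le_rfl).2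
  have e1 : ((x : ℂ) + ((n * ρ₀ : ℝ) : ℂ) * Complex.I) =
      ((2 * s + 1 : ℕ) : ℂ) * (((x / n : ℝ) : ℂ) + ρ₀ * Complex.I) := by
    have hnC : ((2 * s + 1 : ℕ) : ℂ) ≠ 0 := by exact_mod_cast (by omega : 2 * s + 1 ≠ 0)
    have e0 : ((n : ℝ) : ℂ) = ((2 * s + 1 : ℕ) : ℂ) := by rw [hn']; norm_cast
    rw [Complex.ofReal_mul, Complex.ofReal_div, e0]
    field_simp
  rw [e1]
  refine h1.trans ?_
  have hsin : ‖Complex.sin (2 * Real.pi * (((x / n : ℝ) : ℂ) + ρ₀ * Complex.I))‖ ≤ E := by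
    refine (ddom_norm_sin_le _).trans (le_of_eq ?_)
    rw [hE]
    congr 1
    have : (2 * (Real.pi : ℂ) * (((x / n : ℝ) : ℂ) + ρ₀ * Complex.I)).im = 2 * Real.pi * ρ₀ := by
      simp
    rw [this, abs_of_nonneg]
    have := Real.pi_pos
    have := h.ρpos
    positivity
  have hH := hq (et s k) (x / n) g0 g1 g2 g3
  have hH2 : n * H a (et s k) (x / n) ρ₀ ≤ n * H a η₀ ς₀ ρ₀ + c +
      -(c / 2 * (((k : ℝ) - k0 η₀ s) ^ 2 + (x - n * ς₀) ^ 2) / n) := by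
    have i1 := mul_le_mul_of_nonneg_left hH hn.le
    have i2 : n * (c * ((et s k - η₀) ^ 2 + (x / n - ς₀) ^ 2)) =
        c * (((k : ℝ) - s - n * η₀) ^ 2 + (x - n * ς₀) ^ 2) / n := by
      unfold et
      rw [← hn']
      field_simp
    have i3 : ((k : ℝ) - k0 η₀ s) ^ 2 ≤ 2 * ((k : ℝ) - s - n * η₀) ^ 2 + 2 := by
      have j1 : |((k0 η₀ s : ℕ) : ℝ) - s - η₀ * n| ≤ 1 := by
        rw [abs_le]
        constructor <;> linarith
      have j2 : (((k0 η₀ s : ℕ) : ℝ) - s - η₀ * n) ^ 2 ≤ 1 := by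
        rw [← sq_abs]
        exact pow_le_one₀ (abs_nonneg _) j1
      nlinarith [sq_nonneg (((k : ℝ) - s - n * η₀) + (((k0 η₀ s : ℕ) : ℝ) - s - η₀ * n))]
    have i4 : c / 2 * (((k : ℝ) - k0 η₀ s) ^ 2 + (x - n * ς₀) ^ 2) / n ≤
        c * (((k : ℝ) - s - n * η₀) ^ 2 + (x - n * ς₀) ^ 2) / n + c := by
      have j3 : c = c * n / n := by field_simp
      have j4 : c * (((k : ℝ) - s - n * η₀) ^ 2 + (x - n * ς₀) ^ 2) / n + c =
          (c * (((k : ℝ) - s - n * η₀) ^ 2 + (x - n * ς₀) ^ 2) + c * n) / n := by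
        rw [add_div, ← j3]
      rw [j4]
      apply div_le_div_of_nonneg_right _ hn.le
      nlinarith [sq_nonneg (x - n * ς₀), mul_le_mul_of_nonneg_left hn1 hc.le,
        mul_le_mul_of_nonneg_left i3 hc.le]
    nlinarith
  have hexp := Real.exp_le_exp.2 hH2
  rw [Real.exp_add, Real.exp_add] at hexp
  set G := Real.exp (-(c / 2 * (((k : ℝ) - k0 η₀ s) ^ 2 + (x - n * ς₀) ^ 2) / n)) with hG
  have hP' := hP s
  rw [← hn'] at hP'
  have hP2 : n * Real.exp (n * H a η₀ ς₀ ρ₀) ≤ c1⁻¹ * P0 a η₀ ς₀ ρ₀ s := by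
    rw [inv_mul_eq_div, le_div_iff₀ hc1]
    linarith
  calc C * (n * ‖Complex.sin (2 * Real.pi * (((x / n : ℝ) : ℂ) + ρ₀ * Complex.I))‖ *
        Real.exp (n * H a (et s k) (x / n) ρ₀))
      ≤ C * (n * E * (Real.exp (n * H a η₀ ς₀ ρ₀) * Real.exp c * G)) := by
        apply mul_le_mul_of_nonneg_left _ hC.le
        apply mul_le_mul _ hexp (Real.exp_pos _).le (by positivity)
        exact mul_le_mul_of_nonneg_left hsin hn.le
    _ = C * E * Real.exp c * G * (n * Real.exp (n * H a η₀ ς₀ ρ₀)) := by ring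
    _ ≤ C * E * Real.exp c * G * (c1⁻¹ * P0 a η₀ ς₀ ρ₀ s) := by
        apply mul_le_mul_of_nonneg_left hP2
        positivity
    _ = _ := by ring

end Pool.Agent.Work.MP_b30479_gt.DT
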