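import Pool.Agent.Work.MP_b30479_gt.DT.RDefs
import Pool.Agent.Work.MP_b30479_gt.TB.Lob

/-!
# The function `el` and its integral `Lr`
-/

namespace Pool.Agent.Work.MP_b30479_gt.DT

open Finset TB AX

theorem norm_two_sin (ρ v : ℝ) :
    ‖2 * Complex.sin (Real.pi * (v + ρ * Complex.I))‖ ^ 2 =
      2 * Real.cosh (2 * Real.pi * ρ) - 2 * Real.cos (2 * Real.pi * v) := by
  have h1 : (Real.pi : ℂ) * (v + ρ * Complex.I) =
      ((Real.pi * v : ℝ) : ℂ) + ((Real.pi * ρ : ℝ) : ℂ) * Complex.I := by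
    push_cast
    ring
  have h2 : 2 * Complex.sin (Real.pi * (v + ρ * Complex.I)) =
      ((2 * (Real.sin (Real.pi * v) * Real.cosh (Real.pi * ρ)) : ℝ) : ℂ) +
      ((2 * (Real.cos (Real.pi * v) * Real.sinh (Real.pi * ρ)) : ℝ) : ℂ) * Complex.I := by
    rw [h1, Complex.sin_add_mul_I, ← Complex.ofReal_sin, ← Complex.ofReal_cos,
      ← Complex.ofReal_cosh, ← Complex.ofReal_sinh]
    push_cast
    ring
  rw [h2, ← Complex.normSq_eq_norm_sq, Complex.normSq_add_mul_I]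
  have h3 := Real.sin_sq_add_cos_sq (Real.pi * v)
  have h4 := Real.cosh_sq (Real.pi * ρ)
  have h5 : Real.cosh (2 * Real.pi * ρ) = Real.cosh (Real.pi * ρ) ^ 2 + Real.sinh (Real.pi * ρ) ^ 2 := by
    rw [mul_assoc, Real.cosh_two_mul]
  have h6 : Real.cos (2 * Real.pi * v) = 2 * Real.cos (Real.pi * v) ^ 2 - 1 := by
    rw [mul_assoc, Real.cos_two_mul]
  rw [h5, h6, h4]
  have h7 : Real.sin (Real.pi * v) ^ 2 = 1 - Real.cos (Real.pi * v) ^ 2 := by linarith only [h3]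
  calc _ = 4 * (Real.sin (Real.pi * v) ^ 2 * Real.cosh (Real.pi * ρ) ^ 2 +
      Real.cos (Real.pi * v) ^ 2 * Real.sinh (Real.pi * ρ) ^ 2) := by ring
    _ = _ := by rw [h4, h7]; ring

theorem el_eq (ρ v : ℝ) : el ρ v = Real.log ‖2 * Complex.sin (Real.pi * (v + ρ * Complex.I))‖ := by
  rw [el, ← norm_two_sin, Real.log_pow]
  push_cast
  ring

theorem el_arg_pos {ρ v : ℝ} (hρ : ρ ≠ 0) :
    0 < 2 * Real.cosh (2 * Real.pi * ρ) - 2 * Real.cos (2 * Real.pi * v) := by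
  have h1 := Real.cos_le_one (2 * Real.pi * v)
  have h2 : 1 < Real.cosh (2 * Real.pi * ρ) := by
    rw [Real.one_lt_cosh]
    exact mul_ne_zero (mul_ne_zero two_ne_zero Real.pi_ne_zero) hρ
  linarith only [h1, h2]

theorem el_arg_pos' {ρ v : ℝ} (h : ρ = 0 → Real.sin (Real.pi * v) ≠ 0) :
    0 < 2 * Real.cosh (2 * Real.pi * ρ) - 2 * Real.cos (2 * Real.pi * v) := by
  by_cases hρ : ρ = 0
  · have h1 := h hρ
    have h2 : Real.cos (2 * Real.pi * v) = 1 - 2 * Real.sin (Real.pi * v) ^ 2 := by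
      rw [mul_assoc, Real.cos_two_mul, Real.cos_sq']
      ring
    rw [hρ, mul_zero, Real.cosh_zero, h2]
    have h3 : 0 < Real.sin (Real.pi * v) ^ 2 := by positivity
    linarith only [h3]
  · exact el_arg_pos hρ

theorem exp_el {ρ v : ℝ} (hρ : ρ ≠ 0) :
    Real.exp (el ρ v) = ‖2 * Complex.sin (Real.pi * (v + ρ * Complex.I))‖ := by
  rw [el_eq, Real.exp_log]
  have h1 := norm_two_sin ρ v
  have h2 := el_arg_pos (v := v) hρ
  rw [← h1] at h2
  by_contra h3
  have h4 : ‖2 * Complex.sin (Real.pi * (v + ρ * Complex.I))‖ = 0 :=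
    le_antisymm (not_lt.mp h3) (norm_nonneg _)
  rw [h4] at h2
  norm_num at h2

theorem norm_two_sin_eq (ρ v : ℝ) : ‖2 * Complex.sin (Real.pi * (v + ρ * Complex.I))‖ =
    Real.exp (Real.pi * ρ) * ‖1 - Complex.exp (2 * Real.pi * Complex.I * (v + ρ * Complex.I))‖ := by
  set w : ℂ := v + ρ * Complex.I with hw
  have h1 : 2 * Complex.sin (Real.pi * w) = Complex.I * Complex.exp (-(Real.pi * w * Complex.I)) *
      (1 - Complex.exp (2 * Real.pi * Complex.I * w)) := by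
    have h2 : Complex.exp (-(Real.pi * w * Complex.I)) *
        Complex.exp (2 * Real.pi * Complex.I * w) = Complex.exp (Real.pi * w * Complex.I) := by
      rw [← Complex.exp_add]
      congr 1
      ring
    rw [Complex.sin, mul_sub, mul_one, mul_assoc Complex.I, h2,
      show -(Real.pi * w) * Complex.I = -(Real.pi * w * Complex.I) by ring]
    ring
  rw [h1, norm_mul, norm_mul, Complex.norm_I, one_mul, Complex.norm_exp]
  congr 2
  rw [hw]
  simp

/-- `|2 sin π(v+iρ)| = e^{πρ} |1 - e^{2πi(v+iρ)}|` -/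
theorem el_eq_exp' (ρ v : ℝ) (h : ρ = 0 → Real.sin (Real.pi * v) ≠ 0) : el ρ v = Real.pi * ρ +
    Real.log ‖1 - Complex.exp (2 * Real.pi * Complex.I * (v + ρ * Complex.I))‖ := by
  rw [el_eq, norm_two_sin_eq, Real.log_mul (Real.exp_ne_zero _), Real.log_exp]
  intro h0
  have h1 := el_arg_pos' h
  rw [← norm_two_sin, norm_two_sin_eq, h0, mul_zero] at h1
  norm_num at h1

/-- `|2 sin π(v+iρ)| = e^{πρ} |1 - e^{2πi(v+iρ)}|` -/
theorem el_eq_exp {ρ v : ℝ} (hρ : ρ ≠ 0) : el ρ v = Real.pi * ρ +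
    Real.log ‖1 - Complex.exp (2 * Real.pi * Complex.I * (v + ρ * Complex.I))‖ :=
  el_eq_exp' ρ v fun h => absurd h hρ

theorem el_neg (ρ v : ℝ) : el ρ (-v) = el ρ v := by
  rw [el, el, mul_neg, Real.cos_neg]

theorem el_neg_left (ρ v : ℝ) : el (-ρ) v = el ρ v := by
  rw [el, el, mul_neg, Real.cosh_neg]

theorem el_add_one (ρ v : ℝ) : el ρ (v + 1) = el ρ v := by
  rw [el, el, mul_add, mul_one, Real.cos_add_two_pi]

theorem el_one_sub (ρ v : ℝ) : el ρ (1 - v) = el ρ v := by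
  rw [sub_eq_neg_add, el_add_one, el_neg]

/-- `el` increases with `ρ` -/
theorem el_mono {ρ ρ' v : ℝ} (h0 : 0 ≤ ρ) (h : ρ ≤ ρ') (hv : ρ = 0 → Real.sin (Real.pi * v) ≠ 0) :
    el ρ v ≤ el ρ' v := by
  have h1 := el_arg_pos' hv
  have hpi := Real.pi_pos
  have h2 : Real.cosh (2 * Real.pi * ρ) ≤ Real.cosh (2 * Real.pi * ρ') := by
    have h3 : 0 ≤ ρ' := h0.trans h
    rw [Real.cosh_le_cosh, abs_of_nonneg (by positivity), abs_of_nonneg (by positivity)]
    exact mul_le_mul_of_nonneg_left h (by positivity)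
  rw [el, el]
  apply div_le_div_of_nonneg_right _ (by norm_num)
  apply Real.log_le_log h1
  linarith only [h2]

/-- comparison of the values at the same height -/
theorem el_le_el {ρ v w : ℝ} (hv : ρ = 0 → Real.sin (Real.pi * v) ≠ 0)
    (h : Real.cos (2 * Real.pi * w) ≤ Real.cos (2 * Real.pi * v)) : el ρ v ≤ el ρ w := by
  have h1 := el_arg_pos' hv
  rw [el, el]
  apply div_le_div_of_nonneg_right _ (by norm_num)
  apply Real.log_le_log h1
  linarith only [h]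

theorem el_zero (v : ℝ) : el 0 v = Lob.ff (Real.pi * v) := by
  have h2 : Real.cos (2 * Real.pi * v) = 1 - 2 * Real.sin (Real.pi * v) ^ 2 := by
    rw [mul_assoc, Real.cos_two_mul, Real.cos_sq']
    ring
  rw [el, Lob.ff, mul_zero, Real.cosh_zero, h2,
    show (2 : ℝ) * 1 - 2 * (1 - 2 * Real.sin (Real.pi * v) ^ 2) = (2 * Real.sin (Real.pi * v)) ^ 2 by
      ring, Real.log_pow]
  push_cast
  ring

theorem continuous_el {ρ : ℝ} (hρ : ρ ≠ 0) : Continuous (el ρ) := by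
  unfold el
  refine Continuous.div_const (Continuous.log ?_ fun v => (el_arg_pos hρ).ne') 2
  fun_prop

theorem el_intble (ρ a b : ℝ) : IntervalIntegrable (el ρ) MeasureTheory.volume a b := by
  by_cases hρ : ρ = 0
  · have h1 := (Lob.ii (Real.pi * a) (Real.pi * b)).comp_mul_left (c := Real.pi)
    rw [mul_div_cancel_left₀ _ Real.pi_ne_zero, mul_div_cancel_left₀ _ Real.pi_ne_zero] at h1
    refine h1.congr ?_
    intro v _
    rw [hρ, el_zero]
  · exact (continuous_el hρ).intervalIntegrable a b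

theorem Lr_zero_left (x : ℝ) : Lr 0 x = Lob.LF (Real.pi * x) / Real.pi := by
  unfold Lr Lob.LF
  simp_rw [el_zero]
  rw [intervalIntegral.integral_comp_mul_left (fun u => Lob.ff u) Real.pi_ne_zero]
  rw [mul_zero, smul_eq_mul]
  ring

theorem Lr_zero_right (ρ : ℝ) : Lr ρ 0 = 0 := by
  unfold Lr
  exact intervalIntegral.integral_same

theorem Lr_sub (ρ x y : ℝ) : Lr ρ y - Lr ρ x = ∫ v in x..y, el ρ v := by
  unfold Lr
  rw [intervalIntegral.integral_interval_sub_left (el_intble ρ 0 y) (el_intble ρ 0 x)]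

theorem Lr_neg (ρ x : ℝ) : Lr ρ (-x) = -Lr ρ x := by
  unfold Lr
  have h1 : ∫ v in (0 : ℝ)..(-x), el ρ v = ∫ v in (0 : ℝ)..(-x), el ρ (-v) := by
    simp only [el_neg]
  rw [h1, intervalIntegral.integral_comp_neg (fun v => el ρ v), neg_neg, neg_zero,
    intervalIntegral.integral_symm]

/-- mean value of `log |2 sin π(v+iρ)|` -/
theorem Lr_one {ρ : ℝ} (hρ : 0 ≤ ρ) : Lr ρ 1 = Real.pi * ρ := by
  rcases hρ.eq_or_lt with h0 | h0
  · rw [← h0, Lr_zero_left, mul_one, Lob.LF_pi, zero_div, mul_zero]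
  set r : ℝ := Real.exp (-(2 * Real.pi * ρ)) with hr
  have hr0 : 0 < r := Real.exp_pos _
  have hr1 : r ≤ 1 := by
    rw [hr]
    apply Real.exp_le_one_iff.mpr
    have := Real.pi_pos
    have : 0 ≤ 2 * Real.pi * ρ := by positivity
    linarith only [this]
  have h1 : ∀ v : ℝ, el ρ v = Real.pi * ρ + Real.log ‖circleMap 0 r (2 * Real.pi * v) - 1‖ := by
    intro v
    have e : Complex.exp (2 * Real.pi * Complex.I * (v + ρ * Complex.I)) =
        circleMap 0 r (2 * Real.pi * v) := by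
      rw [circleMap, zero_add, hr, Complex.ofReal_exp, ← Complex.exp_add]
      congr 1
      push_cast
      linear_combination (2 * Real.pi * ρ : ℂ) * Complex.I_sq
    rw [el_eq_exp h0.ne', norm_sub_rev, e]
  have h2 : ∀ v : ℝ, Real.log ‖circleMap 0 r (2 * Real.pi * v) - 1‖ = el ρ v - Real.pi * ρ := by
    intro v
    rw [h1 v]
    ring
  have h3 := circleAverage_log_norm_sub_const_eq_log_radius_add_posLog (a := (1 : ℂ)) (c := 0)
    (R := r) hr0.ne'
  have h4 : Real.log r + Real.posLog (r⁻¹ * ‖(0 : ℂ) - 1‖) = 0 := by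
    rw [zero_sub, norm_neg, norm_one, mul_one, Real.posLog_eq_log, Real.log_inv]
    · ring
    · rw [abs_of_pos (inv_pos.mpr hr0)]
      exact (one_le_inv₀ hr0).mpr hr1
  rw [h4, Real.circleAverage_def] at h3
  have h5 : ∫ v in (0 : ℝ)..1, Real.log ‖circleMap 0 r (2 * Real.pi * v) - 1‖ = 0 := by
    have h6 := intervalIntegral.integral_comp_mul_left (a := 0) (b := 1)
      (fun θ => Real.log ‖circleMap 0 r θ - 1‖) (c := 2 * Real.pi) (by positivity)
    rw [mul_zero, mul_one] at h6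
    rw [h6]
    exact h3
  have h7 : Lr ρ 1 = ∫ v in (0 : ℝ)..1, el ρ v := rfl
  have h8 : ∫ v in (0 : ℝ)..1, (el ρ v - Real.pi * ρ) = 0 := by
    refine Eq.trans ?_ h5
    exact intervalIntegral.integral_congr fun v _ => (h2 v).symm
  rw [intervalIntegral.integral_sub (el_intble ρ 0 1) intervalIntegrable_const,
    intervalIntegral.integral_const] at h8
  rw [h7]
  simp only [sub_zero, one_smul] at h8
  linarith only [h8]

theorem Lr_add_one {ρ : ℝ} (hρ : 0 ≤ ρ) (x : ℝ) : Lr ρ (x + 1) = Lr ρ x + Real.pi * ρ := by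
  have h1 := Lr_sub ρ 1 (x + 1)
  have h2 := intervalIntegral.integral_comp_add_right (a := 0) (b := x) (fun v => el ρ v) 1
  rw [zero_add] at h2
  rw [← h2] at h1
  simp only [el_add_one] at h1
  rw [Lr_one hρ] at h1
  have h3 : Lr ρ x = ∫ v in (0 : ℝ)..x, el ρ v := rfl
  rw [← h3] at h1
  linarith only [h1]

theorem Lr_one_sub {ρ : ℝ} (hρ : 0 ≤ ρ) (x : ℝ) : Lr ρ (1 - x) = Real.pi * ρ - Lr ρ x := by
  rw [sub_eq_neg_add, Lr_add_one hρ, Lr_neg]
  ring

theorem Lr_half {ρ : ℝ} (hρ : 0 ≤ ρ) : Lr ρ (1 / 2) = Real.pi * ρ / 2 := by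
  have h1 := Lr_one_sub hρ (1 / 2)
  rw [show (1 : ℝ) - 1 / 2 = 1 / 2 by norm_num] at h1
  linarith only [h1]

theorem Lr_half_add {ρ : ℝ} (hρ : 0 ≤ ρ) (x : ℝ) :
    Lr ρ (1 / 2 + x) + Lr ρ (1 / 2 - x) = Real.pi * ρ := by
  have h1 := Lr_one_sub hρ (1 / 2 + x)
  rw [show (1 : ℝ) - (1 / 2 + x) = 1 / 2 - x by ring] at h1
  linarith only [h1]

end Pool.Agent.Work.MP_b30479_gt.DT
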