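import Pool.Agent.Work.MP_b30479_gt.AX.SinP
import Pool.Agent.Work.MP_b30479_gt.DT.Cont

/-!
# The ends of the path
-/

namespace Pool.Agent.Work.MP_b30479_gt.DT

open Finset TB AX

/-- the factors of the product at the ends of the path -/
noncomputable def Fe (s l : ℕ) (y : ℝ) : ℝ :=
  2 * Real.cosh (2 * Real.pi * y / ((2 * s + 1 : ℕ) : ℝ)) +
    2 * Real.cos (2 * Real.pi * ((l : ℝ) - s) / ((2 * s + 1 : ℕ) : ℝ))

lemma Fe_zero_eq {s l : ℕ} : Fe s l 0 =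
    (2 * Real.cos (Real.pi * ((l : ℝ) - s) / ((2 * s + 1 : ℕ) : ℝ))) ^ 2 := by
  unfold Fe
  rw [mul_zero, zero_div, Real.cosh_zero,
    show 2 * Real.pi * ((l : ℝ) - s) / ((2 * s + 1 : ℕ) : ℝ) =
      2 * (Real.pi * ((l : ℝ) - s) / ((2 * s + 1 : ℕ) : ℝ)) by ring, Real.cos_two_mul]
  ring

lemma cos_half_pos {s l : ℕ} (hl : l ≤ 2 * s) :
    0 < Real.cos (Real.pi * ((l : ℝ) - s) / ((2 * s + 1 : ℕ) : ℝ)) := by
  have hpi := Real.pi_pos
  have hn0 : (0 : ℝ) < ((2 * s + 1 : ℕ) : ℝ) := by positivity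
  have hlr : (l : ℝ) ≤ 2 * s := by exact_mod_cast hl
  have hl0 : (0 : ℝ) ≤ l := Nat.cast_nonneg l
  have hns : ((2 * s + 1 : ℕ) : ℝ) = 2 * s + 1 := by push_cast; ring
  apply Real.cos_pos_of_mem_Ioo
  constructor
  · rw [neg_lt, ← neg_div, div_lt_div_iff₀ hn0 (by norm_num), hns]
    nlinarith
  · rw [div_lt_div_iff₀ hn0 (by norm_num), hns]
    nlinarith

lemma Fe_zero_pos {s l : ℕ} (hl : l ≤ 2 * s) : 0 < Fe s l 0 := by
  rw [Fe_zero_eq]
  have := cos_half_pos hl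
  positivity

lemma Fe_le (s l : ℕ) (y : ℝ) : Fe s l 0 ≤ Fe s l y := by
  unfold Fe
  rw [mul_zero, zero_div, Real.cosh_zero]
  have := Real.one_le_cosh (2 * Real.pi * y / ((2 * s + 1 : ℕ) : ℝ))
  linarith

lemma Fe_pos {s l : ℕ} (hl : l ≤ 2 * s) (y : ℝ) : 0 < Fe s l y :=
  lt_of_lt_of_le (Fe_zero_pos hl) (Fe_le s l y)

/-- the end points -/
noncomputable def ze' (e : ℝ) (s : ℕ) (y : ℝ) : ℂ := ((e * hn s : ℝ) : ℂ) + y * Complex.I

lemma ze'_arg (e : ℝ) (s : ℕ) (y : ℝ) :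
    2 * (Real.pi : ℂ) * ze' e s y / ((2 * s + 1 : ℕ) : ℂ) =
      ((e * Real.pi : ℝ) : ℂ) + ((2 * Real.pi * y / ((2 * s + 1 : ℕ) : ℝ) : ℝ) : ℂ) * Complex.I := by
  unfold ze' hn
  have : ((2 * s + 1 : ℕ) : ℂ) ≠ 0 := by exact_mod_cast (by omega : 2 * s + 1 ≠ 0)
  push_cast at this ⊢
  field_simp

lemma cos_epi {e : ℝ} (he : e = 1 ∨ e = -1) (w : ℂ) :
    Complex.cos (((e * Real.pi : ℝ) : ℂ) + w) = -Complex.cos w := by
  rcases he with rfl | rfl
  · rw [one_mul, add_comm, Complex.cos_add_pi]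
  · rw [show ((-1 * Real.pi : ℝ) : ℂ) + w = w - Real.pi by push_cast; ring, Complex.cos_sub_pi]

lemma sin_epi {e : ℝ} (he : e = 1 ∨ e = -1) (w : ℂ) :
    Complex.sin (((e * Real.pi : ℝ) : ℂ) + w) = -Complex.sin w := by
  rcases he with rfl | rfl
  · rw [one_mul, add_comm, Complex.sin_add_pi]
  · rw [show ((-1 * Real.pi : ℝ) : ℂ) + w = w - Real.pi by push_cast; ring, Complex.sin_sub_pi]

lemma cc_end {e : ℝ} (he : e = 1 ∨ e = -1) (s : ℕ) (y : ℝ) (l : ℕ) :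
    cc (2 * s + 1) (ze' e s y) - cc (2 * s + 1) ((l : ℂ) - s) = ((-Fe s l y : ℝ) : ℂ) := by
  unfold cc
  rw [ze'_arg, cos_epi he, Complex.cos_mul_I, ← Complex.ofReal_cosh]
  unfold Fe
  push_cast
  have : Complex.cos (2 * (Real.pi : ℂ) * ((l : ℂ) - s) / (2 * s + 1)) =
      ((Real.cos (2 * Real.pi * ((l : ℝ) - s) / (2 * s + 1)) : ℝ) : ℂ) := by
    push_cast; rfl
  rw [this]
  push_cast
  ring

lemma norm_cc_end {e : ℝ} (he : e = 1 ∨ e = -1) {s : ℕ} (y : ℝ) {l : ℕ} (hl : l ≤ 2 * s) :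
    ‖cc (2 * s + 1) (ze' e s y) - cc (2 * s + 1) ((l : ℂ) - s)‖ = Fe s l y := by
  rw [cc_end he, Complex.norm_real, norm_neg, Real.norm_of_nonneg (Fe_pos hl y).le]

lemma prod_Fe {e : ℝ} (he : e = 1 ∨ e = -1) (s : ℕ) (y : ℝ) :
    ∏ l ∈ range (2 * s + 1), Fe s l y =
      4 * ‖Complex.sin (Real.pi * ze' e s y)‖ ^ 2 := by
  have h1 := congrArg norm (prod_cc s (ze' e s y))
  rw [norm_prod] at h1
  rw [norm_mul, norm_neg, norm_pow] at h1
  rw [show ‖(4 : ℂ)‖ = 4 by simp] at h1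
  rw [← h1]
  apply Finset.prod_congr rfl
  intro l hl
  rw [mem_range] at hl
  rw [norm_cc_end he y (by omega)]

lemma sin_end_zero {e : ℝ} (he : e = 1 ∨ e = -1) (s : ℕ) :
    ‖Complex.sin (Real.pi * ze' e s 0)‖ = 1 := by
  have e1 : (Real.pi : ℂ) * ze' e s 0 = ((e * (Real.pi / 2 + s * Real.pi) : ℝ) : ℂ) := by
    unfold ze' hn
    push_cast
    ring
  rw [e1, ← Complex.ofReal_sin, Complex.norm_real]
  have e2 : Real.sin (Real.pi / 2 + s * Real.pi) = (-1) ^ s := by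
    rw [Real.sin_add_nat_mul_pi, Real.sin_pi_div_two, mul_one]
  rcases he with rfl | rfl
  · rw [one_mul, e2]
    simp
  · rw [neg_one_mul, Real.sin_neg, e2]
    simp

lemma norm_Qk_end {e : ℝ} (he : e = 1 ∨ e = -1) (s k : ℕ) (y : ℝ) :
    ‖Qk s k (ze' e s y)‖ = ∏ l ∈ Ioc k (2 * s), Fe s l y := by
  unfold Qk
  rw [norm_prod]
  apply Finset.prod_congr rfl
  intro l hl
  rw [mem_Ioc] at hl
  rw [norm_cc_end he y hl.2]

lemma Qk_end_le {e : ℝ} (he : e = 1 ∨ e = -1) (s k : ℕ) (y : ℝ) :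
    ‖Qk s k (ze' e s y)‖ / ‖Complex.sin (Real.pi * ze' e s y)‖ ^ 2 ≤
      ∏ l ∈ Ioc k (2 * s), Fe s l 0 := by
  have hsub : Ioc k (2 * s) ⊆ range (2 * s + 1) := by
    intro l hl
    rw [mem_Ioc] at hl
    rw [mem_range]
    omega
  have h0 := prod_Fe he s 0
  have hy := prod_Fe he s y
  rw [sin_end_zero he] at h0
  have hpos : 0 < ∏ l ∈ range (2 * s + 1), Fe s l y := by
    apply Finset.prod_pos
    intro l hl
    rw [mem_range] at hl
    exact Fe_pos (by omega) y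
  have hsin : 0 < ‖Complex.sin (Real.pi * ze' e s y)‖ ^ 2 := by
    rw [hy] at hpos
    linarith
  rw [norm_Qk_end he, div_le_iff₀ hsin]
  -- complementary factors
  have c1 := Finset.prod_sdiff (f := fun l => Fe s l y) hsub
  have c0 := Finset.prod_sdiff (f := fun l => Fe s l 0) hsub
  have hc : ∏ l ∈ range (2 * s + 1) \ Ioc k (2 * s), Fe s l 0 ≤
      ∏ l ∈ range (2 * s + 1) \ Ioc k (2 * s), Fe s l y := by
    apply Finset.prod_le_prod
    · intro l hl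
      rw [mem_sdiff, mem_range] at hl
      exact (Fe_zero_pos (by omega)).le
    · intro l _
      exact Fe_le s l y
  have hcp : 0 < ∏ l ∈ range (2 * s + 1) \ Ioc k (2 * s), Fe s l 0 := by
    apply Finset.prod_pos
    intro l hl
    rw [mem_sdiff, mem_range] at hl
    exact Fe_zero_pos (by omega)
  have hA : 0 ≤ ∏ l ∈ Ioc k (2 * s), Fe s l y := by
    apply Finset.prod_nonneg
    intro l hl
    rw [mem_Ioc] at hl
    exact (Fe_pos hl.2 y).le
  rw [hy] at c1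
  rw [h0] at c0
  set A := ∏ l ∈ Ioc k (2 * s), Fe s l y
  set A0 := ∏ l ∈ Ioc k (2 * s), Fe s l 0
  set B := ∏ l ∈ range (2 * s + 1) \ Ioc k (2 * s), Fe s l y
  set B0 := ∏ l ∈ range (2 * s + 1) \ Ioc k (2 * s), Fe s l 0
  set S := ‖Complex.sin (Real.pi * ze' e s y)‖ ^ 2
  -- B * A = 4 * S, B0 * A0 = 4
  have h1 : B0 * A ≤ B0 * (A0 * S) := by
    calc B0 * A ≤ B * A := mul_le_mul_of_nonneg_right hc hA
      _ = B0 * A0 * S := by rw [c1, c0]; ring
      _ = B0 * (A0 * S) := by ring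
  exact le_of_mul_le_mul_left h1 hcp

/-- `∏_{m<M} 2 sin(π(m+1/2)/n)` -/
noncomputable def PM (n M : ℕ) : ℝ :=
  ∏ m ∈ range M, 2 * Real.sin (Real.pi * ((m : ℝ) + 1 / 2) / n)

lemma PM_succ (n M : ℕ) : PM n (M + 1) =
    PM n M * (2 * Real.sin (Real.pi * ((M : ℝ) + 1 / 2) / n)) := by
  unfold PM
  rw [prod_range_succ]

lemma sin_half_pos {s m : ℕ} (hm : m ≤ 2 * s) :
    0 < Real.sin (Real.pi * ((m : ℝ) + 1 / 2) / ((2 * s + 1 : ℕ) : ℝ)) := by
  have hpi := Real.pi_pos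
  have hn0 : (0 : ℝ) < ((2 * s + 1 : ℕ) : ℝ) := by positivity
  have hlr : (m : ℝ) ≤ 2 * s := by exact_mod_cast hm
  have hns : ((2 * s + 1 : ℕ) : ℝ) = 2 * s + 1 := by push_cast; ring
  apply Real.sin_pos_of_pos_of_lt_pi
  · positivity
  · rw [div_lt_iff₀ hn0, hns]
    nlinarith

lemma PM_pos {s M : ℕ} (hM : M ≤ 2 * s + 1) : 0 < PM (2 * s + 1) M := by
  unfold PM
  apply Finset.prod_pos
  intro m hm
  rw [mem_range] at hm
  have := sin_half_pos (s := s) (m := m) (by omega)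
  positivity

lemma PM_le_small {s M : ℕ} (hM : M ≤ s) : PM (2 * s + 1) M ≤ fS (2 * s + 1) M := by
  have hpi := Real.pi_pos
  have hn0 : (0 : ℝ) < ((2 * s + 1 : ℕ) : ℝ) := by positivity
  have hns : ((2 * s + 1 : ℕ) : ℝ) = 2 * s + 1 := by push_cast; ring
  unfold PM fS
  apply Finset.prod_le_prod
  · intro m hm
    rw [mem_range] at hm
    have := sin_half_pos (s := s) (m := m) (by omega)
    positivity
  · intro m hm
    rw [mem_range] at hm
    have hms : (m : ℝ) + 1 ≤ s := by exact_mod_cast (by omega : m + 1 ≤ s)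
    have hm0 : (0 : ℝ) ≤ m := Nat.cast_nonneg m
    apply mul_le_mul_of_nonneg_left _ (by norm_num)
    apply Real.sin_le_sin_of_le_of_le_pi_div_two
    · have : 0 ≤ Real.pi * ((m : ℝ) + 1 / 2) / ((2 * s + 1 : ℕ) : ℝ) := by positivity
      linarith
    · rw [div_le_div_iff₀ hn0 (by norm_num), hns]
      nlinarith
    · apply div_le_div_of_nonneg_right _ hn0.le
      nlinarith

lemma PM_sin_le {s M : ℕ} (hM : M ≤ 2 * s) :
    PM (2 * s + 1) M * Real.sin (Real.pi * (M : ℝ) / ((2 * s + 1 : ℕ) : ℝ)) ≤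
      fS (2 * s + 1) M := by
  have hpi := Real.pi_pos
  have hn0 : (0 : ℝ) < ((2 * s + 1 : ℕ) : ℝ) := by positivity
  have hns : ((2 * s + 1 : ℕ) : ℝ) = 2 * s + 1 := by push_cast; ring
  by_cases hMs : M ≤ s
  · have h1 := PM_le_small hMs
    have h2 := PM_pos (s := s) (M := M) (by omega)
    have h3 := Real.sin_le_one (Real.pi * (M : ℝ) / ((2 * s + 1 : ℕ) : ℝ))
    calc PM (2 * s + 1) M * Real.sin (Real.pi * (M : ℝ) / ((2 * s + 1 : ℕ) : ℝ))
        ≤ PM (2 * s + 1) M * 1 := mul_le_mul_of_nonneg_left h3 h2.le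
      _ ≤ fS (2 * s + 1) M := by rw [mul_one]; exact h1
  · rw [not_le] at hMs
    induction M with
    | zero => omega
    | succ M ih =>
      rw [PM_succ, fS_succ]
      have hsin : 0 < Real.sin (Real.pi * ((M : ℝ) + 1) / ((2 * s + 1 : ℕ) : ℝ)) :=
        sinF_pos (by omega)
      have hP := PM_pos (s := s) (M := M) (by omega)
      rw [show ((M + 1 : ℕ) : ℝ) = (M : ℝ) + 1 by push_cast; ring]
      by_cases hM2 : M ≤ s
      · have h1 := PM_le_small hM2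
        have h3 := Real.sin_le_one (Real.pi * ((M : ℝ) + 1 / 2) / ((2 * s + 1 : ℕ) : ℝ))
        calc PM (2 * s + 1) M * (2 * Real.sin (Real.pi * ((M : ℝ) + 1 / 2) /
              ((2 * s + 1 : ℕ) : ℝ))) * Real.sin (Real.pi * ((M : ℝ) + 1) / ((2 * s + 1 : ℕ) : ℝ))
            ≤ PM (2 * s + 1) M * (2 * 1) *
              Real.sin (Real.pi * ((M : ℝ) + 1) / ((2 * s + 1 : ℕ) : ℝ)) := by
              apply mul_le_mul_of_nonneg_right _ hsin.le
              apply mul_le_mul_of_nonneg_left _ hP.le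
              linarith
          _ = PM (2 * s + 1) M *
              (2 * Real.sin (Real.pi * ((M : ℝ) + 1) / ((2 * s + 1 : ℕ) : ℝ))) := by ring
          _ ≤ _ := mul_le_mul_of_nonneg_right h1 (by positivity)
      · have ih' := ih (by omega) (by omega)
        have hMr : (s : ℝ) + 1 ≤ M := by exact_mod_cast (by omega : s + 1 ≤ M)
        have hMr2 : (M : ℝ) + 1 ≤ 2 * s := by exact_mod_cast (by omega : M + 1 ≤ 2 * s)
        have h4 : Real.sin (Real.pi * ((M : ℝ) + 1 / 2) / ((2 * s + 1 : ℕ) : ℝ)) ≤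
            Real.sin (Real.pi * (M : ℝ) / ((2 * s + 1 : ℕ) : ℝ)) := by
          rw [← Real.sin_pi_sub (Real.pi * ((M : ℝ) + 1 / 2) / ((2 * s + 1 : ℕ) : ℝ)),
            ← Real.sin_pi_sub (Real.pi * (M : ℝ) / ((2 * s + 1 : ℕ) : ℝ))]
          apply Real.sin_le_sin_of_le_of_le_pi_div_two
          · have : Real.pi * ((M : ℝ) + 1 / 2) / ((2 * s + 1 : ℕ) : ℝ) ≤ Real.pi := by
              rw [div_le_iff₀ hn0, hns]
              nlinarith
            linarith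
          · rw [sub_le_comm, show Real.pi - Real.pi / 2 = Real.pi / 2 by ring,
              div_le_div_iff₀ (by norm_num) hn0, hns]
            nlinarith
          · apply sub_le_sub_left
            apply div_le_div_of_nonneg_right _ hn0.le
            nlinarith
        calc PM (2 * s + 1) M * (2 * Real.sin (Real.pi * ((M : ℝ) + 1 / 2) /
              ((2 * s + 1 : ℕ) : ℝ))) * Real.sin (Real.pi * ((M : ℝ) + 1) / ((2 * s + 1 : ℕ) : ℝ))
            ≤ PM (2 * s + 1) M * (2 * Real.sin (Real.pi * (M : ℝ) / ((2 * s + 1 : ℕ) : ℝ))) *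
              Real.sin (Real.pi * ((M : ℝ) + 1) / ((2 * s + 1 : ℕ) : ℝ)) := by
              apply mul_le_mul_of_nonneg_right _ hsin.le
              apply mul_le_mul_of_nonneg_left _ hP.le
              linarith
          _ = PM (2 * s + 1) M * Real.sin (Real.pi * (M : ℝ) / ((2 * s + 1 : ℕ) : ℝ)) *
              (2 * Real.sin (Real.pi * ((M : ℝ) + 1) / ((2 * s + 1 : ℕ) : ℝ))) := by ring
          _ ≤ _ := mul_le_mul_of_nonneg_right ih' (by positivity)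

lemma PM_le {s M : ℕ} (hM : M ≤ 2 * s) :
    PM (2 * s + 1) M ≤ ((2 * s + 1 : ℕ) : ℝ) * fS (2 * s + 1) M := by
  have hpi := Real.pi_pos
  have hn0 : (0 : ℝ) < ((2 * s + 1 : ℕ) : ℝ) := by positivity
  have hn1 : (1 : ℝ) ≤ ((2 * s + 1 : ℕ) : ℝ) := by exact_mod_cast (by omega : 1 ≤ 2 * s + 1)
  have hns : ((2 * s + 1 : ℕ) : ℝ) = 2 * s + 1 := by push_cast; ring
  have hf := fS_pos (n := 2 * s + 1) (m := M) (by omega)
  rcases Nat.eq_zero_or_pos M with rfl | hM0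
  · unfold PM fS
    simp
  by_cases hMs : M ≤ s
  · have h1 := PM_le_small hMs
    nlinarith
  · rw [not_le] at hMs
    have h1 := PM_sin_le hM
    have hMr : (s : ℝ) + 1 ≤ M := by exact_mod_cast hMs
    have hMr2 : (M : ℝ) ≤ 2 * s := by exact_mod_cast hM
    have h2 : 1 / ((2 * s + 1 : ℕ) : ℝ) ≤
        Real.sin (Real.pi * (M : ℝ) / ((2 * s + 1 : ℕ) : ℝ)) := by
      rw [← Real.sin_pi_sub]
      have e1 : Real.pi - Real.pi * (M : ℝ) / ((2 * s + 1 : ℕ) : ℝ) =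
          Real.pi * (((2 * s + 1 : ℕ) : ℝ) - M) / ((2 * s + 1 : ℕ) : ℝ) := by
        field_simp
      rw [e1]
      have h3 : (0 : ℝ) ≤ Real.pi * (((2 * s + 1 : ℕ) : ℝ) - M) / ((2 * s + 1 : ℕ) : ℝ) := by
        apply div_nonneg _ hn0.le
        apply mul_nonneg hpi.le
        rw [hns]; linarith
      have h4 := Real.mul_le_sin h3 (by
        rw [div_le_div_iff₀ hn0 (by norm_num), hns]
        nlinarith)
      refine le_trans ?_ h4
      have e2 : 2 / Real.pi * (Real.pi * (((2 * s + 1 : ℕ) : ℝ) - M) / ((2 * s + 1 : ℕ) : ℝ)) =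
          2 * (((2 * s + 1 : ℕ) : ℝ) - M) / ((2 * s + 1 : ℕ) : ℝ) := by
        field_simp
      rw [e2]
      apply div_le_div_of_nonneg_right _ hn0.le
      rw [hns]; linarith
    have hP := PM_pos (s := s) (M := M) (by omega)
    have h5 : PM (2 * s + 1) M * (1 / ((2 * s + 1 : ℕ) : ℝ)) ≤ fS (2 * s + 1) M :=
      le_trans (mul_le_mul_of_nonneg_left h2 hP.le) h1
    rw [mul_one_div, div_le_iff₀ hn0] at h5
    linarith

lemma prod_Fe_zero {s k : ℕ} (hk : k ≤ 2 * s) :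
    ∏ l ∈ Ioc k (2 * s), Fe s l 0 = PM (2 * s + 1) (2 * s - k) ^ 2 := by
  unfold PM
  rw [← Finset.prod_pow]
  have hn0 : ((2 * s + 1 : ℕ) : ℝ) ≠ 0 := by positivity
  refine Finset.prod_bij' (fun l _ => 2 * s - l) (fun m _ => 2 * s - m) ?_ ?_ ?_ ?_ ?_
  · intro l hl
    rw [mem_Ioc] at hl
    rw [mem_range]
    omega
  · intro m hm
    rw [mem_range] at hm
    rw [mem_Ioc]
    omega
  · intro l hl
    rw [mem_Ioc] at hl
    show 2 * s - (2 * s - l) = l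
    omega
  · intro m hm
    rw [mem_range] at hm
    show 2 * s - (2 * s - m) = m
    omega
  · intro l hl
    rw [mem_Ioc] at hl
    rw [Fe_zero_eq]
    congr 2
    rw [← Real.sin_pi_div_two_sub]
    congr 1
    rw [Nat.cast_sub hl.2]
    field_simp
    push_cast
    ring

lemma Gk_end {e : ℝ} (he : e = 1 ∨ e = -1) (a : ℕ) {s k : ℕ} (hk : k ≤ 2 * s) {y : ℝ}
    (hy : 0 ≤ y) :
    fS (2 * s + 1) k ^ 2 * ‖Gk a s k (ze' e s y)‖ ≤
      1 * ((2 * s + 1 : ℕ) : ℝ) ^ 4 * Real.sinh (2 * Real.pi * y / ((2 * s + 1 : ℕ) : ℝ)) *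
        Real.exp (-(e * (Real.pi * a * y))) := by
  have hn0 : (0 : ℝ) < ((2 * s + 1 : ℕ) : ℝ) := by positivity
  have hnc : ((2 * s + 1 : ℕ) : ℂ) ≠ 0 := by exact_mod_cast (by omega : 2 * s + 1 ≠ 0)
  have he2 : e ^ 2 = 1 := by rcases he with rfl | rfl <;> norm_num
  have hsinh : 0 ≤ Real.sinh (2 * Real.pi * y / ((2 * s + 1 : ℕ) : ℝ)) := by
    rw [Real.sinh_nonneg_iff]
    have := Real.pi_pos
    positivity
  have n1 : ‖Complex.exp (Real.pi * Complex.I * a * ze' e s y ^ 2 / ((2 * s + 1 : ℕ) : ℂ))‖ =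
      Real.exp (-(e * (Real.pi * a * y))) := by
    rw [Complex.norm_exp]
    congr 1
    have : Real.pi * Complex.I * a * ze' e s y ^ 2 / ((2 * s + 1 : ℕ) : ℂ) =
        ((-(e * (Real.pi * a * y)) : ℝ) : ℂ) +
          ((Real.pi * a * (((e * hn s) ^ 2 - y ^ 2) / ((2 * s + 1 : ℕ) : ℝ)) : ℝ) : ℂ) *
            Complex.I := by
      unfold ze' hn
      push_cast at hnc ⊢
      field_simp
      linear_combination (4 * (a : ℂ) * y ^ 2 * Complex.I + 4 * a * e * y *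
        (2 * s + 1)) * Complex.I_sq
    rw [this]
    simp only [Complex.add_re, Complex.ofReal_re, Complex.mul_re, Complex.I_re, Complex.ofReal_im,
      Complex.I_im]
    ring
  have n2 : ‖Complex.sin (2 * Real.pi * ze' e s y / ((2 * s + 1 : ℕ) : ℂ))‖ =
      Real.sinh (2 * Real.pi * y / ((2 * s + 1 : ℕ) : ℝ)) := by
    rw [ze'_arg, sin_epi he, norm_neg, Complex.sin_mul_I, norm_mul, Complex.norm_I, mul_one,
      ← Complex.ofReal_sinh, Complex.norm_real, Real.norm_of_nonneg hsinh]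
  unfold Gk
  rw [norm_div, norm_mul, norm_mul, n1, n2, norm_pow, mul_div_assoc]
  have h1 := Qk_end_le he s k y
  rw [prod_Fe_zero hk] at h1
  have h2 := PM_le (s := s) (M := 2 * s - k) (by omega)
  have h3 := fS_refl (n := 2 * s + 1) (m := k) (by omega)
  rw [show 2 * s + 1 - 1 - k = 2 * s - k by omega] at h3
  have hP := PM_pos (s := s) (M := 2 * s - k) (by omega)
  have hf := fS_pos (n := 2 * s + 1) (m := k) (by omega)
  have h4 : fS (2 * s + 1) k ^ 2 * (‖Qk s k (ze' e s y)‖ /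
      ‖Complex.sin (Real.pi * ze' e s y)‖ ^ 2) ≤ ((2 * s + 1 : ℕ) : ℝ) ^ 4 := by
    calc fS (2 * s + 1) k ^ 2 * (‖Qk s k (ze' e s y)‖ /
          ‖Complex.sin (Real.pi * ze' e s y)‖ ^ 2)
        ≤ fS (2 * s + 1) k ^ 2 * PM (2 * s + 1) (2 * s - k) ^ 2 :=
          mul_le_mul_of_nonneg_left h1 (by positivity)
      _ ≤ fS (2 * s + 1) k ^ 2 *
          (((2 * s + 1 : ℕ) : ℝ) * fS (2 * s + 1) (2 * s - k)) ^ 2 := by
          apply mul_le_mul_of_nonneg_left _ (by positivity)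
          exact pow_le_pow_left₀ hP.le h2 2
      _ = ((2 * s + 1 : ℕ) : ℝ) ^ 2 * (fS (2 * s + 1) k * fS (2 * s + 1) (2 * s - k)) ^ 2 := by
          ring
      _ = ((2 * s + 1 : ℕ) : ℝ) ^ 4 := by rw [h3]; ring
  have hexp := Real.exp_pos (-(e * (Real.pi * a * y)))
  calc fS (2 * s + 1) k ^ 2 * (Real.exp (-(e * (Real.pi * a * y))) *
        Real.sinh (2 * Real.pi * y / ((2 * s + 1 : ℕ) : ℝ)) * (‖Qk s k (ze' e s y)‖ /
          ‖Complex.sin (Real.pi * ze' e s y)‖ ^ 2))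
      = (fS (2 * s + 1) k ^ 2 * (‖Qk s k (ze' e s y)‖ /
          ‖Complex.sin (Real.pi * ze' e s y)‖ ^ 2)) *
        (Real.sinh (2 * Real.pi * y / ((2 * s + 1 : ℕ) : ℝ)) *
          Real.exp (-(e * (Real.pi * a * y)))) := by ring
    _ ≤ ((2 * s + 1 : ℕ) : ℝ) ^ 4 * (Real.sinh (2 * Real.pi * y / ((2 * s + 1 : ℕ) : ℝ)) *
          Real.exp (-(e * (Real.pi * a * y)))) :=
        mul_le_mul_of_nonneg_right h4 (by positivity)
    _ = _ := by ring

theorem ends (a : ℕ) : ∃ C : ℝ, 0 < C ∧ ∀ s k : ℕ, k ≤ 2 * s → ∀ y : ℝ, 0 ≤ y →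
    fS (2 * s + 1) k ^ 2 * ‖Gk a s k ((hn s : ℂ) + y * Complex.I)‖ ≤
      C * ((2 * s + 1 : ℕ) : ℝ) ^ 4 * Real.sinh (2 * Real.pi * y / ((2 * s + 1 : ℕ) : ℝ)) *
        Real.exp (-(Real.pi * a * y)) ∧
    fS (2 * s + 1) k ^ 2 * ‖Gk a s k (((-hn s : ℝ) : ℂ) + y * Complex.I)‖ ≤
      C * ((2 * s + 1 : ℕ) : ℝ) ^ 4 * Real.sinh (2 * Real.pi * y / ((2 * s + 1 : ℕ) : ℝ)) *
        Real.exp (Real.pi * a * y) := by
  refine ⟨1, one_pos, fun s k hk y hy => ⟨?_, ?_⟩⟩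
  · have h := Gk_end (e := 1) (Or.inl rfl) a hk hy
    simp only [ze', one_mul] at h ⊢
    exact h
  · have h := Gk_end (e := -1) (Or.inr rfl) a hk hy
    simp only [ze', one_mul, neg_mul, neg_neg] at h ⊢
    exact h

end Pool.Agent.Work.MP_b30479_gt.DT
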