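import Pool.Agent.Work.MP_b30479_gt.AX.SinP
import Pool.Agent.Work.MP_b30479_gt.DT.El

/-!
# Two-sided bounds for the products of sines
-/

namespace Pool.Agent.Work.MP_b30479_gt.DT

open Finset TB AX

/-- upper bound of `LF` near `0` -/
lemma LF_small_upper {y : ℝ} (h0 : 0 < y) (h1 : y < Real.pi) :
    Lob.LF y ≤ y * Real.log (2 * y) - y := by
  have e1 : ∫ u in (0 : ℝ)..y, (Real.log u + Real.log 2) = y * Real.log (2 * y) - y := by
    rw [intervalIntegral.integral_add intervalIntegral.intervalIntegrable_log'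
      intervalIntegrable_const, integral_log, intervalIntegral.integral_const,
      Real.log_mul (by norm_num) h0.ne']
    simp
    ring
  rw [← e1]
  unfold Lob.LF
  apply intervalIntegral.integral_mono_on_of_le_Ioo h0.le (Lob.ii 0 y)
    (intervalIntegral.intervalIntegrable_log'.add intervalIntegrable_const)
  intro u hu
  unfold Lob.ff
  have hs : 0 < Real.sin u := Real.sin_pos_of_pos_of_lt_pi hu.1 (by linarith only [h1, hu, hu.2])
  rw [Real.log_mul (by norm_num) hs.ne']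
  have := Real.log_le_log hs (Real.sin_le hu.1.le)
  linarith only [this]

lemma log_fS {s k : ℕ} (hk : k ≤ 2 * s) : Real.log (fS (2 * s + 1) k) =
    Lob.SS (Real.pi / ((2 * s + 1 : ℕ) : ℝ)) k := by
  unfold fS Lob.SS
  rw [Real.log_prod]
  · apply Finset.sum_congr rfl
    intro j hj
    unfold Lob.ff
    congr 3
    ring
  · intro l hl
    rw [mem_range] at hl
    have := sinF_pos (n := 2 * s + 1) (l := l) (by omega)
    positivity

lemma fS_lower {s k : ℕ} (hk : k ≤ 2 * s) :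
    (4 : ℝ)⁻¹ * (((2 * s + 1 : ℕ) : ℝ) *
        Real.exp (2 * ((2 * s + 1 : ℕ) : ℝ) * Lr 0 (1 / 2 + et s k))) ≤
      fS (2 * s + 1) k ^ 2 := by
  have hpi := Real.pi_pos
  have hn0 : (0 : ℝ) < ((2 * s + 1 : ℕ) : ℝ) := by positivity
  have hf := fS_pos (n := 2 * s + 1) (m := k) (by omega)
  set n : ℝ := ((2 * s + 1 : ℕ) : ℝ) with hn
  have hn1 : (1 : ℝ) ≤ n := by rw [hn]; exact_mod_cast (by omega : 1 ≤ 2 * s + 1)
  have hns : n = 2 * s + 1 := by rw [hn]; push_cast; ring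
  set h : ℝ := Real.pi / n with hh
  have h0 : 0 < h := by positivity
  have hx : Real.pi * (1 / 2 + et s k) = (k + 1 / 2) * h := by
    unfold et
    rw [hh, ← hn]
    field_simp
    rw [hns]
    ring
  have hkr : (k : ℝ) ≤ 2 * s := by exact_mod_cast hk
  have h1 := Lob.SS_lower h0 k (by
    rw [hh, ← mul_div_assoc, div_le_iff₀ hn0]
    rw [hns]
    nlinarith only [hpi, hkr])
  have h2 := LF_small_upper (y := h / 2) (by positivity) (by
    rw [hh, div_div, div_lt_iff₀ (by positivity)]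
    nlinarith only [hpi, hn0, hn1])
  rw [show 2 * (h / 2) = h by ring] at h2
  rw [← log_fS hk] at h1
  rw [Lr_zero_left, hx]
  have h3 : Real.log h = Real.log Real.pi - Real.log n := by
    rw [hh, Real.log_div hpi.ne' hn0.ne']
  have h4 : 2 * n * (Lob.LF ((k + 1 / 2) * h) / Real.pi) ≤
      2 * Real.log (fS (2 * s + 1) k) + Real.log h - 1 := by
    have e : n * (1 / Real.pi) = 1 / h := by rw [hh]; field_simp
    have e2 : 2 * n * (Lob.LF ((k + 1 / 2) * h) / Real.pi) =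
        2 * (Lob.LF ((k + 1 / 2) * h) / h) := by
      rw [hh]; field_simp
    rw [e2, ← sub_nonneg]
    have e3 : 2 * Real.log (fS (2 * s + 1) k) + Real.log h - 1 -
        2 * (Lob.LF ((k + 1 / 2) * h) / h) =
        2 / h * (h * Real.log (fS (2 * s + 1) k) - (Lob.LF ((k + 1 / 2) * h) -
          (h / 2 * Real.log h - h / 2))) := by
      field_simp
      ring
    rw [e3]
    apply mul_nonneg (by positivity)
    linarith only [h1, h2]
  have h5 : Real.exp (2 * n * (Lob.LF ((k + 1 / 2) * h) / Real.pi)) ≤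
      fS (2 * s + 1) k ^ 2 * h := by
    calc Real.exp (2 * n * (Lob.LF ((k + 1 / 2) * h) / Real.pi))
        ≤ Real.exp (2 * Real.log (fS (2 * s + 1) k) + Real.log h) := by
          apply Real.exp_le_exp.2; linarith only [h4]
      _ = fS (2 * s + 1) k ^ 2 * h := by
          rw [Real.exp_add, Real.exp_log h0, two_mul, Real.exp_add, Real.exp_log hf]
          ring
  have h6 : n * Real.exp (2 * n * (Lob.LF ((k + 1 / 2) * h) / Real.pi)) ≤
      fS (2 * s + 1) k ^ 2 * Real.pi := by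
    calc n * Real.exp (2 * n * (Lob.LF ((k + 1 / 2) * h) / Real.pi))
        ≤ n * (fS (2 * s + 1) k ^ 2 * h) := mul_le_mul_of_nonneg_left h5 hn0.le
      _ = fS (2 * s + 1) k ^ 2 * Real.pi := by rw [hh]; field_simp
  have h7 : fS (2 * s + 1) k ^ 2 * Real.pi ≤ fS (2 * s + 1) k ^ 2 * 4 :=
    mul_le_mul_of_nonneg_left Real.pi_le_four (by positivity)
  linarith only [h6, h7]

theorem fS_bounds : ∃ C : ℝ, 0 < C ∧ ∀ s k : ℕ, k ≤ 2 * s →
    C⁻¹ * (((2 * s + 1 : ℕ) : ℝ) *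
        Real.exp (2 * ((2 * s + 1 : ℕ) : ℝ) * Lr 0 (1 / 2 + et s k))) ≤ fS (2 * s + 1) k ^ 2 ∧
    fS (2 * s + 1) k ^ 2 ≤ C * (((2 * s + 1 : ℕ) : ℝ) *
        Real.exp (2 * ((2 * s + 1 : ℕ) : ℝ) * Lr 0 (1 / 2 + et s k))) := by
  refine ⟨4, by norm_num, fun s k hk => ⟨fS_lower hk, ?_⟩⟩
  have hn0 : (0 : ℝ) < ((2 * s + 1 : ℕ) : ℝ) := by positivity
  have hf := fS_pos (n := 2 * s + 1) (m := k) (by omega)
  have hf' := fS_pos (n := 2 * s + 1) (m := 2 * s - k) (by omega)
  have h1 := fS_lower (s := s) (k := 2 * s - k) (by omega)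
  have h2 := fS_refl (n := 2 * s + 1) (m := k) (by omega)
  rw [show 2 * s + 1 - 1 - k = 2 * s - k by omega] at h2
  have e1 : 1 / 2 + et s (2 * s - k) = 1 - (1 / 2 + et s k) := by
    unfold et
    rw [Nat.cast_sub hk]
    push_cast
    field_simp
    ring
  rw [e1, Lr_one_sub le_rfl] at h1
  set E : ℝ := Lr 0 (1 / 2 + et s k) with hE
  set n : ℝ := ((2 * s + 1 : ℕ) : ℝ) with hn
  rw [show 2 * n * (Real.pi * 0 - E) = -(2 * n * E) by ring, Real.exp_neg] at h1
  have hexp := Real.exp_pos (2 * n * E)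
  have h3 : fS (2 * s + 1) k ^ 2 * fS (2 * s + 1) (2 * s - k) ^ 2 = n ^ 2 := by
    rw [← mul_pow, h2]
  have h4 : fS (2 * s + 1) k ^ 2 * ((4 : ℝ)⁻¹ * (n * (Real.exp (2 * n * E))⁻¹)) ≤ n ^ 2 := by
    rw [← h3]
    exact mul_le_mul_of_nonneg_left h1 (by positivity)
  have h5 : fS (2 * s + 1) k ^ 2 = fS (2 * s + 1) k ^ 2 *
      ((4 : ℝ)⁻¹ * (n * (Real.exp (2 * n * E))⁻¹)) * (4 * Real.exp (2 * n * E) / n) := by
    field_simp
  rw [h5]
  calc fS (2 * s + 1) k ^ 2 *
      ((4 : ℝ)⁻¹ * (n * (Real.exp (2 * n * E))⁻¹)) * (4 * Real.exp (2 * n * E) / n)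
      ≤ n ^ 2 * (4 * Real.exp (2 * n * E) / n) :=
        mul_le_mul_of_nonneg_right h4 (by positivity)
    _ = 4 * (n * Real.exp (2 * n * E)) := by field_simp

end Pool.Agent.Work.MP_b30479_gt.DT
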