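import Pool.Agent.Work.MP_b30479_gt.DT.LrDer

/-!
# Two-sided bounds for `Qk`
-/

namespace Pool.Agent.Work.MP_b30479_gt.DT

open Finset TB AX

lemma qbd_step {φ G : ℝ → ℝ} (hG : ∀ x, HasDerivAt G (φ x) x) {L : ℝ}
    (hL : ∀ x y, |φ x - φ y| ≤ L * |x - y|) {n : ℝ} (hn : 0 < n) (x : ℝ) :
    |n * (G (x + 1 / (2 * n)) - G (x - 1 / (2 * n))) - φ x| ≤ L * (1 / (2 * n)) := by
  have hh : 0 < 1 / (2 * n) := by positivity
  have hL0 : 0 ≤ L := by
    have := (abs_nonneg _).trans (hL 1 0)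
    simpa using this
  obtain ⟨c, hc, hc2⟩ := exists_hasDerivAt_eq_slope G φ (a := x - 1 / (2 * n))
    (b := x + 1 / (2 * n)) (by linarith)
    (fun y _ => (hG y).continuousAt.continuousWithinAt) (fun y _ => hG y)
  have e1 : n * (G (x + 1 / (2 * n)) - G (x - 1 / (2 * n))) = φ c := by
    rw [hc2]
    have e2 : x + 1 / (2 * n) - (x - 1 / (2 * n)) = 1 / n := by
      field_simp
      ring
    rw [e2]
    field_simp
  rw [e1]
  refine (hL c x).trans ?_
  apply mul_le_mul_of_nonneg_left _ hL0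
  rw [abs_le]
  constructor
  · linarith [hc.1]
  · linarith [hc.2]

lemma qbd_sum {φ G : ℝ → ℝ} (hG : ∀ x, HasDerivAt G (φ x) x) {L : ℝ}
    (hL : ∀ x y, |φ x - φ y| ≤ L * |x - y|) {n : ℝ} (hn : 0 < n) (x : ℝ) (d : ℕ) :
    |∑ i ∈ range d, φ (x + ((i : ℝ) + 1) / n) -
      n * (G (x + ((d : ℝ) + 1 / 2) / n) - G (x + 1 / (2 * n)))| ≤ d * (L * (1 / (2 * n))) := by
  induction d with
  | zero =>
    have e : x + (((0 : ℕ) : ℝ) + 1 / 2) / n = x + 1 / (2 * n) := by
      push_cast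
      field_simp
      ring
    rw [e]
    simp
  | succ d ih =>
    rw [sum_range_succ]
    have h1 := qbd_step hG hL hn (x + ((d : ℝ) + 1) / n)
    have e1 : x + ((d : ℝ) + 1) / n + 1 / (2 * n) = x + (((d + 1 : ℕ) : ℝ) + 1 / 2) / n := by
      push_cast
      field_simp
      ring
    have e2 : x + ((d : ℝ) + 1) / n - 1 / (2 * n) = x + ((d : ℝ) + 1 / 2) / n := by
      field_simp
      ring
    rw [e1, e2] at h1
    rw [abs_le] at h1 ih ⊢
    have hc : ((d + 1 : ℕ) : ℝ) * (L * (1 / (2 * n))) =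
        d * (L * (1 / (2 * n))) + L * (1 / (2 * n)) := by
      push_cast
      ring
    rw [hc]
    constructor
    · nlinarith [ih.1, h1.2]
    · nlinarith [ih.2, h1.1]

lemma qbd_den_pos {ρ : ℝ} (hρ : 0 < ρ) (v : ℝ) :
    0 < Real.cosh (2 * Real.pi * ρ) - Real.cos (2 * Real.pi * v) := by
  have h1 : 1 < Real.cosh (2 * Real.pi * ρ) := by
    rw [Real.one_lt_cosh]
    have := Real.pi_pos
    positivity
  have h2 := Real.cos_le_one (2 * Real.pi * v)
  linarith

lemma qbd_cosh_mono {ρm ρ : ℝ} (h0 : 0 ≤ ρm) (h : ρm ≤ ρ) :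
    Real.cosh (2 * Real.pi * ρm) ≤ Real.cosh (2 * Real.pi * ρ) := by
  have hpi := Real.pi_pos
  rw [Real.cosh_le_cosh, abs_of_nonneg (by positivity), abs_of_nonneg (by
    have : 0 ≤ ρ := h0.trans h
    positivity)]
  nlinarith

/-- uniform bound of `el` -/
lemma qbd_el_bound {ρm B : ℝ} (hρm : 0 < ρm) : ∃ C : ℝ, 0 ≤ C ∧ ∀ ρ v : ℝ, ρm ≤ ρ → ρ ≤ B →
    |el ρ v| ≤ C := by
  refine ⟨|Real.log (2 * Real.cosh (2 * Real.pi * ρm) - 2)| +
    |Real.log (2 * Real.cosh (2 * Real.pi * B) + 2)|, by positivity, fun ρ v h1 h2 => ?_⟩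
  have hρ : 0 < ρ := hρm.trans_le h1
  have hm : 0 < 2 * Real.cosh (2 * Real.pi * ρm) - 2 := by
    have h1 : 1 < Real.cosh (2 * Real.pi * ρm) := by
      rw [Real.one_lt_cosh]
      have := Real.pi_pos
      positivity
    linarith
  have hd := qbd_den_pos hρ v
  have c1 := qbd_cosh_mono hρm.le h1
  have c2 := qbd_cosh_mono hρ.le h2
  have b1 := Real.cos_le_one (2 * Real.pi * v)
  have b2 := Real.neg_one_le_cos (2 * Real.pi * v)
  have l1 : Real.log (2 * Real.cosh (2 * Real.pi * ρm) - 2) ≤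
      Real.log (2 * Real.cosh (2 * Real.pi * ρ) - 2 * Real.cos (2 * Real.pi * v)) :=
    Real.log_le_log hm (by linarith)
  have l2 : Real.log (2 * Real.cosh (2 * Real.pi * ρ) - 2 * Real.cos (2 * Real.pi * v)) ≤
      Real.log (2 * Real.cosh (2 * Real.pi * B) + 2) :=
    Real.log_le_log (by linarith) (by linarith)
  unfold el
  have a1 := neg_abs_le (Real.log (2 * Real.cosh (2 * Real.pi * ρm) - 2))
  have a2 := le_abs_self (Real.log (2 * Real.cosh (2 * Real.pi * B) + 2))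
  have a3 := abs_nonneg (Real.log (2 * Real.cosh (2 * Real.pi * ρm) - 2))
  have a4 := abs_nonneg (Real.log (2 * Real.cosh (2 * Real.pi * B) + 2))
  rw [abs_le]
  constructor
  · linarith
  · linarith

/-- uniform Lipschitz bound of `el` -/
lemma qbd_el_lip {ρm : ℝ} (hρm : 0 < ρm) : ∃ L : ℝ, 0 ≤ L ∧ ∀ ρ : ℝ, ρm ≤ ρ → ∀ x y : ℝ,
    |el ρ x - el ρ y| ≤ L * |x - y| := by
  have hm : 0 < Real.cosh (2 * Real.pi * ρm) - 1 := by
    have h1 : 1 < Real.cosh (2 * Real.pi * ρm) := by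
      rw [Real.one_lt_cosh]
      have := Real.pi_pos
      positivity
    linarith
  have hpi := Real.pi_pos
  refine ⟨Real.pi * (1 / (Real.cosh (2 * Real.pi * ρm) - 1)), by positivity,
    fun ρ h x y => ?_⟩
  have hρ : 0 < ρ := hρm.trans_le h
  have key := Convex.norm_image_sub_le_of_norm_hasDerivWithin_le (𝕜 := ℝ)
    (f := fun v => el ρ v) (f' := fun v => Real.pi * rr ρ v)
    (C := Real.pi * (1 / (Real.cosh (2 * Real.pi * ρm) - 1))) (s := Set.univ) (x := y) (y := x)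
    (fun v _ => (hasDerivAt_el hρ).hasDerivWithinAt)
    (fun v _ => by
      have hd := qbd_den_pos hρ v
      have c1 := qbd_cosh_mono hρm.le h
      have b1 := Real.cos_le_one (2 * Real.pi * v)
      rw [Real.norm_eq_abs, abs_mul, abs_of_pos hpi]
      apply mul_le_mul_of_nonneg_left _ hpi.le
      unfold rr
      rw [abs_div, abs_of_pos hd]
      exact div_le_div₀ (by norm_num) (Real.abs_sin_le_one _) hm (by linarith))
    convex_univ (Set.mem_univ _) (Set.mem_univ _)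
  simpa [Real.norm_eq_abs] using key

lemma qbd_norm_factor {ρ : ℝ} (hρ : 0 < ρ) (ς x : ℝ) :
    ‖2 * Complex.cos (2 * Real.pi * (ς + ρ * Complex.I)) - 2 * Complex.cos (2 * Real.pi * x)‖ =
      Real.exp (el ρ (x + ς) + el ρ (x - ς)) := by
  have e1 : 2 * Complex.cos (2 * Real.pi * (ς + ρ * Complex.I)) -
      2 * Complex.cos (2 * Real.pi * x) =
      -((2 * Complex.sin (Real.pi * ((x + ς : ℝ) + ρ * Complex.I))) *
        (2 * Complex.sin (Real.pi * (((-(x - ς) : ℝ)) + ρ * Complex.I)))) := by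
    have h := Complex.cos_sub_cos (2 * Real.pi * (ς + ρ * Complex.I)) (2 * Real.pi * x)
    have e2 : (2 * Real.pi * (ς + ρ * Complex.I) + 2 * Real.pi * x) / 2 =
        (Real.pi * ((x + ς : ℝ) + ρ * Complex.I) : ℂ) := by
      push_cast
      ring
    have e3 : (2 * Real.pi * (ς + ρ * Complex.I) - 2 * Real.pi * x) / 2 =
        (Real.pi * (((-(x - ς) : ℝ)) + ρ * Complex.I) : ℂ) := by
      push_cast
      ring
    rw [e2, e3] at h
    linear_combination 2 * h
  rw [e1, norm_neg, norm_mul, ← exp_el hρ.ne', ← exp_el hρ.ne', el_neg, Real.exp_add]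

theorem Qk_bounds {ρm B : ℝ} (hρm : 0 < ρm) : ∃ C : ℝ, 0 < C ∧ ∀ s k : ℕ, k ≤ 2 * s →
    ∀ ς ρ : ℝ, |ς| ≤ 1 / 2 → ρm ≤ ρ → ρ ≤ B →
    C⁻¹ * Real.exp (((2 * s + 1 : ℕ) : ℝ) *
        (Real.pi * ρ - Lr ρ (et s k + ς) - Lr ρ (et s k - ς))) ≤
      ‖Qk s k (((2 * s + 1 : ℕ) : ℂ) * (ς + ρ * Complex.I))‖ ∧
    ‖Qk s k (((2 * s + 1 : ℕ) : ℂ) * (ς + ρ * Complex.I))‖ ≤
      C * Real.exp (((2 * s + 1 : ℕ) : ℝ) *
        (Real.pi * ρ - Lr ρ (et s k + ς) - Lr ρ (et s k - ς))) := by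
  obtain ⟨C1, hC1, hb⟩ := qbd_el_bound (ρm := ρm) (B := B) hρm
  obtain ⟨L, hL0, hL⟩ := qbd_el_lip hρm
  refine ⟨Real.exp (L + C1), Real.exp_pos _, fun s k hk ς ρ _ h1 h2 => ?_⟩
  have hρ : 0 < ρ := hρm.trans_le h1
  set n : ℝ := ((2 * s + 1 : ℕ) : ℝ) with hnd
  have hn : 0 < n := by
    rw [hnd]
    positivity
  have hnc : ((2 * s + 1 : ℕ) : ℂ) ≠ 0 := by
    exact_mod_cast (by omega : 2 * s + 1 ≠ 0)
  -- the two functions
  set φ : ℝ → ℝ := fun v => el ρ (v + ς) + el ρ (v - ς) with hφ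
  set G : ℝ → ℝ := fun v => Lr ρ (v + ς) + Lr ρ (v - ς) with hGd
  have hG : ∀ x, HasDerivAt G (φ x) x := by
    intro x
    have g1 : HasDerivAt (fun v => Lr ρ (v + ς)) (el ρ (x + ς)) x :=
      (hasDerivAt_Lr hρ).comp_add_const x ς
    have g2 : HasDerivAt (fun v => Lr ρ (v - ς)) (el ρ (x - ς)) x :=
      (hasDerivAt_Lr hρ).comp_sub_const x ς
    exact g1.add g2
  have hLφ : ∀ x y, |φ x - φ y| ≤ (2 * L) * |x - y| := by
    intro x y
    have l1 := hL ρ h1 (x + ς) (y + ς)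
    have l2 := hL ρ h1 (x - ς) (y - ς)
    have e1 : x + ς - (y + ς) = x - y := by ring
    have e2 : x - ς - (y - ς) = x - y := by ring
    rw [e1] at l1
    rw [e2] at l2
    have e3 : φ x - φ y = (el ρ (x + ς) - el ρ (y + ς)) + (el ρ (x - ς) - el ρ (y - ς)) := by
      simp only [hφ]
      ring
    rw [e3]
    refine (abs_add_le _ _).trans ?_
    linarith
  have hbφ : ∀ x, |φ x| ≤ 2 * C1 := by
    intro x
    simp only [hφ]
    refine (abs_add_le _ _).trans ?_
    have := hb ρ (x + ς) h1 h2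
    have := hb ρ (x - ς) h1 h2
    linarith
  -- the norm as an exponential of a sum
  have hQ : ‖Qk s k (((2 * s + 1 : ℕ) : ℂ) * (ς + ρ * Complex.I))‖ =
      Real.exp (∑ i ∈ range (2 * s - k), φ (et s k + ((i : ℝ) + 1) / n)) := by
    unfold Qk
    have e0 : Ioc k (2 * s) = Ico (k + 1) (2 * s + 1) := by
      ext x
      simp only [mem_Ioc, mem_Ico]
      omega
    rw [e0, prod_Ico_eq_prod_range, norm_prod, Real.exp_sum,
      show 2 * s + 1 - (k + 1) = 2 * s - k by omega]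
    apply Finset.prod_congr rfl
    intro i _
    simp only [hφ]
    rw [← qbd_norm_factor hρ]
    congr 1
    unfold cc
    congr 2
    · congr 1
      field_simp
    · congr 1
      unfold et
      push_cast
      rw [hnd]
      push_cast
      push_cast at hnc
      field_simp
      ring
  rw [hQ]
  -- comparison with the integral
  have hsum := qbd_sum hG hLφ hn (et s k) (2 * s - k)
  have hd : ((2 * s - k : ℕ) : ℝ) = 2 * s - k := by
    rw [Nat.cast_sub hk]
    push_cast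
    ring
  have e1 : et s k + (((2 * s - k : ℕ) : ℝ) + 1 / 2) / n = 1 / 2 := by
    rw [hd]
    unfold et
    rw [← hnd]
    have : n = 2 * s + 1 := by
      rw [hnd]
      push_cast
      ring
    field_simp
    rw [this]
    ring
  rw [e1] at hsum
  have herr : ((2 * s - k : ℕ) : ℝ) * (2 * L * (1 / (2 * n))) ≤ L := by
    have h3 : ((2 * s - k : ℕ) : ℝ) ≤ n := by
      rw [hnd]
      exact_mod_cast (by omega : 2 * s - k ≤ 2 * s + 1)
    have h4 : ((2 * s - k : ℕ) : ℝ) * (2 * L * (1 / (2 * n))) =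
        (((2 * s - k : ℕ) : ℝ) / n) * L := by
      field_simp
    rw [h4]
    have h5 : ((2 * s - k : ℕ) : ℝ) / n ≤ 1 := by
      rw [div_le_one hn]
      exact h3
    nlinarith
  have hend : |n * (G (et s k + 1 / (2 * n)) - G (et s k))| ≤ C1 := by
    obtain ⟨c, _, hc2⟩ := exists_hasDerivAt_eq_slope G φ (a := et s k)
      (b := et s k + 1 / (2 * n)) (by
        have : 0 < 1 / (2 * n) := by positivity
        linarith)
      (fun y _ => (hG y).continuousAt.continuousWithinAt) (fun y _ => hG y)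
    have e2 : n * (G (et s k + 1 / (2 * n)) - G (et s k)) = φ c / 2 := by
      rw [hc2]
      have e3 : et s k + 1 / (2 * n) - et s k = 1 / (2 * n) := by ring
      rw [e3]
      field_simp
    rw [e2, abs_div, abs_of_pos (by norm_num : (0 : ℝ) < 2)]
    have := hbφ c
    linarith
  have hhalf : G (1 / 2) = Real.pi * ρ := by
    simp only [hGd]
    exact Lr_half_add hρ.le ς
  have hE : n * (Real.pi * ρ - Lr ρ (et s k + ς) - Lr ρ (et s k - ς)) =
      n * (G (1 / 2) - G (et s k)) := by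
    rw [hhalf]
    simp only [hGd]
    ring
  rw [hE]
  set S := ∑ i ∈ range (2 * s - k), φ (et s k + ((i : ℝ) + 1) / n) with hS
  have hdiff : |S - n * (G (1 / 2) - G (et s k))| ≤ L + C1 := by
    have e4 : S - n * (G (1 / 2) - G (et s k)) =
        (S - n * (G (1 / 2) - G (et s k + 1 / (2 * n)))) -
        n * (G (et s k + 1 / (2 * n)) - G (et s k)) := by ring
    rw [e4]
    refine (abs_sub _ _).trans ?_
    linarith
  rw [abs_le] at hdiff
  constructor
  · rw [← Real.exp_neg, ← Real.exp_add]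
    apply Real.exp_le_exp.mpr
    linarith [hdiff.1]
  · rw [← Real.exp_add]
    apply Real.exp_le_exp.mpr
    linarith [hdiff.2]

end Pool.Agent.Work.MP_b30479_gt.DT
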