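import Pool.Agent.Work.MP_b30479_gt.DT.FBd
import Pool.Agent.Work.MP_b30479_gt.DT.QBd

/-!
# Two-sided bounds for the integrand
-/

namespace Pool.Agent.Work.MP_b30479_gt.DT

open Finset TB AX

/-- `|sin π n u|²` for `u = ς + iρ` -/
lemma gbd_sin_sq (n : ℕ) (ς ρ : ℝ) :
    ‖Complex.sin (Real.pi * ((n : ℂ) * (ς + ρ * Complex.I)))‖ ^ 2 =
      (2 * Real.cosh (2 * Real.pi * (n * ρ)) - 2 * Real.cos (2 * Real.pi * (n * ς))) / 4 := by
  have h := norm_two_sin (n * ρ) (n * ς)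
  rw [norm_mul, mul_pow] at h
  have e : (Real.pi * (((n * ς : ℝ) : ℂ) + ((n * ρ : ℝ) : ℂ) * Complex.I) : ℂ) =
      Real.pi * ((n : ℂ) * (ς + ρ * Complex.I)) := by
    push_cast
    ring
  rw [e] at h
  have h2 : ‖(2 : ℂ)‖ = 2 := by simp
  rw [h2] at h
  linarith

lemma gbd_cosh_upper {x : ℝ} (hx : 0 ≤ x) : 2 * Real.cosh x + 2 ≤ 4 * Real.exp x := by
  rw [Real.cosh_eq]
  have h1 : Real.exp (-x) ≤ 1 := Real.exp_le_one_iff.mpr (by linarith)
  have h2 : 1 ≤ Real.exp x := Real.one_le_exp hx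
  linarith

lemma gbd_cosh_lower {x m : ℝ} (hm : 0 < m) (hx : m ≤ x) :
    (1 - Real.exp (-m)) ^ 2 * Real.exp x ≤ 2 * Real.cosh x - 2 := by
  rw [Real.cosh_eq]
  have e1 : Real.exp x * Real.exp (-x) = 1 := by
    rw [← Real.exp_add]
    simp
  have h1 : Real.exp (-x) ≤ Real.exp (-m) := Real.exp_le_exp.mpr (by linarith)
  have h2 : Real.exp (-m) < 1 := by
    rw [Real.exp_lt_one_iff]
    linarith
  have h3 : 0 < Real.exp (-x) := Real.exp_pos _
  have h4 : 0 < Real.exp x := Real.exp_pos _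
  have h5 : (1 - Real.exp (-m)) ^ 2 ≤ (1 - Real.exp (-x)) ^ 2 := by
    apply pow_le_pow_left₀ (by linarith)
    linarith
  have h6 : (1 - Real.exp (-x)) ^ 2 * Real.exp x = Real.exp x + Real.exp (-x) - 2 := by
    linear_combination (-2 + Real.exp (-x)) * e1
  have h7 := mul_le_mul_of_nonneg_right h5 h4.le
  linarith

/-- `|e^{π i a z²/n}|` at `z = n u` -/
lemma gbd_theta (a n : ℕ) (hn : n ≠ 0) (ς ρ : ℝ) :
    ‖Complex.exp (Real.pi * Complex.I * a * ((n : ℂ) * (ς + ρ * Complex.I)) ^ 2 / (n : ℂ))‖ =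
      Real.exp ((n : ℝ) * (-(2 * Real.pi * a * ς * ρ))) := by
  have hnc : (n : ℂ) ≠ 0 := by exact_mod_cast hn
  rw [Complex.norm_exp]
  congr 1
  have e : (Real.pi * Complex.I * a * ((n : ℂ) * (ς + ρ * Complex.I)) ^ 2 / (n : ℂ) : ℂ) =
      (((n : ℝ) * (-(2 * Real.pi * a * ς * ρ)) : ℝ) : ℂ) +
        ((Real.pi * a * n * (ς ^ 2 - ρ ^ 2) : ℝ) : ℂ) * Complex.I := by
    push_cast
    field_simp
    ring_nf
    rw [Complex.I_pow_three, Complex.I_sq]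
    ring
  rw [e, Complex.add_re, Complex.ofReal_re, Complex.re_ofReal_mul, Complex.I_re]
  ring

theorem Gk_bounds (a : ℕ) {ρm B : ℝ} (hρm : 0 < ρm) : ∃ C : ℝ, 0 < C ∧ ∀ s k : ℕ, k ≤ 2 * s →
    ∀ ς ρ : ℝ, |ς| ≤ 1 / 2 → ρm ≤ ρ → ρ ≤ B →
    C⁻¹ * (((2 * s + 1 : ℕ) : ℝ) * ‖Complex.sin (2 * Real.pi * (ς + ρ * Complex.I))‖ *
        Real.exp (((2 * s + 1 : ℕ) : ℝ) * H a (et s k) ς ρ)) ≤
      fS (2 * s + 1) k ^ 2 * ‖Gk a s k (((2 * s + 1 : ℕ) : ℂ) * (ς + ρ * Complex.I))‖ ∧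
    fS (2 * s + 1) k ^ 2 * ‖Gk a s k (((2 * s + 1 : ℕ) : ℂ) * (ς + ρ * Complex.I))‖ ≤
      C * (((2 * s + 1 : ℕ) : ℝ) * ‖Complex.sin (2 * Real.pi * (ς + ρ * Complex.I))‖ *
        Real.exp (((2 * s + 1 : ℕ) : ℝ) * H a (et s k) ς ρ)) := by
  obtain ⟨C1, hC1, hF⟩ := fS_bounds
  obtain ⟨C2, hC2, hQ⟩ := Qk_bounds (ρm := ρm) (B := B) hρm
  have hpi := Real.pi_pos
  set m : ℝ := 2 * Real.pi * ρm with hm
  have hm0 : 0 < m := by positivity
  set c : ℝ := (1 - Real.exp (-m)) ^ 2 with hc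
  have hc0 : 0 < c := by
    have h2 : Real.exp (-m) < 1 := by
      rw [Real.exp_lt_one_iff]
      linarith
    have : 0 < 1 - Real.exp (-m) := by linarith
    positivity
  have hc1 : c ≤ 1 := by
    have h2 : Real.exp (-m) < 1 := by
      rw [Real.exp_lt_one_iff]
      linarith
    have h3 := Real.exp_pos (-m)
    rw [hc]
    apply pow_le_one₀ (by linarith) (by linarith)
  refine ⟨C1 * C2 * (4 / c), by positivity, fun s k hk ς ρ hς h1 h2 => ?_⟩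
  have hρ : 0 < ρ := hρm.trans_le h1
  obtain ⟨f1, f2⟩ := hF s k hk
  obtain ⟨q1, q2⟩ := hQ s k hk ς ρ hς h1 h2
  set n : ℝ := ((2 * s + 1 : ℕ) : ℝ) with hnd
  have hn1 : (1 : ℝ) ≤ n := by
    rw [hnd]
    exact_mod_cast (by omega : 1 ≤ 2 * s + 1)
  have hn : 0 < n := by linarith
  have hn0 : (2 * s + 1 : ℕ) ≠ 0 := by omega
  have hnc : ((2 * s + 1 : ℕ) : ℂ) ≠ 0 := by exact_mod_cast hn0
  set z : ℂ := ((2 * s + 1 : ℕ) : ℂ) * (ς + ρ * Complex.I) with hz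
  set x : ℝ := 2 * Real.pi * (n * ρ) with hx
  have hmx : m ≤ x := by
    rw [hm, hx]
    have : ρm ≤ n * ρ := by nlinarith
    nlinarith
  -- the sine in the denominator
  have hs := gbd_sin_sq (2 * s + 1) ς ρ
  rw [← hz, ← hnd, ← hx] at hs
  have b1 := Real.cos_le_one (2 * Real.pi * (n * ς))
  have b2 := Real.neg_one_le_cos (2 * Real.pi * (n * ς))
  have u1 := gbd_cosh_upper (hm0.le.trans hmx)
  have u2 := gbd_cosh_lower hm0 hmx
  rw [← hc] at u2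
  have hsl : c / 4 * Real.exp x ≤ ‖Complex.sin (Real.pi * z)‖ ^ 2 := by
    rw [hs]
    linarith
  have hsu : ‖Complex.sin (Real.pi * z)‖ ^ 2 ≤ Real.exp x := by
    rw [hs]
    linarith
  have hex := Real.exp_pos x
  have hspos : 0 < ‖Complex.sin (Real.pi * z)‖ ^ 2 := lt_of_lt_of_le (by positivity) hsl
  -- factorisation of the norm
  have hG : fS (2 * s + 1) k ^ 2 * ‖Gk a s k z‖ =
      fS (2 * s + 1) k ^ 2 * ‖Qk s k z‖ * (Real.exp (n * (-(2 * Real.pi * a * ς * ρ))) *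
        ‖Complex.sin (2 * Real.pi * (ς + ρ * Complex.I))‖) *
        (1 / ‖Complex.sin (Real.pi * z)‖ ^ 2) := by
    unfold Gk
    have e1 : 2 * Real.pi * z / ((2 * s + 1 : ℕ) : ℂ) =
        2 * Real.pi * (ς + ρ * Complex.I) := by
      rw [hz]
      field_simp
    rw [e1, norm_div, norm_mul, norm_mul, norm_pow, hz, gbd_theta a (2 * s + 1) hn0 ς ρ]
    ring
  rw [hG]
  set T : ℝ := Real.exp (n * (-(2 * Real.pi * a * ς * ρ))) *
        ‖Complex.sin (2 * Real.pi * (ς + ρ * Complex.I))‖ with hT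
  have hT0 : 0 ≤ T := by positivity
  set P : ℝ := Real.exp (n * (Real.pi * ρ - Lr ρ (et s k + ς) - Lr ρ (et s k - ς))) with hP
  have hP0 : 0 < P := Real.exp_pos _
  set F : ℝ := n * Real.exp (2 * n * Lr 0 (1 / 2 + et s k)) with hFd
  have hF0 : 0 < F := by positivity
  have hH : n * ‖Complex.sin (2 * Real.pi * (ς + ρ * Complex.I))‖ *
      Real.exp (n * H a (et s k) ς ρ) = F * P * T * (1 / Real.exp x) := by
    have e2 : Real.exp (n * H a (et s k) ς ρ) = Real.exp (2 * n * Lr 0 (1 / 2 + et s k)) * P *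
        Real.exp (n * (-(2 * Real.pi * a * ς * ρ))) * (1 / Real.exp x) := by
      rw [hP, show 1 / Real.exp x = Real.exp (-x) by rw [Real.exp_neg, one_div],
        ← Real.exp_add, ← Real.exp_add, ← Real.exp_add]
      congr 1
      unfold H
      rw [hx]
      ring
    rw [e2, hFd, hT]
    ring
  rw [hH]
  have hs1 : 1 / Real.exp x ≤ 1 / ‖Complex.sin (Real.pi * z)‖ ^ 2 :=
    one_div_le_one_div_of_le hspos hsu
  have hs2 : 1 / ‖Complex.sin (Real.pi * z)‖ ^ 2 ≤ (4 / c) * (1 / Real.exp x) := by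
    have := one_div_le_one_div_of_le (by positivity) hsl
    refine this.trans (le_of_eq ?_)
    field_simp
  constructor
  · have g1 : (C1⁻¹ * F) * (C2⁻¹ * P) ≤ fS (2 * s + 1) k ^ 2 * ‖Qk s k z‖ :=
      mul_le_mul f1 q1 (by positivity) (by positivity)
    have g2 : (C1⁻¹ * F) * (C2⁻¹ * P) * T * (1 / Real.exp x) ≤
        fS (2 * s + 1) k ^ 2 * ‖Qk s k z‖ * T * (1 / ‖Complex.sin (Real.pi * z)‖ ^ 2) :=
      mul_le_mul (mul_le_mul_of_nonneg_right g1 hT0) hs1 (by positivity) (by positivity)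
    refine le_trans ?_ g2
    have e3 : (C1 * C2 * (4 / c))⁻¹ * (F * P * T * (1 / Real.exp x)) =
        (c / 4) * ((C1⁻¹ * F) * (C2⁻¹ * P) * T * (1 / Real.exp x)) := by
      field_simp
    rw [e3]
    have h0 : 0 ≤ (C1⁻¹ * F) * (C2⁻¹ * P) * T * (1 / Real.exp x) := by positivity
    nlinarith
  · have g1 : fS (2 * s + 1) k ^ 2 * ‖Qk s k z‖ ≤ (C1 * F) * (C2 * P) :=
      mul_le_mul f2 q2 (norm_nonneg _) (by positivity)
    have g2 : fS (2 * s + 1) k ^ 2 * ‖Qk s k z‖ * T * (1 / ‖Complex.sin (Real.pi * z)‖ ^ 2) ≤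
        (C1 * F) * (C2 * P) * T * ((4 / c) * (1 / Real.exp x)) :=
      mul_le_mul (mul_le_mul_of_nonneg_right g1 hT0) hs2 (by positivity) (by positivity)
    refine g2.trans (le_of_eq ?_)
    ring

end Pool.Agent.Work.MP_b30479_gt.DT
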