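import Pool.Agent.Work.MP_b30479_gt.DT.ConvR
import Pool.Agent.Work.MP_b30479_gt.DT.Crit
import Pool.Agent.Work.MP_b30479_gt.DT.Quad

/-!
# Uniqueness of the critical point
-/

namespace Pool.Agent.Work.MP_b30479_gt.DT

open Finset TB AX

theorem uniq_el_zero_half {η : ℝ} (h0 : |η| < 1 / 2) :
    el 0 (1 / 2 + η) = Real.log (2 * Real.cos (Real.pi * η)) := by
  have hc : 0 < Real.cos (Real.pi * η) := by
    apply Real.cos_pos_of_mem_Ioo
    have := abs_lt.1 h0
    constructor <;> nlinarith only [this, Real.pi_pos]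
  have : 2 * Real.cosh (2 * Real.pi * 0) - 2 * Real.cos (2 * Real.pi * (1 / 2 + η)) =
      (2 * Real.cos (Real.pi * η)) ^ 2 := by
    rw [show 2 * Real.pi * (1 / 2 + η) = 2 * (Real.pi * η) + Real.pi by ring, Real.cos_add_pi,
      Real.cos_two_mul]
    simp
    ring
  rw [el, this, Real.log_pow]
  push_cast
  ring

/-- a critical point of `H(·,·,ρ)` inside `KK` is a maximum -/
theorem max_of_crit {a : ℕ} {η ς ρ : ℝ} (h1 : |ς| < η)
    (h2 : |ς| < 1 / 4) (h3 : η < 1 / 2) (hρ : 0 < ρ)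
    (e1 : 2 * Real.log (2 * Real.cos (Real.pi * η)) = el ρ (η + ς) + el ρ (η - ς))
    (e2 : el ρ (η - ς) - el ρ (η + ς) = 2 * Real.pi * a * ρ)
    {x y : ℝ} (hq : (x, y) ∈ KK) : H a x y ρ ≤ H a η ς ρ := by
  have hη : 0 < η := lt_of_le_of_lt (abs_nonneg _) h1
  have hp : (η, ς) ∈ KK := ⟨hη.le, h3.le, h1.le, h2.le⟩
  set g : ℝ → ℝ := fun t => H a (η + t * (x - η)) (ς + t * (y - ς)) ρ with hg
  have hconc : ConcaveOn ℝ (Set.Icc (0 : ℝ) 1) g := by
    have h := (concaveOn_H a hρ.le)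
    refine ⟨convex_Icc 0 1, ?_⟩
    intro s hs t ht u v hu hv huv
    have hseg : ∀ r ∈ Set.Icc (0 : ℝ) 1, (η + r * (x - η), ς + r * (y - ς)) ∈ KK := by
      intro r hr
      have := convex_KK hp hq (show (0 : ℝ) ≤ 1 - r by linarith only [hr, hr.2]) hr.1 (by ring)
      have e : (1 - r) • (η, ς) + r • (x, y) = (η + r * (x - η), ς + r * (y - ς)) := by
        ext <;> simp <;> ring
      rwa [e] at this
    have := h.2 (hseg s hs) (hseg t ht) hu hv huv
    have e : u • (η + s * (x - η), ς + s * (y - ς)) + v • (η + t * (x - η), ς + t * (y - ς)) =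
        (η + (u * s + v * t) * (x - η), ς + (u * s + v * t) * (y - ς)) := by
      ext
      · simp
        linear_combination η * huv
      · simp
        linear_combination ς * huv
    rw [e] at this
    simpa [hg, smul_eq_mul] using this
  have hder : HasDerivAt g 0 0 := by
    have hs1 : Real.sin (Real.pi * (1 / 2 + η)) ≠ 0 := by
      rw [show Real.pi * (1 / 2 + η) = Real.pi * η + Real.pi / 2 by ring, Real.sin_add_pi_div_two]
      refine (Real.cos_pos_of_mem_Ioo ⟨?_, ?_⟩).ne' <;> nlinarith only [hη, h3, Real.pi_pos]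
    have l1 : HasDerivAt (fun t : ℝ => 1 / 2 + (η + t * (x - η))) (x - η) 0 := by
      simpa using (((hasDerivAt_id (0 : ℝ)).mul_const (x - η)).const_add η).const_add (1 / 2)
    have l2 : HasDerivAt (fun t : ℝ => (η + t * (x - η)) + (ς + t * (y - ς)))
        ((x - η) + (y - ς)) 0 := by
      simpa using HasDerivAt.fun_add (((hasDerivAt_id (0 : ℝ)).mul_const (x - η)).const_add η)
        (((hasDerivAt_id (0 : ℝ)).mul_const (y - ς)).const_add ς)
    have l3 : HasDerivAt (fun t : ℝ => (η + t * (x - η)) - (ς + t * (y - ς)))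
        ((x - η) - (y - ς)) 0 := by
      simpa using HasDerivAt.fun_sub (((hasDerivAt_id (0 : ℝ)).mul_const (x - η)).const_add η)
        (((hasDerivAt_id (0 : ℝ)).mul_const (y - ς)).const_add ς)
    have l4 : HasDerivAt (fun t : ℝ => ς + t * (y - ς)) (y - ς) 0 := by
      simpa using ((hasDerivAt_id (0 : ℝ)).mul_const (y - ς)).const_add ς
    have d1 : HasDerivAt (fun t : ℝ => Lr 0 (1 / 2 + (η + t * (x - η))))
        (el 0 (1 / 2 + η) * (x - η)) 0 := by
      have := HasDerivAt.comp (h₂ := fun x => Lr 0 x) (0 : ℝ)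
        (by simpa using hasDerivAt_Lr_zero hs1) l1
      simpa [Function.comp_def] using this
    have d2 : HasDerivAt (fun t : ℝ => Lr ρ ((η + t * (x - η)) + (ς + t * (y - ς))))
        (el ρ (η + ς) * ((x - η) + (y - ς))) 0 := by
      have := HasDerivAt.comp (h₂ := fun x => Lr ρ x) (0 : ℝ)
        (by simpa using hasDerivAt_Lr (x := η + ς) hρ) l2
      simpa [Function.comp_def] using this
    have d3 : HasDerivAt (fun t : ℝ => Lr ρ ((η + t * (x - η)) - (ς + t * (y - ς))))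
        (el ρ (η - ς) * ((x - η) - (y - ς))) 0 := by
      have := HasDerivAt.comp (h₂ := fun x => Lr ρ x) (0 : ℝ)
        (by simpa using hasDerivAt_Lr (x := η - ς) hρ) l3
      simpa [Function.comp_def] using this
    have d4 : HasDerivAt (fun t : ℝ => Real.pi * ρ * (1 + 2 * a * (ς + t * (y - ς))))
        (Real.pi * ρ * (2 * a * (y - ς))) 0 := by
      simpa using ((l4.const_mul (2 * (a : ℝ))).const_add 1).const_mul (Real.pi * ρ)
    have := (((d1.const_mul 2).sub d2).sub d3).sub d4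
    have e : 2 * (el 0 (1 / 2 + η) * (x - η)) - el ρ (η + ς) * (x - η + (y - ς)) -
        el ρ (η - ς) * (x - η - (y - ς)) - Real.pi * ρ * (2 * a * (y - ς)) = 0 := by
      rw [uniq_el_zero_half (by rw [abs_of_pos hη]; exact h3)]
      linear_combination (x - η) * e1 + (y - ς) * e2
    rw [e] at this
    exact this
  have := hconc.slope_le_of_hasDerivAt (x := 0) (y := 1) (by simp) (by simp) one_pos hder
  rw [slope_def_field] at this
  have e0 : g 0 = H a η ς ρ := by simp [hg]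
  have e1' : g 1 = H a x y ρ := by simp [hg]
  rw [e0, e1'] at this
  linarith only [this]

/-- the derivative of `H` in `ρ` -/
theorem uniq_hasDerivAt_H_rho (a : ℕ) {η ς ρ : ℝ} (hρ : 0 < ρ) :
    HasDerivAt (fun r => H a η ς r)
      (-Tr ρ (η + ς) - Tr ρ (η - ς) - Real.pi * (1 + 2 * a * ς)) ρ := by
  have d4 : HasDerivAt (fun r : ℝ => Real.pi * r * (1 + 2 * a * ς))
      (Real.pi * (1 + 2 * a * ς)) ρ := by
    simpa using ((hasDerivAt_id ρ).const_mul Real.pi).mul_const (1 + 2 * (a : ℝ) * ς)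
  have := (((hasDerivAt_const ρ (2 * Lr 0 (1 / 2 + η))).sub (hasDerivAt_Lr_left (x := η + ς) hρ)).sub
    (hasDerivAt_Lr_left (x := η - ς) hρ)).sub d4
  rw [zero_sub] at this
  exact this

/-- a critical point of `H(η,ς,·)` is a minimum -/
theorem min_of_crit {a : ℕ} {η ς ρ : ℝ} (hp : (η, ς) ∈ KK) (hρ : 0 < ρ)
    (e3 : Tr ρ (η + ς) + Tr ρ (η - ς) + Real.pi * (1 + 2 * a * ς) = 0) {r : ℝ} (hr : 0 ≤ r) :
    H a η ς ρ ≤ H a η ς r := by
  have hc := convexOn_H a hp
  have hd : HasDerivAt (fun r => H a η ς r) 0 ρ := by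
    have := uniq_hasDerivAt_H_rho a (η := η) (ς := ς) hρ
    rwa [show -Tr ρ (η + ς) - Tr ρ (η - ς) - Real.pi * (1 + 2 * a * ς) = 0 by
      linarith only [e3]] at this
  rcases lt_trichotomy ρ r with h | h | h
  · have := hc.le_slope_of_hasDerivAt (x := ρ) (y := r) hρ.le hr h hd
    rw [slope_def_field] at this
    have := mul_nonneg this (sub_nonneg.2 h.le)
    rw [div_mul_cancel₀ _ (sub_pos.2 h).ne'] at this
    linarith only [this]
  · rw [h]
  · have := hc.slope_le_of_hasDerivAt (x := r) (y := ρ) hr hρ.le h hd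
    rw [slope_def_field] at this
    have := mul_nonpos_of_nonpos_of_nonneg this (sub_nonneg.2 h.le)
    rw [div_mul_cancel₀ _ (sub_pos.2 h).ne'] at this
    linarith only [this]

theorem strictMono_Hrho {a : ℕ} {η ς : ℝ} (h1 : |ς| < η) (h2 : |ς| < 1 / 4) (h3 : η < 1 / 2) :
    StrictMonoOn (fun r => -Tr r (η + ς) - Tr r (η - ς) - Real.pi * (1 + 2 * a * ς))
      (Set.Ioi (0 : ℝ)) := by
  have hη : 0 < η := lt_of_le_of_lt (abs_nonneg _) h1
  have hd : ∀ r ∈ Set.Ioi (0 : ℝ), HasDerivAt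
      (fun r => -Tr r (η + ς) - Tr r (η - ς) - Real.pi * (1 + 2 * a * ς))
      (Real.pi * (rr r (η + ς) + rr r (η - ς))) r := by
    intro r hr
    have := (((hasDerivAt_Tr_left (x := η + ς) hr).neg).sub
      (hasDerivAt_Tr_left (x := η - ς) hr)).sub_const (Real.pi * (1 + 2 * a * ς))
    have e : Real.pi * (rr r (η + ς) + rr r (η - ς)) =
        -(-(Real.pi * rr r (η + ς))) - -(Real.pi * rr r (η - ς)) := by ring
    rw [e]
    exact this
  apply strictMonoOn_of_deriv_pos (convex_Ioi 0)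
  · intro r hr
    exact (hd r hr).continuousAt.continuousWithinAt
  · intro r hr
    rw [interior_Ioi] at hr
    rw [(hd r hr).deriv]
    exact mul_pos Real.pi_pos (rr_add_pos hη h3 h1.le h2 hr)

theorem crit_unique {a : ℕ} {η₀ ς₀ ρ₀ : ℝ} (h : IsSad a η₀ ς₀ ρ₀) {η ς ρ : ℝ} (h1 : |ς| < η)
    (h2 : |ς| < 1 / 4) (h3 : η < 1 / 2) (hρ : 0 < ρ)
    (e1 : 2 * Real.log (2 * Real.cos (Real.pi * η)) = el ρ (η + ς) + el ρ (η - ς))
    (e2 : el ρ (η - ς) - el ρ (η + ς) = 2 * Real.pi * a * ρ)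
    (e3 : Tr ρ (η + ς) + Tr ρ (η - ς) + Real.pi * (1 + 2 * a * ς) = 0) :
    η = η₀ ∧ ς = ς₀ ∧ ρ = ρ₀ := by
  have hη : 0 < η := lt_of_le_of_lt (abs_nonneg _) h1
  have hη₀ : 0 < η₀ := lt_of_le_of_lt (abs_nonneg _) h.h1
  have hp : (η, ς) ∈ KK := ⟨hη.le, h3.le, h1.le, h2.le⟩
  have hp₀ : (η₀, ς₀) ∈ KK := ⟨hη₀.le, h.h3.le, h.h1.le, h.h2.le⟩
  have i1 : H a η₀ ς₀ ρ ≤ H a η ς ρ := max_of_crit h1 h2 h3 hρ e1 e2 hp₀
  have i2 : H a η ς ρ ≤ H a η ς ρ₀ := min_of_crit hp hρ e3 h.ρpos.le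
  have i3 := h.min ρ hρ.le
  obtain ⟨c, hc, hq⟩ := quad h
  have hς := abs_lt.1 h1
  have hς' := abs_lt.1 h2
  have i4 := hq η ς hη.le h3.le
    (by
      rw [neg_le]
      apply le_min <;> linarith only [hς, hς']) (by linarith only [h3, hς])
  have hz : (η - η₀) ^ 2 + (ς - ς₀) ^ 2 ≤ 0 := by
    by_contra hcon
    push Not at hcon
    have := mul_pos hc hcon
    linarith only [i1, i2, i3, i4, this]
  have z1 : η = η₀ := by nlinarith only [hz, sq_nonneg (η - η₀), sq_nonneg (ς - ς₀)]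
  have z2 : ς = ς₀ := by nlinarith only [hz, sq_nonneg (η - η₀), sq_nonneg (ς - ς₀)]
  refine ⟨z1, z2, ?_⟩
  subst z1 z2
  have hm := (strictMono_Hrho (a := a) h1 h2 h3).injOn
  apply hm hρ h.ρpos
  have := (crit_real h).2.2
  simp only
  linarith only [e3, this]

end Pool.Agent.Work.MP_b30479_gt.DT
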