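import Pool.Agent.Work.MP_b30479_gt.DT.BW
import Pool.Agent.Work.MP_b30479_gt.DT.Uniq

/-!
# The geometric solution
-/

namespace Pool.Agent.Work.MP_b30479_gt.DT

open Finset TB AX

section
variable {ς ρ η : ℝ}

lemma geom_norm_lt (hρ : 0 < ρ) (x : ℝ) :
    ‖Complex.exp (2 * Real.pi * Complex.I * ((x : ℂ) + ρ * Complex.I))‖ < 1 := by
  have e : (2 * Real.pi * Complex.I * ((x : ℂ) + ρ * Complex.I)) =
      ((-(2 * Real.pi * ρ) : ℝ) : ℂ) + ((2 * Real.pi * x : ℝ) : ℂ) * Complex.I := by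
    push_cast
    linear_combination (2 * Real.pi * ρ : ℂ) * Complex.I_sq
  rw [e, Complex.exp_add, norm_mul, Complex.norm_exp_ofReal_mul_I, mul_one, Complex.norm_exp,
    Complex.ofReal_re, Real.exp_lt_one_iff]
  have := Real.pi_pos
  have : 0 < 2 * Real.pi * ρ := by positivity
  linarith only [this]

lemma geom_re (hρ : 0 < ρ) (x : ℝ) :
    0 < (1 - Complex.exp (2 * Real.pi * Complex.I * ((x : ℂ) + ρ * Complex.I))).re := by
  have h1 := geom_norm_lt hρ x
  have h2 := Complex.re_le_norm (Complex.exp (2 * Real.pi * Complex.I * ((x : ℂ) + ρ * Complex.I)))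
  rw [Complex.sub_re, Complex.one_re]
  linarith only [h1, h2]

lemma geom_pos (hρ : 0 < ρ) (x : ℝ) :
    0 < ‖1 - Complex.exp (2 * Real.pi * Complex.I * ((x : ℂ) + ρ * Complex.I))‖ := by
  rw [norm_pos_iff]
  intro h
  have := geom_re hρ x
  rw [h] at this
  simp at this

lemma geom_conj (x : ℝ) :
    Complex.exp (2 * Real.pi * Complex.I * (((-x : ℝ) : ℂ) + ρ * Complex.I)) =
      (starRingEnd ℂ) (Complex.exp (2 * Real.pi * Complex.I * ((x : ℂ) + ρ * Complex.I))) := by
  rw [← Complex.exp_conj]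
  congr 1
  simp only [map_mul, map_add, Complex.conj_ofReal, Complex.conj_I, map_ofNat]
  push_cast
  ring

lemma geom_arg (hρ : 0 < ρ) (x : ℝ) :
    (1 - Complex.exp (2 * Real.pi * Complex.I * (((-x : ℝ) : ℂ) + ρ * Complex.I))).arg =
      -(1 - Complex.exp (2 * Real.pi * Complex.I * ((x : ℂ) + ρ * Complex.I))).arg := by
  rw [geom_conj]
  set E := Complex.exp (2 * Real.pi * Complex.I * ((x : ℂ) + ρ * Complex.I)) with hE
  have e : (1 - (starRingEnd ℂ) E) = (starRingEnd ℂ) (1 - E) := by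
    simp only [map_sub, map_one]
  rw [e, Complex.arg_conj, if_neg]
  intro hcon
  rw [Complex.arg_eq_pi_iff] at hcon
  have := geom_re hρ x
  rw [← hE] at this
  linarith only [hcon, this, hcon.1]

end

/-- the saddle point solves the equations -/
theorem geom_of_sad {a : ℕ} {η ς ρ : ℝ} (h : IsSad a η ς ρ) : IsGeom a η (ς + ρ * Complex.I) := by
  have e1 : ((ς : ℂ) + ρ * Complex.I).im = ρ := by simp
  have e2 : ((ς : ℂ) + ρ * Complex.I).re = ς := by simp
  have hρ := h.ρpos
  have hpi := Real.pi_pos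
  have hη0 : 0 < η := lt_of_le_of_lt (abs_nonneg _) h.h1
  have hcos : 0 < Real.cos (Real.pi * η) := by
    apply Real.cos_pos_of_mem_Ioo
    have := h.h3
    constructor <;> nlinarith only [hpi, hη0, this]
  refine ⟨by rw [e1]; exact hρ, by rw [e2]; exact h.h1, by rw [e2]; exact h.h2, h.h3,
    crit_complex h, ?_⟩
  obtain ⟨c1, -, -⟩ := crit_real h
  rw [e1]
  have f1 : (ς : ℂ) + ρ * Complex.I - η = ((ς - η : ℝ) : ℂ) + ρ * Complex.I := by push_cast; ring
  have f2 : (ς : ℂ) + ρ * Complex.I + η = ((η + ς : ℝ) : ℂ) + ρ * Complex.I := by push_cast; ring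
  rw [f1, f2]
  rw [← el_neg ρ (η - ς), neg_sub, el_eq_exp hρ.ne', el_eq_exp hρ.ne'] at c1
  have p1 := geom_pos hρ (η + ς)
  have p2 := geom_pos hρ (ς - η)
  set A := ‖1 - Complex.exp (2 * Real.pi * Complex.I * (((η + ς : ℝ) : ℂ) + ρ * Complex.I))‖
  set B := ‖1 - Complex.exp (2 * Real.pi * Complex.I * (((ς - η : ℝ) : ℂ) + ρ * Complex.I))‖
  have c2 : Real.log (B * A) = Real.log (4 * Real.cos (Real.pi * η) ^ 2 *
      Real.exp (-(2 * Real.pi * ρ))) := by
    rw [Real.log_mul p2.ne' p1.ne', Real.log_mul (by positivity) (Real.exp_ne_zero _),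
      Real.log_exp, show 4 * Real.cos (Real.pi * η) ^ 2 = (2 * Real.cos (Real.pi * η)) ^ 2 by ring,
      Real.log_pow]
    push_cast
    linarith only [c1]
  exact Real.log_injOn_pos (Set.mem_Ioi.mpr (by positivity)) (Set.mem_Ioi.mpr (by positivity)) c2

/-- uniqueness -/
theorem geom_unique {a : ℕ} {η₀ ς₀ ρ₀ : ℝ} (h : IsSad a η₀ ς₀ ρ₀) {η : ℝ} {u : ℂ}
    (hg : IsGeom a η u) : η = η₀ ∧ u = ς₀ + ρ₀ * Complex.I := by
  set ς : ℝ := u.re with hς
  set ρ : ℝ := u.im with hρd
  have hu : u = ς + ρ * Complex.I := (Complex.re_add_im u).symm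
  have hρ : 0 < ρ := hg.im_pos
  have hpi := Real.pi_pos
  have hη0 : 0 < η := lt_of_le_of_lt (abs_nonneg _) hg.re_lt
  have hcos : 0 < Real.cos (Real.pi * η) := by
    apply Real.cos_pos_of_mem_Ioo
    have := hg.lt_half
    constructor <;> nlinarith only [hpi, hη0, this]
  have f1 : u - η = ((-(η - ς) : ℝ) : ℂ) + ρ * Complex.I := by rw [hu]; push_cast; ring
  have f2 : u + η = ((η + ς : ℝ) : ℂ) + ρ * Complex.I := by rw [hu]; push_cast; ring
  have g1 := hg.filling
  have g2 := hg.gluing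
  rw [f1, f2] at g1 g2
  have p1 := geom_pos hρ (η + ς)
  have p2 := geom_pos hρ (-(η - ς))
  have l1 : el ρ (η + ς) = Real.pi * ρ + Real.log
      ‖1 - Complex.exp (2 * Real.pi * Complex.I * (((η + ς : ℝ) : ℂ) + ρ * Complex.I))‖ :=
    el_eq_exp hρ.ne'
  have l2 : el ρ (η - ς) = Real.pi * ρ + Real.log
      ‖1 - Complex.exp (2 * Real.pi * Complex.I * (((-(η - ς) : ℝ) : ℂ) + ρ * Complex.I))‖ := by
    rw [← el_neg]
    exact el_eq_exp hρ.ne'
  have t1 : Tr ρ (η + ς) = Real.pi * (η + ς) -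
      (1 - Complex.exp (2 * Real.pi * Complex.I * (((η + ς : ℝ) : ℂ) + ρ * Complex.I))).arg := rfl
  have t2 : Tr ρ (η - ς) = Real.pi * (η - ς) +
      (1 - Complex.exp (2 * Real.pi * Complex.I *
        (((-(η - ς) : ℝ) : ℂ) + ρ * Complex.I))).arg := by
    rw [geom_arg hρ]
    unfold Tr
    ring
  have r1 := congrArg Complex.re g1
  have r2 := congrArg Complex.im g1
  have s1 : (2 * Real.pi * Complex.I * (a * u + 1 / 2 + η)).re = -(2 * Real.pi * a * ρ) := by
    rw [hu]
    simp only [Complex.add_re, Complex.mul_re,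
      Complex.re_ofNat, Complex.ofReal_re, Complex.im_ofNat, Complex.ofReal_im, mul_zero,
      sub_zero, Complex.I_re, Complex.mul_im, zero_mul, add_zero, Complex.I_im, mul_one,
      Complex.natCast_re, Complex.natCast_im, Complex.add_im, zero_add,
      sub_self, Complex.div_im, Complex.one_im, Complex.one_re, Complex.div_re]
    norm_num
    ring
  have s2 : (2 * Real.pi * Complex.I * (a * u + 1 / 2 + η)).im =
      2 * Real.pi * (a * ς + 1 / 2 + η) := by
    rw [hu]
    simp only [Complex.add_re, Complex.mul_re,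
      Complex.re_ofNat, Complex.ofReal_re, Complex.im_ofNat, Complex.ofReal_im, mul_zero,
      sub_zero, Complex.I_re, Complex.mul_im, zero_mul, add_zero, Complex.I_im, mul_one,
      Complex.natCast_re, Complex.natCast_im, Complex.add_im, zero_add,
      sub_self, Complex.div_im, Complex.one_im, Complex.one_re, Complex.div_re]
    norm_num
  rw [Complex.add_re, Complex.sub_re, Complex.log_re, Complex.log_re, s1, Complex.zero_re] at r1
  rw [Complex.add_im, Complex.sub_im, Complex.log_im, Complex.log_im, s2, Complex.zero_im] at r2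
  have key := crit_unique h hg.re_lt hg.re_lt' hg.lt_half hρ
    (by
      have c2 := congrArg Real.log g2
      rw [Real.log_mul p2.ne' p1.ne', Real.log_mul (by positivity) (Real.exp_ne_zero _),
        Real.log_exp, show 4 * Real.cos (Real.pi * η) ^ 2 = (2 * Real.cos (Real.pi * η)) ^ 2 by
          ring, Real.log_pow, Nat.cast_ofNat] at c2
      rw [l1, l2]
      linarith only [c2])
    (by rw [l1, l2]; linarith only [r1])
    (by rw [t1, t2]; linarith only [r2])
  exact ⟨key.1, by rw [hu, show ς = ς₀ from key.2.1, show ρ = ρ₀ from key.2.2]⟩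

theorem vol_of_sad {a : ℕ} {η ς ρ : ℝ} (h : IsSad a η ς ρ) :
    4 * Real.pi * H a η ς ρ = volDT η (ς + ρ * Complex.I) := by
  rw [vol_BW h]
  unfold volDT
  have e : (starRingEnd ℂ) ((ς : ℂ) + ρ * Complex.I) = ς - ρ * Complex.I := by
    simp only [map_add, map_mul, Complex.conj_ofReal, Complex.conj_I]
    ring
  rw [e]

end Pool.Agent.Work.MP_b30479_gt.DT
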