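import Pool.Agent.Work.MP_b30479_gt.DT.PtwAll

/-!
# The inner integral
-/

namespace Pool.Agent.Work.MP_b30479_gt.DT

open Finset TB AX Filter Topology

/-! ### the real part of `lp` -/

lemma inner_lp_re {ρ : ℝ} (v : ℝ) (hρ : 0 < ρ) :
    (lp ((v : ℂ) + ρ * Complex.I)).re = Real.pi * rr ρ v := by
  have hw : 0 < ((ρ : ℂ) * Complex.I).im := by simpa using hρ
  have h1 := hasDerivAt_hor (fun w hw => hasDerivAt_ll hw) hw v
  have h2 : HasDerivAt (fun t : ℝ => (ll ((ρ : ℂ) * Complex.I + t)).re)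
      (lp ((ρ : ℂ) * Complex.I + v)).re v :=
    Complex.reCLM.hasFDerivAt.comp_hasDerivAt v h1
  have h3 : (fun t : ℝ => el ρ t - Real.pi * ρ) =
      fun t : ℝ => (ll ((ρ : ℂ) * Complex.I + t)).re := by
    funext t
    rw [el_eq_exp hρ.ne', ll, Complex.log_re, add_comm ((ρ : ℂ) * Complex.I)]
    ring
  rw [← h3] at h2
  have h4 := (hasDerivAt_el (v := v) hρ).sub_const (Real.pi * ρ)
  have h5 := h2.unique h4
  rw [add_comm, h5]

theorem cC_re {a : ℕ} {η₀ ς₀ ρ₀ : ℝ} (h : IsSad a η₀ ς₀ ρ₀) :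
    (cC a η₀ (ς₀ + ρ₀ * Complex.I)).re < 0 := by
  have h0 : 0 < η₀ := (abs_nonneg _).trans_lt h.h1
  have hr := rr_add_pos (ρ := ρ₀) h0 h.h3 h.h1.le h.h2 h.ρpos
  have e1 := inner_lp_re (ς₀ + η₀) h.ρpos
  have e2 := inner_lp_re (ς₀ - η₀) h.ρpos
  have e3 : rr ρ₀ (ς₀ - η₀) = -rr ρ₀ (η₀ - ς₀) := by
    unfold rr
    have a1 : 2 * Real.pi * (ς₀ - η₀) = -(2 * Real.pi * (η₀ - ς₀)) := by ring
    rw [a1, Real.sin_neg, Real.cos_neg, neg_div]
  have e4 : (ς₀ : ℂ) + ρ₀ * Complex.I + η₀ = ((ς₀ + η₀ : ℝ) : ℂ) + ρ₀ * Complex.I := by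
    push_cast
    ring
  have e5 : (ς₀ : ℂ) + ρ₀ * Complex.I - η₀ = ((ς₀ - η₀ : ℝ) : ℂ) + ρ₀ * Complex.I := by
    push_cast
    ring
  have e6 : (cC a η₀ (ς₀ + ρ₀ * Complex.I)).re =
      -(Real.pi / 2 * (rr ρ₀ (η₀ + ς₀) + rr ρ₀ (η₀ - ς₀))) := by
    unfold cC
    rw [e4, e5]
    have a1 : ((Real.pi : ℂ) * Complex.I * a).re = 0 := by simp
    rw [Complex.sub_re, a1, Complex.div_ofNat_re, Complex.sub_re, e1, e2, e3, add_comm ς₀ η₀]
    ring
  rw [e6]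
  have hpi := Real.pi_pos
  have : 0 < Real.pi / 2 * (rr ρ₀ (η₀ + ς₀) + rr ρ₀ (η₀ - ς₀)) := by positivity
  linarith

theorem gg_pos {a : ℕ} {η₀ ς₀ ρ₀ : ℝ} (h : IsSad a η₀ ς₀ ρ₀) (X : ℝ) :
    0 < gg a η₀ (ς₀ + ρ₀ * Complex.I) X := by
  have hC := cC_re h
  set u : ℂ := ς₀ + ρ₀ * Complex.I with hu
  unfold gg
  rw [norm_pos_iff]
  have h1 := integral_cexp_quadratic (b := cC a η₀ u) hC (cB η₀ u * X) (cA η₀ u * X ^ 2)
  have h2 : (fun Y : ℝ => Complex.exp (cA η₀ u * X ^ 2 + cB η₀ u * X * Y + cC a η₀ u * Y ^ 2)) =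
      fun Y : ℝ => Complex.exp (cC a η₀ u * Y ^ 2 + cB η₀ u * X * Y + cA η₀ u * X ^ 2) := by
    funext Y
    congr 1
    ring
  rw [h2, h1]
  apply mul_ne_zero _ (Complex.exp_ne_zero _)
  have hC0 : cC a η₀ u ≠ 0 := by
    intro h0
    rw [h0] at hC
    simp at hC
  have h3 : (Real.pi : ℂ) / -cC a η₀ u ≠ 0 :=
    div_ne_zero (by exact_mod_cast Real.pi_ne_zero) (neg_ne_zero.mpr hC0)
  rw [Ne, Complex.cpow_eq_zero_iff]
  tauto

/-! ### the bound -/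

lemma inner_gauss {b : ℝ} (hb : 0 < b) (m : ℝ) {x y : ℝ} (hxy : x ≤ y) :
    ∫ t in x..y, Real.exp (-(b * (t - m) ^ 2)) ≤ √(Real.pi / b) := by
  rw [intervalIntegral.integral_of_le hxy]
  have h1 : MeasureTheory.Integrable (fun t : ℝ => Real.exp (-(b * (t - m) ^ 2))) := by
    have := (integrable_exp_neg_mul_sq hb).comp_sub_right m
    simpa [neg_mul] using this
  have h2 : ∫ t : ℝ, Real.exp (-(b * (t - m) ^ 2)) = √(Real.pi / b) := by
    have h3 := MeasureTheory.integral_sub_right_eq_self (μ := MeasureTheory.volume)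
      (fun t : ℝ => Real.exp (-(b * t ^ 2))) m
    rw [h3]
    have h4 := integral_gaussian b
    simpa [neg_mul] using h4
  rw [← h2]
  exact MeasureTheory.setIntegral_le_integral h1
    (Filter.Eventually.of_forall fun t => (Real.exp_pos _).le)

lemma inner_Gk_cont (a s k : ℕ) {f : ℝ → ℂ} (hf : Continuous f) (him : ∀ t, (f t).im ≠ 0) :
    Continuous fun t => Gk a s k (f t) := by
  have h1 : ∀ t, Complex.sin (Real.pi * f t) ^ 2 ≠ 0 := by
    intro t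
    apply pow_ne_zero
    apply pa_sin_ne
    rw [Complex.im_ofReal_mul]
    exact mul_ne_zero Real.pi_ne_zero (him t)
  have h2 : Continuous fun t => Qk s k (f t) := by
    unfold Qk cc
    apply continuous_finsetProd
    intro l _
    fun_prop
  unfold Gk
  apply Continuous.div _ _ h1
  · apply Continuous.mul _ h2
    fun_prop
  · fun_prop

theorem U_bound {a : ℕ} {η₀ ς₀ ρ₀ : ℝ} (h : IsSad a η₀ ς₀ ρ₀) : ∃ C c : ℝ, 0 < C ∧ 0 < c ∧
    ∀ s k : ℕ, k ≤ 2 * s → ‖Uk a η₀ ς₀ ρ₀ s k‖ ≤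
      C * Real.exp (-(c * ((k : ℝ) - k0 η₀ s) ^ 2 / ((2 * s + 1 : ℕ) : ℝ))) := by
  obtain ⟨C, c, hC, hc, hd⟩ := dom h
  have hpi := Real.pi_pos
  refine ⟨C * √(Real.pi / c), c, by positivity, hc, ?_⟩
  intro s k hk
  by_cases hsk : s ≤ k
  swap
  · rw [Uk, Mk, if_neg hsk, mul_zero, norm_zero]
    positivity
  have hP := P0_pos h s
  rw [Uk, Mk, if_pos hsk]
  have hn0 : (0 : ℝ) < ((2 * s + 1 : ℕ) : ℝ) := by positivity
  have hd' := hd s k hsk hk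
  set n : ℝ := ((2 * s + 1 : ℕ) : ℝ) with hnd
  set P := P0 a η₀ ς₀ ρ₀ s with hPd
  set D := Real.exp (-(c * ((k : ℝ) - k0 η₀ s) ^ 2 / n)) with hD
  have hxk : xk s k ≤ 0 := by
    unfold xk et
    have hsk' : (s : ℝ) ≤ k := by exact_mod_cast hsk
    have h1 : 0 ≤ min (((k : ℝ) - s) / ((2 * s + 1 : ℕ) : ℝ)) (1 / 4) := by
      apply le_min
      · apply div_nonneg
        · linarith
        · positivity
      · norm_num
    have h2 : 0 ≤ ((2 * s + 1 : ℕ) : ℝ) * min (((k : ℝ) - s) / ((2 * s + 1 : ℕ) : ℝ)) (1 / 4) := by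
      positivity
    linarith
  have hhn : 0 ≤ hn s := by
    unfold hn
    positivity
  have hxh := hxk.trans hhn
  have key : ‖∫ x in (xk s k)..(hn s), ((fS (2 * s + 1) k ^ 2 : ℝ) : ℂ) *
      Gk a s k ((x : ℂ) + ((n * ρ₀ : ℝ) : ℂ) * Complex.I)‖ ≤
      ∫ x in (xk s k)..(hn s), C * P * D * Real.exp (-(c / n * (x - n * ς₀) ^ 2)) := by
    apply intervalIntegral.norm_integral_le_of_norm_le hxh
    · apply Filter.Eventually.of_forall
      intro x hx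
      have h1 := hd' x hx.1.le hx.2
      rw [norm_mul, Complex.norm_real, Real.norm_of_nonneg (by positivity)]
      refine h1.trans (le_of_eq ?_)
      rw [hD, mul_assoc (C * P), ← Real.exp_add]
      congr 2
      ring
    · apply Continuous.intervalIntegrable
      fun_prop
  rw [intervalIntegral.integral_const_mul, intervalIntegral.integral_const_mul] at key
  have h2 := inner_gauss (div_pos hc hn0) (n * ς₀) hxh
  have h3 : √(Real.pi / (c / n)) = √(Real.pi / c) * √n := by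
    rw [← Real.sqrt_mul (by positivity)]
    congr 1
    field_simp
  rw [h3] at h2
  have hCPD : 0 < C * P * D := by positivity
  have h4 := key.trans (mul_le_mul_of_nonneg_left h2 hCPD.le)
  have h5 : ((fS (2 * s + 1) k ^ 2 / (P * √n) : ℝ) : ℂ) = ((P * √n : ℝ) : ℂ)⁻¹ *
      ((fS (2 * s + 1) k ^ 2 : ℝ) : ℂ) := by
    push_cast
    ring
  have hsn : 0 < √n := Real.sqrt_pos.mpr hn0
  rw [h5, mul_assoc, norm_mul, norm_inv, Complex.norm_real, Real.norm_of_nonneg (by positivity)]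
  calc (P * √n)⁻¹ * _ ≤ (P * √n)⁻¹ * (C * P * D * (√(Real.pi / c) * √n)) := by
        apply mul_le_mul_of_nonneg_left h4
        positivity
    _ = C * √(Real.pi / c) * D := by
        field_simp

/-! ### the limit -/

lemma inner_xk_nonpos {s k : ℕ} (hsk : s ≤ k) : xk s k ≤ 0 := by
  unfold xk et
  have hsk' : (s : ℝ) ≤ k := by exact_mod_cast hsk
  have h1 : 0 ≤ min (((k : ℝ) - s) / ((2 * s + 1 : ℕ) : ℝ)) (1 / 4) := by
    apply le_min
    · apply div_nonneg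
      · linarith
      · positivity
    · norm_num
  have h2 : 0 ≤ ((2 * s + 1 : ℕ) : ℝ) * min (((k : ℝ) - s) / ((2 * s + 1 : ℕ) : ℝ)) (1 / 4) := by
    positivity
  linarith

lemma inner_hn_nonneg (s : ℕ) : 0 ≤ hn s := by
  unfold hn
  positivity

/-- change of variables -/
lemma inner_Uk_eq {a : ℕ} {η₀ ς₀ ρ₀ : ℝ} (h : IsSad a η₀ ς₀ ρ₀) {s k : ℕ} (hk : s ≤ k) :
    Uk a η₀ ς₀ ρ₀ s k =
      ∫ Y in ((xk s k - ((2 * s + 1 : ℕ) : ℝ) * ς₀) / √((2 * s + 1 : ℕ) : ℝ))..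
        ((hn s - ((2 * s + 1 : ℕ) : ℝ) * ς₀) / √((2 * s + 1 : ℕ) : ℝ)),
        ((fS (2 * s + 1) k ^ 2 / P0 a η₀ ς₀ ρ₀ s : ℝ) : ℂ) *
          Gk a s k (((2 * s + 1 : ℕ) : ℂ) * (ς₀ + ρ₀ * Complex.I) +
            (√((2 * s + 1 : ℕ) : ℝ) : ℂ) * (Y : ℂ)) := by
  have hn0 : (0 : ℝ) < ((2 * s + 1 : ℕ) : ℝ) := by positivity
  have hP := P0_pos h s
  rw [Uk, Mk, if_pos hk, intervalIntegral.integral_const_mul]
  have hcast : ((2 * s + 1 : ℕ) : ℂ) = ((((2 * s + 1 : ℕ) : ℝ)) : ℂ) := by push_cast; ring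
  rw [hcast]
  set n : ℝ := ((2 * s + 1 : ℕ) : ℝ) with hnd
  set P := P0 a η₀ ς₀ ρ₀ s with hPd
  have hsn : 0 < √n := Real.sqrt_pos.mpr hn0
  have h1 := intervalIntegral.integral_comp_mul_add
    (a := (xk s k - n * ς₀) / √n) (b := (hn s - n * ς₀) / √n)
    (fun x : ℝ => Gk a s k ((x : ℂ) + ((n * ρ₀ : ℝ) : ℂ) * Complex.I)) hsn.ne' (n * ς₀)
  have e1 : √n * ((xk s k - n * ς₀) / √n) + n * ς₀ = xk s k := by
    field_simp
    ring
  have e2 : √n * ((hn s - n * ς₀) / √n) + n * ς₀ = hn s := by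
    field_simp
    ring
  rw [e1, e2] at h1
  have e3 : (fun Y : ℝ => Gk a s k ((n : ℂ) * (ς₀ + ρ₀ * Complex.I) + (√n : ℂ) * (Y : ℂ))) =
      fun Y : ℝ => Gk a s k (((√n * Y + n * ς₀ : ℝ) : ℂ) + ((n * ρ₀ : ℝ) : ℂ) * Complex.I) := by
    funext Y
    congr 1
    push_cast
    ring
  rw [e3, h1, Complex.real_smul]
  push_cast
  field_simp

/-- the rescaled end points -/
lemma inner_ends {a : ℕ} {η₀ ς₀ ρ₀ : ℝ} (h : IsSad a η₀ ς₀ ρ₀) {j : ℕ → ℤ} {X : ℝ}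
    (hj : Tendsto (fun s : ℕ => (j s : ℝ) / √((2 * s + 1 : ℕ) : ℝ)) atTop (𝓝 X)) :
    (∀ᶠ s : ℕ in atTop, s ≤ ((k0 η₀ s : ℤ) + j s).toNat ∧ ((k0 η₀ s : ℤ) + j s).toNat ≤ 2 * s) ∧
    Tendsto (fun s : ℕ => (xk s ((k0 η₀ s : ℤ) + j s).toNat - ((2 * s + 1 : ℕ) : ℝ) * ς₀) /
      √((2 * s + 1 : ℕ) : ℝ)) atTop atBot ∧
    Tendsto (fun s : ℕ => (hn s - ((2 * s + 1 : ℕ) : ℝ) * ς₀) /
      √((2 * s + 1 : ℕ) : ℝ)) atTop atTop := by
  have h0 : 0 < η₀ := (abs_nonneg _).trans_lt h.h1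
  have hς := neg_abs_le ς₀
  have hς' := le_abs_self ς₀
  set δ : ℝ := (min η₀ (1 / 4) - |ς₀|) / 4 with hδ
  have hδ0 : 0 < δ := by
    have := lt_min h.h1 h.h2
    rw [hδ]
    linarith
  have hm1 : min η₀ (1 / 4) ≤ η₀ := min_le_left _ _
  have hm2 : min η₀ (1 / 4) ≤ 1 / 4 := min_le_right _ _
  have hinv : Tendsto (fun s : ℕ => (((2 * s + 1 : ℕ) : ℝ))⁻¹) atTop (𝓝 0) :=
    tendsto_inv_atTop_zero.comp (tendsto_natCast_atTop_atTop.comp pa_odd)
  have hsm := (pa_small hj).abs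
  rw [abs_zero] at hsm
  have hall : ∀ᶠ s : ℕ in atTop, s ≤ ((k0 η₀ s : ℤ) + j s).toNat ∧
      ((k0 η₀ s : ℤ) + j s).toNat ≤ 2 * s ∧
      min η₀ (1 / 4) - 2 * δ ≤ min (et s ((k0 η₀ s : ℤ) + j s).toNat) (1 / 4) := by
    filter_upwards [pa_range h0 h.h3 hj, hinv.eventually (gt_mem_nhds hδ0),
      hsm.eventually (gt_mem_nhds hδ0)] with s h1 h2 h3
    have hn0 : (0 : ℝ) < ((2 * s + 1 : ℕ) : ℝ) := by positivity
    obtain ⟨f1, f2⟩ := ddom_floor h0.le s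
    set k : ℕ := ((k0 η₀ s : ℤ) + j s).toNat with hk
    have hkz : (k : ℤ) = (k0 η₀ s : ℤ) + j s := Int.toNat_of_nonneg h1.1
    have hkr : (k : ℝ) = (k0 η₀ s : ℝ) + j s := by exact_mod_cast hkz
    have h4 := (abs_lt.mp h3).1
    have e1 : et s k = ((k0 η₀ s : ℝ) - s) / ((2 * s + 1 : ℕ) : ℝ) +
        (j s : ℝ) / ((2 * s + 1 : ℕ) : ℝ) := by
      rw [et, hkr]
      ring
    have e2 : η₀ - (((2 * s + 1 : ℕ) : ℝ))⁻¹ < ((k0 η₀ s : ℝ) - s) / ((2 * s + 1 : ℕ) : ℝ) := by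
      rw [lt_div_iff₀ hn0, sub_mul, inv_mul_cancel₀ hn0.ne']
      exact f2
    have e3 : η₀ - 2 * δ < et s k := by
      rw [e1]
      linarith
    refine ⟨?_, by omega, ?_⟩
    · have e4 : 0 < et s k := by
        have : 0 ≤ η₀ - 2 * δ := by
          have := abs_nonneg ς₀
          rw [hδ]
          linarith
        linarith
      unfold et at e4
      have e5 : 0 < (k : ℝ) - s := by
        by_contra hcon
        have := div_nonpos_of_nonpos_of_nonneg (not_lt.mp hcon) hn0.le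
        linarith
      have e6 : (s : ℝ) < k := by linarith
      exact_mod_cast e6.le
    · apply le_min
      · linarith
      · linarith
  refine ⟨hall.mono fun s hs => ⟨hs.1, hs.2.1⟩, ?_, ?_⟩
  · have hT : Tendsto (fun s : ℕ => -(2 * δ * √((2 * s + 1 : ℕ) : ℝ))) atTop atBot := by
      apply tendsto_neg_atTop_atBot.comp
      exact pa_tendsto_sqrt.const_mul_atTop (by positivity)
    refine tendsto_atBot_mono' _ ?_ hT
    filter_upwards [hall] with s hs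
    have hn0 : (0 : ℝ) < ((2 * s + 1 : ℕ) : ℝ) := by positivity
    have hsn : 0 < √((2 * s + 1 : ℕ) : ℝ) := Real.sqrt_pos.mpr hn0
    rw [div_le_iff₀ hsn, xk]
    have hsq := Real.mul_self_sqrt hn0.le
    have h5 : 2 * δ ≤ min (et s ((k0 η₀ s : ℤ) + j s).toNat) (1 / 4) + ς₀ := by
      have := hs.2.2
      have h6 : min η₀ (1 / 4) = 4 * δ + |ς₀| := by
        rw [hδ]
        ring
      linarith
    have h7 := mul_le_mul_of_nonneg_left h5 hn0.le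
    have h8 : -(2 * δ * √((2 * s + 1 : ℕ) : ℝ)) * √((2 * s + 1 : ℕ) : ℝ) =
        -(((2 * s + 1 : ℕ) : ℝ) * (2 * δ)) := by
      linear_combination (-2 * δ) * hsq
    rw [h8]
    linarith
  · have hT : Tendsto (fun s : ℕ => 1 / 4 * √((2 * s + 1 : ℕ) : ℝ)) atTop atTop :=
      pa_tendsto_sqrt.const_mul_atTop (by positivity)
    refine tendsto_atTop_mono (fun s => ?_) hT
    have hn0 : (0 : ℝ) < ((2 * s + 1 : ℕ) : ℝ) := by positivity
    have hsn : 0 < √((2 * s + 1 : ℕ) : ℝ) := Real.sqrt_pos.mpr hn0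
    rw [le_div_iff₀ hsn, hn, mul_assoc, Real.mul_self_sqrt hn0.le]
    have h2 : ς₀ ≤ 1 / 4 := hς'.trans h.h2.le
    have h3 := mul_le_mul_of_nonneg_left h2 hn0.le
    linarith

theorem U_lim {a : ℕ} {η₀ ς₀ ρ₀ : ℝ} (h : IsSad a η₀ ς₀ ρ₀) {j : ℕ → ℤ} {X : ℝ}
    (hj : Tendsto (fun s : ℕ => (j s : ℝ) / √((2 * s + 1 : ℕ) : ℝ)) atTop (𝓝 X)) :
    Tendsto (fun s : ℕ => ‖Uk a η₀ ς₀ ρ₀ s ((k0 η₀ s : ℤ) + j s).toNat‖) atTop
      (𝓝 (gg a η₀ (ς₀ + ρ₀ * Complex.I) X)) := by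
  obtain ⟨hk, hA, hB⟩ := inner_ends h hj
  obtain ⟨ω, hω, hlim⟩ := ptw h hj
  obtain ⟨C, c, hC, hc, hd⟩ := dom h
  set k : ℕ → ℕ := fun s => ((k0 η₀ s : ℤ) + j s).toNat with hkd
  set A : ℕ → ℝ := fun s => (xk s (k s) - ((2 * s + 1 : ℕ) : ℝ) * ς₀) /
      √((2 * s + 1 : ℕ) : ℝ) with hAd
  set B : ℕ → ℝ := fun s => (hn s - ((2 * s + 1 : ℕ) : ℝ) * ς₀) /
      √((2 * s + 1 : ℕ) : ℝ) with hBd
  set F : ℕ → ℝ → ℂ := fun s Y => ω s * (((fS (2 * s + 1) (k s) ^ 2 / P0 a η₀ ς₀ ρ₀ s : ℝ) : ℂ) *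
          Gk a s (k s) (((2 * s + 1 : ℕ) : ℂ) * (ς₀ + ρ₀ * Complex.I) +
            (√((2 * s + 1 : ℕ) : ℝ) : ℂ) * (Y : ℂ))) with hFd
  have hcont : ∀ s, Continuous (F s) := by
    intro s
    have hn0 : (0 : ℝ) < ((2 * s + 1 : ℕ) : ℝ) := by positivity
    have h1 : Continuous fun Y : ℝ => Gk a s (k s) (((2 * s + 1 : ℕ) : ℂ) *
        (ς₀ + ρ₀ * Complex.I) + (√((2 * s + 1 : ℕ) : ℝ) : ℂ) * (Y : ℂ)) := by
      apply inner_Gk_cont
      · fun_prop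
      · intro t
        have : ((((2 * s + 1 : ℕ) : ℂ) * (ς₀ + ρ₀ * Complex.I) +
            (√((2 * s + 1 : ℕ) : ℝ) : ℂ) * (t : ℂ))).im = ((2 * s + 1 : ℕ) : ℝ) * ρ₀ := by
          simp
        rw [this]
        exact (mul_pos hn0 h.ρpos).ne'
    simp only [hFd]
    fun_prop
  have hDCT : Tendsto (fun s => ∫ Y : ℝ, (Set.Ioc (A s) (B s)).indicator (F s) Y) atTop
      (𝓝 (∫ Y : ℝ, Complex.exp (cA η₀ (ς₀ + ρ₀ * Complex.I) * X ^ 2 +
          cB η₀ (ς₀ + ρ₀ * Complex.I) * X * Y + cC a η₀ (ς₀ + ρ₀ * Complex.I) * Y ^ 2))) := by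
    apply MeasureTheory.tendsto_integral_filter_of_dominated_convergence
      (fun Y : ℝ => C * Real.exp (-(c * Y ^ 2)))
    · exact Filter.Eventually.of_forall fun s =>
        (hcont s).aestronglyMeasurable.indicator measurableSet_Ioc
    · filter_upwards [hk] with s hs
      apply Filter.Eventually.of_forall
      intro Y
      by_cases hY : Y ∈ Set.Ioc (A s) (B s)
      swap
      · rw [Set.indicator_of_notMem hY, norm_zero]
        positivity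
      rw [Set.indicator_of_mem hY]
      have hn0 : (0 : ℝ) < ((2 * s + 1 : ℕ) : ℝ) := by positivity
      have hP := P0_pos h s
      have hsn : 0 < √((2 * s + 1 : ℕ) : ℝ) := Real.sqrt_pos.mpr hn0
      have hx := hd s (k s) hs.1 hs.2 (√((2 * s + 1 : ℕ) : ℝ) * Y + ((2 * s + 1 : ℕ) : ℝ) * ς₀)
        (by
          have := hY.1
          simp only [hAd] at this
          rw [div_lt_iff₀ hsn] at this
          linarith)
        (by
          have := hY.2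
          simp only [hBd] at this
          rw [le_div_iff₀ hsn] at this
          linarith)
      simp only [hFd]
      rw [norm_mul, hω, one_mul, norm_mul, Complex.norm_real,
        Real.norm_of_nonneg (div_nonneg (sq_nonneg _) hP.le)]
      have e3 : (((2 * s + 1 : ℕ) : ℂ) * (ς₀ + ρ₀ * Complex.I) +
            (√((2 * s + 1 : ℕ) : ℝ) : ℂ) * (Y : ℂ)) =
          (((√((2 * s + 1 : ℕ) : ℝ) * Y + ((2 * s + 1 : ℕ) : ℝ) * ς₀ : ℝ) : ℂ) +
            ((((2 * s + 1 : ℕ) : ℝ) * ρ₀ : ℝ) : ℂ) * Complex.I) := by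
        push_cast
        ring
      rw [e3, div_mul_eq_mul_div, div_le_iff₀ hP]
      refine hx.trans ?_
      have e4 : Real.exp (-(c * (((k s : ℝ) - k0 η₀ s) ^ 2 +
          (√((2 * s + 1 : ℕ) : ℝ) * Y + ((2 * s + 1 : ℕ) : ℝ) * ς₀ -
            ((2 * s + 1 : ℕ) : ℝ) * ς₀) ^ 2) / ((2 * s + 1 : ℕ) : ℝ))) ≤
          Real.exp (-(c * Y ^ 2)) := by
        apply Real.exp_le_exp.mpr
        rw [add_sub_cancel_right, mul_pow, Real.sq_sqrt hn0.le]
        have : c * (((k s : ℝ) - k0 η₀ s) ^ 2 + ((2 * s + 1 : ℕ) : ℝ) * Y ^ 2) /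
            ((2 * s + 1 : ℕ) : ℝ) = c * Y ^ 2 + c * ((k s : ℝ) - k0 η₀ s) ^ 2 /
            ((2 * s + 1 : ℕ) : ℝ) := by
          field_simp
          ring
        rw [this]
        have : 0 ≤ c * ((k s : ℝ) - k0 η₀ s) ^ 2 / ((2 * s + 1 : ℕ) : ℝ) := by positivity
        linarith
      calc _ ≤ C * P0 a η₀ ς₀ ρ₀ s * Real.exp (-(c * Y ^ 2)) := by
            apply mul_le_mul_of_nonneg_left e4
            positivity
        _ = _ := by ring
    · have := (integrable_exp_neg_mul_sq hc).const_mul C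
      simpa [neg_mul] using this
    · apply Filter.Eventually.of_forall
      intro Y
      refine (hlim Y).congr' ?_
      filter_upwards [hA.eventually_lt_atBot Y, hB.eventually_ge_atTop Y] with s h1 h2
      rw [Set.indicator_of_mem (show Y ∈ Set.Ioc (A s) (B s) from ⟨h1, h2⟩)]
  have h2 := hDCT.norm
  unfold gg
  refine h2.congr' ?_
  filter_upwards [hk] with s hs
  have hn0 : (0 : ℝ) < ((2 * s + 1 : ℕ) : ℝ) := by positivity
  have hsn : 0 < √((2 * s + 1 : ℕ) : ℝ) := Real.sqrt_pos.mpr hn0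
  have hAB : A s ≤ B s := by
    simp only [hAd, hBd]
    apply div_le_div_of_nonneg_right _ hsn.le
    have := (inner_xk_nonpos hs.1).trans (inner_hn_nonneg s)
    linarith
  rw [MeasureTheory.integral_indicator measurableSet_Ioc, ← intervalIntegral.integral_of_le hAB]
  simp only [hFd]
  rw [intervalIntegral.integral_const_mul, norm_mul, hω, one_mul,
    ← inner_Uk_eq h hs.1]

end Pool.Agent.Work.MP_b30479_gt.DT
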