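import Pool.Agent.Work.MP_b30479_gt.DT.El

/-!
# Derivatives of `el`, `Lr`, `Tr`
-/

namespace Pool.Agent.Work.MP_b30479_gt.DT

open Finset TB AX

namespace LrDer

theorem cosh_gt_cos {ρ v : ℝ} (hρ : 0 < ρ) :
    Real.cos (2 * Real.pi * v) < Real.cosh (2 * Real.pi * ρ) := by
  have h1 : 1 < Real.cosh (2 * Real.pi * ρ) := by
    rw [Real.one_lt_cosh]
    have := Real.pi_pos
    positivity
  exact lt_of_le_of_lt (Real.cos_le_one _) h1

theorem measurable_el (ρ : ℝ) : Measurable (el ρ) := by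
  unfold el
  fun_prop

/-- `1 - e^{2πi(x+iρ)}` -/
noncomputable def qq (ρ x : ℝ) : ℂ :=
  Complex.exp (2 * Real.pi * Complex.I * (x + ρ * Complex.I))

theorem norm_qq (ρ x : ℝ) : ‖qq ρ x‖ = Real.exp (-(2 * Real.pi * ρ)) := by
  unfold qq
  rw [Complex.norm_exp]
  congr 1
  simp

theorem one_sub_qq_mem {ρ x : ℝ} (hρ : 0 < ρ) : 1 - qq ρ x ∈ Complex.slitPlane := by
  left
  have h1 : ‖qq ρ x‖ < 1 := by
    rw [norm_qq, Real.exp_lt_one_iff]
    have := Real.pi_pos
    have : 0 < 2 * Real.pi * ρ := by positivity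
    linarith only [this]
  have h2 := Complex.re_le_norm (qq ρ x)
  simp only [Complex.sub_re, Complex.one_re]
  linarith only [h1, h2]

theorem qq_re (ρ x : ℝ) :
    (qq ρ x).re = Real.exp (-(2 * Real.pi * ρ)) * Real.cos (2 * Real.pi * x) := by
  unfold qq
  rw [Complex.exp_re]
  congr 2 <;> simp

theorem qq_im (ρ x : ℝ) :
    (qq ρ x).im = Real.exp (-(2 * Real.pi * ρ)) * Real.sin (2 * Real.pi * x) := by
  unfold qq
  rw [Complex.exp_im]
  congr 2 <;> simp

theorem hasDerivAt_qq_right (ρ x : ℝ) :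
    HasDerivAt (fun x => qq ρ x) (qq ρ x * (2 * Real.pi * Complex.I)) x := by
  unfold qq
  have h1 : HasDerivAt (fun x : ℝ => 2 * (Real.pi : ℂ) * Complex.I * (x + ρ * Complex.I))
      (2 * (Real.pi : ℂ) * Complex.I) x := by
    simpa using ((Complex.ofRealCLM.hasDerivAt (x := x)).add_const (ρ * Complex.I : ℂ)).const_mul
      (2 * (Real.pi : ℂ) * Complex.I)
  exact h1.cexp

theorem hasDerivAt_qq_left (ρ x : ℝ) :
    HasDerivAt (fun ρ => qq ρ x) (qq ρ x * (-(2 * Real.pi))) ρ := by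
  unfold qq
  have h1 : HasDerivAt (fun ρ : ℝ => 2 * (Real.pi : ℂ) * Complex.I * (x + ρ * Complex.I))
      (-(2 * (Real.pi : ℂ))) ρ := by
    have := (((Complex.ofRealCLM.hasDerivAt (x := ρ)).mul_const Complex.I).const_add
      (x : ℂ)).const_mul (2 * (Real.pi : ℂ) * Complex.I)
    refine this.congr_deriv ?_
    simp only [Complex.ofRealCLM_apply, Complex.ofReal_one, one_mul]
    linear_combination (2 * (Real.pi : ℂ)) * Complex.I_sq
  exact h1.cexp

theorem Tr_eq (ρ x : ℝ) : Tr ρ x = Real.pi * x - (Complex.log (1 - qq ρ x)).im := by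
  unfold Tr qq
  rw [Complex.log_im]

theorem normSq_one_sub_qq (ρ x : ℝ) :
    Complex.normSq (1 - qq ρ x) = Real.exp (-(2 * Real.pi * ρ)) *
      (2 * (Real.cosh (2 * Real.pi * ρ) - Real.cos (2 * Real.pi * x))) := by
  rw [Complex.normSq_apply]
  simp only [Complex.sub_re, Complex.one_re, Complex.sub_im, Complex.one_im, qq_re, qq_im]
  rw [Real.cosh_eq]
  have h1 : Real.exp (-(2 * Real.pi * ρ)) * Real.exp (2 * Real.pi * ρ) = 1 := by
    rw [← Real.exp_add]
    simp
  have h2 := Real.sin_sq_add_cos_sq (2 * Real.pi * x)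
  generalize Real.exp (-(2 * Real.pi * ρ)) = E at *
  generalize Real.exp (2 * Real.pi * ρ) = F at *
  generalize Real.cos (2 * Real.pi * x) = c at *
  generalize Real.sin (2 * Real.pi * x) = s at *
  linear_combination (-1) * h1 + E ^ 2 * h2

/-- the derivative of `el` with respect to the height -/
theorem hasDerivAt_el_left {ρ v : ℝ} (hρ : 0 < ρ) :
    HasDerivAt (fun ρ => el ρ v) (Real.pi * Real.sinh (2 * Real.pi * ρ) /
      (Real.cosh (2 * Real.pi * ρ) - Real.cos (2 * Real.pi * v))) ρ := by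
  have h0 := cosh_gt_cos (v := v) hρ
  have h1 : 2 * Real.cosh (2 * Real.pi * ρ) - 2 * Real.cos (2 * Real.pi * v) ≠ 0 := by
    intro h
    linarith only [h0, h]
  have hc : HasDerivAt (fun ρ : ℝ => Real.cosh (2 * Real.pi * ρ))
      (Real.sinh (2 * Real.pi * ρ) * (2 * Real.pi)) ρ := by
    simpa using ((hasDerivAt_id ρ).const_mul (2 * Real.pi)).cosh
  have h2 := (((hc.const_mul 2).sub_const (2 * Real.cos (2 * Real.pi * v))).log h1).div_const 2
  unfold el
  refine h2.congr_deriv ?_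
  have h3 : Real.cosh (2 * Real.pi * ρ) - Real.cos (2 * Real.pi * v) ≠ 0 := by
    intro h
    linarith only [h0, h]
  rw [show 2 * Real.cosh (2 * Real.pi * ρ) - 2 * Real.cos (2 * Real.pi * v) =
    2 * (Real.cosh (2 * Real.pi * ρ) - Real.cos (2 * Real.pi * v)) by ring]
  field_simp

theorem continuous_dl {ρ : ℝ} (hρ : 0 < ρ) : Continuous fun v => Real.pi * Real.sinh (2 * Real.pi * ρ) /
      (Real.cosh (2 * Real.pi * ρ) - Real.cos (2 * Real.pi * v)) := by
  refine Continuous.div (by fun_prop) (by fun_prop) ?_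
  intro v
  have := cosh_gt_cos (v := v) hρ
  intro h
  linarith only [this, h]

theorem Tr_zero_right (ρ : ℝ) (hρ : 0 < ρ) : Tr ρ 0 = 0 := by
  unfold Tr
  have h1 : (2 * Real.pi * Complex.I * ((0 : ℝ) + ρ * Complex.I) : ℂ) =
      ((-(2 * Real.pi * ρ) : ℝ) : ℂ) := by
    push_cast
    linear_combination (2 * (Real.pi : ℂ) * ρ) * Complex.I_sq
  rw [h1, ← Complex.ofReal_exp, ← Complex.ofReal_one, ← Complex.ofReal_sub,
    Complex.arg_ofReal_of_nonneg]
  · simp
  · have : Real.exp (-(2 * Real.pi * ρ)) < 1 := by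
      rw [Real.exp_lt_one_iff]
      have := Real.pi_pos
      have : 0 < 2 * Real.pi * ρ := by positivity
      linarith only [this]
    linarith only [this]

/-- bound for the derivative of `el` with respect to the height -/
theorem dl_le {ρ r v : ℝ} (hρ : 0 < ρ) (hr : r ∈ Metric.ball ρ (ρ / 2)) :
    ‖Real.pi * Real.sinh (2 * Real.pi * r) /
      (Real.cosh (2 * Real.pi * r) - Real.cos (2 * Real.pi * v))‖ ≤
    Real.pi * Real.sinh (2 * Real.pi * (2 * ρ)) / (Real.cosh (Real.pi * ρ) - 1) := by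
  rw [Metric.mem_ball, Real.dist_eq, abs_lt] at hr
  have hpi := Real.pi_pos
  have hr0 : ρ / 2 < r := by linarith only [hr, hr.1]
  have hr1 : r < 2 * ρ := by linarith only [hρ, hr, hr.2]
  have h1 : 1 < Real.cosh (Real.pi * ρ) := by
    rw [Real.one_lt_cosh]
    positivity
  have h2 : Real.cosh (Real.pi * ρ) ≤ Real.cosh (2 * Real.pi * r) := by
    rw [Real.cosh_le_cosh, abs_of_pos (by positivity), abs_of_pos (by nlinarith only [hρ, hpi, hr])]
    nlinarith only [hr, hpi]
  have h3 := Real.cos_le_one (2 * Real.pi * v)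
  have h4 : 0 < Real.sinh (2 * Real.pi * r) := by
    rw [Real.sinh_pos_iff]
    nlinarith only [hρ, hpi, hr]
  have h5 : Real.sinh (2 * Real.pi * r) ≤ Real.sinh (2 * Real.pi * (2 * ρ)) := by
    rw [Real.sinh_le_sinh]
    nlinarith only [hρ, hpi, hr]
  have h6 : 0 < Real.cosh (2 * Real.pi * r) - Real.cos (2 * Real.pi * v) := by linarith only [h1, h2, h3]
  rw [Real.norm_of_nonneg (by positivity)]
  apply div_le_div₀
  · have : 0 < Real.sinh (2 * Real.pi * (2 * ρ)) := lt_of_lt_of_le h4 h5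
    positivity
  · exact mul_le_mul_of_nonneg_left h5 hpi.le
  · linarith only [h1]
  · linarith only [h2, h3]

end LrDer

open LrDer

theorem hasDerivAt_el {ρ v : ℝ} (hρ : 0 < ρ) :
    HasDerivAt (fun v => el ρ v) (Real.pi * rr ρ v) v := by
  have h0 := cosh_gt_cos (v := v) hρ
  have h1 : 2 * Real.cosh (2 * Real.pi * ρ) - 2 * Real.cos (2 * Real.pi * v) ≠ 0 := by
    intro h
    linarith only [h0, h]
  have hc : HasDerivAt (fun v : ℝ => Real.cos (2 * Real.pi * v))
      (-Real.sin (2 * Real.pi * v) * (2 * Real.pi)) v := by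
    simpa using ((hasDerivAt_id v).const_mul (2 * Real.pi)).cos
  have h2 := (((hc.const_mul 2).const_sub (2 * Real.cosh (2 * Real.pi * ρ))).log h1).div_const 2
  unfold el rr
  refine h2.congr_deriv ?_
  have h3 : Real.cosh (2 * Real.pi * ρ) - Real.cos (2 * Real.pi * v) ≠ 0 := by
    intro h
    linarith only [h0, h]
  rw [show 2 * Real.cosh (2 * Real.pi * ρ) - 2 * Real.cos (2 * Real.pi * v) =
    2 * (Real.cosh (2 * Real.pi * ρ) - Real.cos (2 * Real.pi * v)) by ring]
  field_simp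

theorem hasDerivAt_Lr {ρ x : ℝ} (hρ : 0 < ρ) : HasDerivAt (fun x => Lr ρ x) (el ρ x) x := by
  unfold Lr
  exact (continuous_el hρ.ne').integral_hasStrictDerivAt 0 x |>.hasDerivAt

theorem hasDerivAt_el_zero {x : ℝ} (hx : Real.sin (Real.pi * x) ≠ 0) :
    HasDerivAt (fun x => el 0 x) (Real.pi * Real.cos (Real.pi * x) / Real.sin (Real.pi * x)) x := by
  have hc2 : ∀ y : ℝ, Real.cos (2 * Real.pi * y) = 1 - 2 * Real.sin (Real.pi * y) ^ 2 := by
    intro y
    rw [mul_assoc, Real.cos_two_mul, Real.cos_sq']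
    ring
  have h1 : 2 * Real.cosh (2 * Real.pi * 0) - 2 * Real.cos (2 * Real.pi * x) ≠ 0 := by
    rw [mul_zero, Real.cosh_zero, hc2]
    have : 0 < Real.sin (Real.pi * x) ^ 2 := by positivity
    intro h
    linarith only [this, h]
  have hc : HasDerivAt (fun v : ℝ => Real.cos (2 * Real.pi * v))
      (-Real.sin (2 * Real.pi * x) * (2 * Real.pi)) x := by
    simpa using ((hasDerivAt_id x).const_mul (2 * Real.pi)).cos
  have h2 := (((hc.const_mul 2).const_sub (2 * Real.cosh (2 * Real.pi * 0))).log h1).div_const 2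
  unfold el
  refine h2.congr_deriv ?_
  rw [mul_zero, Real.cosh_zero, hc2, mul_assoc 2 Real.pi x, Real.sin_two_mul]
  rw [show 2 * (1 : ℝ) - 2 * (1 - 2 * Real.sin (Real.pi * x) ^ 2) =
    4 * Real.sin (Real.pi * x) ^ 2 by ring]
  field_simp
  ring

theorem hasDerivAt_Lr_zero {x : ℝ} (hx : Real.sin (Real.pi * x) ≠ 0) :
    HasDerivAt (fun x => Lr 0 x) (el 0 x) x := by
  unfold Lr
  refine intervalIntegral.integral_hasDerivAt_right (el_intble 0 0 x) ?_ ?_
  · exact (measurable_el 0).stronglyMeasurable.stronglyMeasurableAtFilter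
  · exact (hasDerivAt_el_zero hx).continuousAt

theorem hasDerivAt_Tr_right {ρ x : ℝ} (hρ : 0 < ρ) :
    HasDerivAt (fun x => Tr ρ x) (Real.pi * Real.sinh (2 * Real.pi * ρ) /
      (Real.cosh (2 * Real.pi * ρ) - Real.cos (2 * Real.pi * x))) x := by
  have h1 := ((hasDerivAt_qq_right ρ x).const_sub 1).clog_real (one_sub_qq_mem hρ)
  have h2 := Complex.imCLM.hasFDerivAt.comp_hasDerivAt x h1
  have h3 := ((hasDerivAt_id x).const_mul Real.pi).sub h2
  have h0 := cosh_gt_cos (v := x) hρ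
  have h4 : (fun x => Tr ρ x) = fun x => Real.pi * id x - (Complex.log (1 - qq ρ x)).im := by
    funext y
    rw [Tr_eq]
    rfl
  rw [h4]
  refine h3.congr_deriv ?_
  rw [Complex.imCLM_apply, Complex.div_im, normSq_one_sub_qq]
  simp only [Complex.neg_re, Complex.neg_im, Complex.mul_re, Complex.mul_im, Complex.sub_re,
    Complex.sub_im, Complex.one_re, Complex.one_im, qq_re, qq_im, Complex.I_re, Complex.I_im,
    Complex.re_ofNat, Complex.im_ofNat, Complex.ofReal_re, Complex.ofReal_im]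
  rw [Real.sinh_eq]
  have hE : Real.exp (-(2 * Real.pi * ρ)) * Real.exp (2 * Real.pi * ρ) = 1 := by
    rw [← Real.exp_add]
    simp
  have h5 := Real.sin_sq_add_cos_sq (2 * Real.pi * x)
  have h6 : Real.cosh (2 * Real.pi * ρ) - Real.cos (2 * Real.pi * x) ≠ 0 := by
    intro h
    linarith only [h0, h]
  have h7 := Real.exp_pos (-(2 * Real.pi * ρ))
  have h8 : Real.cosh (2 * Real.pi * ρ) =
    (Real.exp (2 * Real.pi * ρ) + Real.exp (-(2 * Real.pi * ρ))) / 2 := Real.cosh_eq _
  generalize Real.cosh (2 * Real.pi * ρ) = C at *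
  generalize Real.exp (-(2 * Real.pi * ρ)) = E at *
  generalize Real.exp (2 * Real.pi * ρ) = F at *
  generalize Real.cos (2 * Real.pi * x) = c at *
  generalize Real.sin (2 * Real.pi * x) = s at *
  have h9 : E ≠ 0 := h7.ne'
  field_simp
  rw [h8]
  ring_nf
  linear_combination (-(2 * Real.pi * E)) * h5

theorem hasDerivAt_Lr_left {ρ x : ℝ} (hρ : 0 < ρ) :
    HasDerivAt (fun ρ => Lr ρ x) (Tr ρ x) ρ := by
  have h := (intervalIntegral.hasDerivAt_integral_of_dominated_loc_of_deriv_le (𝕜 := ℝ)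
    (μ := MeasureTheory.volume) (a := 0) (b := x) (F := fun ρ v => el ρ v)
    (F' := fun ρ v => Real.pi * Real.sinh (2 * Real.pi * ρ) /
      (Real.cosh (2 * Real.pi * ρ) - Real.cos (2 * Real.pi * v))) (x₀ := ρ)
    (s := Metric.ball ρ (ρ / 2)) (bound := fun _ =>
      Real.pi * Real.sinh (2 * Real.pi * (2 * ρ)) / (Real.cosh (Real.pi * ρ) - 1))
    (Metric.ball_mem_nhds ρ (by positivity))
    (Filter.Eventually.of_forall fun r => (measurable_el r).aestronglyMeasurable)
    (el_intble ρ 0 x) (continuous_dl hρ).aestronglyMeasurable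
    (Filter.Eventually.of_forall fun v _ r hr => dl_le hρ hr)
    (continuous_const.intervalIntegrable _ _)
    (Filter.Eventually.of_forall fun v _ r hr => hasDerivAt_el_left (by
      rw [Metric.mem_ball, Real.dist_eq, abs_lt] at hr
      linarith only [hρ, hr, hr.1]))).2
  unfold Lr
  refine h.congr_deriv ?_
  rw [intervalIntegral.integral_eq_sub_of_hasDerivAt
    (fun v _ => hasDerivAt_Tr_right hρ) ((continuous_dl hρ).intervalIntegrable _ _),
    Tr_zero_right ρ hρ, sub_zero]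

theorem hasDerivAt_Tr_left {ρ x : ℝ} (hρ : 0 < ρ) :
    HasDerivAt (fun ρ => Tr ρ x) (-(Real.pi * rr ρ x)) ρ := by
  have h1 := ((hasDerivAt_qq_left ρ x).const_sub 1).clog_real (one_sub_qq_mem hρ)
  have h2 := Complex.imCLM.hasFDerivAt.comp_hasDerivAt ρ h1
  have h3 := h2.const_sub (Real.pi * x)
  have h0 := cosh_gt_cos (v := x) hρ
  have h4 : (fun ρ => Tr ρ x) = fun ρ => Real.pi * x - (Complex.log (1 - qq ρ x)).im := by
    funext y
    rw [Tr_eq]
  rw [h4]
  refine h3.congr_deriv ?_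
  rw [Complex.imCLM_apply, Complex.div_im, normSq_one_sub_qq]
  simp only [Complex.neg_re, Complex.neg_im, Complex.mul_re, Complex.mul_im, Complex.sub_re,
    Complex.sub_im, Complex.one_re, Complex.one_im, qq_re, qq_im,
    Complex.re_ofNat, Complex.im_ofNat, Complex.ofReal_re, Complex.ofReal_im]
  unfold rr
  have h6 : Real.cosh (2 * Real.pi * ρ) - Real.cos (2 * Real.pi * x) ≠ 0 := by
    intro h
    linarith only [h0, h]
  have h7 := Real.exp_pos (-(2 * Real.pi * ρ))
  generalize Real.cosh (2 * Real.pi * ρ) = C at *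
  generalize Real.exp (-(2 * Real.pi * ρ)) = E at *
  generalize Real.cos (2 * Real.pi * x) = c at *
  generalize Real.sin (2 * Real.pi * x) = s at *
  have h9 : E ≠ 0 := h7.ne'
  field_simp
  ring

end Pool.Agent.Work.MP_b30479_gt.DT
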