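import Pool.Agent.Work.MP_b30479_gt.DT.ConvR
import Pool.Agent.Work.MP_b30479_gt.DT.Quad

/-!
# The low part of the path
-/

namespace Pool.Agent.Work.MP_b30479_gt.DT

open Finset TB AX

theorem isCompact_Low : IsCompact {p : ℝ × ℝ | Low p.1 p.2} := by
  have hc : IsClosed {p : ℝ × ℝ | Low p.1 p.2} := by
    have : {p : ℝ × ℝ | Low p.1 p.2} = {p : ℝ × ℝ | |p.2| ≤ 1 / 2} ∩
        (({p : ℝ × ℝ | 0 ≤ p.1} ∩ {p | p.1 ≤ 1 / 2} ∩ {p | min p.1 (1 / 4) ≤ |p.2|}) ∪
          ({p : ℝ × ℝ | -(1 / 2) ≤ p.1} ∩ {p | p.1 ≤ 0})) := by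
      ext p; simp only [Low, Set.mem_ofPred_eq, Set.mem_inter_iff, Set.mem_union]; tauto
    rw [this]
    refine (isClosed_le (continuous_abs.comp continuous_snd) continuous_const).inter
      ((((isClosed_le continuous_const continuous_fst).inter
        (isClosed_le continuous_fst continuous_const)).inter
        (isClosed_le (continuous_fst.min continuous_const)
          (continuous_abs.comp continuous_snd))).union
        ((isClosed_le continuous_const continuous_fst).inter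
        (isClosed_le continuous_fst continuous_const)))
  refine (isCompact_Icc.prod isCompact_Icc : IsCompact
    (Set.Icc (-(1 / 2) : ℝ) (1 / 2) ×ˢ Set.Icc (-(1 / 2) : ℝ) (1 / 2))).of_isClosed_subset hc ?_
  rintro ⟨x, y⟩ ⟨h1, h2⟩
  refine ⟨?_, (abs_le.1 h1).1, (abs_le.1 h1).2⟩
  simp only at h2 ⊢
  rcases h2 with ⟨h2, h3, -⟩ | ⟨h2, h3⟩
  · exact ⟨by linarith, h3⟩
  · exact ⟨h2, by linarith⟩

theorem pathC {a : ℕ} {η₀ ς₀ ρ₀ : ℝ} (h : IsSad a η₀ ς₀ ρ₀) : ∃ ρm c : ℝ, 0 < ρm ∧ ρm < ρ₀ ∧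
    0 < c ∧
    (∀ η ρ, 0 ≤ η → η ≤ 1 / 2 → ρm ≤ ρ → ρ ≤ ρ₀ →
      H a η (-(min η (1 / 4))) ρ ≤ H a η₀ ς₀ ρ₀ - c) ∧
    (∀ η ς, 0 ≤ η → η ≤ 1 / 2 → -(1 / 2) ≤ ς → ς ≤ -(min η (1 / 4)) →
      H a η ς ρm ≤ H a η₀ ς₀ ρ₀ - c) ∧
    (∀ η ς, -(1 / 2) ≤ η → η ≤ 0 → |ς| ≤ 1 / 2 → H a η ς ρm ≤ H a η₀ ς₀ ρ₀ - c) ∧
    Real.pi * a * ρm ≤ H a η₀ ς₀ ρ₀ - c := by
  have hπ := Real.pi_pos
  obtain ⟨cq, hcq, hq⟩ := quad h
  set w := H a η₀ ς₀ ρ₀ with hw
  -- maximum on the low region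
  have hH0 : Continuous fun p : ℝ × ℝ => H a p.1 p.2 0 := by
    have hc : Continuous fun p : ℝ × ℝ => ((p.1, p.2, 0) : ℝ × ℝ × ℝ) := by fun_prop
    exact (continuous_H a).comp hc
  have hne : ({p : ℝ × ℝ | Low p.1 p.2}).Nonempty :=
    ⟨(0, 0), by constructor <;> simp⟩
  obtain ⟨p0, hp0, hmax⟩ := isCompact_Low.exists_isMaxOn hne hH0.continuousOn
  set m := H a p0.1 p0.2 0 with hm
  have hmw : m < w := h.low _ _ hp0
  -- uniform continuity
  have hev : ∀ᶠ ρ : ℝ in nhds 0, ∀ p : ℝ × ℝ, p ∈ {p : ℝ × ℝ | Low p.1 p.2} →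
      H a p.1 p.2 ρ < m + (w - m) / 2 := by
    apply isCompact_Low.eventually_forall_of_forall_eventually
    intro p hp
    have hc : Continuous fun z : ℝ × (ℝ × ℝ) => H a z.2.1 z.2.2 z.1 := by
      have hc : Continuous fun z : ℝ × (ℝ × ℝ) => ((z.2.1, z.2.2, z.1) : ℝ × ℝ × ℝ) := by fun_prop
      exact (continuous_H a).comp hc
    have h1 : H a p.1 p.2 0 < m + (w - m) / 2 := by
      have : H a p.1 p.2 0 ≤ m := hmax hp
      linarith
    exact (hc.continuousAt (x := ((0 : ℝ), p))).eventually_lt continuousAt_const h1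
  have hev2 : ∀ᶠ ρ : ℝ in nhds 0, Real.pi * a * ρ < w / 2 := by
    have hc : Continuous fun ρ : ℝ => Real.pi * a * ρ := by fun_prop
    apply (hc.continuousAt (x := (0 : ℝ))).eventually_lt continuousAt_const
    have := h.pos
    simp only [mul_zero]
    linarith
  have hev3 : ∀ᶠ ρ : ℝ in nhds 0, ρ < ρ₀ := gt_mem_nhds h.ρpos
  obtain ⟨ε, hε, hball⟩ := Metric.eventually_nhds_iff.1 (hev.and (hev2.and hev3))
  have hmem : dist (ε / 2) 0 < ε := by
    rw [Real.dist_eq, sub_zero, abs_of_pos (by linarith)]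
    linarith
  obtain ⟨k1, k2, k3⟩ := hball hmem
  set ρm := ε / 2 with hρm
  set δ := min η₀ (1 / 4) - |ς₀| with hδ
  have hδ0 : 0 < δ := by
    rw [hδ, sub_pos, lt_min_iff]
    exact ⟨h.h1, h.h2⟩
  set c := min ((w - m) / 2) (min (cq * (δ ^ 2 / 4)) (w / 2)) with hcdef
  have hc1 : c ≤ (w - m) / 2 := min_le_left _ _
  have hc2 : c ≤ cq * (δ ^ 2 / 4) := (min_le_right _ _).trans (min_le_left _ _)
  have hc3 : c ≤ w / 2 := (min_le_right _ _).trans (min_le_right _ _)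
  have hc0 : 0 < c := by
    rw [hcdef]
    have := h.pos
    refine lt_min (by linarith) (lt_min (by positivity) (by linarith))
  have hlow : ∀ η ς, Low η ς → H a η ς ρm ≤ w - c := by
    intro η ς hl
    have := k1 (η, ς) hl
    simp only at this
    linarith
  refine ⟨ρm, c, by positivity, k3, hc0, ?_, ?_, ?_, ?_⟩
  · intro η ρ h0 h1 h2 h3
    have hmin : 0 ≤ min η (1 / 4) := le_min h0 (by norm_num)
    have hKK : (η, -(min η (1 / 4))) ∈ KK := by
      refine ⟨h0, h1, ?_, ?_⟩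
      · simp only [abs_neg, abs_of_nonneg hmin]; exact min_le_left _ _
      · simp only [abs_neg, abs_of_nonneg hmin]; exact min_le_right _ _
    have hL : Low η (-(min η (1 / 4))) := by
      refine ⟨?_, Or.inl ⟨h0, h1, ?_⟩⟩
      · rw [abs_neg, abs_of_nonneg hmin]
        exact (min_le_left _ _).trans h1
      · rw [abs_neg, abs_of_nonneg hmin]
    have e1 := hlow _ _ hL
    have e2 : H a η (-(min η (1 / 4))) ρ₀ ≤ w - c := by
      have := hq η (-(min η (1 / 4))) h0 h1 le_rfl (by linarith)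
      have hd : δ ^ 2 / 4 ≤ (η - η₀) ^ 2 + (-(min η (1 / 4)) - ς₀) ^ 2 := by
        have hm1 : min η₀ (1 / 4) - |η - η₀| ≤ min η (1 / 4) := by
          refine le_min ?_ ?_
          · have := min_le_left η₀ (1 / 4)
            have := neg_abs_le (η - η₀)
            linarith
          · have := min_le_right η₀ (1 / 4)
            have := abs_nonneg (η - η₀)
            linarith
        have hb : δ - |η - η₀| ≤ min η (1 / 4) + ς₀ := by
          have := neg_abs_le ς₀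
          rw [hδ]; linarith
        have e3 : (-(min η (1 / 4)) - ς₀) ^ 2 = (min η (1 / 4) + ς₀) ^ 2 := by ring
        rw [e3, ← sq_abs (η - η₀)]
        have hA := abs_nonneg (η - η₀)
        by_cases hA2 : δ / 2 ≤ |η - η₀|
        · nlinarith [sq_nonneg (min η (1 / 4) + ς₀)]
        · push Not at hA2
          have : δ / 2 ≤ min η (1 / 4) + ς₀ := by linarith
          nlinarith [sq_nonneg (|η - η₀|)]
      have hd2 := mul_le_mul_of_nonneg_left hd hcq.le
      linarith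
    have hcv := convexOn_H a hKK
    have hmem1 : ρm ∈ Set.Ici (0 : ℝ) := by
      rw [Set.mem_Ici, hρm]; linarith
    have hmem2 : ρ₀ ∈ Set.Ici (0 : ℝ) := h.ρpos.le
    have hseg : ρ ∈ segment ℝ ρm ρ₀ := by
      rw [segment_eq_Icc k3.le]
      exact ⟨h2, h3⟩
    have := hcv.le_max_of_mem_segment hmem1 hmem2 hseg
    exact this.trans (max_le e1 e2)
  · intro η ς h0 h1 h2 h3
    apply hlow
    have hmin : 0 ≤ min η (1 / 4) := le_min h0 (by norm_num)
    have hab : |ς| = -ς := abs_of_nonpos (by linarith)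
    refine ⟨by rw [hab]; linarith, Or.inl ⟨h0, h1, by rw [hab]; linarith⟩⟩
  · intro η ς h0 h1 h2
    exact hlow _ _ ⟨h2, Or.inr ⟨h0, h1⟩⟩
  · linarith

end Pool.Agent.Work.MP_b30479_gt.DT
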