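import Pool.Agent.Work.MP_b30479_gt.DT.Defs
import Pool.Agent.Work.MP_b30479_gt.DT.Ends
import Pool.Agent.Work.MP_b30479_gt.DT.GBd
import Pool.Agent.Work.MP_b30479_gt.DT.PathC

/-!
# Everything except the main integral is negligible
-/

namespace Pool.Agent.Work.MP_b30479_gt.DT

open Finset TB AX

lemma rest_int {r K a b : ℝ} {f : ℝ → ℂ} (hr : 0 ≤ r)
    (h : ∀ x ∈ Set.uIoc a b, r * ‖f x‖ ≤ K) : r * ‖∫ x in a..b, f x‖ ≤ K * |b - a| := by
  have h1 : ‖∫ x in a..b, (r : ℂ) * f x‖ ≤ K * |b - a| := by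
    apply intervalIntegral.norm_integral_le_of_norm_le_const
    intro x hx
    rw [norm_mul, Complex.norm_real, Real.norm_of_nonneg hr]
    exact h x hx
  rwa [intervalIntegral.integral_const_mul, norm_mul, Complex.norm_real,
    Real.norm_of_nonneg hr] at h1

lemma rest_sin (z : ℂ) : ‖Complex.sin z‖ ≤ Real.cosh z.im := by
  unfold Complex.sin
  rw [norm_div, norm_mul, Complex.norm_I, mul_one, Complex.norm_ofNat, Real.cosh_eq]
  have h := norm_sub_le (Complex.exp (-z * Complex.I)) (Complex.exp (z * Complex.I))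
  rw [Complex.norm_exp, Complex.norm_exp] at h
  have e1 : (-z * Complex.I).re = z.im := by simp
  have e2 : (z * Complex.I).re = -z.im := by simp
  rw [e1, e2] at h
  linarith

/-- the estimate of the integrand on the low part of the path -/
lemma rest_pt {a : ℕ} {ρm B Cg : ℝ}
    (hC : 0 < Cg) (hG : ∀ s k : ℕ, k ≤ 2 * s →
    ∀ ς ρ : ℝ, |ς| ≤ 1 / 2 → ρm ≤ ρ → ρ ≤ B →
    Cg⁻¹ * (((2 * s + 1 : ℕ) : ℝ) * ‖Complex.sin (2 * Real.pi * (ς + ρ * Complex.I))‖ *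
        Real.exp (((2 * s + 1 : ℕ) : ℝ) * H a (et s k) ς ρ)) ≤
      fS (2 * s + 1) k ^ 2 * ‖Gk a s k (((2 * s + 1 : ℕ) : ℂ) * (ς + ρ * Complex.I))‖ ∧
    fS (2 * s + 1) k ^ 2 * ‖Gk a s k (((2 * s + 1 : ℕ) : ℂ) * (ς + ρ * Complex.I))‖ ≤
      Cg * (((2 * s + 1 : ℕ) : ℝ) * ‖Complex.sin (2 * Real.pi * (ς + ρ * Complex.I))‖ *
        Real.exp (((2 * s + 1 : ℕ) : ℝ) * H a (et s k) ς ρ)))
    {s k : ℕ} (hk : k ≤ 2 * s) {x y E : ℝ} (hρm : 0 < ρm)
    (hx : |x / ((2 * s + 1 : ℕ) : ℝ)| ≤ 1 / 2) (h1 : ρm ≤ y / ((2 * s + 1 : ℕ) : ℝ))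
    (h2 : y / ((2 * s + 1 : ℕ) : ℝ) ≤ B)
    (hE : H a (et s k) (x / ((2 * s + 1 : ℕ) : ℝ)) (y / ((2 * s + 1 : ℕ) : ℝ)) ≤ E) :
    fS (2 * s + 1) k ^ 2 * ‖Gk a s k ((x : ℂ) + y * Complex.I)‖ ≤
      Cg * (((2 * s + 1 : ℕ) : ℝ) * Real.cosh (2 * Real.pi * B) *
        Real.exp (((2 * s + 1 : ℕ) : ℝ) * E)) := by
  have hn : (0 : ℝ) < ((2 * s + 1 : ℕ) : ℝ) := by positivity
  have hnc : ((2 * s + 1 : ℕ) : ℂ) ≠ 0 := by
    exact_mod_cast hn.ne'
  have key := (hG s k hk (x / ((2 * s + 1 : ℕ) : ℝ)) (y / ((2 * s + 1 : ℕ) : ℝ)) hx h1 h2).2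
  have e : ((2 * s + 1 : ℕ) : ℂ) * (((x / ((2 * s + 1 : ℕ) : ℝ) : ℝ) : ℂ) +
      ((y / ((2 * s + 1 : ℕ) : ℝ) : ℝ) : ℂ) * Complex.I) = (x : ℂ) + y * Complex.I := by
    rw [Complex.ofReal_div, Complex.ofReal_div, Complex.ofReal_natCast]
    field_simp
  rw [e] at key
  refine key.trans ?_
  have hs : ‖Complex.sin (2 * Real.pi * (((x / ((2 * s + 1 : ℕ) : ℝ) : ℝ) : ℂ) +
      ((y / ((2 * s + 1 : ℕ) : ℝ) : ℝ) : ℂ) * Complex.I))‖ ≤ Real.cosh (2 * Real.pi * B) := by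
    refine (rest_sin _).trans ?_
    have e2 : (2 * Real.pi * (((x / ((2 * s + 1 : ℕ) : ℝ) : ℝ) : ℂ) +
      ((y / ((2 * s + 1 : ℕ) : ℝ) : ℝ) : ℂ) * Complex.I)).im =
        2 * Real.pi * (y / ((2 * s + 1 : ℕ) : ℝ)) := by
      have : (2 * Real.pi * (((x / ((2 * s + 1 : ℕ) : ℝ) : ℝ) : ℂ) +
        ((y / ((2 * s + 1 : ℕ) : ℝ) : ℝ) : ℂ) * Complex.I)) =
        ((2 * Real.pi * (x / ((2 * s + 1 : ℕ) : ℝ)) : ℝ) : ℂ) +
        ((2 * Real.pi * (y / ((2 * s + 1 : ℕ) : ℝ)) : ℝ) : ℂ) * Complex.I := by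
        push_cast
        ring
      rw [this, Complex.add_im, Complex.ofReal_im, Complex.mul_I_im, Complex.ofReal_re, zero_add]
    rw [e2, Real.cosh_le_cosh]
    have hp := Real.pi_pos
    have hy : 0 ≤ y / ((2 * s + 1 : ℕ) : ℝ) := hρm.le.trans h1
    have hB : 0 ≤ B := hy.trans h2
    rw [abs_of_nonneg (by positivity), abs_of_nonneg (by positivity)]
    gcongr
  gcongr

/-- the estimate at the ends of the path -/
lemma rest_end {a : ℕ} {Ce : ℝ} (hC : 0 < Ce) (hEnd : ∀ s k : ℕ, k ≤ 2 * s → ∀ y : ℝ, 0 ≤ y →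
    fS (2 * s + 1) k ^ 2 * ‖Gk a s k ((hn s : ℂ) + y * Complex.I)‖ ≤
      Ce * ((2 * s + 1 : ℕ) : ℝ) ^ 4 * Real.sinh (2 * Real.pi * y / ((2 * s + 1 : ℕ) : ℝ)) *
        Real.exp (-(Real.pi * a * y)) ∧
    fS (2 * s + 1) k ^ 2 * ‖Gk a s k (((-hn s : ℝ) : ℂ) + y * Complex.I)‖ ≤
      Ce * ((2 * s + 1 : ℕ) : ℝ) ^ 4 * Real.sinh (2 * Real.pi * y / ((2 * s + 1 : ℕ) : ℝ)) *
        Real.exp (Real.pi * a * y))
    {s k : ℕ} (hk : k ≤ 2 * s) {ρ E : ℝ} (hρ : 0 ≤ ρ) (hE : 0 ≤ E) :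
    fS (2 * s + 1) k ^ 2 * ‖∫ y in (0 : ℝ)..((2 * s + 1 : ℕ) : ℝ) * ρ,
        Gk a s k ((hn s : ℂ) + y * Complex.I)‖ ≤
      Ce * ((2 * s + 1 : ℕ) : ℝ) ^ 5 * (Real.sinh (2 * Real.pi * ρ) * ρ) *
        Real.exp (((2 * s + 1 : ℕ) : ℝ) * E) ∧
    (Real.pi * a * ρ ≤ E →
      fS (2 * s + 1) k ^ 2 * ‖∫ y in (0 : ℝ)..((2 * s + 1 : ℕ) : ℝ) * ρ,
        Gk a s k (((-hn s : ℝ) : ℂ) + y * Complex.I)‖ ≤
      Ce * ((2 * s + 1 : ℕ) : ℝ) ^ 5 * (Real.sinh (2 * Real.pi * ρ) * ρ) *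
        Real.exp (((2 * s + 1 : ℕ) : ℝ) * E)) := by
  have hn0 : (0 : ℝ) < ((2 * s + 1 : ℕ) : ℝ) := by positivity
  have hp := Real.pi_pos
  have hnρ : 0 ≤ ((2 * s + 1 : ℕ) : ℝ) * ρ := by positivity
  have hsh : ∀ y : ℝ, 0 < y → y ≤ ((2 * s + 1 : ℕ) : ℝ) * ρ →
      Real.sinh (2 * Real.pi * y / ((2 * s + 1 : ℕ) : ℝ)) ≤ Real.sinh (2 * Real.pi * ρ) := by
    intro y hy0 hy
    rw [Real.sinh_le_sinh, div_le_iff₀ hn0]
    nlinarith
  have hsh0 : ∀ y : ℝ, 0 < y → 0 ≤ Real.sinh (2 * Real.pi * y / ((2 * s + 1 : ℕ) : ℝ)) := by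
    intro y hy
    rw [Real.sinh_nonneg_iff]
    positivity
  have hsρ : 0 ≤ Real.sinh (2 * Real.pi * ρ) := by
    rw [Real.sinh_nonneg_iff]
    positivity
  have h1E : 1 ≤ Real.exp (((2 * s + 1 : ℕ) : ℝ) * E) := by
    rw [Real.one_le_exp_iff]
    positivity
  constructor
  · have h := rest_int (r := fS (2 * s + 1) k ^ 2) (a := 0) (b := ((2 * s + 1 : ℕ) : ℝ) * ρ)
      (f := fun y : ℝ => Gk a s k ((hn s : ℂ) + y * Complex.I))
      (K := Ce * ((2 * s + 1 : ℕ) : ℝ) ^ 4 * Real.sinh (2 * Real.pi * ρ) *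
        Real.exp (((2 * s + 1 : ℕ) : ℝ) * E)) (by positivity) (by
        intro y hy
        rw [Set.uIoc_of_le hnρ] at hy
        refine (hEnd s k hk y hy.1.le).1.trans ?_
        have e1 := hsh y hy.1 hy.2
        have e0 := hsh0 y hy.1
        have e2 : Real.exp (-(Real.pi * a * y)) ≤ Real.exp (((2 * s + 1 : ℕ) : ℝ) * E) := by
          rw [Real.exp_le_exp]
          have : 0 ≤ Real.pi * a * y := by
            have := hy.1.le
            positivity
          have : 0 ≤ ((2 * s + 1 : ℕ) : ℝ) * E := by positivity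
          linarith
        gcongr)
    refine h.trans (le_of_eq ?_)
    rw [sub_zero, abs_of_nonneg hnρ]
    ring
  · intro hE2
    have h := rest_int (r := fS (2 * s + 1) k ^ 2) (a := 0) (b := ((2 * s + 1 : ℕ) : ℝ) * ρ)
      (f := fun y : ℝ => Gk a s k (((-hn s : ℝ) : ℂ) + y * Complex.I))
      (K := Ce * ((2 * s + 1 : ℕ) : ℝ) ^ 4 * Real.sinh (2 * Real.pi * ρ) *
        Real.exp (((2 * s + 1 : ℕ) : ℝ) * E)) (by positivity) (by
        intro y hy
        rw [Set.uIoc_of_le hnρ] at hy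
        refine (hEnd s k hk y hy.1.le).2.trans ?_
        have e1 := hsh y hy.1 hy.2
        have e0 := hsh0 y hy.1
        have e2 : Real.exp (Real.pi * a * y) ≤ Real.exp (((2 * s + 1 : ℕ) : ℝ) * E) := by
          rw [Real.exp_le_exp]
          calc Real.pi * a * y ≤ Real.pi * a * (((2 * s + 1 : ℕ) : ℝ) * ρ) := by
                have := hy.2
                gcongr
            _ = ((2 * s + 1 : ℕ) : ℝ) * (Real.pi * a * ρ) := by ring
            _ ≤ _ := by gcongr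
        gcongr)
    refine h.trans (le_of_eq ?_)
    rw [sub_zero, abs_of_nonneg hnρ]
    ring

lemma rest_norm {P T1 M T3 T4 T5 : ℂ} (h : P = T1 - M - T3 - T4 - T5) :
    |‖P‖ - ‖M‖| ≤ ‖T1‖ + ‖T3‖ + ‖T4‖ + ‖T5‖ := by
  have e1 : ‖P‖ = ‖M - (T1 - T3 - T4 - T5)‖ := by
    rw [← norm_neg, h]
    congr 1
    ring
  have e2 : ‖T1 - T3 - T4 - T5‖ ≤ ‖T1‖ + ‖T3‖ + ‖T4‖ + ‖T5‖ := by
    have a1 := norm_sub_le (T1 - T3 - T4) T5
    have a2 := norm_sub_le (T1 - T3) T4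
    have a3 := norm_sub_le T1 T3
    linarith
  rw [e1]
  have a1 := abs_norm_sub_norm_le (M - (T1 - T3 - T4 - T5)) M
  have a2 : M - (T1 - T3 - T4 - T5) - M = -(T1 - T3 - T4 - T5) := by ring
  rw [a2, norm_neg] at a1
  linarith

theorem Ak_approx {a : ℕ} {η₀ ς₀ ρ₀ : ℝ} (h : IsSad a η₀ ς₀ ρ₀) : ∃ C c : ℝ, 0 < C ∧ 0 < c ∧
    ∀ s k : ℕ, k ≤ 2 * s →
      |Ak a s k - fS (2 * s + 1) k ^ 2 * ‖Mk a ρ₀ s k‖ / (2 * ((2 * s + 1 : ℕ) : ℝ))| ≤
        C * ((2 * s + 1 : ℕ) : ℝ) ^ 6 *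
          Real.exp (((2 * s + 1 : ℕ) : ℝ) * (H a η₀ ς₀ ρ₀ - c)) := by
  obtain ⟨ρm, c1, hρm, hρm0, hc1, p1, p2, p3, p4⟩ := pathC h
  obtain ⟨Cg, hCg, hG⟩ := Gk_bounds a (B := ρ₀) hρm
  obtain ⟨Ce, hCe, hEnd⟩ := ends a
  have hp := Real.pi_pos
  have hH0 : 0 < H a η₀ ς₀ ρ₀ := h.pos
  have hρ0 : 0 < ρ₀ := h.ρpos
  set E := H a η₀ ς₀ ρ₀ - min c1 (H a η₀ ς₀ ρ₀) with hE
  have hE0 : 0 ≤ E := by
    have := min_le_right c1 (H a η₀ ς₀ ρ₀)
    linarith
  have hE1 : H a η₀ ς₀ ρ₀ - c1 ≤ E := by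
    have := min_le_left c1 (H a η₀ ς₀ ρ₀)
    linarith
  set S0 := Ce * (Real.sinh (2 * Real.pi * ρ₀) * ρ₀) with hS0
  set D0 := Cg * Real.cosh (2 * Real.pi * ρ₀) with hD0
  have hS0' : 0 ≤ S0 := by
    have : 0 ≤ Real.sinh (2 * Real.pi * ρ₀) := by
      rw [Real.sinh_nonneg_iff]
      positivity
    positivity
  have hD0' : 0 < D0 := by
    have := Real.cosh_pos (2 * Real.pi * ρ₀)
    positivity
  refine ⟨2 * S0 + D0 * (ρ₀ + 1), min c1 (H a η₀ ς₀ ρ₀), by positivity, lt_min hc1 hH0, ?_⟩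
  intro s k hk
  rw [← hE]
  have hnpos : (0 : ℝ) < ((2 * s + 1 : ℕ) : ℝ) := by positivity
  have hn1 : (1 : ℝ) ≤ ((2 * s + 1 : ℕ) : ℝ) := by
    exact_mod_cast Nat.succ_le_succ (Nat.zero_le (2 * s))
  have hhn : hn s = ((2 * s + 1 : ℕ) : ℝ) / 2 := rfl
  have hhn0 : 0 < hn s := by rw [hhn]; positivity
  set n : ℝ := ((2 * s + 1 : ℕ) : ℝ) with hn_def
  have hf : 0 ≤ fS (2 * s + 1) k ^ 2 := by positivity
  have hX : 1 ≤ Real.exp (n * E) := by
    rw [Real.one_le_exp_iff]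
    positivity
  set X := Real.exp (n * E) with hXdef
  -- reduction
  have red : ∀ P T1 M T3 T4 T5 : ℂ, P = T1 - M - T3 - T4 - T5 →
      ‖Gm s (tt s) 1 a 0 k‖ = ‖P‖ / (2 * n) → M = Mk a ρ₀ s k →
      fS (2 * s + 1) k ^ 2 * ‖T1‖ ≤ S0 * n ^ 5 * X →
      fS (2 * s + 1) k ^ 2 * ‖T3‖ ≤ D0 * ρ₀ * n ^ 5 * X →
      fS (2 * s + 1) k ^ 2 * ‖T4‖ ≤ D0 * n ^ 5 * X →
      fS (2 * s + 1) k ^ 2 * ‖T5‖ ≤ S0 * n ^ 5 * X →
      |Ak a s k - fS (2 * s + 1) k ^ 2 * ‖Mk a ρ₀ s k‖ / (2 * n)| ≤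
        (2 * S0 + D0 * (ρ₀ + 1)) * n ^ 6 * X := by
    intro P T1 M T3 T4 T5 hP hGm hM b1 b3 b4 b5
    rw [← hM]
    have e : Ak a s k - fS (2 * s + 1) k ^ 2 * ‖M‖ / (2 * n) =
        fS (2 * s + 1) k ^ 2 * (‖P‖ - ‖M‖) / (2 * n) := by
      unfold Ak
      rw [hGm]
      ring
    rw [e, abs_div, abs_mul, abs_of_nonneg hf, abs_of_pos (by positivity : 0 < 2 * n)]
    have h1 := mul_le_mul_of_nonneg_left (rest_norm hP) hf
    have h2 : fS (2 * s + 1) k ^ 2 * |‖P‖ - ‖M‖| ≤ (2 * S0 + D0 * (ρ₀ + 1)) * n ^ 5 * X := by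
      refine h1.trans ?_
      nlinarith
    rw [div_le_iff₀ (by positivity : 0 < 2 * n)]
    refine h2.trans ?_
    have hpos : 0 ≤ (2 * S0 + D0 * (ρ₀ + 1)) * n ^ 5 * X := by positivity
    have : (2 * S0 + D0 * (ρ₀ + 1)) * n ^ 6 * X * (2 * n) =
        (2 * S0 + D0 * (ρ₀ + 1)) * n ^ 5 * X * (2 * n ^ 2) := by ring
    rw [this]
    have : 1 ≤ 2 * n ^ 2 := by nlinarith
    exact le_mul_of_one_le_right hpos this
  have hetl : -(1 / 2) ≤ et s k := by
    unfold et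
    rw [← hn_def, le_div_iff₀ hnpos, hn_def]
    push_cast
    have : (0 : ℝ) ≤ k := Nat.cast_nonneg k
    linarith
  have hetu : et s k ≤ 1 / 2 := by
    unfold et
    rw [← hn_def, div_le_iff₀ hnpos, hn_def]
    push_cast
    have : (k : ℝ) ≤ 2 * s := by exact_mod_cast hk
    linarith
  have hnI : ∀ z : ℂ, ‖Complex.I * z‖ = ‖z‖ := by
    intro z
    rw [norm_mul, Complex.norm_I, one_mul]
  have hpow : n ^ 2 ≤ n ^ 5 := pow_le_pow_right₀ hn1 (by norm_num)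
  by_cases hsk : s ≤ k
  · -- the main case
    have het0 : 0 ≤ et s k := by
      unfold et
      have : (s : ℝ) ≤ k := by exact_mod_cast hsk
      have h0 : (0 : ℝ) ≤ (k : ℝ) - s := by linarith
      positivity
    set m := min (et s k) (1 / 4) with hm
    have hm0 : 0 ≤ m := le_min het0 (by norm_num)
    have hm1 : m ≤ 1 / 4 := min_le_right _ _
    have hxk : xk s k = -(n * m) := rfl
    have hxn : xk s k / n = -m := by
      rw [hxk]
      field_simp
    have hx : |xk s k| ≤ hn s := by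
      rw [hxk, abs_neg, abs_of_nonneg (by positivity), hhn]
      nlinarith
    have hc := contour (a := a) hk hx (h₁ := n * ρ₀) (h₂ := n * ρm) (by positivity)
      (by positivity)
    refine red _ (Complex.I * (∫ y in (0 : ℝ)..n * ρ₀, Gk a s k ((hn s : ℂ) + y * Complex.I)))
      (∫ x in xk s k..hn s, Gk a s k ((x : ℂ) + ((n * ρ₀ : ℝ) : ℂ) * Complex.I))
      (Complex.I * (∫ y in n * ρm..n * ρ₀, Gk a s k ((xk s k : ℂ) + y * Complex.I)))
      (∫ x in (-hn s)..xk s k, Gk a s k ((x : ℂ) + ((n * ρm : ℝ) : ℂ) * Complex.I))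
      (Complex.I * (∫ y in (0 : ℝ)..n * ρm, Gk a s k (((-hn s : ℝ) : ℂ) + y * Complex.I)))
      rfl hc ?_ ?_ ?_ ?_ ?_
    · unfold Mk
      rw [if_pos hsk]
    · rw [hnI]
      refine (rest_end hCe hEnd hk hρ0.le hE0).1.trans (le_of_eq ?_)
      rw [hS0]
      ring
    · rw [hnI]
      have hle : n * ρm ≤ n * ρ₀ := by gcongr
      have hint := rest_int (r := fS (2 * s + 1) k ^ 2) (a := n * ρm) (b := n * ρ₀)
        (f := fun y : ℝ => Gk a s k ((xk s k : ℂ) + y * Complex.I))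
        (K := Cg * (n * Real.cosh (2 * Real.pi * ρ₀) * X)) hf (by
          intro y hy
          rw [Set.uIoc_of_le hle] at hy
          have y1 : ρm ≤ y / n := by
            rw [le_div_iff₀ hnpos, mul_comm]
            exact hy.1.le
          have y2 : y / n ≤ ρ₀ := by
            rw [div_le_iff₀ hnpos, mul_comm]
            exact hy.2
          refine rest_pt hCg hG hk (x := xk s k) (y := y) hρm ?_ y1 y2 ?_
          · rw [← hn_def, hxn, abs_neg, abs_of_nonneg hm0]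
            linarith
          · rw [← hn_def, hxn]
            exact (p1 _ _ het0 hetu y1 y2).trans hE1)
      refine hint.trans ?_
      rw [abs_of_nonneg (by linarith)]
      have h1 : n * ρ₀ - n * ρm ≤ n * ρ₀ := by
        have : 0 ≤ n * ρm := by positivity
        linarith
      calc Cg * (n * Real.cosh (2 * Real.pi * ρ₀) * X) * (n * ρ₀ - n * ρm)
          ≤ Cg * (n * Real.cosh (2 * Real.pi * ρ₀) * X) * (n * ρ₀) := by
            have := Real.cosh_pos (2 * Real.pi * ρ₀)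
            gcongr
        _ = D0 * ρ₀ * n ^ 2 * X := by rw [hD0]; ring
        _ ≤ _ := by gcongr
    · have hle : -hn s ≤ xk s k := by
        have := (abs_le.1 hx).1
        exact this
      have hint := rest_int (r := fS (2 * s + 1) k ^ 2) (a := -hn s) (b := xk s k)
        (f := fun x : ℝ => Gk a s k ((x : ℂ) + ((n * ρm : ℝ) : ℂ) * Complex.I))
        (K := Cg * (n * Real.cosh (2 * Real.pi * ρ₀) * X)) hf (by
          intro x hx'
          rw [Set.uIoc_of_le hle] at hx'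
          have yn : n * ρm / n = ρm := by field_simp
          have x1 : -(1 / 2) ≤ x / n := by
            rw [le_div_iff₀ hnpos]
            have := hx'.1
            rw [hhn] at this
            linarith
          have x2 : x / n ≤ -m := by
            rw [div_le_iff₀ hnpos]
            have := hx'.2
            rw [hxk] at this
            linarith
          refine rest_pt hCg hG hk (x := x) (y := n * ρm) hρm ?_ (by rw [← hn_def, yn])
            (by rw [← hn_def, yn]; exact hρm0.le) ?_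
          · rw [← hn_def, abs_le]
            constructor <;> linarith
          · rw [← hn_def, yn]
            exact (p2 _ _ het0 hetu x1 x2).trans hE1)
      refine hint.trans ?_
      have h1 : |xk s k - -hn s| ≤ n := by
        rw [abs_of_nonneg (by linarith), hhn, hxk]
        have : 0 ≤ n * m := by positivity
        linarith
      calc Cg * (n * Real.cosh (2 * Real.pi * ρ₀) * X) * |xk s k - -hn s|
          ≤ Cg * (n * Real.cosh (2 * Real.pi * ρ₀) * X) * n := by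
            have := Real.cosh_pos (2 * Real.pi * ρ₀)
            gcongr
        _ = D0 * n ^ 2 * X := by rw [hD0]; ring
        _ ≤ _ := by gcongr
    · rw [hnI]
      refine ((rest_end hCe hEnd hk hρm.le hE0).2 (p4.trans hE1)).trans ?_
      have hmono : Real.sinh (2 * Real.pi * ρm) * ρm ≤ Real.sinh (2 * Real.pi * ρ₀) * ρ₀ := by
        have h1 : Real.sinh (2 * Real.pi * ρm) ≤ Real.sinh (2 * Real.pi * ρ₀) := by
          rw [Real.sinh_le_sinh]
          gcongr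
        have h0 : 0 ≤ Real.sinh (2 * Real.pi * ρm) := by
          rw [Real.sinh_nonneg_iff]
          positivity
        gcongr
      calc Ce * n ^ 5 * (Real.sinh (2 * Real.pi * ρm) * ρm) * X
          ≤ Ce * n ^ 5 * (Real.sinh (2 * Real.pi * ρ₀) * ρ₀) * X := by gcongr
        _ = S0 * n ^ 5 * X := by rw [hS0]; ring
  · -- the low case
    have het0 : et s k ≤ 0 := by
      unfold et
      have : (k : ℝ) ≤ s := by exact_mod_cast (not_le.1 hsk).le
      have h0 : (k : ℝ) - s ≤ 0 := by linarith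
      exact div_nonpos_of_nonpos_of_nonneg h0 hnpos.le
    have hx : |(-hn s)| ≤ hn s := by
      rw [abs_neg, abs_of_pos hhn0]
    have hc := contour (a := a) hk hx (h₁ := n * ρm) (h₂ := n * ρm) (by positivity)
      (by positivity)
    refine red _ (Complex.I * (∫ y in (0 : ℝ)..n * ρm, Gk a s k ((hn s : ℂ) + y * Complex.I)))
      0 0
      (∫ x in (-hn s)..hn s, Gk a s k ((x : ℂ) + ((n * ρm : ℝ) : ℂ) * Complex.I))
      (Complex.I * (∫ y in (0 : ℝ)..n * ρm, Gk a s k (((-hn s : ℝ) : ℂ) + y * Complex.I)))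
      ?_ hc ?_ ?_ ?_ ?_ ?_
    · unfold pathInt
      rw [intervalIntegral.integral_same, intervalIntegral.integral_same]
      ring
    · unfold Mk
      rw [if_neg hsk]
    · rw [hnI]
      refine ((rest_end hCe hEnd hk hρm.le hE0).1).trans ?_
      have hmono : Real.sinh (2 * Real.pi * ρm) * ρm ≤ Real.sinh (2 * Real.pi * ρ₀) * ρ₀ := by
        have h1 : Real.sinh (2 * Real.pi * ρm) ≤ Real.sinh (2 * Real.pi * ρ₀) := by
          rw [Real.sinh_le_sinh]
          gcongr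
        have h0 : 0 ≤ Real.sinh (2 * Real.pi * ρm) := by
          rw [Real.sinh_nonneg_iff]
          positivity
        gcongr
      calc Ce * n ^ 5 * (Real.sinh (2 * Real.pi * ρm) * ρm) * X
          ≤ Ce * n ^ 5 * (Real.sinh (2 * Real.pi * ρ₀) * ρ₀) * X := by gcongr
        _ = S0 * n ^ 5 * X := by rw [hS0]; ring
    · rw [norm_zero, mul_zero]
      positivity
    · have hle : -hn s ≤ hn s := by linarith
      have hint := rest_int (r := fS (2 * s + 1) k ^ 2) (a := -hn s) (b := hn s)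
        (f := fun x : ℝ => Gk a s k ((x : ℂ) + ((n * ρm : ℝ) : ℂ) * Complex.I))
        (K := Cg * (n * Real.cosh (2 * Real.pi * ρ₀) * X)) hf (by
          intro x hx'
          rw [Set.uIoc_of_le hle] at hx'
          have yn : n * ρm / n = ρm := by field_simp
          have x1 : -(1 / 2) ≤ x / n := by
            rw [le_div_iff₀ hnpos]
            have := hx'.1
            rw [hhn] at this
            linarith
          have x2 : x / n ≤ 1 / 2 := by
            rw [div_le_iff₀ hnpos]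
            have := hx'.2
            rw [hhn] at this
            linarith
          have x3 : |x / n| ≤ 1 / 2 := abs_le.2 ⟨x1, x2⟩
          refine rest_pt hCg hG hk (x := x) (y := n * ρm) hρm (by rw [← hn_def]; exact x3)
            (by rw [← hn_def, yn]) (by rw [← hn_def, yn]; exact hρm0.le) ?_
          rw [← hn_def, yn]
          exact (p3 _ _ hetl het0 x3).trans hE1)
      refine hint.trans ?_
      have h1 : |hn s - -hn s| ≤ n := by
        rw [abs_of_nonneg (by linarith), hhn]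
        linarith
      calc Cg * (n * Real.cosh (2 * Real.pi * ρ₀) * X) * |hn s - -hn s|
          ≤ Cg * (n * Real.cosh (2 * Real.pi * ρ₀) * X) * n := by
            have := Real.cosh_pos (2 * Real.pi * ρ₀)
            gcongr
        _ = D0 * n ^ 2 * X := by rw [hD0]; ring
        _ ≤ _ := by gcongr
    · rw [hnI]
      refine ((rest_end hCe hEnd hk hρm.le hE0).2 (p4.trans hE1)).trans ?_
      have hmono : Real.sinh (2 * Real.pi * ρm) * ρm ≤ Real.sinh (2 * Real.pi * ρ₀) * ρ₀ := by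
        have h1 : Real.sinh (2 * Real.pi * ρm) ≤ Real.sinh (2 * Real.pi * ρ₀) := by
          rw [Real.sinh_le_sinh]
          gcongr
        have h0 : 0 ≤ Real.sinh (2 * Real.pi * ρm) := by
          rw [Real.sinh_nonneg_iff]
          positivity
        gcongr
      calc Ce * n ^ 5 * (Real.sinh (2 * Real.pi * ρm) * ρm) * X
          ≤ Ce * n ^ 5 * (Real.sinh (2 * Real.pi * ρ₀) * ρ₀) * X := by gcongr
        _ = S0 * n ^ 5 * X := by rw [hS0]; ring

end Pool.Agent.Work.MP_b30479_gt.DT
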