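import Pool.Agent.Work.MP_b30479_gt.AX.Riem
import Pool.Agent.Work.MP_b30479_gt.DT.Inner
import Pool.Agent.Work.MP_b30479_gt.DT.Rest

/-!
# The outer sum
-/

namespace Pool.Agent.Work.MP_b30479_gt.DT

open Finset TB AX Filter Topology

theorem outer_int {n : ℕ} (hn : 1 ≤ n) {F : ℤ → ℝ} (hF : (Function.support F).Finite) :
    ∫ X : ℝ, F ⌊√(n : ℝ) * X⌋ = (∑' x, F x) / √(n : ℝ) := by
  classical
  have h0 : 0 ≤ (√(n : ℝ))⁻¹ := inv_nonneg.mpr (Real.sqrt_nonneg _)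
  have hms : ∀ a : ℤ, MeasurableSet (riem_I n a) := by
    intro a
    rw [riem_I_eq hn]
    exact measurableSet_Ico
  have hfin : ∀ a : ℤ, MeasureTheory.volume (riem_I n a) ≠ ⊤ := by
    intro a
    rw [riem_I_vol hn]
    exact ENNReal.ofReal_ne_top
  have h1 : ∀ X : ℝ, F ⌊√(n : ℝ) * X⌋ =
      ∑ a ∈ hF.toFinset, (riem_I n a).indicator (fun _ => F a) X := by
    intro X
    by_cases h : ⌊√(n : ℝ) * X⌋ ∈ hF.toFinset
    · rw [Finset.sum_eq_single_of_mem _ h]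
      · rw [Set.indicator_of_mem]
        rfl
      · intro a _ ha
        rw [Set.indicator_of_notMem]
        intro h2
        exact ha (Eq.symm h2)
    · rw [Finset.sum_eq_zero]
      · rw [Set.Finite.mem_toFinset, Function.mem_support, not_not] at h
        exact h
      · intro a ha
        rw [Set.indicator_of_notMem]
        intro h2
        rw [riem_I, Set.mem_ofPred_eq] at h2
        rw [h2] at h
        exact h ha
  simp_rw [h1]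
  rw [MeasureTheory.integral_finsetSum]
  · rw [tsum_eq_sum (s := hF.toFinset), Finset.sum_div]
    · refine Finset.sum_congr rfl fun a _ => ?_
      rw [MeasureTheory.integral_indicator_const _ (hms a), MeasureTheory.Measure.real,
        riem_I_vol hn, ENNReal.toReal_ofReal h0, smul_eq_mul, div_eq_inv_mul]
    · intro a ha
      rw [Set.Finite.mem_toFinset, Function.mem_support, not_not] at ha
      exact ha
  · intro a _
    rw [MeasureTheory.integrable_indicator_iff (hms a)]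
    exact MeasureTheory.integrableOn_const (hfin a)

theorem outer_n_top : Tendsto (fun s : ℕ => ((2 * s + 1 : ℕ) : ℝ)) atTop atTop := by
  have h : Tendsto (fun s : ℕ => 2 * s + 1) atTop atTop :=
    tendsto_atTop_mono (fun s => by simp only [id]; omega) tendsto_id
  exact tendsto_natCast_atTop_atTop.comp h

theorem outer_sqrt_top : Tendsto (fun s : ℕ => √((2 * s + 1 : ℕ) : ℝ)) atTop atTop :=
  Real.tendsto_sqrt_atTop.comp outer_n_top

theorem outer_floor_lim (X : ℝ) :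
    Tendsto (fun s : ℕ => (⌊√((2 * s + 1 : ℕ) : ℝ) * X⌋ : ℝ) / √((2 * s + 1 : ℕ) : ℝ)) atTop
      (𝓝 X) := by
  have h1 : Tendsto (fun s : ℕ => X - (√((2 * s + 1 : ℕ) : ℝ))⁻¹) atTop (𝓝 X) := by
    simpa using (tendsto_const_nhds (x := X)).sub (tendsto_inv_atTop_zero.comp outer_sqrt_top)
  refine tendsto_of_tendsto_of_tendsto_of_le_of_le h1 tendsto_const_nhds ?_ ?_
  · intro s
    have h0 : 0 < √((2 * s + 1 : ℕ) : ℝ) := Real.sqrt_pos.mpr (by positivity)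
    have h2 := Int.lt_floor_add_one (√((2 * s + 1 : ℕ) : ℝ) * X)
    show X - (√((2 * s + 1 : ℕ) : ℝ))⁻¹ ≤ _
    rw [le_div_iff₀ h0, sub_mul, inv_mul_cancel₀ h0.ne']
    linarith
  · intro s
    have h0 : 0 < √((2 * s + 1 : ℕ) : ℝ) := Real.sqrt_pos.mpr (by positivity)
    have h2 := Int.floor_le (√((2 * s + 1 : ℕ) : ℝ) * X)
    show _ ≤ X
    rw [div_le_iff₀ h0]
    linarith

/-- sums over lattice points and integrals -/
theorem riem1 {F : ℕ → ℤ → ℝ} {f : ℝ → ℝ} {C c : ℝ} (hc : 0 < c)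
    (hfin : ∀ s, (Function.support (F s)).Finite) (hpos : ∀ s x, 0 ≤ F s x)
    (hdom : ∀ s x, F s x ≤ C * Real.exp (-(c * (x : ℝ) ^ 2 / ((2 * s + 1 : ℕ) : ℝ))))
    (hlim : ∀ (j : ℕ → ℤ) (X : ℝ),
      Tendsto (fun s : ℕ => (j s : ℝ) / √((2 * s + 1 : ℕ) : ℝ)) atTop (𝓝 X) →
      Tendsto (fun s : ℕ => F s (j s)) atTop (𝓝 (f X))) :
    MeasureTheory.Integrable f ∧
      Tendsto (fun s : ℕ => (∑' x, F s x) / √((2 * s + 1 : ℕ) : ℝ)) atTop (𝓝 (∫ X, f X)) := by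
  have hC : 0 ≤ C := by
    have h1 := (hpos 0 0).trans (hdom 0 0)
    exact nonneg_of_mul_nonneg_left h1 (Real.exp_pos _)
  set B : ℝ → ℝ := fun X => C * Real.exp c * Real.exp (-(c / 2) * X ^ 2) with hB
  have hBint : MeasureTheory.Integrable B :=
    (integrable_exp_neg_mul_sq (show 0 < c / 2 by positivity)).const_mul _
  have hbound : ∀ (s : ℕ) (X : ℝ), ‖F s ⌊√((2 * s + 1 : ℕ) : ℝ) * X⌋‖ ≤ B X := by
    intro s X
    rw [Real.norm_of_nonneg (hpos _ _)]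
    refine (hdom s _).trans ?_
    rw [hB]
    simp only
    rw [mul_assoc C, ← Real.exp_add]
    apply mul_le_mul_of_nonneg_left _ hC
    apply Real.exp_le_exp.mpr
    have h1 := riem_floor (show 1 ≤ 2 * s + 1 by omega) X
    have h2 := mul_le_mul_of_nonneg_left h1 hc.le
    have h3 : ∀ y : ℝ, c * y ^ 2 / ((2 * s + 1 : ℕ) : ℝ) = c * (y ^ 2 / ((2 * s + 1 : ℕ) : ℝ)) :=
      fun y => by ring
    rw [h3]
    linarith
  have hmeas : ∀ s : ℕ, MeasureTheory.AEStronglyMeasurable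
      (fun X : ℝ => F s ⌊√((2 * s + 1 : ℕ) : ℝ) * X⌋) MeasureTheory.volume := fun s =>
    ((Measurable.of_discrete (f := F s)).comp
      (Int.measurable_floor.comp (measurable_const.mul measurable_id))).aestronglyMeasurable
  have hl : ∀ X : ℝ, Tendsto (fun s : ℕ => F s ⌊√((2 * s + 1 : ℕ) : ℝ) * X⌋) atTop (𝓝 (f X)) :=
    fun X => hlim _ X (outer_floor_lim X)
  have hfmeas : MeasureTheory.AEStronglyMeasurable f MeasureTheory.volume :=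
    aestronglyMeasurable_of_tendsto_ae atTop hmeas (Filter.Eventually.of_forall hl)
  have hfb : ∀ X, ‖f X‖ ≤ B X := by
    intro X
    exact le_of_tendsto (hl X).norm (Filter.Eventually.of_forall fun s => hbound s X)
  refine ⟨hBint.mono' hfmeas (Filter.Eventually.of_forall hfb), ?_⟩
  have hmain : Tendsto (fun s : ℕ => ∫ X : ℝ, F s ⌊√((2 * s + 1 : ℕ) : ℝ) * X⌋) atTop
      (𝓝 (∫ X, f X)) :=
    MeasureTheory.tendsto_integral_of_dominated_convergence B hmeas hBint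
      (fun s => Filter.Eventually.of_forall (hbound s)) (Filter.Eventually.of_forall hl)
  exact hmain.congr fun s => outer_int (by omega) (hfin s)

/-- the terms of the outer sum, as a function on `ℤ` -/
noncomputable def outer_F (a : ℕ) (η₀ ς₀ ρ₀ : ℝ) (s : ℕ) (x : ℤ) : ℝ :=
  if 0 ≤ (k0 η₀ s : ℤ) + x ∧ (k0 η₀ s : ℤ) + x ≤ 2 * s then
    ‖Uk a η₀ ς₀ ρ₀ s ((k0 η₀ s : ℤ) + x).toNat‖ ^ 2 else 0

theorem outer_support (a : ℕ) (η₀ ς₀ ρ₀ : ℝ) (s : ℕ) :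
    Function.support (outer_F a η₀ ς₀ ρ₀ s) ⊆
      ↑((range (2 * s + 1)).image fun k : ℕ => (k : ℤ) - (k0 η₀ s : ℤ)) := by
  intro x hx
  rw [Function.mem_support] at hx
  rw [Finset.mem_coe, Finset.mem_image]
  have h : 0 ≤ (k0 η₀ s : ℤ) + x ∧ (k0 η₀ s : ℤ) + x ≤ 2 * s := by
    by_contra h
    exact hx (if_neg h)
  refine ⟨((k0 η₀ s : ℤ) + x).toNat, ?_, ?_⟩
  · rw [mem_range]
    omega
  · omega

theorem outer_tsum (a : ℕ) (η₀ ς₀ ρ₀ : ℝ) (s : ℕ) :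
    ∑' x, outer_F a η₀ ς₀ ρ₀ s x = ∑ k ∈ range (2 * s + 1), ‖Uk a η₀ ς₀ ρ₀ s k‖ ^ 2 := by
  classical
  rw [tsum_eq_sum (s := (range (2 * s + 1)).image fun k : ℕ => (k : ℤ) - (k0 η₀ s : ℤ))]
  · rw [Finset.sum_image]
    · refine Finset.sum_congr rfl fun k hk => ?_
      rw [mem_range] at hk
      unfold outer_F
      rw [if_pos (by omega)]
      congr 4
      omega
    · intro k _ l _ h
      simp only at h
      omega
  · intro x hx
    by_contra h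
    exact hx (outer_support a η₀ ς₀ ρ₀ s (Function.mem_support.mpr h))

theorem outer_k0_lim {η₀ : ℝ} (h0 : 0 ≤ η₀) :
    Tendsto (fun s : ℕ => (k0 η₀ s : ℝ) / ((2 * s + 1 : ℕ) : ℝ)) atTop (𝓝 (1 / 2 + η₀)) := by
  have hinv : Tendsto (fun s : ℕ => (((2 * s + 1 : ℕ) : ℝ))⁻¹) atTop (𝓝 0) :=
    tendsto_inv_atTop_zero.comp outer_n_top
  have hl : Tendsto (fun s : ℕ => 1 / 2 + η₀ - 3 / 2 * (((2 * s + 1 : ℕ) : ℝ))⁻¹) atTop
      (𝓝 (1 / 2 + η₀)) := by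
    simpa using (tendsto_const_nhds (x := 1 / 2 + η₀)).sub (hinv.const_mul (3 / 2))
  refine tendsto_of_tendsto_of_tendsto_of_le_of_le hl tendsto_const_nhds ?_ ?_
  · intro s
    have hn : (0 : ℝ) < ((2 * s + 1 : ℕ) : ℝ) := by positivity
    have h1 := Nat.lt_floor_add_one (η₀ * ((2 * s + 1 : ℕ) : ℝ))
    show 1 / 2 + η₀ - 3 / 2 * (((2 * s + 1 : ℕ) : ℝ))⁻¹ ≤ _
    rw [le_div_iff₀ hn, sub_mul, mul_assoc, inv_mul_cancel₀ hn.ne']
    unfold k0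
    push_cast at *
    linarith
  · intro s
    have hn : (0 : ℝ) < ((2 * s + 1 : ℕ) : ℝ) := by positivity
    have h1 := Nat.floor_le (mul_nonneg h0 hn.le)
    show _ ≤ 1 / 2 + η₀
    rw [div_le_iff₀ hn]
    unfold k0
    push_cast at *
    linarith

theorem outer_mem {η₀ : ℝ} (h0 : 0 ≤ η₀) (h1 : η₀ < 1 / 2) {j : ℕ → ℤ} {X : ℝ}
    (hj : Tendsto (fun s : ℕ => (j s : ℝ) / √((2 * s + 1 : ℕ) : ℝ)) atTop (𝓝 X)) :
    ∀ᶠ s : ℕ in atTop, 0 ≤ (k0 η₀ s : ℤ) + j s ∧ (k0 η₀ s : ℤ) + j s ≤ 2 * s := by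
  have hinv : Tendsto (fun s : ℕ => (((2 * s + 1 : ℕ) : ℝ))⁻¹) atTop (𝓝 0) :=
    tendsto_inv_atTop_zero.comp outer_n_top
  have hinv2 : Tendsto (fun s : ℕ => (√((2 * s + 1 : ℕ) : ℝ))⁻¹) atTop (𝓝 0) :=
    tendsto_inv_atTop_zero.comp outer_sqrt_top
  have hj1 : Tendsto (fun s : ℕ => (j s : ℝ) / ((2 * s + 1 : ℕ) : ℝ)) atTop (𝓝 0) := by
    have h2 := hj.mul hinv2
    rw [mul_zero] at h2
    refine h2.congr fun s => ?_
    rw [← div_eq_mul_inv, div_div, Real.mul_self_sqrt (by positivity)]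
  have hk := (outer_k0_lim h0).add hj1
  rw [add_zero] at hk
  have hk2 := hk.add hinv
  rw [add_zero] at hk2
  filter_upwards [hk.eventually_const_lt (show (0 : ℝ) < 1 / 2 + η₀ by linarith),
    hk2.eventually_lt_const (show 1 / 2 + η₀ < 1 by linarith)] with s a1 a2
  have hn : (0 : ℝ) < ((2 * s + 1 : ℕ) : ℝ) := by positivity
  rw [← add_div, lt_div_iff₀ hn, zero_mul] at a1
  rw [← add_div, ← one_div, ← add_div, div_lt_one hn] at a2
  have b1 : (0 : ℤ) < (k0 η₀ s : ℤ) + j s := by exact_mod_cast a1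
  have b2 : (k0 η₀ s : ℤ) + j s + 1 < 2 * s + 1 := by exact_mod_cast a2
  omega

theorem sum_lim {a : ℕ} {η₀ ς₀ ρ₀ : ℝ} (h : IsSad a η₀ ς₀ ρ₀) : ∃ I : ℝ, 0 < I ∧
    Tendsto (fun s : ℕ => (∑ k ∈ range (2 * s + 1), ‖Uk a η₀ ς₀ ρ₀ s k‖ ^ 2) /
      √((2 * s + 1 : ℕ) : ℝ)) atTop (𝓝 I) := by
  have hη : 0 ≤ η₀ := (abs_nonneg _).trans h.h1.le
  obtain ⟨C, c, hC, hc, hb⟩ := U_bound h
  have hmain := riem1 (F := outer_F a η₀ ς₀ ρ₀)
    (f := fun X => gg a η₀ (ς₀ + ρ₀ * Complex.I) X ^ 2) (C := C ^ 2) (c := 2 * c) (by positivity)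
    (fun s => (Finset.finite_toSet _).subset (outer_support a η₀ ς₀ ρ₀ s))
    (fun s x => by
      unfold outer_F
      split_ifs
      · positivity
      · exact le_rfl)
    (fun s x => by
      unfold outer_F
      split_ifs with hx
      · have h1 := hb s ((k0 η₀ s : ℤ) + x).toNat (by omega)
        have e1 : ((((k0 η₀ s : ℤ) + x).toNat : ℕ) : ℝ) - k0 η₀ s = x := by
          have e2 : ((((k0 η₀ s : ℤ) + x).toNat : ℕ) : ℤ) = (k0 η₀ s : ℤ) + x := by omega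
          have e3 : (((((k0 η₀ s : ℤ) + x).toNat : ℕ) : ℤ) : ℝ) = ((k0 η₀ s : ℤ) + x : ℤ) := by
            rw [e2]
          push_cast at e3
          rw [e3]
          ring
        rw [e1] at h1
        calc ‖Uk a η₀ ς₀ ρ₀ s ((k0 η₀ s : ℤ) + x).toNat‖ ^ 2
            ≤ (C * Real.exp (-(c * (x : ℝ) ^ 2 / ((2 * s + 1 : ℕ) : ℝ)))) ^ 2 :=
              pow_le_pow_left₀ (norm_nonneg _) h1 2
          _ = C ^ 2 * Real.exp (-(2 * c * (x : ℝ) ^ 2 / ((2 * s + 1 : ℕ) : ℝ))) := by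
              rw [mul_pow, ← Real.exp_nat_mul]
              congr 2
              push_cast
              ring
      · positivity)
    (fun j X hj => by
      have h1 := (U_lim h hj).pow 2
      refine h1.congr' ?_
      filter_upwards [outer_mem hη h.h3 hj] with s hs
      unfold outer_F
      rw [if_pos hs])
  refine ⟨∫ X : ℝ, gg a η₀ (ς₀ + ρ₀ * Complex.I) X ^ 2, ?_, ?_⟩
  · rw [MeasureTheory.integral_pos_iff_support_of_nonneg (fun X => sq_nonneg _) hmain.1]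
    have e : Function.support (fun X => gg a η₀ (ς₀ + ρ₀ * Complex.I) X ^ 2) = Set.univ := by
      ext X
      simp only [Function.mem_support, Set.mem_univ, iff_true]
      have := gg_pos h X
      positivity
    rw [e]
    simp
  · refine hmain.2.congr fun s => ?_
    rw [outer_tsum]

theorem outer_exp {c : ℝ} (hc : 0 < c) (m : ℕ) :
    Tendsto (fun s : ℕ => ((2 * s + 1 : ℕ) : ℝ) ^ m * Real.exp (-(c * ((2 * s + 1 : ℕ) : ℝ))))
      atTop (𝓝 0) := by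
  have h1 := (Real.tendsto_pow_mul_exp_neg_atTop_nhds_zero m).comp
    (outer_n_top.const_mul_atTop hc)
  have h2 := h1.const_mul (c ^ m)⁻¹
  rw [mul_zero] at h2
  refine h2.congr fun s => ?_
  simp only [Function.comp]
  rw [mul_pow, mul_assoc, inv_mul_cancel_left₀ (by positivity)]

theorem main_asym {a : ℕ} {η₀ ς₀ ρ₀ : ℝ} (h : IsSad a η₀ ς₀ ρ₀) : ∃ I : ℝ, 0 < I ∧
    Tendsto (fun s : ℕ => (∑ k ∈ range (2 * s + 1), Ak a s k ^ 2) *
      √((2 * s + 1 : ℕ) : ℝ) / P0 a η₀ ς₀ ρ₀ s ^ 2) atTop (𝓝 I) := by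
  obtain ⟨I, hI, hlim⟩ := sum_lim h
  obtain ⟨C, c, hC, hc, hb⟩ := U_bound h
  obtain ⟨C₁, c₁, hC₁, hc₁, hA⟩ := Ak_approx h
  obtain ⟨c₂, hc₂, hP⟩ := P0_lower h
  -- the error term
  set ε : ℕ → ℝ := fun s => 2 * C₁ / c₂ * (((2 * s + 1 : ℕ) : ℝ) ^ 6 *
    Real.exp (-(c₁ * ((2 * s + 1 : ℕ) : ℝ)))) with hε
  have hε0 : ∀ s, 0 ≤ ε s := fun s => by rw [hε]; positivity
  have hεlim : Tendsto ε atTop (𝓝 0) := by
    have h1 := (outer_exp hc₁ 6).const_mul (2 * C₁ / c₂)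
    rw [mul_zero] at h1
    exact h1
  have hnε : Tendsto (fun s : ℕ => ((2 * s + 1 : ℕ) : ℝ) * ε s) atTop (𝓝 0) := by
    have h1 := (outer_exp hc₁ 7).const_mul (2 * C₁ / c₂)
    rw [mul_zero] at h1
    refine h1.congr fun s => ?_
    rw [hε]
    ring
  have hU : ∀ s k : ℕ, k ≤ 2 * s → ‖Uk a η₀ ς₀ ρ₀ s k‖ ≤ C := by
    intro s k hk
    refine (hb s k hk).trans ?_
    have h1 : Real.exp (-(c * ((k : ℝ) - k0 η₀ s) ^ 2 / ((2 * s + 1 : ℕ) : ℝ))) ≤ 1 := by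
      rw [Real.exp_le_one_iff, neg_nonpos]
      positivity
    nlinarith
  have hAk : ∀ s k : ℕ, k ≤ 2 * s →
      |Ak a s k * (2 * √((2 * s + 1 : ℕ) : ℝ)) / P0 a η₀ ς₀ ρ₀ s - ‖Uk a η₀ ς₀ ρ₀ s k‖| ≤ ε s := by
    intro s k hk
    have hn : (0 : ℝ) < ((2 * s + 1 : ℕ) : ℝ) := by positivity
    have hn1 : (1 : ℝ) ≤ ((2 * s + 1 : ℕ) : ℝ) := by
      exact_mod_cast (by omega : 1 ≤ 2 * s + 1)
    have hsq : 0 < √((2 * s + 1 : ℕ) : ℝ) := Real.sqrt_pos.mpr hn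
    have hsq1 : √((2 * s + 1 : ℕ) : ℝ) ≤ ((2 * s + 1 : ℕ) : ℝ) := by
      rw [Real.sqrt_le_left hn.le]
      nlinarith
    have hP0 := P0_pos h s
    have h1 := hA s k hk
    have h2 := hP s
    have e1 : ‖Uk a η₀ ς₀ ρ₀ s k‖ = fS (2 * s + 1) k ^ 2 * ‖Mk a ρ₀ s k‖ /
        (P0 a η₀ ς₀ ρ₀ s * √((2 * s + 1 : ℕ) : ℝ)) := by
      unfold Uk
      rw [norm_mul, Complex.norm_real, Real.norm_of_nonneg (by positivity)]
      ring
    have e2 : Ak a s k * (2 * √((2 * s + 1 : ℕ) : ℝ)) / P0 a η₀ ς₀ ρ₀ s -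
        ‖Uk a η₀ ς₀ ρ₀ s k‖ = (Ak a s k - fS (2 * s + 1) k ^ 2 * ‖Mk a ρ₀ s k‖ /
          (2 * ((2 * s + 1 : ℕ) : ℝ))) * (2 * √((2 * s + 1 : ℕ) : ℝ) / P0 a η₀ ς₀ ρ₀ s) := by
      rw [e1]
      have e3 : ((2 * s + 1 : ℕ) : ℝ) = √((2 * s + 1 : ℕ) : ℝ) * √((2 * s + 1 : ℕ) : ℝ) :=
        (Real.mul_self_sqrt hn.le).symm
      generalize √((2 * s + 1 : ℕ) : ℝ) = r at *
      rw [e3]
      field_simp
    rw [e2, abs_mul, abs_of_pos (by positivity : 0 < 2 * √((2 * s + 1 : ℕ) : ℝ) /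
      P0 a η₀ ς₀ ρ₀ s)]
    have h3 : 2 * √((2 * s + 1 : ℕ) : ℝ) / P0 a η₀ ς₀ ρ₀ s ≤
        2 / c₂ * Real.exp (-(((2 * s + 1 : ℕ) : ℝ) * H a η₀ ς₀ ρ₀)) := by
      rw [div_le_iff₀ hP0]
      have h4 := mul_le_mul_of_nonneg_left h2 (by positivity :
        0 ≤ 2 / c₂ * Real.exp (-(((2 * s + 1 : ℕ) : ℝ) * H a η₀ ς₀ ρ₀)))
      refine le_trans ?_ h4
      have e4 : 2 / c₂ * Real.exp (-(((2 * s + 1 : ℕ) : ℝ) * H a η₀ ς₀ ρ₀)) *
          (c₂ * (((2 * s + 1 : ℕ) : ℝ) * Real.exp (((2 * s + 1 : ℕ) : ℝ) * H a η₀ ς₀ ρ₀))) =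
          2 * ((2 * s + 1 : ℕ) : ℝ) * (Real.exp (-(((2 * s + 1 : ℕ) : ℝ) * H a η₀ ς₀ ρ₀)) *
            Real.exp (((2 * s + 1 : ℕ) : ℝ) * H a η₀ ς₀ ρ₀)) := by
        field_simp
      rw [e4, ← Real.exp_add, neg_add_cancel, Real.exp_zero]
      linarith
    calc |Ak a s k - fS (2 * s + 1) k ^ 2 * ‖Mk a ρ₀ s k‖ / (2 * ((2 * s + 1 : ℕ) : ℝ))| *
          (2 * √((2 * s + 1 : ℕ) : ℝ) / P0 a η₀ ς₀ ρ₀ s)
        ≤ (C₁ * ((2 * s + 1 : ℕ) : ℝ) ^ 6 *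
          Real.exp (((2 * s + 1 : ℕ) : ℝ) * (H a η₀ ς₀ ρ₀ - c₁))) *
          (2 / c₂ * Real.exp (-(((2 * s + 1 : ℕ) : ℝ) * H a η₀ ς₀ ρ₀))) :=
          mul_le_mul h1 h3 (by positivity) (by positivity)
      _ = 2 * C₁ / c₂ * (((2 * s + 1 : ℕ) : ℝ) ^ 6 *
          (Real.exp (((2 * s + 1 : ℕ) : ℝ) * (H a η₀ ς₀ ρ₀ - c₁)) *
            Real.exp (-(((2 * s + 1 : ℕ) : ℝ) * H a η₀ ς₀ ρ₀)))) := by ring
      _ = ε s := by
          rw [← Real.exp_add, hε]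
          simp only
          congr 3
          ring
  -- the difference of the sums
  have hdiff : ∀ s : ℕ, |(∑ k ∈ range (2 * s + 1), Ak a s k ^ 2) *
      √((2 * s + 1 : ℕ) : ℝ) / P0 a η₀ ς₀ ρ₀ s ^ 2 -
      (∑ k ∈ range (2 * s + 1), ‖Uk a η₀ ς₀ ρ₀ s k‖ ^ 2) /
      √((2 * s + 1 : ℕ) : ℝ) / 4| ≤ ((2 * s + 1 : ℕ) : ℝ) * ε s * (2 * C + ε s) := by
    intro s
    have hn : (0 : ℝ) < ((2 * s + 1 : ℕ) : ℝ) := by positivity
    have hn1 : (1 : ℝ) ≤ ((2 * s + 1 : ℕ) : ℝ) := by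
      exact_mod_cast (by omega : 1 ≤ 2 * s + 1)
    have hsq : 0 < √((2 * s + 1 : ℕ) : ℝ) := Real.sqrt_pos.mpr hn
    have hsq1 : 1 ≤ √((2 * s + 1 : ℕ) : ℝ) := Real.one_le_sqrt.mpr hn1
    have hP0 := P0_pos h s
    have e1 : (∑ k ∈ range (2 * s + 1), Ak a s k ^ 2) *
        √((2 * s + 1 : ℕ) : ℝ) / P0 a η₀ ς₀ ρ₀ s ^ 2 -
        (∑ k ∈ range (2 * s + 1), ‖Uk a η₀ ς₀ ρ₀ s k‖ ^ 2) / √((2 * s + 1 : ℕ) : ℝ) / 4 =
        (∑ k ∈ range (2 * s + 1), ((Ak a s k * (2 * √((2 * s + 1 : ℕ) : ℝ)) /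
          P0 a η₀ ς₀ ρ₀ s) ^ 2 - ‖Uk a η₀ ς₀ ρ₀ s k‖ ^ 2)) * (1 / (4 * √((2 * s + 1 : ℕ) : ℝ))) := by
      rw [Finset.sum_sub_distrib, sub_mul]
      congr 1
      · rw [Finset.sum_mul, Finset.sum_div, Finset.sum_mul]
        refine Finset.sum_congr rfl fun k _ => ?_
        generalize √((2 * s + 1 : ℕ) : ℝ) = r at *
        field_simp
        ring
      · ring
    rw [e1, abs_mul, abs_of_pos (by positivity : 0 < 1 / (4 * √((2 * s + 1 : ℕ) : ℝ)))]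
    have h1 : |∑ k ∈ range (2 * s + 1), ((Ak a s k * (2 * √((2 * s + 1 : ℕ) : ℝ)) /
          P0 a η₀ ς₀ ρ₀ s) ^ 2 - ‖Uk a η₀ ς₀ ρ₀ s k‖ ^ 2)| ≤
        ((2 * s + 1 : ℕ) : ℝ) * (ε s * (2 * C + ε s)) := by
      refine (Finset.abs_sum_le_sum_abs _ _).trans ?_
      have h2 : ∀ k ∈ range (2 * s + 1), |(Ak a s k * (2 * √((2 * s + 1 : ℕ) : ℝ)) /
          P0 a η₀ ς₀ ρ₀ s) ^ 2 - ‖Uk a η₀ ς₀ ρ₀ s k‖ ^ 2| ≤ ε s * (2 * C + ε s) := by
        intro k hk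
        rw [mem_range] at hk
        have h3 := hAk s k (by omega)
        have h4 := hU s k (by omega)
        have h5 := norm_nonneg (Uk a η₀ ς₀ ρ₀ s k)
        generalize Ak a s k * (2 * √((2 * s + 1 : ℕ) : ℝ)) / P0 a η₀ ς₀ ρ₀ s = x at *
        generalize ‖Uk a η₀ ς₀ ρ₀ s k‖ = y at *
        have e2 : x ^ 2 - y ^ 2 = (x - y) * ((x - y) + 2 * y) := by ring
        rw [e2, abs_mul]
        apply mul_le_mul h3 _ (abs_nonneg _) (hε0 s)
        calc |(x - y) + 2 * y| ≤ |x - y| + |2 * y| := abs_add_le _ _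
          _ ≤ ε s + 2 * C := by
              rw [abs_of_nonneg (by positivity : 0 ≤ 2 * y)]
              linarith
          _ = 2 * C + ε s := by ring
      have h3 := Finset.sum_le_card_nsmul _ _ _ h2
      rw [card_range, nsmul_eq_mul] at h3
      exact h3
    have h2 : 1 / (4 * √((2 * s + 1 : ℕ) : ℝ)) ≤ 1 := by
      rw [div_le_one (by positivity)]
      linarith
    have h3 : 0 ≤ ((2 * s + 1 : ℕ) : ℝ) * (ε s * (2 * C + ε s)) := by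
      have := hε0 s
      positivity
    calc _ ≤ ((2 * s + 1 : ℕ) : ℝ) * (ε s * (2 * C + ε s)) * 1 :=
          mul_le_mul h1 h2 (by positivity) h3
      _ = _ := by ring
  refine ⟨I / 4, by positivity, ?_⟩
  have hz : Tendsto (fun s : ℕ => ((2 * s + 1 : ℕ) : ℝ) * ε s * (2 * C + ε s)) atTop (𝓝 0) := by
    have h1 := hnε.mul ((tendsto_const_nhds (x := 2 * C)).add hεlim)
    rw [zero_mul] at h1
    exact h1
  have hd := squeeze_zero_norm (fun s => by rw [Real.norm_eq_abs]; exact hdiff s) hz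
  have h4 := hd.add (hlim.div_const 4)
  rw [zero_add] at h4
  refine h4.congr fun s => ?_
  ring

end Pool.Agent.Work.MP_b30479_gt.DT
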