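import Pool.Agent.Work.MP_b30479_gt.AX.Peak
import Pool.Agent.Work.MP_b30479_gt.DT.Crit
import Pool.Agent.Work.MP_b30479_gt.DT.DDom

/-!
# The ratio of consecutive central values
-/

namespace Pool.Agent.Work.MP_b30479_gt.DT

open Finset TB AX Filter Topology

theorem peakR_lip {φ φ' : ℝ → ℝ} {K : ℝ} (hφ : ∀ v, HasDerivAt φ (φ' v) v)
    (hK : ∀ v, |φ' v| ≤ K) (x y : ℝ) : |φ y - φ x| ≤ K * |y - x| := by
  have h := convex_univ.norm_image_sub_le_of_norm_hasDerivWithin_le (f := φ) (f' := φ') (C := K)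
    (fun v _ => (hφ v).hasDerivWithinAt) (fun v _ => by rw [Real.norm_eq_abs]; exact hK v)
    (Set.mem_univ x) (Set.mem_univ y)
  rwa [Real.norm_eq_abs, Real.norm_eq_abs] at h

theorem peakR_cell {φ φ' φ'' : ℝ → ℝ} {B : ℝ} (hφ : ∀ v, HasDerivAt φ (φ' v) v)
    (hφ' : ∀ v, HasDerivAt φ' (φ'' v) v) (hB : ∀ v, |φ'' v| ≤ B) (x : ℝ) {h : ℝ} (hh : 0 ≤ h) :
    |(∫ v in (x - h)..(x + h), φ v) - 2 * h * φ x| ≤ B * h ^ 2 * (2 * h) := by
  have hB0 : 0 ≤ B := (abs_nonneg _).trans (hB 0)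
  have hlip := peakR_lip hφ' hB
  have hc : Continuous φ := continuous_iff_continuousAt.mpr fun v => (hφ v).continuousAt
  -- the remainder
  have hψ : ∀ v ∈ Set.Icc (x - h) (x + h), |φ v - φ x - φ' x * (v - x)| ≤ B * h ^ 2 := by
    intro v hv
    have hd : ∀ t ∈ Set.Icc (x - h) (x + h),
        HasDerivWithinAt (fun t => φ t - φ x - φ' x * (t - x)) (φ' t - φ' x)
          (Set.Icc (x - h) (x + h)) t := by
      intro t _
      have h1 := ((hφ t).sub_const (φ x)).sub (((hasDerivAt_id t).sub_const x).const_mul (φ' x))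
      rw [mul_one] at h1
      exact h1.hasDerivWithinAt
    have hb : ∀ t ∈ Set.Icc (x - h) (x + h), ‖φ' t - φ' x‖ ≤ B * h := by
      intro t ht
      rw [Real.norm_eq_abs]
      refine (hlip x t).trans (mul_le_mul_of_nonneg_left ?_ hB0)
      rw [abs_le]
      constructor <;> linarith [ht.1, ht.2]
    have h2 := (convex_Icc (x - h) (x + h)).norm_image_sub_le_of_norm_hasDerivWithin_le hd hb
      (x := x) (y := v) ⟨by linarith, by linarith⟩ hv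
    simp only [sub_self, mul_zero, sub_zero] at h2
    rw [Real.norm_eq_abs, Real.norm_eq_abs] at h2
    refine h2.trans ?_
    have h3 : |v - x| ≤ h := by
      rw [abs_le]
      constructor <;> linarith [hv.1, hv.2]
    calc B * h * |v - x| ≤ B * h * h := mul_le_mul_of_nonneg_left h3 (by positivity)
      _ = B * h ^ 2 := by ring
  have hlin : ∫ v in (x - h)..(x + h), (φ x + φ' x * (v - x)) = 2 * h * φ x := by
    have hd : ∀ t ∈ Set.uIcc (x - h) (x + h),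
        HasDerivAt (fun t => φ x * t + φ' x * ((t - x) ^ 2 / 2)) (φ x + φ' x * (t - x)) t := by
      intro t _
      have h1 := ((hasDerivAt_id t).const_mul (φ x)).add
        (((((hasDerivAt_id t).sub_const x).pow 2).div_const 2).const_mul (φ' x))
      refine h1.congr_deriv ?_
      simp
    rw [intervalIntegral.integral_eq_sub_of_hasDerivAt hd]
    · ring
    · exact (by fun_prop : Continuous fun v : ℝ => φ x + φ' x * (v - x)).intervalIntegrable _ _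
  have e : (∫ v in (x - h)..(x + h), φ v) - 2 * h * φ x =
      ∫ v in (x - h)..(x + h), (φ v - φ x - φ' x * (v - x)) := by
    rw [← hlin, ← intervalIntegral.integral_sub]
    · refine intervalIntegral.integral_congr fun v _ => ?_
      ring
    · exact hc.intervalIntegrable _ _
    · exact (by fun_prop : Continuous fun v : ℝ => φ x + φ' x * (v - x)).intervalIntegrable _ _
  rw [e]
  have h3 := intervalIntegral.norm_integral_le_of_norm_le_const (a := x - h) (b := x + h)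
    (f := fun v => φ v - φ x - φ' x * (v - x)) (C := B * h ^ 2) (fun v hv => by
      rw [Real.norm_eq_abs]
      rw [Set.uIoc_of_le (by linarith)] at hv
      exact hψ v ⟨hv.1.le, hv.2⟩)
  rw [Real.norm_eq_abs] at h3
  refine h3.trans (le_of_eq ?_)
  rw [abs_of_nonneg (by linarith)]
  ring

/-- midpoint rule -/
theorem midpoint_C2 {φ φ' φ'' : ℝ → ℝ} {B : ℝ} (hφ : ∀ v, HasDerivAt φ (φ' v) v)
    (hφ' : ∀ v, HasDerivAt φ' (φ'' v) v) (hB : ∀ v, |φ'' v| ≤ B) {n : ℕ} (hn : 0 < n)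
    (m₁ m₂ : ℕ) (hm : m₁ ≤ m₂) :
    |(∑ m ∈ Ioc m₁ m₂, φ ((m : ℝ) / n)) -
      n * ∫ v in (((m₁ : ℝ) + 1 / 2) / n)..(((m₂ : ℝ) + 1 / 2) / n), φ v| ≤
      B * (m₂ - m₁) / n ^ 2 := by
  have hB0 : 0 ≤ B := (abs_nonneg _).trans (hB 0)
  have hn' : (0 : ℝ) < n := by exact_mod_cast hn
  have hc : Continuous φ := continuous_iff_continuousAt.mpr fun v => (hφ v).continuousAt
  induction m₂, hm using Nat.le_induction with
  | base => simp
  | succ m hm ih =>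
    rw [Finset.sum_Ioc_succ_top hm]
    have h1 : (∫ v in (((m₁ : ℝ) + 1 / 2) / n)..((((m + 1 : ℕ) : ℝ) + 1 / 2) / n), φ v) =
        (∫ v in (((m₁ : ℝ) + 1 / 2) / n)..(((m : ℝ) + 1 / 2) / n), φ v) +
          ∫ v in (((m : ℝ) + 1 / 2) / n)..((((m + 1 : ℕ) : ℝ) + 1 / 2) / n), φ v :=
      (intervalIntegral.integral_add_adjacent_intervals (hc.intervalIntegrable _ _)
        (hc.intervalIntegrable _ _)).symm
    have h2 := peakR_cell hφ hφ' hB ((((m + 1 : ℕ) : ℝ)) / n) (h := 1 / (2 * n)) (by positivity)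
    have e1 : (((m + 1 : ℕ) : ℝ)) / n - 1 / (2 * n) = ((m : ℝ) + 1 / 2) / n := by
      push_cast
      field_simp
      ring
    have e2 : (((m + 1 : ℕ) : ℝ)) / n + 1 / (2 * n) = ((((m + 1 : ℕ) : ℝ)) + 1 / 2) / n := by
      push_cast
      field_simp
    rw [e1, e2] at h2
    rw [h1]
    generalize (∫ v in (((m : ℝ) + 1 / 2) / n)..((((m + 1 : ℕ) : ℝ) + 1 / 2) / n), φ v) = J at *
    generalize (∫ v in (((m₁ : ℝ) + 1 / 2) / n)..(((m : ℝ) + 1 / 2) / n), φ v) = J' at *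
    generalize φ ((((m + 1 : ℕ) : ℝ)) / n) = y at *
    have h3 : |y - n * J| ≤ B / n ^ 2 := by
      have e3 : y - n * J = -(n * (J - 2 * (1 / (2 * n)) * y)) := by
        field_simp
        ring
      rw [e3, abs_neg, abs_mul, abs_of_pos hn']
      calc (n : ℝ) * |J - 2 * (1 / (2 * n)) * y| ≤
          n * (B * (1 / (2 * n)) ^ 2 * (2 * (1 / (2 * n)))) :=
            mul_le_mul_of_nonneg_left h2 hn'.le
        _ = B / n ^ 2 / 4 := by
            field_simp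
            norm_num
        _ ≤ B / n ^ 2 := by
            have : 0 ≤ B / (n : ℝ) ^ 2 := by positivity
            linarith
    have e4 : (∑ m ∈ Ioc m₁ m, φ ((m : ℝ) / n)) + y - n * (J' + J) =
        ((∑ m ∈ Ioc m₁ m, φ ((m : ℝ) / n)) - n * J') + (y - n * J) := by ring
    rw [e4]
    refine (abs_add_le _ _).trans ((add_le_add ih h3).trans (le_of_eq ?_))
    push_cast
    ring

/-- the norm of a difference of cosines -/
theorem peakR_cos {ρ ς : ℝ} (hρ : 0 < ρ) (v : ℝ) :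
    ‖2 * Complex.cos (2 * Real.pi * (ς + ρ * Complex.I)) -
        2 * Complex.cos (2 * Real.pi * (v : ℂ))‖ =
      Real.exp (el ρ (v + ς) + el ρ (v - ς)) := by
  have e : 2 * Complex.cos (2 * Real.pi * (ς + ρ * Complex.I)) -
      2 * Complex.cos (2 * Real.pi * (v : ℂ)) =
      -((2 * Complex.sin (Real.pi * (((v + ς : ℝ) : ℂ) + ρ * Complex.I))) *
        (2 * Complex.sin (Real.pi * (((ς - v : ℝ) : ℂ) + ρ * Complex.I)))) := by
    rw [← mul_sub, Complex.cos_sub_cos]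
    have e1 : (2 * Real.pi * (ς + ρ * Complex.I) + 2 * Real.pi * (v : ℂ)) / 2 =
        Real.pi * (((v + ς : ℝ) : ℂ) + ρ * Complex.I) := by
      push_cast
      ring
    have e2 : (2 * Real.pi * (ς + ρ * Complex.I) - 2 * Real.pi * (v : ℂ)) / 2 =
        Real.pi * (((ς - v : ℝ) : ℂ) + ρ * Complex.I) := by
      push_cast
      ring
    rw [e1, e2]
    ring
  rw [e, norm_neg, norm_mul, ← exp_el hρ.ne', ← exp_el hρ.ne', Real.exp_add]
  congr 2
  rw [← el_neg ρ (v - ς)]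
  congr 1
  ring

theorem peakR_Q {ρ ς : ℝ} (hρ : 0 < ρ) (s M : ℕ) :
    ‖Qk s (s + M) (((2 * s + 1 : ℕ) : ℂ) * (ς + ρ * Complex.I))‖ =
      Real.exp (∑ m ∈ Ioc M s, (el ρ ((m : ℝ) / ((2 * s + 1 : ℕ) : ℝ) + ς) +
        el ρ ((m : ℝ) / ((2 * s + 1 : ℕ) : ℝ) - ς))) := by
  have hn : ((2 * s + 1 : ℕ) : ℂ) ≠ 0 := by exact_mod_cast (by omega : 2 * s + 1 ≠ 0)
  have hnr : ((2 * s + 1 : ℕ) : ℝ) ≠ 0 := by exact_mod_cast (by omega : 2 * s + 1 ≠ 0)
  unfold Qk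
  rw [norm_prod, two_mul s, ← Finset.image_add_left_Ioc M s s, Finset.prod_image, Real.exp_sum]
  · refine Finset.prod_congr rfl fun m _ => ?_
    rw [← peakR_cos hρ, ← two_mul s]
    unfold cc
    congr 3
    · congr 1
      field_simp
    · congr 2
      push_cast
      ring
  · intro x _ y _ h
    simp only at h
    omega

theorem peakR_sin {ρ : ℝ} (hρ : 0 < ρ) (ς : ℝ) :
    Tendsto (fun s : ℕ => el (((2 * s + 1 : ℕ) : ℝ) * ρ) (((2 * s + 1 : ℕ) : ℝ) * ς) -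
      Real.pi * (((2 * s + 1 : ℕ) : ℝ) * ρ)) atTop (𝓝 0) := by
  have hn_top : Tendsto (fun s : ℕ => ((2 * s + 1 : ℕ) : ℝ)) atTop atTop := by
    have h : Tendsto (fun s : ℕ => 2 * s + 1) atTop atTop :=
      tendsto_atTop_mono (fun s => by simp only [id]; omega) tendsto_id
    exact tendsto_natCast_atTop_atTop.comp h
  have hq : Tendsto (fun s : ℕ => Complex.exp (2 * Real.pi * Complex.I *
      (((((2 * s + 1 : ℕ) : ℝ) * ς : ℝ) : ℂ) + ((((2 * s + 1 : ℕ) : ℝ) * ρ : ℝ) : ℂ) *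
        Complex.I))) atTop (𝓝 0) := by
    rw [tendsto_zero_iff_norm_tendsto_zero]
    have h1 : Tendsto (fun s : ℕ => Real.exp (-(2 * Real.pi * ρ * ((2 * s + 1 : ℕ) : ℝ)))) atTop
        (𝓝 0) := by
      have hpi := Real.pi_pos
      exact Real.tendsto_exp_neg_atTop_nhds_zero.comp
        (hn_top.const_mul_atTop (by positivity : 0 < 2 * Real.pi * ρ))
    refine h1.congr fun s => ?_
    rw [Complex.norm_exp]
    congr 1
    simp
    ring
  have h2 : Tendsto (fun s : ℕ => Real.log ‖1 - Complex.exp (2 * Real.pi * Complex.I *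
      (((((2 * s + 1 : ℕ) : ℝ) * ς : ℝ) : ℂ) + ((((2 * s + 1 : ℕ) : ℝ) * ρ : ℝ) : ℂ) *
        Complex.I))‖) atTop (𝓝 0) := by
    have h3 := ((tendsto_const_nhds (x := (1 : ℂ))).sub hq).norm
    rw [sub_zero, norm_one] at h3
    have h4 := h3.log one_ne_zero
    rw [Real.log_one] at h4
    exact h4
  refine h2.congr fun s => ?_
  have hn : (0 : ℝ) < ((2 * s + 1 : ℕ) : ℝ) := by positivity
  rw [el_eq_exp (by positivity : ((2 * s + 1 : ℕ) : ℝ) * ρ ≠ 0)]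
  ring

theorem peakR_rr {ρ : ℝ} (hρ : 0 < ρ) (v : ℝ) :
    HasDerivAt (rr ρ) (2 * Real.pi * (Real.cosh (2 * Real.pi * ρ) * Real.cos (2 * Real.pi * v) - 1) /
      (Real.cosh (2 * Real.pi * ρ) - Real.cos (2 * Real.pi * v)) ^ 2) v := by
  have hpi := Real.pi_pos
  have hc : 1 < Real.cosh (2 * Real.pi * ρ) := Real.one_lt_cosh.mpr (by positivity)
  have hd : 0 < Real.cosh (2 * Real.pi * ρ) - Real.cos (2 * Real.pi * v) := by
    linarith [Real.cos_le_one (2 * Real.pi * v)]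
  have h0 : HasDerivAt (fun v : ℝ => 2 * Real.pi * v) (2 * Real.pi) v := by
    simpa using (hasDerivAt_id v).const_mul (2 * Real.pi)
  have h1 := h0.sin
  have h2 := (h0.cos).const_sub (Real.cosh (2 * Real.pi * ρ))
  have h3 := h1.div h2 hd.ne'
  refine h3.congr_deriv ?_
  have h4 := Real.sin_sq_add_cos_sq (2 * Real.pi * v)
  congr 1
  linear_combination (-(2 * Real.pi)) * h4

theorem peakR_rr_bound {ρ : ℝ} (hρ : 0 < ρ) (v : ℝ) :
    |rr ρ v| ≤ 1 / (Real.cosh (2 * Real.pi * ρ) - 1) := by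
  have hpi := Real.pi_pos
  have hc : 1 < Real.cosh (2 * Real.pi * ρ) := Real.one_lt_cosh.mpr (by positivity)
  have h1 := Real.cos_le_one (2 * Real.pi * v)
  have hd : 0 < Real.cosh (2 * Real.pi * ρ) - Real.cos (2 * Real.pi * v) := by linarith
  unfold rr
  rw [abs_div, abs_of_pos hd]
  exact div_le_div₀ zero_le_one (Real.abs_sin_le_one _) (by linarith) (by linarith)

theorem peakR_rr_bound2 {ρ : ℝ} (hρ : 0 < ρ) (v : ℝ) :
    |2 * Real.pi * (Real.cosh (2 * Real.pi * ρ) * Real.cos (2 * Real.pi * v) - 1) /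
      (Real.cosh (2 * Real.pi * ρ) - Real.cos (2 * Real.pi * v)) ^ 2| ≤
      2 * Real.pi * (Real.cosh (2 * Real.pi * ρ) + 1) /
        (Real.cosh (2 * Real.pi * ρ) - 1) ^ 2 := by
  have hpi := Real.pi_pos
  have hc : 1 < Real.cosh (2 * Real.pi * ρ) := Real.one_lt_cosh.mpr (by positivity)
  have h1 := Real.cos_le_one (2 * Real.pi * v)
  have h2 := Real.neg_one_le_cos (2 * Real.pi * v)
  generalize Real.cosh (2 * Real.pi * ρ) = c at *
  generalize Real.cos (2 * Real.pi * v) = y at *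
  have hd : 0 < c - 1 := by linarith
  rw [abs_div, abs_of_nonneg (by positivity : 0 ≤ (c - y) ^ 2)]
  refine div_le_div₀ (by positivity) ?_ (by positivity) (pow_le_pow_left₀ hd.le (by linarith) 2)
  rw [abs_mul, abs_of_pos (by positivity : 0 < 2 * Real.pi)]
  refine mul_le_mul_of_nonneg_left ?_ (by positivity)
  rw [abs_le]
  constructor <;> nlinarith

/-- the summand of `log ‖Qk‖` -/
noncomputable def peakR_phi (ρ ς v : ℝ) : ℝ := el ρ (v + ς) + el ρ (v - ς)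

theorem peakR_phi_deriv {ρ : ℝ} (hρ : 0 < ρ) (ς v : ℝ) :
    HasDerivAt (peakR_phi ρ ς) (Real.pi * rr ρ (v + ς) + Real.pi * rr ρ (v - ς)) v := by
  have h1 : HasDerivAt (fun v : ℝ => v + ς) 1 v := (hasDerivAt_id v).add_const ς
  have h2 : HasDerivAt (fun v : ℝ => v - ς) 1 v := (hasDerivAt_id v).sub_const ς
  have h3 := (hasDerivAt_el (v := v + ς) hρ).comp v h1
  have h4 := (hasDerivAt_el (v := v - ς) hρ).comp v h2
  rw [mul_one] at h3 h4
  exact h3.add h4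

theorem peakR_phi_deriv2 {ρ : ℝ} (hρ : 0 < ρ) (ς : ℝ) : ∃ φ'' : ℝ → ℝ, ∃ B : ℝ,
    (∀ v, HasDerivAt (fun v => Real.pi * rr ρ (v + ς) + Real.pi * rr ρ (v - ς)) (φ'' v) v) ∧
    ∀ v, |φ'' v| ≤ B := by
  refine ⟨fun v => Real.pi * (2 * Real.pi * (Real.cosh (2 * Real.pi * ρ) *
        Real.cos (2 * Real.pi * (v + ς)) - 1) /
      (Real.cosh (2 * Real.pi * ρ) - Real.cos (2 * Real.pi * (v + ς))) ^ 2) +
      Real.pi * (2 * Real.pi * (Real.cosh (2 * Real.pi * ρ) *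
        Real.cos (2 * Real.pi * (v - ς)) - 1) /
      (Real.cosh (2 * Real.pi * ρ) - Real.cos (2 * Real.pi * (v - ς))) ^ 2),
    Real.pi * (2 * Real.pi * (Real.cosh (2 * Real.pi * ρ) + 1) /
        (Real.cosh (2 * Real.pi * ρ) - 1) ^ 2) +
      Real.pi * (2 * Real.pi * (Real.cosh (2 * Real.pi * ρ) + 1) /
        (Real.cosh (2 * Real.pi * ρ) - 1) ^ 2), fun v => ?_, fun v => ?_⟩
  · have h1 : HasDerivAt (fun v : ℝ => v + ς) 1 v := (hasDerivAt_id v).add_const ς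
    have h2 : HasDerivAt (fun v : ℝ => v - ς) 1 v := (hasDerivAt_id v).sub_const ς
    have h3 := ((peakR_rr hρ (v + ς)).comp v h1).const_mul Real.pi
    have h4 := ((peakR_rr hρ (v - ς)).comp v h2).const_mul Real.pi
    rw [mul_one] at h3 h4
    exact h3.add h4
  · have hpi := Real.pi_pos
    refine (abs_add_le _ _).trans ?_
    rw [abs_mul, abs_mul, abs_of_pos hpi]
    exact add_le_add (mul_le_mul_of_nonneg_left (peakR_rr_bound2 hρ (v + ς)) hpi.le)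
      (mul_le_mul_of_nonneg_left (peakR_rr_bound2 hρ (v - ς)) hpi.le)

theorem peakR_phi_bound {ρ : ℝ} (hρ : 0 < ρ) (ς : ℝ) : ∃ K : ℝ,
    ∀ v, |Real.pi * rr ρ (v + ς) + Real.pi * rr ρ (v - ς)| ≤ K := by
  refine ⟨Real.pi * (1 / (Real.cosh (2 * Real.pi * ρ) - 1)) +
    Real.pi * (1 / (Real.cosh (2 * Real.pi * ρ) - 1)), fun v => ?_⟩
  have hpi := Real.pi_pos
  refine (abs_add_le _ _).trans ?_
  rw [abs_mul, abs_mul, abs_of_pos hpi]
  exact add_le_add (mul_le_mul_of_nonneg_left (peakR_rr_bound hρ (v + ς)) hpi.le)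
    (mul_le_mul_of_nonneg_left (peakR_rr_bound hρ (v - ς)) hpi.le)

theorem peakR_phi_int {ρ : ℝ} (hρ : 0 < ρ) (ς η : ℝ) :
    ∫ v in η..(1 / 2), peakR_phi ρ ς v =
      Real.pi * ρ - Lr ρ (η + ς) - Lr ρ (η - ς) := by
  have h1 : ∀ ς : ℝ, IntervalIntegrable (fun v => el ρ (v + ς)) MeasureTheory.volume η (1 / 2) :=
    fun ς => by
      have h := (el_intble ρ (η + ς) (1 / 2 + ς)).comp_add_right ς
      simpa using h
  unfold peakR_phi
  have h2 : (fun v => el ρ (v - ς)) = fun v => el ρ (v + -ς) := by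
    funext v
    rw [sub_eq_add_neg]
  rw [intervalIntegral.integral_add (h1 ς) (by rw [h2]; exact h1 (-ς)),
    intervalIntegral.integral_comp_add_right (fun v => el ρ v) ς,
    intervalIntegral.integral_comp_sub_right (fun v => el ρ v) ς, ← Lr_sub, ← Lr_sub]
  have h3 := Lr_half_add hρ.le ς
  linarith

/-- asymptotics of the sum in `log ‖Qk‖` -/
theorem peakR_sum {ρ : ℝ} (hρ : 0 < ρ) (ς : ℝ) {η : ℝ} (h0 : 0 ≤ η) (h1 : η < 1 / 2) :
    Tendsto (fun s : ℕ => (∑ m ∈ Ioc ⌊η * ((2 * s + 1 : ℕ) : ℝ)⌋₊ s,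
        peakR_phi ρ ς ((m : ℝ) / ((2 * s + 1 : ℕ) : ℝ))) -
      (((2 * s + 1 : ℕ) : ℝ) * (Real.pi * ρ - Lr ρ (η + ς) - Lr ρ (η - ς)) -
        ((⌊η * ((2 * s + 1 : ℕ) : ℝ)⌋₊ : ℝ) + 1 / 2 - η * ((2 * s + 1 : ℕ) : ℝ)) *
          peakR_phi ρ ς η)) atTop (𝓝 0) := by
  obtain ⟨φ'', B, hφ'', hB⟩ := peakR_phi_deriv2 hρ ς
  obtain ⟨K, hK⟩ := peakR_phi_bound hρ ς
  have hφ := peakR_phi_deriv hρ ς
  have hB0 : 0 ≤ B := (abs_nonneg _).trans (hB 0)
  have hK0 : 0 ≤ K := (abs_nonneg _).trans (hK 0)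
  have hc : Continuous (peakR_phi ρ ς) :=
    continuous_iff_continuousAt.mpr fun v => (hφ v).continuousAt
  have hlip := peakR_lip hφ hK
  have hn_top : Tendsto (fun s : ℕ => ((2 * s + 1 : ℕ) : ℝ)) atTop atTop := by
    have h : Tendsto (fun s : ℕ => 2 * s + 1) atTop atTop :=
      tendsto_atTop_mono (fun s => by simp only [id]; omega) tendsto_id
    exact tendsto_natCast_atTop_atTop.comp h
  have hz : Tendsto (fun s : ℕ => (B + K) * (((2 * s + 1 : ℕ) : ℝ))⁻¹) atTop (𝓝 0) := by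
    simpa using (tendsto_inv_atTop_zero.comp hn_top).const_mul (B + K)
  refine squeeze_zero_norm (fun s => ?_) hz
  rw [Real.norm_eq_abs]
  have hn : (0 : ℝ) < ((2 * s + 1 : ℕ) : ℝ) := by positivity
  have hf1 := Nat.floor_le (mul_nonneg h0 hn.le)
  have hf2 := Nat.lt_floor_add_one (η * ((2 * s + 1 : ℕ) : ℝ))
  have hMs : ⌊η * ((2 * s + 1 : ℕ) : ℝ)⌋₊ ≤ s := by
    have h2 : (⌊η * ((2 * s + 1 : ℕ) : ℝ)⌋₊ : ℝ) < s + 1 := by
      refine lt_of_le_of_lt hf1 ?_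
      have h3 : η * ((2 * s + 1 : ℕ) : ℝ) < 1 / 2 * ((2 * s + 1 : ℕ) : ℝ) :=
        mul_lt_mul_of_pos_right h1 hn
      push_cast at *
      linarith
    have h3 : ⌊η * ((2 * s + 1 : ℕ) : ℝ)⌋₊ < s + 1 := by exact_mod_cast h2
    omega
  have hmid := midpoint_C2 hφ hφ'' hB (by omega : 0 < 2 * s + 1) _ s hMs
  set M := ⌊η * ((2 * s + 1 : ℕ) : ℝ)⌋₊ with hM
  have e1 : ((s : ℝ) + 1 / 2) / ((2 * s + 1 : ℕ) : ℝ) = 1 / 2 := by
    rw [div_eq_iff hn.ne']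
    push_cast
    ring
  rw [e1] at hmid
  have e2 : (∫ v in (((M : ℝ) + 1 / 2) / ((2 * s + 1 : ℕ) : ℝ))..(1 / 2), peakR_phi ρ ς v) =
      (Real.pi * ρ - Lr ρ (η + ς) - Lr ρ (η - ς)) -
      ∫ v in η..(((M : ℝ) + 1 / 2) / ((2 * s + 1 : ℕ) : ℝ)), peakR_phi ρ ς v := by
    rw [← peakR_phi_int hρ ς η, eq_sub_iff_add_eq, add_comm]
    exact intervalIntegral.integral_add_adjacent_intervals (hc.intervalIntegrable _ _)
      (hc.intervalIntegrable _ _)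
  rw [e2] at hmid
  set x := ((M : ℝ) + 1 / 2) / ((2 * s + 1 : ℕ) : ℝ) with hx
  have hxη : |x - η| ≤ (((2 * s + 1 : ℕ) : ℝ))⁻¹ := by
    have e3 : x - η = ((M : ℝ) + 1 / 2 - η * ((2 * s + 1 : ℕ) : ℝ)) *
        (((2 * s + 1 : ℕ) : ℝ))⁻¹ := by
      rw [hx]
      field_simp
    rw [e3, abs_mul, abs_of_pos (inv_pos.mpr hn)]
    refine mul_le_of_le_one_left (inv_pos.mpr hn).le ?_
    rw [abs_le]
    constructor <;> linarith
  have hint : |(∫ v in η..x, peakR_phi ρ ς v) - (x - η) * peakR_phi ρ ς η| ≤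
      K * (((2 * s + 1 : ℕ) : ℝ))⁻¹ * (((2 * s + 1 : ℕ) : ℝ))⁻¹ := by
    have e3 : (∫ v in η..x, peakR_phi ρ ς v) - (x - η) * peakR_phi ρ ς η =
        ∫ v in η..x, (peakR_phi ρ ς v - peakR_phi ρ ς η) := by
      rw [intervalIntegral.integral_sub (hc.intervalIntegrable _ _)
        (continuous_const.intervalIntegrable _ _), intervalIntegral.integral_const, smul_eq_mul]
    rw [e3]
    have h4 := intervalIntegral.norm_integral_le_of_norm_le_const (a := η) (b := x)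
      (f := fun v => peakR_phi ρ ς v - peakR_phi ρ ς η) (C := K * (((2 * s + 1 : ℕ) : ℝ))⁻¹)
      (fun v hv => by
        rw [Real.norm_eq_abs]
        refine (hlip η v).trans (mul_le_mul_of_nonneg_left ?_ hK0)
        refine le_trans ?_ hxη
        have h5 := Set.abs_sub_left_of_mem_uIcc (Set.uIoc_subset_uIcc hv)
        exact h5)
    rw [Real.norm_eq_abs] at h4
    refine h4.trans (mul_le_mul_of_nonneg_left hxη ?_)
    have := inv_pos.mpr hn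
    positivity
  have hsM : ((s : ℝ) - M) / ((2 * s + 1 : ℕ) : ℝ) ^ 2 ≤ (((2 * s + 1 : ℕ) : ℝ))⁻¹ := by
    rw [div_le_iff₀ (by positivity), sq, inv_mul_cancel_left₀ hn.ne']
    have : (0 : ℝ) ≤ M := Nat.cast_nonneg M
    have : (0 : ℝ) ≤ s := Nat.cast_nonneg s
    push_cast
    linarith
  generalize (∫ v in η..x, peakR_phi ρ ς v) = J at *
  generalize (∑ m ∈ Ioc M s, peakR_phi ρ ς ((m : ℝ) / ((2 * s + 1 : ℕ) : ℝ))) = S at *
  generalize Real.pi * ρ - Lr ρ (η + ς) - Lr ρ (η - ς) = J0 at *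
  generalize peakR_phi ρ ς η = y at *
  have e4 : S - (((2 * s + 1 : ℕ) : ℝ) * J0 - ((M : ℝ) + 1 / 2 - η * ((2 * s + 1 : ℕ) : ℝ)) * y) =
      (S - ((2 * s + 1 : ℕ) : ℝ) * (J0 - J)) -
        ((2 * s + 1 : ℕ) : ℝ) * (J - (x - η) * y) := by
    have e5 : ((2 * s + 1 : ℕ) : ℝ) * x = (M : ℝ) + 1 / 2 := by
      rw [hx]
      field_simp
    linear_combination (-y) * e5
  rw [e4]
  refine (abs_sub _ _).trans ?_
  rw [abs_mul, abs_of_pos hn]
  have h6 := mul_le_mul_of_nonneg_left hint hn.le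
  have h7 : ((2 * s + 1 : ℕ) : ℝ) * (K * (((2 * s + 1 : ℕ) : ℝ))⁻¹ *
      (((2 * s + 1 : ℕ) : ℝ))⁻¹) = K * (((2 * s + 1 : ℕ) : ℝ))⁻¹ := by
    field_simp
  rw [h7] at h6
  have h8 : B * ((s : ℝ) - M) / ((2 * s + 1 : ℕ) : ℝ) ^ 2 ≤ B * (((2 * s + 1 : ℕ) : ℝ))⁻¹ := by
    rw [mul_div_assoc]
    exact mul_le_mul_of_nonneg_left hsM hB0
  calc _ ≤ B * (((2 * s + 1 : ℕ) : ℝ))⁻¹ + K * (((2 * s + 1 : ℕ) : ℝ))⁻¹ :=
        add_le_add (hmid.trans h8) h6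
    _ = _ := by ring

theorem peakR_gauss (a s : ℕ) (ς ρ : ℝ) :
    ‖Complex.exp (Real.pi * Complex.I * a * (((2 * s + 1 : ℕ) : ℂ) * (ς + ρ * Complex.I)) ^ 2 /
      ((2 * s + 1 : ℕ) : ℂ))‖ =
      Real.exp (-(2 * Real.pi * a * ((2 * s + 1 : ℕ) : ℝ) * ς * ρ)) := by
  have hn : ((2 * s + 1 : ℕ) : ℂ) ≠ 0 := by exact_mod_cast (by omega : 2 * s + 1 ≠ 0)
  have e : Real.pi * Complex.I * a * (((2 * s + 1 : ℕ) : ℂ) * (ς + ρ * Complex.I)) ^ 2 /
      ((2 * s + 1 : ℕ) : ℂ) =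
      ((-(2 * Real.pi * a * ((2 * s + 1 : ℕ) : ℝ) * ς * ρ) : ℝ) : ℂ) +
        ((Real.pi * a * ((2 * s + 1 : ℕ) : ℝ) * (ς ^ 2 - ρ ^ 2) : ℝ) : ℂ) * Complex.I := by
    rw [mul_pow]
    have e1 : (ς + ρ * Complex.I : ℂ) ^ 2 = (ς ^ 2 - ρ ^ 2) + 2 * ς * ρ * Complex.I := by
      linear_combination (ρ : ℂ) ^ 2 * Complex.I_sq
    rw [e1]
    push_cast at *
    field_simp
    linear_combination (2 * (a : ℂ) * (ς : ℂ) * ρ) * Complex.I_sq
  rw [e, Complex.norm_exp, Complex.add_re, Complex.ofReal_re, Complex.re_ofReal_mul, Complex.I_re,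
    mul_zero, add_zero]

/-- logarithm of the central value -/
theorem peakR_log {a : ℕ} {η₀ ς₀ ρ₀ : ℝ} (h : IsSad a η₀ ς₀ ρ₀) (s : ℕ) :
    Real.log (P0 a η₀ ς₀ ρ₀ s) = 2 * Real.log (fS (2 * s + 1) (k0 η₀ s)) +
      (-(2 * Real.pi * a * ((2 * s + 1 : ℕ) : ℝ) * ς₀ * ρ₀) +
        Real.log ‖Complex.sin (2 * Real.pi * (ς₀ + ρ₀ * Complex.I))‖ +
        (∑ m ∈ Ioc ⌊η₀ * ((2 * s + 1 : ℕ) : ℝ)⌋₊ s,
          peakR_phi ρ₀ ς₀ ((m : ℝ) / ((2 * s + 1 : ℕ) : ℝ))) -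
        2 * (el (((2 * s + 1 : ℕ) : ℝ) * ρ₀) (((2 * s + 1 : ℕ) : ℝ) * ς₀) - Real.log 2)) := by
  have hn0 : ((2 * s + 1 : ℕ) : ℂ) ≠ 0 := by exact_mod_cast (by omega : 2 * s + 1 ≠ 0)
  have hn : (0 : ℝ) < ((2 * s + 1 : ℕ) : ℝ) := by positivity
  have hP := P0_pos h s
  have hsq : ‖Complex.sin (Real.pi * (((2 * s + 1 : ℕ) : ℂ) * (ς₀ + ρ₀ * Complex.I)))‖ =
      Real.exp (el (((2 * s + 1 : ℕ) : ℝ) * ρ₀) (((2 * s + 1 : ℕ) : ℝ) * ς₀) - Real.log 2) := by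
    have hρn : ((2 * s + 1 : ℕ) : ℝ) * ρ₀ ≠ 0 := (mul_pos hn h.ρpos).ne'
    have e := exp_el (v := ((2 * s + 1 : ℕ) : ℝ) * ς₀) hρn
    rw [Real.exp_sub, Real.exp_log two_pos, e, norm_mul, Complex.norm_ofNat]
    have e2 : (Real.pi * (((2 * s + 1 : ℕ) : ℂ) * (ς₀ + ρ₀ * Complex.I))) =
        Real.pi * (((((2 * s + 1 : ℕ) : ℝ) * ς₀ : ℝ) : ℂ) +
          ((((2 * s + 1 : ℕ) : ℝ) * ρ₀ : ℝ) : ℂ) * Complex.I) := by
      push_cast
      ring
    rw [e2]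
    field_simp
  have hsin : (2 * Real.pi * (((2 * s + 1 : ℕ) : ℂ) * (ς₀ + ρ₀ * Complex.I)) /
      ((2 * s + 1 : ℕ) : ℂ)) = 2 * Real.pi * (ς₀ + ρ₀ * Complex.I) := by
    field_simp
  have hQ := peakR_Q (ς := ς₀) h.ρpos s ⌊η₀ * ((2 * s + 1 : ℕ) : ℝ)⌋₊
  have hk : s + ⌊η₀ * ((2 * s + 1 : ℕ) : ℝ)⌋₊ = k0 η₀ s := rfl
  rw [hk] at hQ
  unfold P0 Gk at hP ⊢
  rw [norm_div, norm_mul, norm_mul, norm_pow, hsq, hQ, peakR_gauss, hsin] at hP ⊢
  have hf : 0 < fS (2 * s + 1) (k0 η₀ s) := fS_pos (by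
    have := k0_le ((abs_nonneg _).trans h.h1.le) h.h3 s
    omega)
  have hs0 : 0 < ‖Complex.sin (2 * Real.pi * (ς₀ + ρ₀ * Complex.I))‖ := by
    rcases (norm_nonneg (Complex.sin (2 * Real.pi * (ς₀ + ρ₀ * Complex.I)))).lt_or_eq with h1 | h1
    · exact h1
    · rw [← h1] at hP
      simp at hP
  rw [Real.log_mul (by positivity) (by positivity), Real.log_pow, Real.log_div (by positivity)
    (by positivity), Real.log_mul (by positivity) (by positivity), Real.log_mul (by positivity)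
    (by positivity), Real.log_exp, Real.log_exp, Real.log_pow, Real.log_exp]
  unfold peakR_phi
  push_cast
  ring

theorem peakR_f {η : ℝ} (h0 : 0 ≤ η) (h1 : η < 1 / 2) :
    Tendsto (fun s : ℕ => Real.log (fS (2 * (s + 1) + 1) (k0 η (s + 1))) -
      Real.log (fS (2 * s + 1) (k0 η s)) -
        ((k0 η (s + 1) : ℝ) - k0 η s) * Lob.ff (Real.pi * (1 / 2 + η))) atTop
      (𝓝 (2 / Real.pi * Lob.LF (Real.pi * (1 / 2 + η)) -
        2 * (1 / 2 + η) * Lob.ff (Real.pi * (1 / 2 + η)))) := by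
  have h := peak_full (ρ := 1 / 2 + η) (C := 2) (m := fun N => N / 2 + ⌊η * (N : ℝ)⌋₊)
    (by linarith) (by linarith)
    (fun N => by
      have e : η * ((N + 2 : ℕ) : ℝ) = η * (N : ℝ) + 2 * η := by
        push_cast
        ring
      have h2 : ⌊η * (N : ℝ)⌋₊ ≤ ⌊η * ((N + 2 : ℕ) : ℝ)⌋₊ := by
        apply Nat.floor_le_floor
        rw [e]
        linarith
      have h3 : ⌊η * ((N + 2 : ℕ) : ℝ)⌋₊ ≤ ⌊η * (N : ℝ)⌋₊ + 1 := by
        rw [← Nat.lt_add_one_iff, Nat.floor_lt (by positivity), e]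
        have := Nat.lt_floor_add_one (η * (N : ℝ))
        push_cast
        linarith
      constructor
      · show N / 2 + ⌊η * (N : ℝ)⌋₊ ≤ (N + 2) / 2 + ⌊η * ((N + 2 : ℕ) : ℝ)⌋₊
        omega
      · show (N + 2) / 2 + ⌊η * ((N + 2 : ℕ) : ℝ)⌋₊ ≤ N / 2 + ⌊η * (N : ℝ)⌋₊ + 2
        omega)
    (fun N => by
      have h2 := Nat.lt_floor_add_one (η * (N : ℝ))
      have h3 := Nat.floor_le (by positivity : 0 ≤ η * (N : ℝ))
      have h4 : ((2 * (N / 2) : ℕ) : ℝ) ≤ N := by exact_mod_cast (by omega : 2 * (N / 2) ≤ N)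
      have h5 : (N : ℝ) ≤ ((2 * (N / 2) + 1 : ℕ) : ℝ) := by
        exact_mod_cast (by omega : N ≤ 2 * (N / 2) + 1)
      push_cast at *
      rw [abs_le]
      constructor <;> linarith)
  have hodd : Tendsto (fun s : ℕ => 2 * s + 1) atTop atTop :=
    tendsto_atTop_mono (fun s => by simp only [id]; omega) tendsto_id
  have h2 := h.comp hodd
  refine h2.congr fun s => ?_
  simp only [Function.comp]
  have e1 : 2 * s + 1 + 2 = 2 * (s + 1) + 1 := by ring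
  have e2 : (2 * s + 1) / 2 = s := by omega
  have e3 : (2 * (s + 1) + 1) / 2 = s + 1 := by omega
  rw [e1, e2, e3]
  rfl

theorem P0_ratio {a : ℕ} {η₀ ς₀ ρ₀ : ℝ} (h : IsSad a η₀ ς₀ ρ₀) :
    Tendsto (fun s : ℕ => P0 a η₀ ς₀ ρ₀ (s + 1) / P0 a η₀ ς₀ ρ₀ s) atTop
      (𝓝 (Real.exp (2 * H a η₀ ς₀ ρ₀))) := by
  have hη : 0 ≤ η₀ := (abs_nonneg _).trans h.h1.le
  have hf := peakR_f hη h.h3
  have hS := peakR_sum h.ρpos ς₀ hη h.h3
  have hS1 := hS.comp (tendsto_add_atTop_nat 1)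
  have hE := peakR_sin h.ρpos ς₀
  have hE1 := hE.comp (tendsto_add_atTop_nat 1)
  have hcr : Lob.ff (Real.pi * (1 / 2 + η₀)) = peakR_phi ρ₀ ς₀ η₀ / 2 := by
    have h1 := (crit_real h).1
    have e : Real.sin (Real.pi * (1 / 2 + η₀)) = Real.cos (Real.pi * η₀) := by
      rw [← Real.sin_add_pi_div_two]
      congr 1
      ring
    unfold Lob.ff peakR_phi
    rw [e]
    linarith
  have hL := Lr_zero_left (1 / 2 + η₀)
  have hlim := (((hf.const_mul 2).add (hS1.sub hS)).sub ((hE1.sub hE).const_mul 2)).add_const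
    (2 * (1 / 2 + η₀) * peakR_phi ρ₀ ς₀ η₀ +
      2 * (Real.pi * ρ₀ - Lr ρ₀ (η₀ + ς₀) - Lr ρ₀ (η₀ - ς₀)) -
      4 * Real.pi * a * ς₀ * ρ₀ - 4 * Real.pi * ρ₀)
  have hval : 2 * (2 / Real.pi * Lob.LF (Real.pi * (1 / 2 + η₀)) -
        2 * (1 / 2 + η₀) * Lob.ff (Real.pi * (1 / 2 + η₀))) + (0 - 0) - 2 * (0 - 0) +
      (2 * (1 / 2 + η₀) * peakR_phi ρ₀ ς₀ η₀ +
      2 * (Real.pi * ρ₀ - Lr ρ₀ (η₀ + ς₀) - Lr ρ₀ (η₀ - ς₀)) -
      4 * Real.pi * a * ς₀ * ρ₀ - 4 * Real.pi * ρ₀) = 2 * H a η₀ ς₀ ρ₀ := by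
    unfold H
    rw [hL, hcr]
    ring
  rw [hval] at hlim
  have hexp := (Real.continuous_exp.tendsto _).comp hlim
  refine hexp.congr fun s => ?_
  have p1 := P0_pos h s
  have p2 := P0_pos h (s + 1)
  rw [← Real.exp_log (div_pos p2 p1), Real.log_div p2.ne' p1.ne', peakR_log h s,
    peakR_log h (s + 1)]
  simp only [Function.comp]
  congr 1
  have e1 : ((2 * (s + 1) + 1 : ℕ) : ℝ) = ((2 * s + 1 : ℕ) : ℝ) + 2 := by push_cast; ring
  have e2 : (k0 η₀ (s + 1) : ℝ) = s + 1 + (⌊η₀ * ((2 * (s + 1) + 1 : ℕ) : ℝ)⌋₊ : ℝ) := by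
    unfold k0
    push_cast
    ring
  have e3 : (k0 η₀ s : ℝ) = s + (⌊η₀ * ((2 * s + 1 : ℕ) : ℝ)⌋₊ : ℝ) := by
    unfold k0
    push_cast
    ring
  rw [hcr, e2, e3]
  generalize (⌊η₀ * ((2 * (s + 1) + 1 : ℕ) : ℝ)⌋₊ : ℝ) = M' at *
  generalize (⌊η₀ * ((2 * s + 1 : ℕ) : ℝ)⌋₊ : ℝ) = M at *
  rw [e1]
  ring

end Pool.Agent.Work.MP_b30479_gt.DT
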