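import Pool.Agent.Work.MP_b30479_gt.DT.Alg
import Pool.Agent.Work.MP_b30479_gt.DT.Outer
import Pool.Agent.Work.MP_b30479_gt.DT.PeakR

/-!
# Assembly
-/

namespace Pool.Agent.Work.MP_b30479_gt.DT

open Finset TB AX Filter Topology

theorem sum_pos (a s : ℕ) : 0 < ∑ k ∈ range (2 * s + 1), Ak a s k ^ 2 := by
  apply Finset.sum_pos' (fun k _ => sq_nonneg _)
  refine ⟨0, by simp, ?_⟩
  have h1 : Gm s (tt s) 1 a 0 0 ≠ 0 := by
    rw [Gm_diag]
    apply pow_ne_zero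
    have h0 : tt s ≠ 0 := (tt_prim s).ne_zero (by omega)
    unfold gz pz qf
    simp [h0]
  have h2 : 0 < Ak a s 0 := by
    unfold Ak
    have := fS_pos (n := 2 * s + 1) (m := 0) (by omega)
    have := norm_pos_iff.mpr h1
    positivity
  positivity

lemma sqrt_ratio : Tendsto (fun s : ℕ => √((2 * s + 1 : ℕ) : ℝ) / √((2 * (s + 1) + 1 : ℕ) : ℝ))
    atTop (𝓝 1) := by
  have hinv : Tendsto (fun s : ℕ => (((2 * (s + 1) + 1 : ℕ) : ℝ))⁻¹) atTop (𝓝 0) := by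
    apply tendsto_inv_atTop_zero.comp
    apply tendsto_natCast_atTop_atTop.comp
    exact tendsto_atTop_mono (fun s => by omega : ∀ s : ℕ, s ≤ 2 * (s + 1) + 1) tendsto_id
  have h1 : Tendsto (fun s : ℕ => 1 - 2 * (((2 * (s + 1) + 1 : ℕ) : ℝ))⁻¹) atTop (𝓝 1) := by
    have := (tendsto_const_nhds (x := (1 : ℝ))).sub (hinv.const_mul 2)
    simpa using this
  have h2 := (Real.continuous_sqrt.tendsto _).comp h1
  rw [Real.sqrt_one] at h2
  refine h2.congr fun s => ?_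
  simp only [Function.comp]
  rw [← Real.sqrt_div (by positivity)]
  congr 1
  have : ((2 * (s + 1) + 1 : ℕ) : ℝ) ≠ 0 := by positivity
  field_simp
  push_cast
  ring

theorem ratio_lim {a : ℕ} {η₀ ς₀ ρ₀ : ℝ} (h : IsSad a η₀ ς₀ ρ₀) :
    Tendsto (fun s : ℕ => (∑ k ∈ range (2 * (s + 1) + 1), Ak a (s + 1) k ^ 2) /
      ∑ k ∈ range (2 * s + 1), Ak a s k ^ 2) atTop (𝓝 (Real.exp (4 * H a η₀ ς₀ ρ₀))) := by
  obtain ⟨I, hI, hL⟩ := main_asym h
  have h1 := (hL.comp (tendsto_add_atTop_nat 1)).div hL hI.ne'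
  rw [div_self hI.ne'] at h1
  have h2 := (h1.mul sqrt_ratio).mul ((P0_ratio h).pow 2)
  have e : 1 * 1 * Real.exp (2 * H a η₀ ς₀ ρ₀) ^ 2 = Real.exp (4 * H a η₀ ς₀ ρ₀) := by
    rw [one_mul, one_mul, ← Real.exp_nat_mul]
    congr 1
    push_cast
    ring
  rw [e] at h2
  refine h2.congr fun s => ?_
  have p1 := P0_pos h s
  have p2 := P0_pos h (s + 1)
  have q1 : 0 < √((2 * s + 1 : ℕ) : ℝ) := Real.sqrt_pos.mpr (by positivity)
  have q2 : 0 < √((2 * (s + 1) + 1 : ℕ) : ℝ) := Real.sqrt_pos.mpr (by positivity)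
  have s1 := sum_pos a s
  simp only [Function.comp_apply, Pi.div_apply]
  field_simp

theorem main {a : ℕ} {η₀ ς₀ ρ₀ : ℝ} (h : IsSad a η₀ ς₀ ρ₀) {δ : ℤ}
    (hδ : IsOrientation (dtWord a) δ) :
    (∀ n, Odd n → twoBridgeKashaev (dtWord a) δ n ≠ 0) ∧
    Tendsto (fun s : ℕ => Real.pi * Complex.log (twoBridgeKashaev (dtWord a) δ (2 * s + 3) /
      twoBridgeKashaev (dtWord a) δ (2 * s + 1))) atTop
      (𝓝 ((4 * Real.pi * H a η₀ ς₀ ρ₀ : ℝ) : ℂ)) := by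
  constructor
  · rintro n ⟨s, rfl⟩
    rw [kashaev_eq]
    apply mul_ne_zero
    · exact Complex.exp_ne_zero _
    · exact_mod_cast (sum_pos a s).ne'
  · have h1 := (phase_ratio (writhe_even a hδ.1)).mul
      ((Complex.continuous_ofReal.tendsto _).comp (ratio_lim h))
    rw [one_mul] at h1
    have h2 : ((Real.exp (4 * H a η₀ ς₀ ρ₀) : ℝ) : ℂ) ∈ Complex.slitPlane := by
      rw [Complex.ofReal_mem_slitPlane]
      exact Real.exp_pos _
    have h3 := ((continuousAt_clog h2).tendsto.comp h1).const_mul (Real.pi : ℂ)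
    have e : (Real.pi : ℂ) * Complex.log ((Real.exp (4 * H a η₀ ς₀ ρ₀) : ℝ) : ℂ) =
        ((4 * Real.pi * H a η₀ ς₀ ρ₀ : ℝ) : ℂ) := by
      rw [← Complex.ofReal_log (Real.exp_pos _).le, Real.log_exp]
      push_cast
      ring
    rw [e] at h3
    refine h3.congr fun s => ?_
    simp only [Function.comp]
    congr 2
    rw [show 2 * s + 3 = 2 * (s + 1) + 1 by ring, kashaev_eq, kashaev_eq]
    push_cast
    have p1 : phase (orientedWrithe (dtWord a) ![1, δ, -δ]) s ≠ 0 := Complex.exp_ne_zero _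
    have s1 : ((∑ k ∈ range (2 * s + 1), (Ak a s k : ℂ) ^ 2)) ≠ 0 := by
      exact_mod_cast (sum_pos a s).ne'
    field_simp

end Pool.Agent.Work.MP_b30479_gt.DT
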