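import Pool.Agent.Work.MP_b30479_gt.DT.RDefs
import Pool.Agent.Work.MP_b30479_gt.TB.Defo
import Pool.Agent.Work.MP_b30479_gt.TB.Tt

/-!
# The deformed braiding at `z = e^{2πiε/n}`
-/

namespace Pool.Agent.Work.MP_b30479_gt.DT

open Finset TB AX

/-- the deformation parameter -/
noncomputable def ze (s : ℕ) (ε : ℝ) : ℂ :=
  Complex.exp (2 * Real.pi * Complex.I * ε / ((2 * s + 1 : ℕ) : ℂ))

/-- `e^{2πix/n}` -/
noncomputable def ee (s : ℕ) (x : ℂ) : ℂ :=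
  Complex.exp (2 * Real.pi * Complex.I * x / ((2 * s + 1 : ℕ) : ℂ))

lemma nn_ne (s : ℕ) : ((2 * s + 1 : ℕ) : ℂ) ≠ 0 := by
  exact_mod_cast (by omega : (2 * s + 1 : ℕ) ≠ 0)

lemma ee_add (s : ℕ) (x y : ℂ) : ee s (x + y) = ee s x * ee s y := by
  rw [ee, ee, ee, ← Complex.exp_add]
  congr 1
  ring

lemma ee_ne (s : ℕ) (x : ℂ) : ee s x ≠ 0 := Complex.exp_ne_zero _

lemma ee_zero (s : ℕ) : ee s 0 = 1 := by simp [ee]

lemma ee_neg (s : ℕ) (x : ℂ) : ee s (-x) = (ee s x)⁻¹ := by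
  rw [ee, ee, ← Complex.exp_neg]
  congr 1
  ring

lemma ee_pow (s : ℕ) (x : ℂ) (k : ℕ) : ee s x ^ k = ee s (k * x) := by
  rw [ee, ee, ← Complex.exp_nat_mul]
  congr 1
  ring

lemma ze_eq (s : ℕ) (ε : ℝ) : ze s ε = ee s ε := rfl

lemma tt_eq (s : ℕ) : tt s = ee s 1 := by
  rw [tt, ee, mul_one]

lemma tt_pow (s k : ℕ) : tt s ^ k = ee s k := by
  rw [tt_eq, ee_pow, mul_one]

lemma ee_int (s : ℕ) (m : ℤ) : ee s (m * ((2 * s + 1 : ℕ) : ℂ)) = 1 := by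
  rw [ee]
  rw [show 2 * (Real.pi : ℂ) * Complex.I * (m * ((2 * s + 1 : ℕ) : ℂ)) / ((2 * s + 1 : ℕ) : ℂ) =
    m * (2 * Real.pi * Complex.I) by
      rw [div_eq_iff (nn_ne s)]
      ring]
  exact Complex.exp_int_mul_two_pi_mul_I m

lemma ee_half (s : ℕ) : ee s (((2 * s + 1 : ℕ) : ℂ) / 2) = -1 := by
  rw [ee, ← Complex.exp_pi_mul_I]
  congr 1
  rw [div_eq_iff (nn_ne s)]
  ring

lemma norm_ee (s : ℕ) (x : ℝ) : ‖ee s x‖ = 1 := by
  rw [ee]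
  rw [show 2 * (Real.pi : ℂ) * Complex.I * (x : ℂ) / ((2 * s + 1 : ℕ) : ℂ) =
    ((2 * Real.pi * x / ((2 * s + 1 : ℕ) : ℝ) : ℝ) : ℂ) * Complex.I by push_cast; ring]
  exact Complex.norm_exp_ofReal_mul_I _

lemma cc_ee (s : ℕ) (z : ℂ) : cc (2 * s + 1) z = ee s z + ee s (-z) := by
  rw [cc, Complex.cos, ee, ee]
  rw [show 2 * (Real.pi : ℂ) * z / ((2 * s + 1 : ℕ) : ℂ) * Complex.I =
    2 * Real.pi * Complex.I * z / ((2 * s + 1 : ℕ) : ℂ) by ring,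
    show -(2 * (Real.pi : ℂ) * z / ((2 * s + 1 : ℕ) : ℂ)) * Complex.I =
    2 * Real.pi * Complex.I * -z / ((2 * s + 1 : ℕ) : ℂ) by ring]
  ring

theorem cz_ze (s i : ℕ) (ε : ℝ) :
    cz s (tt s) (ze s ε) i = ze s ε * cc (2 * s + 1) ((i : ℂ) - s + ε) := by
  rw [cz, cc_ee, ze_eq, inv_pow, tt_pow, tt_pow, tt_pow, ← ee_neg, mul_add, mul_add, ← ee_add,
    ee_pow, ← ee_add, ← ee_add, ← ee_add, ← ee_add, add_comm]
  congr 1
  · rw [show ((s : ℕ) : ℂ) + (((2 : ℕ) : ℂ) * ε + ((i + 1 : ℕ) : ℂ)) =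
      (ε + ((i : ℂ) - s + ε)) + ((1 : ℤ) : ℂ) * ((2 * s + 1 : ℕ) : ℂ) by push_cast; ring,
      ee_add, ee_int, mul_one]
  · congr 1
    ring

theorem gz_ze (s : ℕ) (ε : ℝ) : ∃ κ : ℂ, ‖κ‖ = 1 ∧ ∀ i : ℕ,
    gz s (tt s) (ze s ε) i i = κ * Complex.exp (Real.pi * Complex.I * ((i : ℂ) - s + ε) ^ 2 /
      ((2 * s + 1 : ℕ) : ℂ)) := by
  refine ⟨ee s (((s : ℝ) ^ 2 / 2 + s * ε - ε ^ 2 / 2 : ℝ) : ℂ), norm_ee s _, ?_⟩
  intro i
  have h1 : Complex.exp (Real.pi * Complex.I * ((i : ℂ) - s + ε) ^ 2 / ((2 * s + 1 : ℕ) : ℂ)) =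
      ee s (((i : ℂ) - s + ε) ^ 2 / 2) := by
    rw [ee]
    congr 1
    ring
  have h2 : (-1 : ℂ) ^ i = ee s (-((i : ℂ) * (((2 * s + 1 : ℕ) : ℂ) / 2))) := by
    rw [ee_neg, ← ee_pow, ee_half, ← inv_pow]
    norm_num
  have h3 : ((i + 1).choose 2 : ℂ) = (i : ℂ) * (i + 1) / 2 := by
    rw [Nat.cast_choose_two]
    push_cast
    ring
  have h4 : pz (tt s) (ze s ε) i i = 1 := by simp [pz]
  have h5 : qf (tt s) (i - i) = 1 := by simp [qf]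
  rw [h1, gz, if_pos le_rfl, h4, h5, mul_one, div_one, h2, ← pow_mul, tt_pow, tt_pow, tt_pow,
    ze_eq, ee_pow]
  simp only [← ee_add]
  rw [show ((s * s : ℕ) : ℂ) + -((i : ℂ) * (((2 * s + 1 : ℕ) : ℂ) / 2)) +
      ((s * (i + i) : ℕ) : ℂ) + (i : ℂ) * ε + (((i + 1).choose 2 + i : ℕ) : ℂ) =
      ((((s : ℝ) ^ 2 / 2 + s * ε - ε ^ 2 / 2 : ℝ) : ℂ) + ((i : ℂ) - s + ε) ^ 2 / 2) +
        ((i : ℤ) : ℂ) * ((2 * s + 1 : ℕ) : ℂ) by
    push_cast [h3]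
    ring, ee_add _ _ (_ * _), ee_int, mul_one]

lemma ee_eq_one {s : ℕ} {x : ℝ} (h : ee s x = 1) : ∃ m : ℤ, x = m * ((2 * s + 1 : ℕ) : ℝ) := by
  rw [ee, Complex.exp_eq_one_iff] at h
  obtain ⟨m, hm⟩ := h
  refine ⟨m, ?_⟩
  have hn := nn_ne s
  have hp : (2 * (Real.pi : ℂ) * Complex.I) ≠ 0 := Complex.two_pi_I_ne_zero
  have : (x : ℂ) = m * ((2 * s + 1 : ℕ) : ℂ) := by
    field_simp at hm
    have h2 := mul_left_cancel₀ hp (show (2 * (Real.pi : ℂ) * Complex.I) * x =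
      (2 * (Real.pi : ℂ) * Complex.I) * (m * ((2 * s + 1 : ℕ) : ℂ)) by
        linear_combination (2 * (Real.pi : ℂ) * Complex.I) * hm)
    exact h2
  exact_mod_cast this

theorem ze_ne {s : ℕ} {ε : ℝ} (h0 : 0 < ε) (h1 : ε < 1 / 2) {l : ℕ} (hl : 1 ≤ l)
    (hl' : l ≤ 2 * s) : 1 - ze s ε * tt s ^ l ≠ 0 := by
  intro h
  rw [ze_eq, tt_pow, ← ee_add] at h
  have h' : ee s ((ε + l : ℝ) : ℂ) = 1 := by
    push_cast
    linear_combination -h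
  obtain ⟨m, hm⟩ := ee_eq_one h'
  have a1 : (0 : ℝ) < ε + l := by positivity
  have a2 : (ε + l : ℝ) < ((2 * s + 1 : ℕ) : ℝ) := by
    have : (l : ℝ) ≤ 2 * s := by exact_mod_cast hl'
    push_cast
    linarith only [h0, h1, this]
  have hn : (0 : ℝ) < ((2 * s + 1 : ℕ) : ℝ) := by positivity
  rw [hm] at a1 a2
  have b1 : (0 : ℝ) < m := by
    by_contra hcon
    push Not at hcon
    nlinarith only [h0, hm, hcon]
  have b2 : (m : ℝ) < 1 := by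
    by_contra hcon
    push Not at hcon
    nlinarith only [a2, hcon]
  have b1' : (0 : ℤ) < m := by exact_mod_cast b1
  have b2' : m < 1 := by exact_mod_cast b2
  omega

theorem cc_ne {s : ℕ} {ε : ℝ} (h0 : 0 < ε) (h1 : ε < 1 / 2) {i l : ℕ} (hi : i ≤ 2 * s)
    (hl : l ≤ 2 * s) (hne : i ≠ l) :
    cc (2 * s + 1) ((i : ℂ) - s + ε) ≠ cc (2 * s + 1) ((l : ℂ) - s + ε) := by
  intro h
  rw [cc_ee, cc_ee] at h
  set x : ℂ := (i : ℂ) - s + ε with hx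
  set y : ℂ := (l : ℂ) - s + ε with hy
  have nx := ee_ne s x
  have ny := ee_ne s y
  rw [ee_neg, ee_neg] at h
  have key : (ee s x - ee s y) * (ee s x * ee s y - 1) = 0 := by
    field_simp at h
    linear_combination h
  rcases mul_eq_zero.1 key with hk | hk
  · have h' : ee s (((i : ℝ) - l : ℝ) : ℂ) = 1 := by
      rw [show (((i : ℝ) - l : ℝ) : ℂ) = x + -y by rw [hx, hy]; push_cast; ring, ee_add, ee_neg,
        sub_eq_zero.1 hk, mul_inv_cancel₀ ny]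
    obtain ⟨m, hm⟩ := ee_eq_one h'
    have hm' : (i : ℤ) - l = m * (2 * s + 1) := by
      have : (((i : ℤ) - l : ℤ) : ℝ) = ((m * (2 * s + 1) : ℤ) : ℝ) := by
        push_cast
        push_cast at hm
        exact hm
      exact_mod_cast this
    rcases lt_trichotomy m 0 with h2 | h2 | h2
    · nlinarith only [hl, hm', h2]
    · rw [h2] at hm'
      omega
    · nlinarith only [hi, hm', h2]
  · have h' : ee s (((i : ℝ) - s + ε + (l - s + ε) : ℝ) : ℂ) = 1 := by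
      rw [show (((i : ℝ) - s + ε + (l - s + ε) : ℝ) : ℂ) = x + y by rw [hx, hy]; push_cast; ring,
        ee_add, sub_eq_zero.1 hk]
    obtain ⟨m, hm⟩ := ee_eq_one h'
    have e : 2 * ε = ((m * (2 * s + 1) - i - l + 2 * s : ℤ) : ℝ) := by
      push_cast
      push_cast at hm
      linarith only [hm]
    have b1 : (0 : ℝ) < ((m * (2 * s + 1) - i - l + 2 * s : ℤ) : ℝ) := by rw [← e]; linarith only [h0]
    have b2 : ((m * (2 * s + 1) - i - l + 2 * s : ℤ) : ℝ) < 1 := by rw [← e]; linarith only [h1]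
    have b1' : (0 : ℤ) < m * (2 * s + 1) - i - l + 2 * s := by exact_mod_cast b1
    have b2' : m * (2 * s + 1) - i - l + 2 * s < (1 : ℤ) := by exact_mod_cast b2
    omega

/-- scaling of divided differences -/
lemma dd_scale (c y : ℕ → ℂ) {z : ℂ} (hz : z ≠ 0) (κ : ℂ) (k : ℕ) :
    dd (fun i => z * c i) (fun i => κ * y i) 0 k = κ * z⁻¹ ^ k * dd c y 0 k := by
  unfold dd
  rw [Finset.mul_sum]
  apply Finset.sum_congr rfl
  intro i hi
  have hcard : ((Icc 0 k).erase i).card = k := by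
    rw [Finset.card_erase_of_mem hi, Nat.card_Icc]
    omega
  have : ∏ l ∈ (Icc 0 k).erase i, (z * c i - z * c l) =
      z ^ k * ∏ l ∈ (Icc 0 k).erase i, (c i - c l) := by
    have e : z ^ k = ∏ _l ∈ (Icc 0 k).erase i, z := by rw [Finset.prod_const, hcard]
    rw [e, ← Finset.prod_mul_distrib]
    apply Finset.prod_congr rfl
    intro l _
    ring
  rw [this, inv_pow]
  have hz' : z ^ k ≠ 0 := pow_ne_zero _ hz
  rw [div_eq_mul_inv, div_eq_mul_inv, mul_inv]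
  ring

/-- the power of the deformed braiding as a divided difference -/
theorem Gm_ze {s a k : ℕ} (hk : k ≤ 2 * s) {ε : ℝ} (h0 : 0 < ε) (h1 : ε < 1 / 2) :
    ‖Gm s (tt s) (ze s ε) a 0 k‖ = ‖dd (fun i => cc (2 * s + 1) ((i : ℂ) - s + ε))
      (fun i => Complex.exp (Real.pi * Complex.I * a * ((i : ℂ) - s + ε) ^ 2 /
        ((2 * s + 1 : ℕ) : ℂ))) 0 k‖ := by
  have hz1 : ‖ze s ε‖ = 1 := by rw [ze_eq]; exact norm_ee s ε
  have hz0 : ze s ε ≠ 0 := by rw [ze_eq]; exact ee_ne s _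
  obtain ⟨κ, hκ, hg⟩ := gz_ze s ε
  have h := Gm_eq_dd (tt_prim s) (z := ze s ε) (fun l h1' h2' => ze_ne h0 h1 h1' h2')
    (fun i hi l hl hne => by
      rw [cz_ze, cz_ze]
      intro hcon
      exact cc_ne h0 h1 hi hl hne (mul_left_cancel₀ hz0 hcon)) a k 0 (by omega)
  rw [Nat.zero_add] at h
  have e1 : cz s (tt s) (ze s ε) = fun i : ℕ => ze s ε * cc (2 * s + 1) ((i : ℂ) - s + ε) := by
    ext i
    exact cz_ze s i ε
  have e2 : (fun i => gz s (tt s) (ze s ε) i i ^ a) = fun i : ℕ => κ ^ a *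
      Complex.exp (Real.pi * Complex.I * a * ((i : ℂ) - s + ε) ^ 2 / ((2 * s + 1 : ℕ) : ℂ)) := by
    ext i
    rw [hg i, mul_pow, ← Complex.exp_nat_mul]
    congr 2
    ring
  rw [h, e1, e2, dd_scale _ _ hz0, norm_mul, norm_mul, norm_pow, norm_pow, hκ, norm_inv, hz1]
  simp

end Pool.Agent.Work.MP_b30479_gt.DT
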