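import Pool.Agent.Work.MP_b30479_gt.DT.Geom

/-!
# Positively oriented solution
-/

namespace Pool.Agent.Work.MP_b30479_gt.DT

open Finset TB AX

lemma Tr_zero {ρ : ℝ} (hρ : 0 < ρ) : Tr ρ 0 = 0 := by
  have h1 := geom_arg hρ 0
  rw [neg_zero] at h1
  have h2 : (1 - Complex.exp (2 * Real.pi * Complex.I * (((0 : ℝ) : ℂ) + ρ * Complex.I))).arg = 0 := by
    linarith only [h1]
  unfold Tr
  rw [h2]
  ring

lemma Tr_one_sub {ρ : ℝ} (hρ : 0 < ρ) (x : ℝ) : Tr ρ (1 - x) = Real.pi - Tr ρ x := by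
  have h1 := geom_arg hρ x
  have e : Complex.exp (2 * Real.pi * Complex.I * (((1 - x : ℝ) : ℂ) + ρ * Complex.I)) =
      Complex.exp (2 * Real.pi * Complex.I * (((-x : ℝ) : ℂ) + ρ * Complex.I)) := by
    rw [show (2 * Real.pi * Complex.I * (((1 - x : ℝ) : ℂ) + ρ * Complex.I)) =
      2 * Real.pi * Complex.I * (((-x : ℝ) : ℂ) + ρ * Complex.I) + 2 * Real.pi * Complex.I by
        push_cast; ring, Complex.exp_add, Complex.exp_two_pi_mul_I, mul_one]
  unfold Tr
  rw [e, h1]
  ring

lemma Tr_strictMono {ρ : ℝ} (hρ : 0 < ρ) : StrictMono (fun x => Tr ρ x) := by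
  apply strictMono_of_deriv_pos
  intro x
  rw [(hasDerivAt_Tr_right hρ).deriv]
  have h1 : 0 < Real.sinh (2 * Real.pi * ρ) := by
    rw [Real.sinh_pos_iff]
    have := Real.pi_pos
    positivity
  have h2 : 1 < Real.cosh (2 * Real.pi * ρ) := by
    rw [Real.one_lt_cosh]
    have := Real.pi_pos
    positivity
  have h3 := Real.cos_le_one (2 * Real.pi * x)
  have := Real.pi_pos
  apply div_pos (by positivity)
  linarith only [h2, h3]

/-- location of `Re u` -/
theorem sad_re {a : ℕ} {η ς ρ : ℝ} (h : IsSad a η ς ρ) : -1 < a * ς ∧ a * ς < -(1 / 2) := by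
  obtain ⟨-, -, h3⟩ := crit_real h
  have hρ := h.ρpos
  have hpi := Real.pi_pos
  have ha := abs_lt.mp h.h1
  have hs := Tr_strictMono hρ
  have t1 : 0 < Tr ρ (η + ς) := by
    have := hs (show (0 : ℝ) < η + ς by linarith only [ha])
    simp only at this
    rwa [Tr_zero hρ] at this
  have t2 : 0 < Tr ρ (η - ς) := by
    have := hs (show (0 : ℝ) < η - ς by linarith only [ha])
    simp only at this
    rwa [Tr_zero hρ] at this
  have t3 : Tr ρ (η + ς) < Tr ρ (1 - (η - ς)) := hs (by linarith only [h, h.h3])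
  rw [Tr_one_sub hρ] at t3
  constructor
  · by_contra hc
    push Not at hc
    nlinarith only [h3, t3, hpi, hc]
  · by_contra hc
    push Not at hc
    nlinarith only [h3, t1, t2, hpi, hc]

/-- for `a ≥ 6` all eight ideal tetrahedra are positively oriented -/
theorem sad_shapes {a : ℕ} (ha : 6 ≤ a) {η ς ρ : ℝ} (h : IsSad a η ς ρ) : η - ς < 1 / 2 := by
  by_contra hc
  push Not at hc
  obtain ⟨r1, r2⟩ := sad_re h
  have hρ := h.ρpos
  have hpi := Real.pi_pos
  have ha' : (6 : ℝ) ≤ a := by exact_mod_cast ha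
  have h1 := abs_lt.mp h.h1
  have h3 := h.h3
  have hς0 : ς < 0 := by
    by_contra h0
    push Not at h0
    have : 0 ≤ (a : ℝ) * ς := by positivity
    linarith only [hc, h3, h0]
  have hς6 : -(1 / 6) < ς := by
    by_contra h0
    push Not at h0
    nlinarith only [r1, ha', h0]
  obtain ⟨c1, -, -⟩ := crit_real h
  have s1 : 0 < Real.sin (Real.pi * (η + ς)) :=
    Real.sin_pos_of_pos_of_lt_pi (by nlinarith only [hpi, h1]) (by nlinarith only [hc, hpi, r1, r2, h3])
  have s2 : 0 < Real.sin (Real.pi * (η - ς)) :=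
    Real.sin_pos_of_pos_of_lt_pi (by nlinarith only [hpi, hc]) (by nlinarith only [hpi, h1, h3])
  have hcos : 0 < Real.cos (Real.pi * η) := by
    apply Real.cos_pos_of_mem_Ioo
    constructor <;> nlinarith only [hc, hpi, r1, r2, h1, h3]
  have m1 := el_mono le_rfl hρ.le (fun _ => s1.ne')
  have m2 := el_mono le_rfl hρ.le (fun _ => s2.ne')
  rw [el_zero] at m1 m2
  unfold Lob.ff at m1 m2
  have m3 : Real.log (2 * Real.sin (Real.pi * (η + ς)) * (2 * Real.sin (Real.pi * (η - ς)))) ≤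
      Real.log ((2 * Real.cos (Real.pi * η)) ^ 2) := by
    rw [Real.log_mul (by positivity) (by positivity), Real.log_pow]
    push_cast
    linarith only [c1, m1, m2]
  rw [Real.log_le_log_iff (by positivity) (by positivity)] at m3
  have e1 : 2 * Real.sin (Real.pi * (η + ς)) * (2 * Real.sin (Real.pi * (η - ς))) =
      2 * Real.cos (2 * Real.pi * ς) - 2 * Real.cos (2 * Real.pi * η) := by
    have f1 : Real.cos (2 * Real.pi * ς) = Real.cos (Real.pi * (η + ς) - Real.pi * (η - ς)) := by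
      congr 1; ring
    have f2 : Real.cos (2 * Real.pi * η) = Real.cos (Real.pi * (η + ς) + Real.pi * (η - ς)) := by
      congr 1; ring
    rw [f1, f2, Real.cos_sub, Real.cos_add]
    ring
  have e2 : (2 * Real.cos (Real.pi * η)) ^ 2 = 2 + 2 * Real.cos (2 * Real.pi * η) := by
    rw [show 2 * Real.pi * η = 2 * (Real.pi * η) by ring, Real.cos_two_mul]
    ring
  rw [e1, e2] at m3
  have e3 : Real.cos (2 * Real.pi * η) ≤ -Real.cos (2 * Real.pi * ς) := by
    rw [← Real.cos_pi_sub, ← Real.cos_neg (Real.pi - 2 * Real.pi * ς)]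
    rw [← Real.cos_neg (2 * Real.pi * η)]
    rw [Real.cos_neg, Real.cos_neg]
    have e4 : Real.cos (Real.pi - 2 * Real.pi * ς) = Real.cos (Real.pi + 2 * Real.pi * ς) := by
      rw [Real.cos_pi_sub, add_comm, Real.cos_add_pi]
    rw [e4]
    apply Real.cos_le_cos_of_nonneg_of_le_pi
    · nlinarith only [r1, hpi, r2, ha']
    · nlinarith only [r1, r2, hpi, h3]
    · nlinarith only [hc, hpi]
  have e5 : 1 / 2 < Real.cos (2 * Real.pi * ς) := by
    rw [← Real.cos_pi_div_three, ← Real.cos_neg (2 * Real.pi * ς)]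
    apply Real.cos_lt_cos_of_nonneg_of_le_pi
    · nlinarith only [hpi, r2]
    · nlinarith only [hpi]
    · nlinarith only [r1, hpi, ha']
  linarith only [hς0, hς6, m3, e3, e5]

end Pool.Agent.Work.MP_b30479_gt.DT
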