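import Mathlib

/-!
# Riemann sums in terms of antiderivatives
-/

namespace Pool.Agent.Work.MP_b30479_gt.DT

open Finset

section
variable {E : Type*} [NormedAddCommGroup E] [NormedSpace ℝ E]

/-- mean value inequality on the line -/
lemma mvt_bound {f f' : ℝ → E} {C : ℝ} {x y : ℝ} (hf : ∀ v ∈ Set.uIcc x y, HasDerivAt f (f' v) v)
    (hC : ∀ v ∈ Set.uIcc x y, ‖f' v‖ ≤ C) : ‖f y - f x‖ ≤ C * |y - x| := by
  have := Convex.norm_image_sub_le_of_norm_hasDerivWithin_le (f := f) (f' := f') (C := C)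
    (s := Set.uIcc x y) (x := x) (y := y) (fun v hv => (hf v hv).hasDerivWithinAt) hC
    (convex_uIcc x y) Set.left_mem_uIcc Set.right_mem_uIcc
  rwa [Real.norm_eq_abs] at this

lemma mvt_bound' {f f' : ℝ → E} {C : ℝ} (hf : ∀ v, HasDerivAt f (f' v) v)
    (hC : ∀ v, ‖f' v‖ ≤ C) (x y : ℝ) : ‖f y - f x‖ ≤ C * |y - x| :=
  mvt_bound (fun v _ => hf v) (fun v _ => hC v)

lemma cell_right {Φ φ φ' : ℝ → E} {B : ℝ} (hΦ : ∀ v, HasDerivAt Φ (φ v) v)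
    (hφ : ∀ v, HasDerivAt φ (φ' v) v) (hB : ∀ v, ‖φ' v‖ ≤ B) {a b : ℝ} (hab : a ≤ b) :
    ‖(b - a) • φ b - (Φ b - Φ a)‖ ≤ B * (b - a) ^ 2 := by
  have hB0 : 0 ≤ B := (norm_nonneg _).trans (hB 0)
  have h1 : ∀ v ∈ Set.uIcc a b, HasDerivAt (fun v => Φ v - v • φ b) (φ v - φ b) v := by
    intro v _
    have h2 := (hasDerivAt_id v).smul_const (φ b)
    rw [one_smul] at h2
    exact (hΦ v).sub h2
  have h3 : ∀ v ∈ Set.uIcc a b, ‖φ v - φ b‖ ≤ B * (b - a) := by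
    intro v hv
    rw [Set.uIcc_of_le hab, Set.mem_Icc] at hv
    refine (mvt_bound' hφ hB b v).trans ?_
    apply mul_le_mul_of_nonneg_left _ hB0
    rw [abs_le]
    constructor <;> linarith only [hv, hab, hv.1, hv.2]
  have h4 := mvt_bound h1 h3
  rw [abs_of_nonneg (by linarith only [hab] : (0 : ℝ) ≤ b - a)] at h4
  have e : (b - a) • φ b - (Φ b - Φ a) = -(Φ b - b • φ b - (Φ a - a • φ b)) := by
    rw [sub_smul]; abel
  rw [e, norm_neg]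
  refine h4.trans (le_of_eq ?_)
  ring

/-- Riemann sums (right end points) -/
theorem riemann_anti {Φ φ φ' : ℝ → E} {B : ℝ} (hΦ : ∀ v, HasDerivAt Φ (φ v) v)
    (hφ : ∀ v, HasDerivAt φ (φ' v) v) (hB : ∀ v, ‖φ' v‖ ≤ B) {n : ℕ} (hn : 0 < n) {m₁ m₂ : ℤ}
    (hm : m₁ ≤ m₂) :
    ‖(∑ m ∈ Ioc m₁ m₂, φ ((m : ℝ) / n)) - (n : ℝ) • (Φ ((m₂ : ℝ) / n) - Φ ((m₁ : ℝ) / n))‖ ≤
      B * (m₂ - m₁) / n := by
  have hn' : (0 : ℝ) < n := by exact_mod_cast hn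
  induction m₂, hm using Int.leInduction with
  | base => simp
  | succ m hm ih =>
    have e1 : Ioc m₁ (m + 1) = insert (m + 1) (Ioc m₁ m) := by
      ext x; simp only [Finset.mem_Ioc, Finset.mem_insert]; omega
    have e2 : (m + 1) ∉ Ioc m₁ m := by simp
    rw [e1, Finset.sum_insert e2]
    have h1 := cell_right hΦ hφ hB (a := (m : ℝ) / n) (b := ((m + 1 : ℤ) : ℝ) / n)
      (by
        apply div_le_div_of_nonneg_right _ hn'.le
        push_cast; linarith only [])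
    have e3 : ((m + 1 : ℤ) : ℝ) / n - (m : ℝ) / n = 1 / n := by
      push_cast
      field_simp
      ring
    rw [e3] at h1
    have h2 : ‖φ (((m + 1 : ℤ) : ℝ) / n) - (n : ℝ) • (Φ (((m + 1 : ℤ) : ℝ) / n) -
        Φ ((m : ℝ) / n))‖ ≤ B / n := by
      have e4 : φ (((m + 1 : ℤ) : ℝ) / n) - (n : ℝ) • (Φ (((m + 1 : ℤ) : ℝ) / n) -
          Φ ((m : ℝ) / n)) = (n : ℝ) • ((1 / (n : ℝ)) • φ (((m + 1 : ℤ) : ℝ) / n) -
          (Φ (((m + 1 : ℤ) : ℝ) / n) - Φ ((m : ℝ) / n))) := by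
        simp only [smul_sub, smul_smul, mul_one_div_cancel hn'.ne', one_smul]
      rw [e4, norm_smul, Real.norm_of_nonneg hn'.le]
      refine (mul_le_mul_of_nonneg_left h1 hn'.le).trans (le_of_eq ?_)
      field_simp
    have e5 : φ (((m + 1 : ℤ) : ℝ) / n) + (∑ m ∈ Ioc m₁ m, φ ((m : ℝ) / n)) -
        (n : ℝ) • (Φ (((m + 1 : ℤ) : ℝ) / n) - Φ ((m₁ : ℝ) / n)) =
        (φ (((m + 1 : ℤ) : ℝ) / n) - (n : ℝ) • (Φ (((m + 1 : ℤ) : ℝ) / n) - Φ ((m : ℝ) / n))) +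
        ((∑ m ∈ Ioc m₁ m, φ ((m : ℝ) / n)) - (n : ℝ) • (Φ ((m : ℝ) / n) - Φ ((m₁ : ℝ) / n))) := by
      simp only [smul_sub]
      abel
    rw [e5]
    refine (norm_add_le _ _).trans ((add_le_add h2 ih).trans (le_of_eq ?_))
    push_cast
    ring

lemma cell_mid {Φ φ φ' φ'' : ℝ → E} {B : ℝ} (hΦ : ∀ v, HasDerivAt Φ (φ v) v)
    (hφ : ∀ v, HasDerivAt φ (φ' v) v) (hφ' : ∀ v, HasDerivAt φ' (φ'' v) v)
    (hB : ∀ v, ‖φ'' v‖ ≤ B) (c : ℝ) {δ : ℝ} (hδ : 0 ≤ δ) :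
    ‖(2 * δ) • φ c - (Φ (c + δ) - Φ (c - δ))‖ ≤ 2 * B * δ ^ 3 := by
  have hB0 : 0 ≤ B := (norm_nonneg _).trans (hB 0)
  have hadd : ∀ t : ℝ, HasDerivAt (fun t : ℝ => c + t) 1 t := fun t => by
    simpa using (hasDerivAt_id t).const_add c
  have hsub : ∀ t : ℝ, HasDerivAt (fun t : ℝ => c - t) (-1) t := fun t => by
    simpa using (hasDerivAt_id t).const_sub c
  -- second derivative
  have g2 : ∀ t ∈ Set.uIcc 0 δ, ‖φ' (c + t) - φ' (c - t)‖ ≤ 2 * B * δ := by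
    intro t ht
    rw [Set.uIcc_of_le hδ, Set.mem_Icc] at ht
    refine (mvt_bound' hφ' hB (c - t) (c + t)).trans ?_
    have : |c + t - (c - t)| = 2 * t := by
      rw [show c + t - (c - t) = 2 * t by ring, abs_of_nonneg (by linarith only [ht, ht.1])]
    rw [this]
    nlinarith only [hB0, ht, ht.1, ht.2]
  have g1 : ∀ t ∈ Set.uIcc 0 δ, ‖φ (c + t) + φ (c - t) - (2 : ℝ) • φ c‖ ≤ 2 * B * δ ^ 2 := by
    intro t ht
    have ht' := ht
    rw [Set.uIcc_of_le hδ, Set.mem_Icc] at ht'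
    have d1 : ∀ x ∈ Set.uIcc 0 t, HasDerivAt (fun t => φ (c + t) + φ (c - t) - (2 : ℝ) • φ c)
        (φ' (c + x) - φ' (c - x)) x := by
      intro x _
      have h1 := (hφ (c + x)).scomp x (hadd x)
      have h2 := (hφ (c - x)).scomp x (hsub x)
      have h3 := (h1.add h2).sub_const ((2 : ℝ) • φ c)
      simp only [one_smul, neg_smul] at h3
      rw [← sub_eq_add_neg] at h3
      exact h3
    have h4 := mvt_bound d1 (fun x hx => g2 x (by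
      rw [Set.uIcc_of_le ht'.1] at hx
      rw [Set.uIcc_of_le hδ]
      exact ⟨hx.1, hx.2.trans ht'.2⟩))
    have e0 : φ (c + 0) + φ (c - 0) - (2 : ℝ) • φ c = 0 := by
      rw [add_zero, sub_zero, two_smul, sub_self]
    rw [e0, sub_zero, sub_zero, abs_of_nonneg ht'.1] at h4
    refine h4.trans ?_
    have : 2 * B * δ * t ≤ 2 * B * δ * δ := mul_le_mul_of_nonneg_left ht'.2 (by positivity)
    nlinarith only [this]
  have d0 : ∀ x ∈ Set.uIcc 0 δ, HasDerivAt (fun t => Φ (c + t) - Φ (c - t) - (2 * t) • φ c)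
      (φ (c + x) + φ (c - x) - (2 : ℝ) • φ c) x := by
    intro x _
    have h1 := (hΦ (c + x)).scomp x (hadd x)
    have h2 := (hΦ (c - x)).scomp x (hsub x)
    have h5 : HasDerivAt (fun t : ℝ => (2 * t) • φ c) ((2 : ℝ) • φ c) x := by
      have := ((hasDerivAt_id x).const_mul 2).smul_const (φ c)
      simpa using this
    have h3 := (h1.sub h2).sub h5
    simp only [one_smul, neg_smul, sub_neg_eq_add] at h3
    exact h3
  have h6 := mvt_bound d0 g1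
  simp only [add_zero, sub_zero, mul_zero, zero_smul, sub_self] at h6
  rw [abs_of_nonneg hδ] at h6
  rw [← norm_neg, show -((2 * δ) • φ c - (Φ (c + δ) - Φ (c - δ))) =
    Φ (c + δ) - Φ (c - δ) - (2 * δ) • φ c by abel]
  refine h6.trans (le_of_eq ?_)
  ring

/-- midpoint rule -/
theorem midpoint_anti {Φ φ φ' φ'' : ℝ → E} {B : ℝ} (hΦ : ∀ v, HasDerivAt Φ (φ v) v)
    (hφ : ∀ v, HasDerivAt φ (φ' v) v) (hφ' : ∀ v, HasDerivAt φ' (φ'' v) v)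
    (hB : ∀ v, ‖φ'' v‖ ≤ B) {n : ℕ} (hn : 0 < n) {m₁ m₂ : ℤ} (hm : m₁ ≤ m₂) :
    ‖(∑ m ∈ Ioc m₁ m₂, φ ((m : ℝ) / n)) - (n : ℝ) • (Φ (((m₂ : ℝ) + 1 / 2) / n) -
      Φ (((m₁ : ℝ) + 1 / 2) / n))‖ ≤ B * (m₂ - m₁) / n ^ 2 := by
  have hn' : (0 : ℝ) < n := by exact_mod_cast hn
  have hB0 : 0 ≤ B := (norm_nonneg _).trans (hB 0)
  induction m₂, hm using Int.leInduction with
  | base => simp
  | succ m hm ih =>
    have e1 : Ioc m₁ (m + 1) = insert (m + 1) (Ioc m₁ m) := by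
      ext x; simp only [Finset.mem_Ioc, Finset.mem_insert]; omega
    have e2 : (m + 1) ∉ Ioc m₁ m := by simp
    rw [e1, Finset.sum_insert e2]
    have h1 := cell_mid hΦ hφ hφ' hB (((m + 1 : ℤ) : ℝ) / n) (δ := 1 / (2 * n)) (by positivity)
    have e3 : ((m + 1 : ℤ) : ℝ) / n - 1 / (2 * n) = ((m : ℝ) + 1 / 2) / n := by
      push_cast
      field_simp
      ring
    have e4 : ((m + 1 : ℤ) : ℝ) / n + 1 / (2 * n) = (((m + 1 : ℤ) : ℝ) + 1 / 2) / n := by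
      push_cast
      field_simp
    have e5 : 2 * (1 / (2 * (n : ℝ))) = 1 / n := by field_simp
    rw [e3, e4, e5] at h1
    have h2 : ‖φ (((m + 1 : ℤ) : ℝ) / n) - (n : ℝ) • (Φ ((((m + 1 : ℤ) : ℝ) + 1 / 2) / n) -
        Φ (((m : ℝ) + 1 / 2) / n))‖ ≤ B / n ^ 2 := by
      have e4 : φ (((m + 1 : ℤ) : ℝ) / n) - (n : ℝ) • (Φ ((((m + 1 : ℤ) : ℝ) + 1 / 2) / n) -
          Φ (((m : ℝ) + 1 / 2) / n)) = (n : ℝ) • ((1 / (n : ℝ)) • φ (((m + 1 : ℤ) : ℝ) / n) -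
          (Φ ((((m + 1 : ℤ) : ℝ) + 1 / 2) / n) - Φ (((m : ℝ) + 1 / 2) / n))) := by
        simp only [smul_sub, smul_smul, mul_one_div_cancel hn'.ne', one_smul]
      rw [e4, norm_smul, Real.norm_of_nonneg hn'.le]
      refine (mul_le_mul_of_nonneg_left h1 hn'.le).trans ?_
      rw [show (n : ℝ) * (2 * B * (1 / (2 * (n : ℝ))) ^ 3) = B / n ^ 2 / 4 by field_simp; ring]
      have : 0 ≤ B / (n : ℝ) ^ 2 := by positivity
      linarith only [this]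
    have e6 : φ (((m + 1 : ℤ) : ℝ) / n) + (∑ m ∈ Ioc m₁ m, φ ((m : ℝ) / n)) -
        (n : ℝ) • (Φ ((((m + 1 : ℤ) : ℝ) + 1 / 2) / n) - Φ (((m₁ : ℝ) + 1 / 2) / n)) =
        (φ (((m + 1 : ℤ) : ℝ) / n) - (n : ℝ) • (Φ ((((m + 1 : ℤ) : ℝ) + 1 / 2) / n) -
          Φ (((m : ℝ) + 1 / 2) / n))) +
        ((∑ m ∈ Ioc m₁ m, φ ((m : ℝ) / n)) - (n : ℝ) • (Φ (((m : ℝ) + 1 / 2) / n) -
          Φ (((m₁ : ℝ) + 1 / 2) / n))) := by
      simp only [smul_sub]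
      abel
    rw [e6]
    refine (norm_add_le _ _).trans ((add_le_add h2 ih).trans (le_of_eq ?_))
    push_cast
    ring

end

end Pool.Agent.Work.MP_b30479_gt.DT
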