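import Pool.Agent.Work.MP_b30479_gt.DT.RDefs
import Pool.Agent.Work.MP_b30479_gt.DT.RSum

/-!
# Local behaviour of `Qk`
-/

namespace Pool.Agent.Work.MP_b30479_gt.DT

open Finset TB AX Filter Topology

/-! ### the function `ll` and its derivatives -/

lemma norm_E (w : ℂ) : ‖Complex.exp (2 * Real.pi * Complex.I * w)‖ =
    Real.exp (-(2 * Real.pi * w.im)) := by
  rw [Complex.norm_exp]
  congr 1
  have : (2 * Real.pi * Complex.I * w : ℂ) = ((2 * Real.pi : ℝ) : ℂ) * (Complex.I * w) := by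
    push_cast; ring
  rw [this, Complex.re_ofReal_mul, Complex.I_mul_re]
  ring

lemma norm_E_lt {w : ℂ} (hw : 0 < w.im) : ‖Complex.exp (2 * Real.pi * Complex.I * w)‖ < 1 := by
  rw [norm_E, Real.exp_lt_one_iff]
  have := Real.pi_pos
  have : 0 < 2 * Real.pi * w.im := by positivity
  linarith

lemma one_sub_E_re {w : ℂ} (hw : 0 < w.im) :
    0 < (1 - Complex.exp (2 * Real.pi * Complex.I * w)).re := by
  have h1 := norm_E_lt hw
  have h2 := Complex.re_le_norm (Complex.exp (2 * Real.pi * Complex.I * w))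
  rw [Complex.sub_re, Complex.one_re]
  linarith

lemma one_sub_E_ne {w : ℂ} (hw : 0 < w.im) : 1 - Complex.exp (2 * Real.pi * Complex.I * w) ≠ 0 := by
  intro h
  have := one_sub_E_re hw
  rw [h] at this
  simp at this

lemma exp_ll {w : ℂ} (hw : 0 < w.im) :
    Complex.exp (ll w) = 1 - Complex.exp (2 * Real.pi * Complex.I * w) :=
  Complex.exp_log (one_sub_E_ne hw)

lemma hasDerivAt_E (w : ℂ) : HasDerivAt (fun w => Complex.exp (2 * Real.pi * Complex.I * w))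
    (2 * Real.pi * Complex.I * Complex.exp (2 * Real.pi * Complex.I * w)) w := by
  have h1 : HasDerivAt (fun w : ℂ => 2 * Real.pi * Complex.I * w) (2 * Real.pi * Complex.I) w := by
    simpa using (hasDerivAt_id w).const_mul (2 * Real.pi * Complex.I)
  exact h1.cexp.congr_deriv (by ring)

lemma hasDerivAt_ll {w : ℂ} (hw : 0 < w.im) : HasDerivAt ll (lp w) w := by
  have h1 := (hasDerivAt_E w).const_sub 1
  have h2 := h1.clog (Complex.mem_slitPlane_iff.mpr (Or.inl (one_sub_E_re hw)))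
  have e : lp w = -(2 * Real.pi * Complex.I * Complex.exp (2 * Real.pi * Complex.I * w)) /
      (1 - Complex.exp (2 * Real.pi * Complex.I * w)) := by
    unfold lp
    rw [neg_div]
  rw [e]
  exact h2

/-- derivative of `lp` -/
noncomputable def lpp (w : ℂ) : ℂ :=
  4 * Real.pi ^ 2 * Complex.exp (2 * Real.pi * Complex.I * w) /
    (1 - Complex.exp (2 * Real.pi * Complex.I * w)) ^ 2

lemma hasDerivAt_lp {w : ℂ} (hw : 0 < w.im) : HasDerivAt lp (lpp w) w := by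
  have h1 := (hasDerivAt_E w).const_mul (2 * Real.pi * Complex.I)
  have h2 := (hasDerivAt_E w).const_sub 1
  have h3 := (h1.div h2 (one_sub_E_ne hw)).neg
  have e : lpp w = -((2 * Real.pi * Complex.I * (2 * Real.pi * Complex.I *
      Complex.exp (2 * Real.pi * Complex.I * w)) *
      (1 - Complex.exp (2 * Real.pi * Complex.I * w)) -
      2 * Real.pi * Complex.I * Complex.exp (2 * Real.pi * Complex.I * w) *
        -(2 * Real.pi * Complex.I * Complex.exp (2 * Real.pi * Complex.I * w))) /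
      (1 - Complex.exp (2 * Real.pi * Complex.I * w)) ^ 2) := by
    unfold lpp
    rw [← neg_div]
    congr 1
    linear_combination (4 * Real.pi ^ 2 * Complex.exp (2 * Real.pi * Complex.I * w)) * Complex.I_sq
  rw [e]
  exact h3

/-- bound for the derivatives -/
noncomputable def bd (ρ : ℝ) : ℝ := 4 * Real.pi ^ 2 / (1 - Real.exp (-(2 * Real.pi * ρ))) ^ 2

lemma q_lt {ρ : ℝ} (hρ : 0 < ρ) : Real.exp (-(2 * Real.pi * ρ)) < 1 := by
  rw [Real.exp_lt_one_iff]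
  have := Real.pi_pos
  have : 0 < 2 * Real.pi * ρ := by positivity
  linarith

lemma norm_one_sub_E {w : ℂ} : 1 - Real.exp (-(2 * Real.pi * w.im)) ≤
    ‖1 - Complex.exp (2 * Real.pi * Complex.I * w)‖ := by
  have h1 := norm_sub_norm_le (1 : ℂ) (Complex.exp (2 * Real.pi * Complex.I * w))
  rw [norm_E, norm_one] at h1
  exact h1

lemma norm_lpp {w : ℂ} (hw : 0 < w.im) : ‖lpp w‖ ≤ bd w.im := by
  have h0 := q_lt hw
  have h1 := norm_one_sub_E (w := w)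
  have h2 := norm_E_lt hw
  unfold lpp bd
  rw [norm_div, norm_mul, norm_pow]
  have e : ‖(4 * Real.pi ^ 2 : ℂ)‖ = 4 * Real.pi ^ 2 := by
    rw [show (4 * Real.pi ^ 2 : ℂ) = ((4 * Real.pi ^ 2 : ℝ) : ℂ) by push_cast; ring,
      Complex.norm_real, Real.norm_of_nonneg (by positivity)]
  rw [e]
  have h3 : 0 < 1 - Real.exp (-(2 * Real.pi * w.im)) := by linarith
  apply div_le_div₀ (by positivity) _ (by positivity)
  · exact pow_le_pow_left₀ h3.le h1 2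
  · nlinarith [Real.pi_pos, sq_nonneg Real.pi]

lemma norm_lp {w : ℂ} (hw : 0 < w.im) : ‖lp w‖ ≤ bd w.im := by
  have h0 := q_lt hw
  have h1 := norm_one_sub_E (w := w)
  have h2 := norm_E_lt hw
  have h3 : 0 < 1 - Real.exp (-(2 * Real.pi * w.im)) := by linarith
  have hpi := Real.pi_gt_three
  unfold lp bd
  rw [norm_neg, norm_div, norm_mul]
  have e : ‖(2 * Real.pi * Complex.I : ℂ)‖ = 2 * Real.pi := by
    rw [norm_mul, Complex.norm_I, mul_one, show (2 * Real.pi : ℂ) = ((2 * Real.pi : ℝ) : ℂ) by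
      push_cast; ring, Complex.norm_real, Real.norm_of_nonneg (by positivity)]
  rw [e]
  have h4 : 1 - Real.exp (-(2 * Real.pi * w.im)) ≤ 1 := by
    have := Real.exp_pos (-(2 * Real.pi * w.im))
    linarith
  have h5 : (1 - Real.exp (-(2 * Real.pi * w.im))) ^ 2 ≤
      ‖1 - Complex.exp (2 * Real.pi * Complex.I * w)‖ := by
    refine le_trans ?_ h1
    nlinarith
  apply div_le_div₀ (by positivity) _ (by positivity) h5
  have h6 := norm_nonneg (Complex.exp (2 * Real.pi * Complex.I * w))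
  nlinarith

/-! ### horizontal lines -/

lemma hasDerivAt_hor {f f' : ℂ → ℂ} (hf : ∀ w : ℂ, 0 < w.im → HasDerivAt f (f' w) w) {w : ℂ}
    (hw : 0 < w.im) (t : ℝ) : HasDerivAt (fun t : ℝ => f (w + t)) (f' (w + t)) t := by
  have h1 : HasDerivAt (fun z : ℂ => w + z) 1 (t : ℂ) := by
    simpa using (hasDerivAt_id (t : ℂ)).const_add w
  have h2 : HasDerivAt f (f' (w + (t : ℂ))) (w + (t : ℂ)) := hf _ (by simpa using hw)
  have h3 := h2.comp (t : ℂ) h1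
  rw [mul_one] at h3
  exact h3.comp_ofReal

lemma hasDerivAt_hor_neg {f f' : ℂ → ℂ} (hf : ∀ w : ℂ, 0 < w.im → HasDerivAt f (f' w) w) {w : ℂ}
    (hw : 0 < w.im) (t : ℝ) : HasDerivAt (fun t : ℝ => f (w - t)) (-f' (w - t)) t := by
  have h1 : HasDerivAt (fun z : ℂ => w - z) (-1) (t : ℂ) := by
    simpa using (hasDerivAt_id (t : ℂ)).const_sub w
  have h2 : HasDerivAt f (f' (w - (t : ℂ))) (w - (t : ℂ)) := hf _ (by simpa using hw)
  have h3 := h2.comp (t : ℂ) h1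
  rw [mul_neg, mul_one] at h3
  exact h3.comp_ofReal

/-- second order Taylor expansion of `ll` -/
lemma ll_taylor {w : ℂ} (hw : 0 < w.im) (t : ℝ) :
    ‖ll (w + t) - ll w - t * lp w‖ ≤ bd w.im * t ^ 2 := by
  have hb : 0 ≤ bd w.im := (norm_nonneg _).trans (norm_lp hw)
  have h1 : ∀ x ∈ Set.uIcc 0 t, HasDerivAt (fun t : ℝ => ll (w + t) - t * lp w)
      (lp (w + x) - lp w) x := by
    intro x _
    have h2 := hasDerivAt_hor (fun w hw => hasDerivAt_ll hw) hw x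
    have h3 : HasDerivAt (fun t : ℝ => (t : ℂ) * lp w) (lp w) x := by
      have := (hasDerivAt_id (x : ℂ)).comp_ofReal.mul_const (lp w)
      simpa using this
    exact h2.sub h3
  have h2 : ∀ x ∈ Set.uIcc 0 t, ‖lp (w + x) - lp w‖ ≤ bd w.im * |t| := by
    intro x hx
    have h3 := mvt_bound' (f := fun t : ℝ => lp (w + t)) (f' := fun t : ℝ => lpp (w + t))
      (C := bd w.im) (fun v => hasDerivAt_hor (fun w hw => hasDerivAt_lp hw) hw v)
      (fun v => by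
        have := norm_lpp (w := w + v) (by simpa using hw)
        simpa using this) 0 x
    simp only [Complex.ofReal_zero, add_zero, sub_zero] at h3
    refine h3.trans (mul_le_mul_of_nonneg_left ?_ hb)
    have := Set.abs_sub_left_of_mem_uIcc hx
    simpa using this
  have h3 := mvt_bound h1 h2
  simp only [Complex.ofReal_zero, add_zero, zero_mul, sub_zero] at h3
  have e : ll (w + t) - ll w - t * lp w = ll (w + t) - t * lp w - ll w := by ring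
  rw [e]
  refine h3.trans (le_of_eq ?_)
  rw [mul_assoc, ← sq, sq_abs]

/-! ### the logarithm of the factors of `Qk` -/

/-- logarithm of `2cos(2πu) - 2cos(2πv)` -/
noncomputable def La (u v : ℂ) : ℂ := -(2 * Real.pi * Complex.I * u) + ll (u + v) + ll (u - v)

lemma exp_La {u : ℂ} (hu : 0 < u.im) (v : ℝ) : Complex.exp (La u v) =
    2 * Complex.cos (2 * Real.pi * u) - 2 * Complex.cos (2 * Real.pi * v) := by
  unfold La
  rw [Complex.exp_add, Complex.exp_add, exp_ll (by simpa using hu), exp_ll (by simpa using hu)]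
  have e1 : Complex.exp (2 * Real.pi * Complex.I * (u + v)) =
      Complex.exp (2 * Real.pi * Complex.I * u) * Complex.exp (2 * Real.pi * Complex.I * v) := by
    rw [← Complex.exp_add]; congr 1; ring
  have e2 : Complex.exp (2 * Real.pi * Complex.I * (u - v)) =
      Complex.exp (2 * Real.pi * Complex.I * u) * Complex.exp (-(2 * Real.pi * Complex.I * v)) := by
    rw [← Complex.exp_add]; congr 1; ring
  have e3 : Complex.exp (2 * Real.pi * Complex.I * u) *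
      Complex.exp (-(2 * Real.pi * Complex.I * u)) = 1 := by
    rw [← Complex.exp_add, add_neg_cancel, Complex.exp_zero]
  have e4 : Complex.exp (2 * Real.pi * Complex.I * v) *
      Complex.exp (-(2 * Real.pi * Complex.I * v)) = 1 := by
    rw [← Complex.exp_add, add_neg_cancel, Complex.exp_zero]
  have c1 : 2 * Complex.cos (2 * Real.pi * u) = Complex.exp (2 * Real.pi * Complex.I * u) +
      Complex.exp (-(2 * Real.pi * Complex.I * u)) := by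
    rw [Complex.two_cos]
    congr 2 <;> ring
  have c2 : 2 * Complex.cos (2 * Real.pi * (v : ℂ)) = Complex.exp (2 * Real.pi * Complex.I * v) +
      Complex.exp (-(2 * Real.pi * Complex.I * v)) := by
    rw [Complex.two_cos]
    congr 2 <;> ring
  rw [e1, e2, c1, c2]
  generalize Complex.exp (2 * Real.pi * Complex.I * u) = A at *
  generalize Complex.exp (-(2 * Real.pi * Complex.I * u)) = A' at *
  generalize Complex.exp (2 * Real.pi * Complex.I * v) = V at *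
  generalize Complex.exp (-(2 * Real.pi * Complex.I * v)) = V' at *
  linear_combination (-V - V' + A * V * V') * e3 + (A : ℂ) * e4

lemma Qk_exp (s k : ℕ) {u : ℂ} (hu : 0 < u.im) : Qk s k (((2 * s + 1 : ℕ) : ℂ) * u) =
    Complex.exp (∑ l ∈ Ioc k (2 * s), La u ((((l : ℝ) - s) / ((2 * s + 1 : ℕ) : ℝ) : ℝ) : ℂ)) := by
  have hn : ((2 * s + 1 : ℕ) : ℂ) ≠ 0 := by exact_mod_cast (by omega : 2 * s + 1 ≠ 0)
  unfold Qk
  rw [Complex.exp_sum]
  apply Finset.prod_congr rfl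
  intro l _
  rw [exp_La hu]
  unfold cc
  congr 2
  · congr 1
    field_simp
  · congr 1
    push_cast
    push_cast at hn
    field_simp

lemma sum_shift {E : Type*} [AddCommMonoid E] (g : ℝ → E) (s k₁ k₂ : ℕ) (n : ℝ) :
    ∑ l ∈ Ioc k₁ k₂, g (((l : ℝ) - s) / n) =
      ∑ m ∈ Ioc ((k₁ : ℤ) - s) ((k₂ : ℤ) - s), g ((m : ℝ) / n) := by
  refine Finset.sum_nbij' (fun l => (l : ℤ) - s) (fun m => (m + s).toNat) ?_ ?_ ?_ ?_ ?_
  · intro l hl
    rw [Finset.mem_Ioc] at hl ⊢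
    omega
  · intro m hm
    rw [Finset.mem_Ioc] at hm ⊢
    omega
  · intro l _
    simp
  · intro m hm
    rw [Finset.mem_Ioc] at hm
    omega
  · intro l _
    push_cast
    rfl

/-! ### the sum over all `l > k₀` -/

/-- derivative of `La` in `u` -/
noncomputable def dLa (u v : ℂ) : ℂ := -(2 * Real.pi * Complex.I) + lp (u + v) + lp (u - v)

/-- `∫_{η}^{1/2} dLa u v dv` -/
noncomputable def S1 (η : ℝ) (u : ℂ) : ℂ :=
  -(Real.pi * Complex.I) + 2 * Real.pi * Complex.I * η - ll (u + η) + ll (u - η)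

lemma hasDerivAt_La {u : ℂ} (hu : 0 < u.im) (v x : ℝ) :
    HasDerivAt (fun x : ℝ => La (u + x) v) (dLa (u + x) v) x := by
  have h1 := hasDerivAt_hor (fun w hw => hasDerivAt_ll hw) (w := u + v) (by simpa using hu) x
  have h2 := hasDerivAt_hor (fun w hw => hasDerivAt_ll hw) (w := u - v) (by simpa using hu) x
  have h3 : HasDerivAt (fun x : ℝ => -(2 * Real.pi * Complex.I) * (u + x : ℂ))
      (-(2 * Real.pi * Complex.I)) x := by
    have h4 : HasDerivAt (fun x : ℝ => (u + x : ℂ)) 1 x := by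
      simpa using ((hasDerivAt_id (x : ℂ)).comp_ofReal).const_add u
    simpa using h4.const_mul (-(2 * Real.pi * Complex.I))
  have h5 := (h3.add h1).add h2
  have e1 : (fun x : ℝ => La (u + x) v) = fun x : ℝ => -(2 * Real.pi * Complex.I) * (u + x : ℂ) +
      ll (u + v + x) + ll (u - v + x) := by
    funext x
    unfold La
    rw [show u + (x : ℂ) + v = u + v + x by ring, show u + (x : ℂ) - v = u - v + x by ring,
      neg_mul]
  have e2 : dLa (u + x) v = -(2 * Real.pi * Complex.I) + lp (u + v + x) + lp (u - v + x) := by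
    unfold dLa
    rw [show u + (x : ℂ) + v = u + v + x by ring, show u + (x : ℂ) - v = u - v + x by ring]
  rw [e1, e2]
  exact h5

lemma im_add_real (u : ℂ) (x : ℝ) : (u + x).im = u.im := by simp

lemma im_sub_real (u : ℂ) (x : ℝ) : (u - x).im = u.im := by simp

/-- Riemann sums of `dLa` -/
lemma sum_dLa {u : ℂ} (hu : 0 < u.im) {η : ℝ} {n : ℕ} (hn : 0 < n) {m₁ m₂ : ℤ} (hm : m₁ ≤ m₂)
    (h1 : |(m₁ : ℝ) - η * n| ≤ 1) (h2 : |(m₂ : ℝ) - n / 2| ≤ 1) (h3 : (m₂ : ℝ) - m₁ ≤ n) :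
    ‖(∑ m ∈ Ioc m₁ m₂, dLa u (((m : ℝ) / n : ℝ) : ℂ)) - n * S1 η u‖ ≤
      6 * bd u.im + 4 * Real.pi := by
  have hn' : (0 : ℝ) < n := by exact_mod_cast hn
  have hb : 0 ≤ bd u.im := (norm_nonneg _).trans (norm_lp hu)
  set Φ : ℝ → ℂ := fun v => -(2 * Real.pi * Complex.I) * v + ll (u + v) - ll (u - v) with hΦ
  have d1 : ∀ v : ℝ, HasDerivAt Φ (dLa u v) v := by
    intro v
    have a1 := hasDerivAt_hor (fun w hw => hasDerivAt_ll hw) hu v
    have a2 := hasDerivAt_hor_neg (fun w hw => hasDerivAt_ll hw) hu v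
    have a3 : HasDerivAt (fun v : ℝ => -(2 * Real.pi * Complex.I) * (v : ℂ))
        (-(2 * Real.pi * Complex.I)) v := by
      simpa using ((hasDerivAt_id (v : ℂ)).comp_ofReal).const_mul (-(2 * Real.pi * Complex.I))
    have a4 := (a3.add a1).sub a2
    rw [sub_neg_eq_add] at a4
    exact a4
  have d2 : ∀ v : ℝ, HasDerivAt (fun v : ℝ => dLa u v) (lpp (u + v) - lpp (u - v)) v := by
    intro v
    have a1 := hasDerivAt_hor (fun w hw => hasDerivAt_lp hw) hu v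
    have a2 := hasDerivAt_hor_neg (fun w hw => hasDerivAt_lp hw) hu v
    have a4 := (a1.const_add (-(2 * Real.pi * Complex.I))).add a2
    rw [← sub_eq_add_neg] at a4
    exact a4
  have d3 : ∀ v : ℝ, ‖lpp (u + v) - lpp (u - v)‖ ≤ 2 * bd u.im := by
    intro v
    have b1 := norm_lpp (w := u + v) (by rw [im_add_real]; exact hu)
    have b2 := norm_lpp (w := u - v) (by rw [im_sub_real]; exact hu)
    rw [im_add_real] at b1
    rw [im_sub_real] at b2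
    refine (norm_sub_le _ _).trans (by linarith)
  have d4 : ∀ v : ℝ, ‖dLa u v‖ ≤ 2 * Real.pi + 2 * bd u.im := by
    intro v
    have b1 := norm_lp (w := u + v) (by rw [im_add_real]; exact hu)
    have b2 := norm_lp (w := u - v) (by rw [im_sub_real]; exact hu)
    rw [im_add_real] at b1
    rw [im_sub_real] at b2
    have e : ‖-(2 * Real.pi * Complex.I : ℂ)‖ = 2 * Real.pi := by
      rw [norm_neg, norm_mul, Complex.norm_I, mul_one,
        show (2 * Real.pi : ℂ) = ((2 * Real.pi : ℝ) : ℂ) by push_cast; ring, Complex.norm_real,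
        Real.norm_of_nonneg (by positivity)]
    unfold dLa
    refine (norm_add_le _ _).trans ?_
    have := norm_add_le (-(2 * Real.pi * Complex.I : ℂ)) (lp (u + v))
    linarith
  have k1 := riemann_anti d1 d2 d3 hn hm
  have k2 := mvt_bound' d1 d4 (1 / 2) ((m₂ : ℝ) / n)
  have k3 := mvt_bound' d1 d4 η ((m₁ : ℝ) / n)
  have e1 : |(m₂ : ℝ) / n - 1 / 2| ≤ 1 / n := by
    rw [show (m₂ : ℝ) / n - 1 / 2 = ((m₂ : ℝ) - n / 2) / n by field_simp, abs_div,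
      abs_of_pos hn']
    exact div_le_div_of_nonneg_right h2 hn'.le
  have e2 : |(m₁ : ℝ) / n - η| ≤ 1 / n := by
    rw [show (m₁ : ℝ) / n - η = ((m₁ : ℝ) - η * n) / n by field_simp, abs_div,
      abs_of_pos hn']
    exact div_le_div_of_nonneg_right h1 hn'.le
  have hC : 0 ≤ 2 * Real.pi + 2 * bd u.im := by positivity
  have k2' := k2.trans (mul_le_mul_of_nonneg_left e1 hC)
  have k3' := k3.trans (mul_le_mul_of_nonneg_left e2 hC)
  have hS : S1 η u = Φ (1 / 2) - Φ η := by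
    have e3 : ll (u + ((1 / 2 : ℝ) : ℂ)) = ll (u - ((1 / 2 : ℝ) : ℂ)) := by
      unfold ll
      congr 2
      rw [show (2 * Real.pi * Complex.I * (u + ((1 / 2 : ℝ) : ℂ)) : ℂ) =
        2 * Real.pi * Complex.I * (u - ((1 / 2 : ℝ) : ℂ)) + 2 * Real.pi * Complex.I by
          push_cast; ring, Complex.exp_add, Complex.exp_two_pi_mul_I, mul_one]
    rw [hΦ]
    simp only
    rw [e3]
    unfold S1
    push_cast
    ring
  have key : (∑ m ∈ Ioc m₁ m₂, dLa u (((m : ℝ) / n : ℝ) : ℂ)) - n * S1 η u =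
      ((∑ m ∈ Ioc m₁ m₂, dLa u (((m : ℝ) / n : ℝ) : ℂ)) -
        (n : ℝ) • (Φ ((m₂ : ℝ) / n) - Φ ((m₁ : ℝ) / n))) +
      (n : ℝ) • (Φ ((m₂ : ℝ) / n) - Φ (1 / 2)) - (n : ℝ) • (Φ ((m₁ : ℝ) / n) - Φ η) := by
    rw [hS]
    simp only [Complex.real_smul, Complex.ofReal_natCast]
    ring
  rw [key]
  refine (norm_sub_le _ _).trans ?_
  refine (add_le_add (norm_add_le _ _) le_rfl).trans ?_
  rw [norm_smul, norm_smul, Real.norm_of_nonneg hn'.le]
  have k1' : 2 * bd u.im * ((m₂ : ℝ) - m₁) / n ≤ 2 * bd u.im := by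
    rw [div_le_iff₀ hn']
    exact mul_le_mul_of_nonneg_left h3 (by positivity)
  have k4 := mul_le_mul_of_nonneg_left k2' hn'.le
  have k5 := mul_le_mul_of_nonneg_left k3' hn'.le
  have e6 : (n : ℝ) * ((2 * Real.pi + 2 * bd u.im) * (1 / n)) = 2 * Real.pi + 2 * bd u.im := by
    field_simp
  rw [e6] at k4 k5
  linarith

lemma k0_floor {η₀ : ℝ} (h0 : 0 ≤ η₀) (s : ℕ) :
    |((((k0 η₀ s : ℕ) : ℤ) - s : ℤ) : ℝ) - η₀ * ((2 * s + 1 : ℕ) : ℝ)| ≤ 1 := by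
  have h1 : 0 ≤ η₀ * ((2 * s + 1 : ℕ) : ℝ) := by positivity
  have h2 := Nat.floor_le h1
  have h3 := Nat.lt_floor_add_one (η₀ * ((2 * s + 1 : ℕ) : ℝ))
  have e : ((((k0 η₀ s : ℕ) : ℤ) - s : ℤ) : ℝ) = (⌊η₀ * ((2 * s + 1 : ℕ) : ℝ)⌋₊ : ℝ) := by
    unfold k0
    push_cast
    ring
  rw [e, abs_le]
  constructor <;> linarith

lemma k0_le' {η₀ : ℝ} (h0 : 0 ≤ η₀) (h1 : η₀ < 1 / 2) (s : ℕ) : k0 η₀ s ≤ 2 * s := by
  have h2 : 0 ≤ η₀ * ((2 * s + 1 : ℕ) : ℝ) := by positivity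
  have h3 : ⌊η₀ * ((2 * s + 1 : ℕ) : ℝ)⌋₊ < s + 1 := by
    rw [Nat.floor_lt h2]
    have : (0 : ℝ) < ((2 * s + 1 : ℕ) : ℝ) := by positivity
    push_cast at this ⊢
    nlinarith
  unfold k0
  omega

/-- `√n → ∞` -/
lemma sqrt_n_inv : Tendsto (fun s : ℕ => (√((2 * s + 1 : ℕ) : ℝ))⁻¹) atTop (𝓝 0) := by
  apply tendsto_inv_atTop_zero.comp
  apply Real.tendsto_sqrt_atTop.comp
  apply tendsto_natCast_atTop_atTop.comp
  exact tendsto_atTop_mono (fun s => by omega : ∀ s : ℕ, s ≤ 2 * s + 1) tendsto_id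

lemma sqrt_n_pos (s : ℕ) : 0 < √((2 * s + 1 : ℕ) : ℝ) :=
  Real.sqrt_pos.mpr (by exact_mod_cast Nat.succ_pos _)

lemma hasDerivAt_S1 {η₀ : ℝ} {u : ℂ} (hu : 0 < u.im) :
    HasDerivAt (fun x : ℝ => S1 η₀ (u + x)) (-(lp (u + η₀) - lp (u - η₀))) (0 : ℝ) := by
  have h1 := hasDerivAt_hor (fun w hw => hasDerivAt_ll hw) (w := u + η₀) (by simpa using hu) 0
  have h2 := hasDerivAt_hor (fun w hw => hasDerivAt_ll hw) (w := u - η₀) (by simpa using hu) 0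
  have h3 := (h1.const_sub (-(Real.pi * Complex.I) + 2 * Real.pi * Complex.I * η₀)).add h2
  have e1 : (fun x : ℝ => S1 η₀ (u + x)) = fun x : ℝ =>
      -(Real.pi * Complex.I) + 2 * Real.pi * Complex.I * η₀ - ll (u + η₀ + x) +
        ll (u - η₀ + x) := by
    funext x
    unfold S1
    rw [show u + (x : ℂ) + η₀ = u + η₀ + x by ring, show u + (x : ℂ) - η₀ = u - η₀ + x by ring]
  have e2 : -(lp (u + η₀) - lp (u - η₀)) = -lp (u + η₀ + ((0 : ℝ) : ℂ)) +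
      lp (u - η₀ + ((0 : ℝ) : ℂ)) := by
    rw [Complex.ofReal_zero, add_zero, add_zero]
    ring
  rw [e1, e2]
  exact h3

/-- the logarithm of the first ratio -/
lemma T_lim {η₀ : ℝ} (h0 : 0 < η₀) (h1 : η₀ < 1 / 2) {u : ℂ} (hu : 0 < u.im) (Y : ℝ) :
    Tendsto (fun s : ℕ =>
      (∑ l ∈ Ioc (k0 η₀ s) (2 * s), La (u + ((Y / √((2 * s + 1 : ℕ) : ℝ) : ℝ) : ℂ))
        ((((l : ℝ) - s) / ((2 * s + 1 : ℕ) : ℝ) : ℝ) : ℂ)) -
      (∑ l ∈ Ioc (k0 η₀ s) (2 * s), La u ((((l : ℝ) - s) / ((2 * s + 1 : ℕ) : ℝ) : ℝ) : ℂ)) -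
      (√((2 * s + 1 : ℕ) : ℝ) : ℂ) * Y * S1 η₀ u) atTop
      (𝓝 (-(lp (u + η₀) - lp (u - η₀)) / 2 * Y ^ 2)) := by
  set S2 : ℂ := -(lp (u + η₀) - lp (u - η₀)) with hS2
  set C : ℝ := 6 * bd u.im + 4 * Real.pi with hC
  have hb : 0 ≤ bd u.im := (norm_nonneg _).trans (norm_lp hu)
  have hpi := Real.pi_pos
  have hC0 : 0 < C := by positivity
  rw [tendsto_iff_norm_sub_tendsto_zero, Metric.tendsto_atTop']
  intro e he
  set ε : ℝ := e / (2 * (Y ^ 2 + 1)) with hε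
  have hε0 : 0 < ε := by positivity
  have hd := (hasDerivAt_iff_isLittleO.mp (hasDerivAt_S1 (η₀ := η₀) hu)).def hε0
  obtain ⟨δ, hδ, hT⟩ := Metric.eventually_nhds_iff.mp hd
  have hh : Tendsto (fun s : ℕ => |Y / √((2 * s + 1 : ℕ) : ℝ)|) atTop (𝓝 0) := by
    have h2 := (sqrt_n_inv.const_mul Y).abs
    rw [mul_zero, abs_zero] at h2
    exact h2
  have e1 : ∀ᶠ s : ℕ in atTop, |Y / √((2 * s + 1 : ℕ) : ℝ)| < δ := hh.eventually (gt_mem_nhds hδ)
  have e2 : ∀ᶠ s : ℕ in atTop, |Y / √((2 * s + 1 : ℕ) : ℝ)| < e / (2 * C) :=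
    hh.eventually (gt_mem_nhds (by positivity))
  obtain ⟨N, hN⟩ := (e1.and e2).exists_forall_of_atTop
  refine ⟨N, fun s hs => ?_⟩
  obtain ⟨a1, a2⟩ := hN s hs.le
  rw [Real.dist_eq, sub_zero, abs_norm]
  set n : ℕ := 2 * s + 1 with hn
  have hn0 : 0 < n := by omega
  have hn' : (0 : ℝ) < n := by exact_mod_cast hn0
  have hsq : √(n : ℝ) ^ 2 = n := Real.sq_sqrt hn'.le
  have hsp : 0 < √(n : ℝ) := Real.sqrt_pos.mpr hn'
  set h : ℝ := Y / √(n : ℝ) with hh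
  set T : ℝ → ℂ := fun x => ∑ l ∈ Ioc (k0 η₀ s) (2 * s),
    La (u + x) ((((l : ℝ) - s) / (n : ℝ) : ℝ) : ℂ) with hTd
  have dT : ∀ x : ℝ, HasDerivAt T (∑ l ∈ Ioc (k0 η₀ s) (2 * s),
      dLa (u + x) ((((l : ℝ) - s) / (n : ℝ) : ℝ) : ℂ)) x := by
    intro x
    exact HasDerivAt.fun_sum fun l _ => hasDerivAt_La hu _ x
  have bT : ∀ x : ℝ, ‖(∑ l ∈ Ioc (k0 η₀ s) (2 * s),
      dLa (u + x) ((((l : ℝ) - s) / (n : ℝ) : ℝ) : ℂ)) - n * S1 η₀ (u + x)‖ ≤ C := by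
    intro x
    rw [sum_shift (fun v : ℝ => dLa (u + x) (v : ℂ)) s (k0 η₀ s) (2 * s) (n : ℝ)]
    have hx : 0 < (u + x).im := by rw [im_add_real]; exact hu
    have hk := k0_floor h0.le s
    have hk2 := k0_le' h0.le h1 s
    have h3 := sum_dLa (u := u + x) hx (η := η₀) (n := n) hn0
      (m₁ := (k0 η₀ s : ℤ) - s) (m₂ := ((2 * s : ℕ) : ℤ) - s) (by omega) hk (by
        have e3 : ((((2 * s : ℕ) : ℤ) - s : ℤ) : ℝ) - (n : ℝ) / 2 = -(1 / 2) := by
          rw [hn]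
          push_cast
          ring
        rw [e3, abs_neg, abs_of_pos (by norm_num)]
        norm_num) (by
        have : (((2 * s : ℕ) : ℤ) - s) - ((k0 η₀ s : ℤ) - s) ≤ n := by omega
        exact_mod_cast this)
    rw [im_add_real] at h3
    exact h3
  have dE : ∀ x ∈ Set.uIcc 0 h, HasDerivAt (fun x : ℝ => T x -
      (n : ℂ) * ((x : ℂ) * S1 η₀ u + (x : ℂ) ^ 2 / 2 * S2))
      ((∑ l ∈ Ioc (k0 η₀ s) (2 * s), dLa (u + x) ((((l : ℝ) - s) / (n : ℝ) : ℝ) : ℂ)) -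
        (n : ℂ) * (S1 η₀ u + (x : ℂ) * S2)) x := by
    intro x _
    have b1 : HasDerivAt (fun x : ℝ => (x : ℂ)) 1 x := (hasDerivAt_id (x : ℂ)).comp_ofReal
    have b2 : HasDerivAt (fun x : ℝ => (x : ℂ) ^ 2 / 2) (x : ℂ) x := by
      have := (((hasDerivAt_id (x : ℂ)).pow 2).div_const 2).comp_ofReal
      simpa using this
    have b3 := (((b1.mul_const (S1 η₀ u)).add (b2.mul_const S2)).const_mul (n : ℂ))
    rw [one_mul] at b3
    exact (dT x).sub b3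
  have bE : ∀ x ∈ Set.uIcc 0 h, ‖(∑ l ∈ Ioc (k0 η₀ s) (2 * s),
      dLa (u + x) ((((l : ℝ) - s) / (n : ℝ) : ℝ) : ℂ)) -
        (n : ℂ) * (S1 η₀ u + (x : ℂ) * S2)‖ ≤ C + n * ε * |h| := by
    intro x hx
    have hxh : |x| ≤ |h| := by
      have := Set.abs_sub_left_of_mem_uIcc hx
      simpa using this
    have c1 := bT x
    have c2 := hT (y := x) (by rw [Real.dist_eq, sub_zero]; exact lt_of_le_of_lt hxh a1)
    simp only [Complex.ofReal_zero, add_zero, sub_zero, Complex.real_smul, Real.norm_eq_abs] at c2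
    have e3 : (∑ l ∈ Ioc (k0 η₀ s) (2 * s), dLa (u + x) ((((l : ℝ) - s) / (n : ℝ) : ℝ) : ℂ)) -
        (n : ℂ) * (S1 η₀ u + (x : ℂ) * S2) =
        ((∑ l ∈ Ioc (k0 η₀ s) (2 * s), dLa (u + x) ((((l : ℝ) - s) / (n : ℝ) : ℝ) : ℂ)) -
          n * S1 η₀ (u + x)) + (n : ℂ) * (S1 η₀ (u + x) - S1 η₀ u - (x : ℂ) * S2) := by
      ring
    rw [e3]
    refine (norm_add_le _ _).trans (add_le_add c1 ?_)
    rw [norm_mul, Complex.norm_natCast, mul_assoc]
    apply mul_le_mul_of_nonneg_left _ hn'.le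
    exact c2.trans (mul_le_mul_of_nonneg_left hxh hε0.le)
  have c3 := mvt_bound dE bE
  simp only [Complex.ofReal_zero, sub_zero] at c3
  have e4 : (∑ l ∈ Ioc (k0 η₀ s) (2 * s), La (u + (h : ℂ)) ((((l : ℝ) - s) / (n : ℝ) : ℝ) : ℂ)) -
      (∑ l ∈ Ioc (k0 η₀ s) (2 * s), La u ((((l : ℝ) - s) / (n : ℝ) : ℝ) : ℂ)) -
      (√(n : ℝ) : ℂ) * Y * S1 η₀ u - S2 / 2 * Y ^ 2 =
      T h - (n : ℂ) * ((h : ℂ) * S1 η₀ u + (h : ℂ) ^ 2 / 2 * S2) -
        (T 0 - (n : ℂ) * (0 * S1 η₀ u + 0 ^ 2 / 2 * S2)) := by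
    have f1 : (n : ℂ) * (h : ℂ) = (√(n : ℝ) : ℂ) * Y := by
      rw [← Complex.ofReal_natCast, ← Complex.ofReal_mul, ← Complex.ofReal_mul]
      congr 1
      rw [hh]
      field_simp
      rw [hsq]
      ring
    have f2 : (n : ℂ) * (h : ℂ) ^ 2 = (Y : ℂ) ^ 2 := by
      rw [← Complex.ofReal_natCast, ← Complex.ofReal_pow, ← Complex.ofReal_pow,
        ← Complex.ofReal_mul]
      congr 1
      rw [hh]
      field_simp
      rw [hsq]
      ring
    have f3 : T 0 = ∑ l ∈ Ioc (k0 η₀ s) (2 * s), La u ((((l : ℝ) - s) / (n : ℝ) : ℝ) : ℂ) := by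
      rw [hTd]
      simp only [Complex.ofReal_zero, add_zero]
    rw [f3, hTd]
    simp only
    linear_combination (S1 η₀ u) * f1 + S2 / 2 * f2
  rw [e4]
  refine c3.trans_lt ?_
  have c4 : (C + n * ε * |h|) * |h| = C * |h| + ε * Y ^ 2 := by
    have f2 : (n : ℝ) * |h| ^ 2 = Y ^ 2 := by
      rw [sq_abs, hh]
      field_simp
      rw [hsq]
      ring
    linear_combination ε * f2
  rw [c4]
  have c5 : C * |h| < e / 2 := by
    have := mul_lt_mul_of_pos_left a2 hC0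
    rwa [show C * (e / (2 * C)) = e / 2 by field_simp] at this
  have c6 : ε * Y ^ 2 ≤ e / 2 := by
    rw [hε, div_mul_eq_mul_div, div_le_div_iff₀ (by positivity) (by norm_num)]
    nlinarith [sq_nonneg Y]
  linarith

lemma z_eq (s : ℕ) (u : ℂ) (Y : ℝ) : ((2 * s + 1 : ℕ) : ℂ) * u + (√((2 * s + 1 : ℕ) : ℝ) : ℂ) * Y =
    ((2 * s + 1 : ℕ) : ℂ) * (u + ((Y / √((2 * s + 1 : ℕ) : ℝ) : ℝ) : ℂ)) := by
  have hn' : (0 : ℝ) < ((2 * s + 1 : ℕ) : ℝ) := by exact_mod_cast Nat.succ_pos _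
  have hsq : √((2 * s + 1 : ℕ) : ℝ) ^ 2 = ((2 * s + 1 : ℕ) : ℝ) := Real.sq_sqrt hn'.le
  have hsp := sqrt_n_pos s
  rw [mul_add]
  congr 1
  rw [← Complex.ofReal_natCast (2 * s + 1), ← Complex.ofReal_mul, ← Complex.ofReal_mul]
  congr 1
  field_simp
  rw [hsq]
  ring

lemma u_im {ς₀ ρ₀ : ℝ} : ((ς₀ : ℂ) + ρ₀ * Complex.I).im = ρ₀ := by simp

/-- the sum over all `l > k₀`, `z₀ → z₀ + √n Y` -/
theorem ptw_Q1 {η₀ ς₀ ρ₀ : ℝ} (h0 : 0 < η₀) (h1 : η₀ < 1 / 2) (hρ : 0 < ρ₀) (Y : ℝ) :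
    Tendsto (fun s : ℕ => Qk s (k0 η₀ s) (((2 * s + 1 : ℕ) : ℂ) * (ς₀ + ρ₀ * Complex.I) +
        (√((2 * s + 1 : ℕ) : ℝ) : ℂ) * Y) /
      Qk s (k0 η₀ s) (((2 * s + 1 : ℕ) : ℂ) * (ς₀ + ρ₀ * Complex.I)) *
      Complex.exp (-((√((2 * s + 1 : ℕ) : ℝ) : ℂ) * Y * (-(Real.pi * Complex.I) +
        2 * Real.pi * Complex.I * η₀ - ll ((ς₀ + ρ₀ * Complex.I) + η₀) +
        ll ((ς₀ + ρ₀ * Complex.I) - η₀))))) atTop
      (𝓝 (Complex.exp (-(lp ((ς₀ + ρ₀ * Complex.I) + η₀) - lp ((ς₀ + ρ₀ * Complex.I) - η₀)) / 2 *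
        Y ^ 2))) := by
  set u : ℂ := ς₀ + ρ₀ * Complex.I with hu
  have hu0 : 0 < u.im := by rw [hu, u_im]; exact hρ
  refine ((Complex.continuous_exp.tendsto _).comp (T_lim h0 h1 hu0 Y)).congr fun s => ?_
  simp only [Function.comp]
  rw [z_eq, Qk_exp s _ (by rw [im_add_real]; exact hu0), Qk_exp s _ hu0, ← Complex.exp_sub,
    ← Complex.exp_add]
  congr 1

/-! ### the factors between `k₀` and `k₀ + j` -/

lemma tel {E : Type*} [NormedAddCommGroup E] {F : ℤ → E} {B : ℝ} {R : ℤ} (h0 : F 0 = 0)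
    (h : ∀ x : ℤ, |x| ≤ R → ‖F x - F (x - 1)‖ ≤ B) :
    ∀ x : ℤ, |x| ≤ R → ‖F x‖ ≤ |(x : ℝ)| * B := by
  have pos : ∀ k : ℕ, (k : ℤ) ≤ R → ‖F k‖ ≤ k * B := by
    intro k
    induction k with
    | zero => intro _; simp [h0]
    | succ k ih =>
      intro hk
      push_cast at hk
      have h1 := ih (by omega)
      have h2 := h ((k : ℤ) + 1) (by rw [abs_of_nonneg (by omega)]; exact hk)
      rw [add_sub_cancel_right] at h2
      push_cast
      calc ‖F ((k : ℤ) + 1)‖ = ‖(F ((k : ℤ) + 1) - F k) + F k‖ := by rw [sub_add_cancel]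
        _ ≤ ‖F ((k : ℤ) + 1) - F k‖ + ‖F k‖ := norm_add_le _ _
        _ ≤ B + k * B := add_le_add h2 h1
        _ = (k + 1) * B := by ring
  have neg : ∀ k : ℕ, (k : ℤ) ≤ R → ‖F (-(k : ℤ))‖ ≤ k * B := by
    intro k
    induction k with
    | zero => intro _; simp [h0]
    | succ k ih =>
      intro hk
      push_cast at hk
      have h1 := ih (by omega)
      have h2 := h (-(k : ℤ)) (by rw [abs_neg, abs_of_nonneg (by omega)]; omega)
      have h3 : -(((k + 1 : ℕ) : ℤ)) = -(k : ℤ) - 1 := by push_cast; ring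
      rw [h3]
      push_cast
      calc ‖F (-(k : ℤ) - 1)‖ = ‖F (-(k : ℤ)) - (F (-(k : ℤ)) - F (-(k : ℤ) - 1))‖ := by
            rw [sub_sub_cancel]
        _ ≤ ‖F (-(k : ℤ))‖ + ‖F (-(k : ℤ)) - F (-(k : ℤ) - 1)‖ := norm_sub_le _ _
        _ ≤ k * B + B := add_le_add h1 h2
        _ = (k + 1) * B := by ring
  intro x hx
  obtain ⟨k, rfl | rfl⟩ := x.eq_nat_or_neg
  · rw [abs_of_nonneg (by omega)] at hx
    simpa using pos k hx
  · rw [abs_neg, abs_of_nonneg (by omega)] at hx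
    simpa using neg k hx

lemma La_taylor {u : ℂ} (hu : 0 < u.im) (x v v₀ : ℝ) :
    ‖La (u + x) v - La u v₀ - x * dLa u v₀ - ((v - v₀ : ℝ) : ℂ) * (lp (u + v₀) - lp (u - v₀))‖ ≤
      2 * bd u.im * (x ^ 2 + (v - v₀) ^ 2) := by
  have h1 := ll_taylor (w := u + v₀) (by rw [im_add_real]; exact hu) (x + (v - v₀))
  have h2 := ll_taylor (w := u - v₀) (by rw [im_sub_real]; exact hu) (x - (v - v₀))
  rw [im_add_real] at h1
  rw [im_sub_real] at h2
  have e1 : u + v₀ + ((x + (v - v₀) : ℝ) : ℂ) = u + x + v := by push_cast; ring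
  have e2 : u - v₀ + ((x - (v - v₀) : ℝ) : ℂ) = u + x - v := by push_cast; ring
  rw [e1] at h1
  rw [e2] at h2
  have e3 : La (u + x) v - La u v₀ - x * dLa u v₀ -
      ((v - v₀ : ℝ) : ℂ) * (lp (u + v₀) - lp (u - v₀)) =
      (ll (u + x + v) - ll (u + v₀) - ((x + (v - v₀) : ℝ) : ℂ) * lp (u + v₀)) +
      (ll (u + x - v) - ll (u - v₀) - ((x - (v - v₀) : ℝ) : ℂ) * lp (u - v₀)) := by
    unfold La dLa
    push_cast
    ring
  rw [e3]
  refine (norm_add_le _ _).trans ((add_le_add h1 h2).trans (le_of_eq ?_))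
  ring

/-- the bound for the logarithm of the second ratio -/
lemma R_bound {η₀ : ℝ} (h0 : 0 < η₀) {u : ℂ} (hu : 0 < u.im) (s : ℕ) (h : ℝ) (j : ℤ)
    (hj1 : |j| + 1 ≤ (k0 η₀ s : ℤ)) (hj2 : |j| + (k0 η₀ s : ℤ) ≤ 2 * s) :
    ‖(∑ l ∈ Ioc ((k0 η₀ s : ℤ) + j).toNat (2 * s), La (u + h)
        ((((l : ℝ) - s) / ((2 * s + 1 : ℕ) : ℝ) : ℝ) : ℂ)) -
      (∑ l ∈ Ioc (k0 η₀ s) (2 * s), La (u + h)
        ((((l : ℝ) - s) / ((2 * s + 1 : ℕ) : ℝ) : ℝ) : ℂ)) +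
      j * La u η₀ + j * h * dLa u η₀ +
      (((j * ((k0 η₀ s : ℝ) - s - η₀ * ((2 * s + 1 : ℕ) : ℝ)) + j * (j + 1) / 2) /
        ((2 * s + 1 : ℕ) : ℝ) : ℝ) : ℂ) * (lp (u + η₀) - lp (u - η₀))‖ ≤
      |(j : ℝ)| * (2 * bd u.im * (h ^ 2 + ((|(j : ℝ)| + 1) / ((2 * s + 1 : ℕ) : ℝ)) ^ 2)) := by
  set n : ℕ := 2 * s + 1 with hn
  have hn' : (0 : ℝ) < n := by exact_mod_cast (by omega : 0 < n)
  have hb : 0 ≤ bd u.im := (norm_nonneg _).trans (norm_lp hu)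
  set F : ℤ → ℂ := fun x => (∑ l ∈ Ioc ((k0 η₀ s : ℤ) + x).toNat (2 * s), La (u + h)
        ((((l : ℝ) - s) / (n : ℝ) : ℝ) : ℂ)) -
      (∑ l ∈ Ioc (k0 η₀ s) (2 * s), La (u + h) ((((l : ℝ) - s) / (n : ℝ) : ℝ) : ℂ)) +
      x * La u η₀ + x * h * dLa u η₀ +
      (((x * ((k0 η₀ s : ℝ) - s - η₀ * (n : ℝ)) + x * (x + 1) / 2) / (n : ℝ) : ℝ) : ℂ) *
        (lp (u + η₀) - lp (u - η₀)) with hF
  refine tel (F := F) (R := |j|) (by simp [hF]) ?_ j le_rfl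
  intro x hx
  have hxa := abs_le.mp hx
  obtain ⟨k, hk⟩ : ∃ k : ℕ, (k0 η₀ s : ℤ) + x = (k : ℤ) + 1 :=
    ⟨((k0 η₀ s : ℤ) + x - 1).toNat, by omega⟩
  have e1 : ((k0 η₀ s : ℤ) + x).toNat = k + 1 := by omega
  have e2 : ((k0 η₀ s : ℤ) + (x - 1)).toNat = k := by omega
  have hk2 : k + 1 ≤ 2 * s := by omega
  have e3 : Ioc k (2 * s) = insert (k + 1) (Ioc (k + 1) (2 * s)) := by
    ext y; simp only [Finset.mem_Ioc, Finset.mem_insert]; omega
  have e4 : ∑ l ∈ Ioc k (2 * s), La (u + h) ((((l : ℝ) - s) / (n : ℝ) : ℝ) : ℂ) =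
      La (u + h) (((((k + 1 : ℕ) : ℝ) - s) / (n : ℝ) : ℝ) : ℂ) +
      ∑ l ∈ Ioc (k + 1) (2 * s), La (u + h) ((((l : ℝ) - s) / (n : ℝ) : ℝ) : ℂ) := by
    rw [e3, Finset.sum_insert (by simp)]
  have hkR : ((k + 1 : ℕ) : ℝ) = (k0 η₀ s : ℝ) + x := by
    have : ((k0 η₀ s : ℤ) : ℝ) + (x : ℝ) = (k : ℝ) + 1 := by exact_mod_cast hk
    push_cast at this ⊢
    linarith
  set v : ℝ := (((k + 1 : ℕ) : ℝ) - s) / (n : ℝ) with hv
  have hv' : v - η₀ = ((k0 η₀ s : ℝ) - s - η₀ * n + x) / n := by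
    rw [hv, hkR]
    field_simp
    ring
  have hdiff : F x - F (x - 1) = -(La (u + h) v - La u η₀ - h * dLa u η₀ -
      ((v - η₀ : ℝ) : ℂ) * (lp (u + η₀) - lp (u - η₀))) := by
    simp only [hF, e1, e2, e4]
    rw [hv']
    have hnc : (n : ℂ) ≠ 0 := by exact_mod_cast hn'.ne'
    push_cast
    field_simp
    ring
  rw [hdiff, norm_neg]
  refine (La_taylor hu h v η₀).trans ?_
  apply mul_le_mul_of_nonneg_left _ (by positivity)
  have h5 : |v - η₀| ≤ (|(j : ℝ)| + 1) / n := by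
    rw [hv', abs_div, abs_of_pos hn']
    apply div_le_div_of_nonneg_right _ hn'.le
    have h6 := k0_floor h0.le s
    have e5 : ((((k0 η₀ s : ℕ) : ℤ) - s : ℤ) : ℝ) = (k0 η₀ s : ℝ) - s := by push_cast; ring
    rw [e5, ← hn] at h6
    have h7 : |(x : ℝ)| ≤ |(j : ℝ)| := by exact_mod_cast hx
    calc |(k0 η₀ s : ℝ) - s - η₀ * n + x| ≤ |(k0 η₀ s : ℝ) - s - η₀ * n| + |(x : ℝ)| :=
          abs_add_le _ _
      _ ≤ |(j : ℝ)| + 1 := by linarith
  have h8 : (v - η₀) ^ 2 ≤ ((|(j : ℝ)| + 1) / n) ^ 2 := by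
    rw [← sq_abs (v - η₀)]
    exact pow_le_pow_left₀ (abs_nonneg _) h5 2
  linarith

/-- `j = o(n)` -/
lemma j_small {j : ℕ → ℤ} {X : ℝ}
    (hj : Tendsto (fun s : ℕ => (j s : ℝ) / √((2 * s + 1 : ℕ) : ℝ)) atTop (𝓝 X)) :
    Tendsto (fun s : ℕ => |(j s : ℝ)| / ((2 * s + 1 : ℕ) : ℝ)) atTop (𝓝 0) := by
  have h := (hj.mul sqrt_n_inv).abs
  rw [mul_zero, abs_zero] at h
  refine h.congr fun s => ?_
  have h1 := sqrt_n_pos s
  rw [abs_mul, abs_div, abs_of_pos h1, abs_of_pos (inv_pos.mpr h1), div_eq_mul_inv, mul_assoc,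
    ← mul_inv, Real.mul_self_sqrt (by positivity), ← div_eq_mul_inv]

lemma j_range {η₀ : ℝ} (h0 : 0 < η₀) (h1 : η₀ < 1 / 2) {j : ℕ → ℤ} {X : ℝ}
    (hj : Tendsto (fun s : ℕ => (j s : ℝ) / √((2 * s + 1 : ℕ) : ℝ)) atTop (𝓝 X)) :
    ∀ᶠ s : ℕ in atTop, |j s| + 1 ≤ (k0 η₀ s : ℤ) ∧ |j s| + (k0 η₀ s : ℤ) ≤ 2 * s := by
  set c : ℝ := (1 / 2 - η₀) / 2 with hc
  have hc0 : 0 < c := by rw [hc]; linarith
  have e1 := (j_small hj).eventually (gt_mem_nhds hc0)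
  have e2 : ∀ᶠ s : ℕ in atTop, 4 / c < ((2 * s + 1 : ℕ) : ℝ) := by
    have : Tendsto (fun s : ℕ => ((2 * s + 1 : ℕ) : ℝ)) atTop atTop :=
      tendsto_natCast_atTop_atTop.comp (tendsto_atTop_mono (fun s => by omega : ∀ s : ℕ,
        s ≤ 2 * s + 1) tendsto_id)
    exact this.eventually (eventually_gt_atTop _)
  filter_upwards [e1, e2] with s a1 a2
  have hn' : (0 : ℝ) < ((2 * s + 1 : ℕ) : ℝ) := by positivity
  rw [div_lt_iff₀ hn'] at a1
  rw [div_lt_iff₀ hc0] at a2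
  have h2 : 0 ≤ η₀ * ((2 * s + 1 : ℕ) : ℝ) := by positivity
  have h3 := Nat.floor_le h2
  have hk : (k0 η₀ s : ℝ) = s + (⌊η₀ * ((2 * s + 1 : ℕ) : ℝ)⌋₊ : ℝ) := by
    unfold k0; push_cast; ring
  have hn2 : ((2 * s + 1 : ℕ) : ℝ) = 2 * s + 1 := by push_cast; ring
  have hfl : (0 : ℝ) ≤ (⌊η₀ * ((2 * s + 1 : ℕ) : ℝ)⌋₊ : ℝ) := Nat.cast_nonneg _
  have hηn : η₀ * ((2 * s + 1 : ℕ) : ℝ) = ((2 * s + 1 : ℕ) : ℝ) / 2 - 2 * (((2 * s + 1 : ℕ) : ℝ) * c) := by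
    rw [hc]; ring
  constructor
  · have : ((|j s| + 1 : ℤ) : ℝ) ≤ ((k0 η₀ s : ℤ) : ℝ) := by
      push_cast
      rw [hk]
      have h5 : ((2 * s + 1 : ℕ) : ℝ) * c ≤ ((2 * s + 1 : ℕ) : ℝ) / 4 := by
        have : c ≤ 1 / 4 := by rw [hc]; linarith
        nlinarith
      nlinarith
    exact_mod_cast this
  · have : ((|j s| + (k0 η₀ s : ℤ) : ℤ) : ℝ) ≤ ((2 * s : ℤ) : ℝ) := by
      push_cast
      rw [hk]
      nlinarith
    exact_mod_cast this

/-- the factors between `k₀` and `k₀ + j` -/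
theorem ptw_Q2 {η₀ ς₀ ρ₀ : ℝ} (h0 : 0 < η₀) (h1 : η₀ < 1 / 2) (hρ : 0 < ρ₀) {j : ℕ → ℤ} {X : ℝ}
    (hj : Tendsto (fun s : ℕ => (j s : ℝ) / √((2 * s + 1 : ℕ) : ℝ)) atTop (𝓝 X)) (Y : ℝ) :
    Tendsto (fun s : ℕ => Qk s ((k0 η₀ s : ℤ) + j s).toNat
        (((2 * s + 1 : ℕ) : ℂ) * (ς₀ + ρ₀ * Complex.I) + (√((2 * s + 1 : ℕ) : ℝ) : ℂ) * Y) /
      Qk s (k0 η₀ s) (((2 * s + 1 : ℕ) : ℂ) * (ς₀ + ρ₀ * Complex.I) +
        (√((2 * s + 1 : ℕ) : ℝ) : ℂ) * Y) *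
      Complex.exp (j s * (-(2 * Real.pi * Complex.I * (ς₀ + ρ₀ * Complex.I)) +
        ll ((ς₀ + ρ₀ * Complex.I) + η₀) + ll ((ς₀ + ρ₀ * Complex.I) - η₀)))) atTop
      (𝓝 (Complex.exp (-(lp ((ς₀ + ρ₀ * Complex.I) + η₀) - lp ((ς₀ + ρ₀ * Complex.I) - η₀)) / 2 *
        X ^ 2 + cB η₀ (ς₀ + ρ₀ * Complex.I) * X * Y))) := by
  set u : ℂ := ς₀ + ρ₀ * Complex.I with hu
  have hu0 : 0 < u.im := by rw [hu, u_im]; exact hρ
  have hb : 0 ≤ bd u.im := (norm_nonneg _).trans (norm_lp hu0)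
  set h : ℕ → ℝ := fun s => Y / √((2 * s + 1 : ℕ) : ℝ) with hh
  set F : ℕ → ℂ := fun s => (∑ l ∈ Ioc ((k0 η₀ s : ℤ) + j s).toNat (2 * s), La (u + h s)
        ((((l : ℝ) - s) / ((2 * s + 1 : ℕ) : ℝ) : ℝ) : ℂ)) -
      (∑ l ∈ Ioc (k0 η₀ s) (2 * s), La (u + h s)
        ((((l : ℝ) - s) / ((2 * s + 1 : ℕ) : ℝ) : ℝ) : ℂ)) +
      j s * La u η₀ + j s * h s * dLa u η₀ +
      (((j s * ((k0 η₀ s : ℝ) - s - η₀ * ((2 * s + 1 : ℕ) : ℝ)) + j s * (j s + 1) / 2) /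
        ((2 * s + 1 : ℕ) : ℝ) : ℝ) : ℂ) * (lp (u + η₀) - lp (u - η₀)) with hF
  have hjs := j_small hj
  have hinv : Tendsto (fun s : ℕ => (((2 * s + 1 : ℕ) : ℝ))⁻¹) atTop (𝓝 0) := by
    have := sqrt_n_inv.mul sqrt_n_inv
    rw [mul_zero] at this
    refine this.congr fun s => ?_
    rw [← mul_inv, Real.mul_self_sqrt (by positivity)]
  have hjj : Tendsto (fun s : ℕ => (j s : ℝ) ^ 2 / ((2 * s + 1 : ℕ) : ℝ)) atTop (𝓝 (X ^ 2)) := by
    refine (hj.pow 2).congr fun s => ?_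
    rw [div_pow, Real.sq_sqrt (by positivity)]
  have hj1 : Tendsto (fun s : ℕ => (j s : ℝ) / ((2 * s + 1 : ℕ) : ℝ)) atTop (𝓝 0) := by
    refine squeeze_zero_norm (fun s => ?_) hjs
    rw [Real.norm_eq_abs, abs_div, abs_of_nonneg (by positivity : (0 : ℝ) ≤ ((2 * s + 1 : ℕ) : ℝ))]
  -- `F → 0`
  have hF0 : Tendsto F atTop (𝓝 0) := by
    have hB : Tendsto (fun s : ℕ => |(j s : ℝ)| * (2 * bd u.im * ((h s) ^ 2 +
        ((|(j s : ℝ)| + 1) / ((2 * s + 1 : ℕ) : ℝ)) ^ 2))) atTop (𝓝 0) := by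
      have a1 := (hjs.const_mul (2 * bd u.im * Y ^ 2))
      have a2 := hjs.mul (((hjj.add (hjs.const_mul 2)).add hinv).const_mul (2 * bd u.im))
      have a3 := a1.add a2
      rw [mul_zero, zero_mul, add_zero] at a3
      refine a3.congr fun s => ?_
      have hn' : (0 : ℝ) < ((2 * s + 1 : ℕ) : ℝ) := by positivity
      have hsq : √((2 * s + 1 : ℕ) : ℝ) ^ 2 = ((2 * s + 1 : ℕ) : ℝ) := Real.sq_sqrt hn'.le
      have e1 : (h s) ^ 2 = Y ^ 2 / ((2 * s + 1 : ℕ) : ℝ) := by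
        rw [hh]
        simp only
        rw [div_pow, hsq]
      have e2 : (j s : ℝ) ^ 2 = |(j s : ℝ)| ^ 2 := (sq_abs _).symm
      rw [e1, e2]
      field_simp
      ring
    refine squeeze_zero_norm' ?_ hB
    filter_upwards [j_range h0 h1 hj] with s hs
    exact R_bound h0 hu0 s (h s) (j s) hs.1 hs.2
  -- the quadratic terms
  have hq1 : Tendsto (fun s : ℕ => (((j s : ℝ) * h s : ℝ) : ℂ)) atTop (𝓝 ((X * Y : ℝ) : ℂ)) := by
    refine (Complex.continuous_ofReal.tendsto _).comp ?_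
    refine (hj.mul_const Y).congr fun s => ?_
    rw [hh]
    simp only
    ring
  have hq2 : Tendsto (fun s : ℕ => (((j s * ((k0 η₀ s : ℝ) - s - η₀ * ((2 * s + 1 : ℕ) : ℝ)) +
      j s * (j s + 1) / 2) / ((2 * s + 1 : ℕ) : ℝ) : ℝ) : ℂ)) atTop
      (𝓝 ((X ^ 2 / 2 : ℝ) : ℂ)) := by
    refine (Complex.continuous_ofReal.tendsto _).comp ?_
    have b1 : Tendsto (fun s : ℕ => (j s : ℝ) * ((k0 η₀ s : ℝ) - s - η₀ *
        ((2 * s + 1 : ℕ) : ℝ)) / ((2 * s + 1 : ℕ) : ℝ)) atTop (𝓝 0) := by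
      refine squeeze_zero_norm (fun s => ?_) hjs
      rw [Real.norm_eq_abs, abs_div, abs_mul,
        abs_of_nonneg (by positivity : (0 : ℝ) ≤ ((2 * s + 1 : ℕ) : ℝ))]
      apply div_le_div_of_nonneg_right _ (by positivity)
      have h6 := k0_floor h0.le s
      have e5 : ((((k0 η₀ s : ℕ) : ℤ) - s : ℤ) : ℝ) = (k0 η₀ s : ℝ) - s := by push_cast; ring
      rw [e5] at h6
      exact (mul_le_mul_of_nonneg_left h6 (abs_nonneg _)).trans (by rw [mul_one])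
    have b2 := (b1.add (hjj.div_const 2)).add (hj1.div_const 2)
    rw [zero_add, zero_div, add_zero] at b2
    refine b2.congr fun s => ?_
    ring
  have hlim := (hF0.sub (hq1.mul_const (dLa u η₀))).sub (hq2.mul_const (lp (u + η₀) - lp (u - η₀)))
  have hval : (0 : ℂ) - ((X * Y : ℝ) : ℂ) * dLa u η₀ -
      ((X ^ 2 / 2 : ℝ) : ℂ) * (lp (u + η₀) - lp (u - η₀)) =
      -(lp (u + η₀) - lp (u - η₀)) / 2 * X ^ 2 + cB η₀ u * X * Y := by
    unfold dLa cB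
    push_cast
    ring
  rw [hval] at hlim
  refine ((Complex.continuous_exp.tendsto _).comp hlim).congr fun s => ?_
  simp only [Function.comp]
  rw [z_eq, Qk_exp s _ (by rw [im_add_real]; exact hu0),
    Qk_exp s _ (by rw [im_add_real]; exact hu0), ← Complex.exp_sub, ← Complex.exp_add]
  congr 1
  simp only [hF, hh]
  have e6 : La u η₀ = -(2 * Real.pi * Complex.I * u) + ll (u + η₀) + ll (u - η₀) := rfl
  rw [← e6]
  push_cast
  ring

end Pool.Agent.Work.MP_b30479_gt.DT
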