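import Pool.Agent.Work.MP_b30479_gt.AX.Ptw
import Pool.Agent.Work.MP_b30479_gt.DT.Crit
import Pool.Agent.Work.MP_b30479_gt.DT.DDom
import Pool.Agent.Work.MP_b30479_gt.DT.PtwQ

/-!
# Pointwise limit of the summand
-/

namespace Pool.Agent.Work.MP_b30479_gt.DT

open Finset TB AX Filter Topology

theorem pa_odd : Tendsto (fun s : ℕ => 2 * s + 1) atTop atTop :=
  tendsto_atTop_mono (fun s => show s ≤ 2 * s + 1 by omega) tendsto_id

theorem pa_tendsto_sqrt : Tendsto (fun s : ℕ => √((2 * s + 1 : ℕ) : ℝ)) atTop atTop :=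
  Real.tendsto_sqrt_atTop.comp (tendsto_natCast_atTop_atTop.comp pa_odd)

theorem pa_small {j : ℕ → ℤ} {X : ℝ}
    (hj : Tendsto (fun s : ℕ => (j s : ℝ) / √((2 * s + 1 : ℕ) : ℝ)) atTop (𝓝 X)) :
    Tendsto (fun s : ℕ => (j s : ℝ) / ((2 * s + 1 : ℕ) : ℝ)) atTop (𝓝 0) := by
  have h := hj.mul (tendsto_inv_atTop_zero.comp pa_tendsto_sqrt)
  rw [mul_zero] at h
  refine h.congr fun s => ?_
  simp only [Function.comp_apply]
  rw [div_mul_eq_mul_div, div_eq_mul_inv, mul_assoc, ← mul_inv, Real.mul_self_sqrt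
    (Nat.cast_nonneg _), ← div_eq_mul_inv]

theorem pa_range {η₀ : ℝ} (h0 : 0 < η₀) (h1 : η₀ < 1 / 2) {j : ℕ → ℤ} {X : ℝ}
    (hj : Tendsto (fun s : ℕ => (j s : ℝ) / √((2 * s + 1 : ℕ) : ℝ)) atTop (𝓝 X)) :
    ∀ᶠ s : ℕ in atTop, 0 ≤ (k0 η₀ s : ℤ) + j s ∧ (k0 η₀ s : ℤ) + j s < 2 * s + 1 := by
  have h2 := (pa_small hj).abs
  rw [abs_zero] at h2
  have hd : 0 < min η₀ (1 / 2 - η₀) / 2 := by
    apply half_pos
    exact lt_min h0 (by linarith)
  filter_upwards [h2.eventually (gt_mem_nhds hd), eventually_ge_atTop 1] with s hs hs1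
  have hN : (0 : ℝ) < ((2 * s + 1 : ℕ) : ℝ) := by positivity
  rw [abs_div, abs_of_pos hN, div_lt_iff₀ hN] at hs
  obtain ⟨hs2, hs3⟩ := abs_lt.mp hs
  have e1 : min η₀ (1 / 2 - η₀) ≤ η₀ := min_le_left _ _
  have e2 : min η₀ (1 / 2 - η₀) ≤ 1 / 2 - η₀ := min_le_right _ _
  have f1 : (⌊η₀ * ((2 * s + 1 : ℕ) : ℝ)⌋₊ : ℝ) ≤ η₀ * ((2 * s + 1 : ℕ) : ℝ) :=
    Nat.floor_le (by positivity)
  have f2 := Nat.lt_floor_add_one (η₀ * ((2 * s + 1 : ℕ) : ℝ))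
  have hk : (k0 η₀ s : ℝ) = s + ⌊η₀ * ((2 * s + 1 : ℕ) : ℝ)⌋₊ := by
    unfold k0
    push_cast
    ring
  have hsR : (1 : ℝ) ≤ s := by exact_mod_cast hs1
  have hNe : ((2 * s + 1 : ℕ) : ℝ) = 2 * s + 1 := by push_cast; ring
  constructor
  · have h3 : (0 : ℝ) ≤ (k0 η₀ s : ℝ) + j s := by
      rw [hk]
      have h4 : min η₀ (1 / 2 - η₀) / 2 * ((2 * s + 1 : ℕ) : ℝ) ≤
          η₀ / 2 * ((2 * s + 1 : ℕ) : ℝ) := by
        apply mul_le_mul_of_nonneg_right _ hN.le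
        linarith
      have h5 : η₀ / 2 * ((2 * s + 1 : ℕ) : ℝ) ≤ η₀ * ((2 * s + 1 : ℕ) : ℝ) := by
        apply mul_le_mul_of_nonneg_right _ hN.le
        linarith
      linarith
    exact_mod_cast h3
  · have h3 : (k0 η₀ s : ℝ) + j s < 2 * s + 1 := by
      rw [hk]
      have h4 : min η₀ (1 / 2 - η₀) / 2 * ((2 * s + 1 : ℕ) : ℝ) ≤
          (1 / 2 - η₀) * ((2 * s + 1 : ℕ) : ℝ) := by
        apply mul_le_mul_of_nonneg_right _ hN.le
        linarith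
      have h5 : (1 / 2 - η₀) * ((2 * s + 1 : ℕ) : ℝ) = s + 1 / 2 - η₀ * ((2 * s + 1 : ℕ) : ℝ) := by
        rw [hNe]
        ring
      linarith
    exact_mod_cast h3

/-- from odd `n` to all `n` -/
theorem pa_extend {j : ℕ → ℤ} {X : ℝ}
    (hj : Tendsto (fun s : ℕ => (j s : ℝ) / √((2 * s + 1 : ℕ) : ℝ)) atTop (𝓝 X)) :
    Tendsto (fun n : ℕ => (j (n / 2) : ℝ) / √(n : ℝ)) atTop (𝓝 X) := by
  have hdiv : Tendsto (fun n : ℕ => n / 2) atTop atTop := by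
    refine tendsto_atTop.mpr fun b => ?_
    filter_upwards [eventually_ge_atTop (2 * b)] with n hn
    omega
  have h1 := hj.comp hdiv
  have h2 : Tendsto (fun n : ℕ => √(((2 * (n / 2) + 1 : ℕ) : ℝ)) / √(n : ℝ)) atTop (𝓝 1) := by
    have h3 : Tendsto (fun n : ℕ => (((2 * (n / 2) + 1 : ℕ) : ℝ)) / (n : ℝ)) atTop (𝓝 1) := by
      have h4 : Tendsto (fun n : ℕ => 1 + 1 / (n : ℝ)) atTop (𝓝 (1 + 0)) :=
        tendsto_const_nhds.add tendsto_one_div_atTop_nhds_zero_nat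
      rw [add_zero] at h4
      refine tendsto_of_tendsto_of_tendsto_of_le_of_le' tendsto_const_nhds h4 ?_ ?_
      · filter_upwards [eventually_gt_atTop 0] with n hn
        have hnR : (0 : ℝ) < n := by exact_mod_cast hn
        rw [le_div_iff₀ hnR, one_mul]
        exact_mod_cast (by omega : n ≤ 2 * (n / 2) + 1)
      · filter_upwards [eventually_gt_atTop 0] with n hn
        have hnR : (0 : ℝ) < n := by exact_mod_cast hn
        rw [div_le_iff₀ hnR, add_mul, one_mul, one_div, inv_mul_cancel₀ hnR.ne']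
        exact_mod_cast (by omega : 2 * (n / 2) + 1 ≤ n + 1)
    have h5 := (Real.continuous_sqrt.tendsto 1).comp h3
    rw [Real.sqrt_one] at h5
    refine h5.congr fun n => ?_
    rw [Function.comp_apply, Real.sqrt_div (Nat.cast_nonneg _)]
  have h3 := h1.mul h2
  rw [mul_one] at h3
  refine h3.congr fun n => ?_
  simp only [Function.comp_apply]
  have h4 : √(((2 * (n / 2) + 1 : ℕ) : ℝ)) ≠ 0 := by
    apply (Real.sqrt_pos.mpr _).ne'
    positivity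
  rw [div_mul_div_comm, mul_comm (j (n / 2) : ℝ), mul_div_mul_left _ _ h4]

theorem ptw_f {η₀ : ℝ} (h0 : 0 < η₀) (h1 : η₀ < 1 / 2) {j : ℕ → ℤ} {X : ℝ}
    (hj : Tendsto (fun s : ℕ => (j s : ℝ) / √((2 * s + 1 : ℕ) : ℝ)) atTop (𝓝 X)) :
    Tendsto (fun s : ℕ => fS (2 * s + 1) ((k0 η₀ s : ℤ) + j s).toNat ^ 2 /
      fS (2 * s + 1) (k0 η₀ s) ^ 2 *
        Real.exp (-(j s * (2 * Real.log (2 * Real.cos (Real.pi * η₀)))))) atTop
      (𝓝 (Real.exp (-(Real.pi * Real.tan (Real.pi * η₀)) * X ^ 2))) := by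
  set m : ℕ → ℕ := fun n => n / 2 + ⌊η₀ * (n : ℝ)⌋₊ with hm
  have hmb : ∀ n, |(m n : ℝ) - (1 / 2 + η₀) * n| ≤ 2 := by
    intro n
    have f1 : (⌊η₀ * (n : ℝ)⌋₊ : ℝ) ≤ η₀ * n := Nat.floor_le (by positivity)
    have f2 := Nat.lt_floor_add_one (η₀ * (n : ℝ))
    have g1 : 2 * ((n / 2 : ℕ) : ℝ) ≤ n := by exact_mod_cast (by omega : 2 * (n / 2) ≤ n)
    have g2 : (n : ℝ) ≤ 2 * ((n / 2 : ℕ) : ℝ) + 1 := by
      exact_mod_cast (by omega : n ≤ 2 * (n / 2) + 1)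
    simp only [hm]
    push_cast
    rw [abs_le]
    constructor <;> linarith
  have h2 := ptw_local (ρ := 1 / 2 + η₀) (by linarith) (by linarith) hmb (pa_extend hj)
  have h3 := h2.comp pa_odd
  have h4 := (h3.const_mul 2).rexp
  have hs : Real.sin (Real.pi * (1 / 2 + η₀)) = Real.cos (Real.pi * η₀) := by
    rw [show Real.pi * (1 / 2 + η₀) = Real.pi * η₀ + Real.pi / 2 by ring, Real.sin_add_pi_div_two]
  have hc : Real.cos (Real.pi * (1 / 2 + η₀)) = -Real.sin (Real.pi * η₀) := by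
    rw [show Real.pi * (1 / 2 + η₀) = Real.pi * η₀ + Real.pi / 2 by ring, Real.cos_add_pi_div_two]
  have hval : 2 * (Real.pi * Real.cos (Real.pi * (1 / 2 + η₀)) /
      Real.sin (Real.pi * (1 / 2 + η₀)) / 2 * X ^ 2) =
      -(Real.pi * Real.tan (Real.pi * η₀)) * X ^ 2 := by
    rw [hs, hc, Real.tan_eq_sin_div_cos]
    ring
  rw [hval] at h4
  refine h4.congr' ?_
  filter_upwards [pa_range h0 h1 hj] with s hs1
  simp only [Function.comp_apply, hm]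
  have e1 : (2 * s + 1) / 2 = s := by omega
  rw [e1]
  have e2 : s + ⌊η₀ * ((2 * s + 1 : ℕ) : ℝ)⌋₊ = k0 η₀ s := rfl
  rw [e2, hs]
  have p1 : 0 < fS (2 * s + 1) ((k0 η₀ s : ℤ) + j s).toNat := fS_pos (by omega)
  have p2 : 0 < fS (2 * s + 1) (k0 η₀ s) := by
    refine fS_pos ?_
    have := k0_le h0.le h1 s
    omega
  have e3 : 2 * (Real.log (fS (2 * s + 1) ((k0 η₀ s : ℤ) + j s).toNat) -
      Real.log (fS (2 * s + 1) (k0 η₀ s)) - j s * Real.log (2 * Real.cos (Real.pi * η₀))) =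
      (2 * Real.log (fS (2 * s + 1) ((k0 η₀ s : ℤ) + j s).toNat) -
      2 * Real.log (fS (2 * s + 1) (k0 η₀ s))) +
      -(j s * (2 * Real.log (2 * Real.cos (Real.pi * η₀)))) := by ring
  rw [e3, Real.exp_add, Real.exp_sub]
  congr 2
  · rw [show 2 * Real.log (fS (2 * s + 1) ((k0 η₀ s : ℤ) + j s).toNat) =
      Real.log (fS (2 * s + 1) ((k0 η₀ s : ℤ) + j s).toNat ^ 2) by rw [Real.log_pow]; push_cast; ring,
      Real.exp_log (by positivity)]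
  · rw [show 2 * Real.log (fS (2 * s + 1) (k0 η₀ s)) =
      Real.log (fS (2 * s + 1) (k0 η₀ s) ^ 2) by rw [Real.log_pow]; push_cast; ring,
      Real.exp_log (by positivity)]

/-! ### The complex part -/

theorem pa_cos_ne {w : ℂ} (hw : w.im ≠ 0) (θ : ℝ) : Complex.cos w ≠ Complex.cos θ := by
  intro h
  rw [Complex.cos_eq_cos_iff] at h
  obtain ⟨k, hk | hk⟩ := h
  · apply hw
    have h1 : w = ((θ - 2 * k * Real.pi : ℝ) : ℂ) := by
      push_cast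
      linear_combination -hk
    rw [h1, Complex.ofReal_im]
  · apply hw
    have h1 : w = ((2 * k * Real.pi - θ : ℝ) : ℂ) := by
      push_cast
      linear_combination hk
    rw [h1, Complex.ofReal_im]

theorem pa_im (s : ℕ) (z : ℂ) : (2 * Real.pi * z / ((2 * s + 1 : ℕ) : ℂ)).im =
    2 * Real.pi * z.im / ((2 * s + 1 : ℕ) : ℝ) := by
  have h1 : 2 * Real.pi * z / ((2 * s + 1 : ℕ) : ℂ) =
      ((2 * Real.pi / ((2 * s + 1 : ℕ) : ℝ) : ℝ) : ℂ) * z := by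
    push_cast
    ring
  rw [h1, Complex.im_ofReal_mul]
  ring

theorem pa_Qk_ne {s k : ℕ} {z : ℂ} (hz : z.im ≠ 0) : Qk s k z ≠ 0 := by
  unfold Qk
  rw [Finset.prod_ne_zero_iff]
  intro l _
  rw [cc, cc, sub_ne_zero]
  intro h
  have h1 := mul_left_cancel₀ two_ne_zero h
  have h2 : 2 * Real.pi * ((l : ℂ) - s) / ((2 * s + 1 : ℕ) : ℂ) =
      ((2 * Real.pi * ((l : ℝ) - s) / ((2 * s + 1 : ℕ) : ℝ) : ℝ) : ℂ) := by
    push_cast
    ring
  rw [h2] at h1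
  refine pa_cos_ne ?_ _ h1
  rw [pa_im]
  have hN : ((2 * s + 1 : ℕ) : ℝ) ≠ 0 := by positivity
  exact div_ne_zero (mul_ne_zero (mul_ne_zero two_ne_zero Real.pi_ne_zero) hz) hN

theorem pa_sin_ne {w : ℂ} (hw : w.im ≠ 0) : Complex.sin w ≠ 0 := by
  intro h
  rw [Complex.sin_eq_zero_iff] at h
  obtain ⟨k, hk⟩ := h
  apply hw
  rw [hk, show (k : ℂ) * Real.pi = ((k * Real.pi : ℝ) : ℂ) by push_cast; ring, Complex.ofReal_im]

/-- `sin² πz` in exponential form -/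
theorem pa_sin_sq (z : ℂ) : Complex.sin (Real.pi * z) ^ 2 =
    -(Complex.exp (-(2 * Real.pi * Complex.I * z)) *
      (1 - Complex.exp (2 * Real.pi * Complex.I * z)) ^ 2) / 4 := by
  have h1 : Complex.sin (Real.pi * z) = Complex.exp (-(Real.pi * z * Complex.I)) *
      (1 - Complex.exp (2 * Real.pi * Complex.I * z)) * (Complex.I / 2) := by
    have h2 : Complex.exp (-(Real.pi * z * Complex.I)) *
        Complex.exp (2 * Real.pi * Complex.I * z) = Complex.exp (Real.pi * z * Complex.I) := by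
      rw [← Complex.exp_add]
      congr 1
      ring
    rw [Complex.sin, mul_sub, mul_one, h2,
      show -(Real.pi * z) * Complex.I = -(Real.pi * z * Complex.I) by ring]
    ring
  have h3 : Complex.exp (-(2 * Real.pi * Complex.I * z)) =
      Complex.exp (-(Real.pi * z * Complex.I)) ^ 2 := by
    rw [← Complex.exp_nat_mul]
    congr 1
    push_cast
    ring
  rw [h1, h3]
  linear_combination (Complex.exp (-(Real.pi * z * Complex.I)) ^ 2 *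
    (1 - Complex.exp (2 * Real.pi * Complex.I * z)) ^ 2 / 4) * Complex.I_sq

theorem pa_exp_ne_one {z : ℂ} (hz : 0 < z.im) :
    1 - Complex.exp (2 * Real.pi * Complex.I * z) ≠ 0 := by
  intro h
  have h1 : ‖Complex.exp (2 * Real.pi * Complex.I * z)‖ = 1 := by
    rw [← sub_eq_zero.mp h, norm_one]
  rw [Complex.norm_exp] at h1
  have h2 : (2 * Real.pi * Complex.I * z).re = -(2 * Real.pi * z.im) := by
    simp
  rw [h2, Real.exp_eq_one_iff] at h1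
  have hpi := Real.pi_pos
  have : 0 < 2 * Real.pi * z.im := by positivity
  linarith

theorem pa_exp_zero {ς₀ ρ₀ : ℝ} (hρ : 0 < ρ₀) (Y : ℝ) :
    Tendsto (fun s : ℕ => Complex.exp (2 * Real.pi * Complex.I *
      (((2 * s + 1 : ℕ) : ℂ) * (ς₀ + ρ₀ * Complex.I) + (√((2 * s + 1 : ℕ) : ℝ) : ℂ) * Y))) atTop
      (𝓝 0) := by
  rw [tendsto_zero_iff_norm_tendsto_zero]
  have h1 : ∀ s : ℕ, ‖Complex.exp (2 * Real.pi * Complex.I *
      (((2 * s + 1 : ℕ) : ℂ) * (ς₀ + ρ₀ * Complex.I) + (√((2 * s + 1 : ℕ) : ℝ) : ℂ) * Y))‖ =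
      Real.exp (-(2 * Real.pi * ρ₀ * ((2 * s + 1 : ℕ) : ℝ))) := by
    intro s
    rw [Complex.norm_exp]
    congr 1
    have h2 : 2 * Real.pi * Complex.I *
      (((2 * s + 1 : ℕ) : ℂ) * (ς₀ + ρ₀ * Complex.I) + (√((2 * s + 1 : ℕ) : ℝ) : ℂ) * Y) =
      ((-(2 * Real.pi * ρ₀ * ((2 * s + 1 : ℕ) : ℝ)) : ℝ) : ℂ) +
      ((2 * Real.pi * (((2 * s + 1 : ℕ) : ℝ) * ς₀ + √((2 * s + 1 : ℕ) : ℝ) * Y) : ℝ) : ℂ) *
        Complex.I := by
      push_cast
      linear_combination (2 * Real.pi * (2 * s + 1) * ρ₀ : ℂ) * Complex.I_sq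
    rw [h2, Complex.add_re, Complex.ofReal_re, Complex.re_ofReal_mul, Complex.I_re]
    ring
  simp_rw [h1]
  have hpi := Real.pi_pos
  have h3 : Tendsto (fun s : ℕ => 2 * Real.pi * ρ₀ * ((2 * s + 1 : ℕ) : ℝ)) atTop atTop :=
    (tendsto_natCast_atTop_atTop.comp pa_odd).const_mul_atTop (by positivity)
  exact Real.tendsto_exp_neg_atTop_nhds_zero.comp h3

/-- the factor `sin² πz` -/
theorem pa_T5 {ς₀ ρ₀ : ℝ} (hρ : 0 < ρ₀) (Y : ℝ) :
    Tendsto (fun s : ℕ => Complex.sin (Real.pi * (((2 * s + 1 : ℕ) : ℂ) *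
      (ς₀ + ρ₀ * Complex.I))) ^ 2 / Complex.sin (Real.pi * (((2 * s + 1 : ℕ) : ℂ) *
      (ς₀ + ρ₀ * Complex.I) + (√((2 * s + 1 : ℕ) : ℝ) : ℂ) * Y)) ^ 2 *
      Complex.exp (-(2 * Real.pi * Complex.I * ((√((2 * s + 1 : ℕ) : ℝ) : ℂ) * Y)))) atTop
      (𝓝 1) := by
  have h1 := pa_exp_zero (ς₀ := ς₀) hρ 0
  have h2 := pa_exp_zero (ς₀ := ς₀) hρ Y
  simp only [Complex.ofReal_zero, mul_zero, add_zero] at h1
  have h3 : Tendsto (fun s : ℕ => (1 - Complex.exp (2 * Real.pi * Complex.I *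
      (((2 * s + 1 : ℕ) : ℂ) * (ς₀ + ρ₀ * Complex.I)))) ^ 2 /
      (1 - Complex.exp (2 * Real.pi * Complex.I * (((2 * s + 1 : ℕ) : ℂ) * (ς₀ + ρ₀ * Complex.I) +
        (√((2 * s + 1 : ℕ) : ℝ) : ℂ) * Y))) ^ 2) atTop (𝓝 ((1 - 0) ^ 2 / (1 - 0) ^ 2)) := by
    refine ((tendsto_const_nhds.sub h1).pow 2).div ((tendsto_const_nhds.sub h2).pow 2) ?_
    norm_num
  rw [show ((1 : ℂ) - 0) ^ 2 / (1 - 0) ^ 2 = 1 by norm_num] at h3
  refine h3.congr fun s => ?_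
  set z0 : ℂ := ((2 * s + 1 : ℕ) : ℂ) * (ς₀ + ρ₀ * Complex.I) with hz0
  set y : ℂ := (√((2 * s + 1 : ℕ) : ℝ) : ℂ) * Y with hy
  rw [pa_sin_sq, pa_sin_sq]
  have e1 : Complex.exp (-(2 * Real.pi * Complex.I * (z0 + y))) =
      Complex.exp (-(2 * Real.pi * Complex.I * z0)) *
        Complex.exp (-(2 * Real.pi * Complex.I * y)) := by
    rw [← Complex.exp_add]
    congr 1
    ring
  rw [e1]
  have n1 := Complex.exp_ne_zero (-(2 * Real.pi * Complex.I * z0))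
  have n2 := Complex.exp_ne_zero (-(2 * Real.pi * Complex.I * y))
  have hN : (0 : ℝ) < ((2 * s + 1 : ℕ) : ℝ) := by positivity
  have him : 0 < (z0 + y).im := by
    have e2 : (z0 + y).im = ((2 * s + 1 : ℕ) : ℝ) * ρ₀ := by
      have e3 : z0 + y = ((((2 * s + 1 : ℕ) : ℝ) * ς₀ + √((2 * s + 1 : ℕ) : ℝ) * Y : ℝ) : ℂ) +
          ((((2 * s + 1 : ℕ) : ℝ) * ρ₀ : ℝ) : ℂ) * Complex.I := by
        rw [hz0, hy]
        push_cast
        ring
      rw [e3, Complex.add_im, Complex.ofReal_im, Complex.im_ofReal_mul, Complex.I_im]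
      ring
    rw [e2]
    positivity
  have n3 := pa_exp_ne_one him
  field_simp

/-- the factor `sin (2πz/n)` -/
theorem pa_T2 {ς₀ ρ₀ : ℝ} (hρ : 0 < ρ₀) (Y : ℝ) :
    Tendsto (fun s : ℕ => Complex.sin (2 * Real.pi * (((2 * s + 1 : ℕ) : ℂ) *
      (ς₀ + ρ₀ * Complex.I) + (√((2 * s + 1 : ℕ) : ℝ) : ℂ) * Y) / ((2 * s + 1 : ℕ) : ℂ)) /
      Complex.sin (2 * Real.pi * (((2 * s + 1 : ℕ) : ℂ) *
      (ς₀ + ρ₀ * Complex.I)) / ((2 * s + 1 : ℕ) : ℂ))) atTop (𝓝 1) := by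
  set u : ℂ := ς₀ + ρ₀ * Complex.I with hu
  have hui : u.im = ρ₀ := by
    rw [hu, Complex.add_im, Complex.ofReal_im, Complex.im_ofReal_mul, Complex.I_im]
    ring
  have hn : Complex.sin (2 * Real.pi * u) ≠ 0 := by
    apply pa_sin_ne
    rw [show (2 : ℂ) * Real.pi * u = ((2 * Real.pi : ℝ) : ℂ) * u by push_cast; ring,
      Complex.im_ofReal_mul, hui]
    have := Real.pi_pos
    positivity
  have h1 : Tendsto (fun s : ℕ => u + ((√((2 * s + 1 : ℕ) : ℝ))⁻¹ : ℝ) * (Y : ℂ)) atTop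
      (𝓝 (u + ((0 : ℝ) : ℂ) * Y)) := by
    refine tendsto_const_nhds.add ((((Complex.continuous_ofReal.tendsto 0).comp ?_)).mul_const _)
    exact tendsto_inv_atTop_zero.comp pa_tendsto_sqrt
  rw [Complex.ofReal_zero, zero_mul, add_zero] at h1
  have h2 : Tendsto (fun s : ℕ => Complex.sin (2 * Real.pi *
      (u + ((√((2 * s + 1 : ℕ) : ℝ))⁻¹ : ℝ) * (Y : ℂ))) / Complex.sin (2 * Real.pi * u)) atTop
      (𝓝 (Complex.sin (2 * Real.pi * u) / Complex.sin (2 * Real.pi * u))) := by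
    refine Tendsto.div_const ?_ _
    have hc : Continuous fun w : ℂ => Complex.sin (2 * Real.pi * w) := by fun_prop
    exact (hc.tendsto u).comp h1
  rw [div_self hn] at h2
  refine h2.congr fun s => ?_
  have hN : (0 : ℝ) < ((2 * s + 1 : ℕ) : ℝ) := by positivity
  have hNc : ((2 * s + 1 : ℕ) : ℂ) ≠ 0 := by exact_mod_cast (by omega : 2 * s + 1 ≠ 0)
  have hr : √((2 * s + 1 : ℕ) : ℝ) ≠ 0 := (Real.sqrt_pos.mpr hN).ne'
  have hrc : ((√((2 * s + 1 : ℕ) : ℝ) : ℝ) : ℂ) ≠ 0 := by exact_mod_cast hr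
  have hsq : ((√((2 * s + 1 : ℕ) : ℝ) : ℝ) : ℂ) * ((√((2 * s + 1 : ℕ) : ℝ) : ℝ) : ℂ) =
      ((2 * s + 1 : ℕ) : ℂ) := by
    rw [← Complex.ofReal_mul, Real.mul_self_sqrt hN.le]
    norm_cast
  congr 2
  · rw [Complex.ofReal_inv]
    set r : ℂ := ((√((2 * s + 1 : ℕ) : ℝ) : ℝ) : ℂ) with hrd
    rw [← hsq]
    field_simp
  · field_simp

theorem ptw {a : ℕ} {η₀ ς₀ ρ₀ : ℝ} (h : IsSad a η₀ ς₀ ρ₀) {j : ℕ → ℤ} {X : ℝ}
    (hj : Tendsto (fun s : ℕ => (j s : ℝ) / √((2 * s + 1 : ℕ) : ℝ)) atTop (𝓝 X)) :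
    ∃ ω : ℕ → ℂ, (∀ s, ‖ω s‖ = 1) ∧ ∀ Y : ℝ,
      Tendsto (fun s : ℕ => ω s *
        (((fS (2 * s + 1) ((k0 η₀ s : ℤ) + j s).toNat ^ 2 / P0 a η₀ ς₀ ρ₀ s : ℝ) : ℂ) *
          Gk a s ((k0 η₀ s : ℤ) + j s).toNat (((2 * s + 1 : ℕ) : ℂ) * (ς₀ + ρ₀ * Complex.I) +
            (√((2 * s + 1 : ℕ) : ℝ) : ℂ) * Y))) atTop
        (𝓝 (Complex.exp (cA η₀ (ς₀ + ρ₀ * Complex.I) * X ^ 2 +
          cB η₀ (ς₀ + ρ₀ * Complex.I) * X * Y + cC a η₀ (ς₀ + ρ₀ * Complex.I) * Y ^ 2))) := by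
  have hρ := h.ρpos
  have h0 : 0 < η₀ := (abs_nonneg _).trans_lt h.h1
  have h1 := h.h3
  set u : ℂ := ς₀ + ρ₀ * Complex.I with hu
  set E1 : ℂ := ((2 * Real.log (2 * Real.cos (Real.pi * η₀)) : ℝ) : ℂ) +
    2 * Real.pi * Complex.I * u - ll (u + η₀) - ll (u - η₀) with hE1
  have hE1re : E1.re = 0 := by
    have c1 := (crit_real h).1
    have e1 := el_eq_exp (v := ς₀ + η₀) hρ.ne'
    have e2 := el_eq_exp (v := ς₀ - η₀) hρ.ne'
    have e3 : el ρ₀ (η₀ - ς₀) = el ρ₀ (ς₀ - η₀) := by rw [← el_neg, neg_sub]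
    have e4 : (ll (u + η₀)).re = Real.log ‖1 - Complex.exp (2 * Real.pi * Complex.I *
        (((ς₀ + η₀ : ℝ) : ℂ) + ρ₀ * Complex.I))‖ := by
      rw [ll, Complex.log_re, hu]
      congr 4
      push_cast
      ring
    have e5 : (ll (u - η₀)).re = Real.log ‖1 - Complex.exp (2 * Real.pi * Complex.I *
        (((ς₀ - η₀ : ℝ) : ℂ) + ρ₀ * Complex.I))‖ := by
      rw [ll, Complex.log_re, hu]
      congr 4
      push_cast
      ring
    have e6 : (2 * Real.pi * Complex.I * u).re = -(2 * Real.pi * ρ₀) := by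
      have : 2 * Real.pi * Complex.I * u = ((-(2 * Real.pi * ρ₀) : ℝ) : ℂ) +
          ((2 * Real.pi * ς₀ : ℝ) : ℂ) * Complex.I := by
        rw [hu]
        push_cast
        linear_combination (2 * Real.pi * ρ₀ : ℂ) * Complex.I_sq
      rw [this, Complex.add_re, Complex.ofReal_re, Complex.re_ofReal_mul, Complex.I_re]
      ring
    rw [hE1, Complex.sub_re, Complex.sub_re, Complex.add_re, Complex.ofReal_re, e4, e5, e6]
    rw [e3, show η₀ + ς₀ = ς₀ + η₀ by ring, e1, e2] at c1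
    linarith
  set G0 : ℕ → ℂ := fun s => Gk a s (k0 η₀ s) (((2 * s + 1 : ℕ) : ℂ) * u) with hG0
  have hG0ne : ∀ s, G0 s ≠ 0 := by
    intro s h2
    have h3 := P0_pos h s
    rw [P0, ← hu] at h3
    have h4 : Gk a s (k0 η₀ s) (((2 * s + 1 : ℕ) : ℂ) * u) = 0 := h2
    rw [h4, norm_zero, mul_zero] at h3
    exact lt_irrefl _ h3
  refine ⟨fun s => (‖G0 s‖ : ℂ) / G0 s * Complex.exp (-(j s * E1)), fun s => ?_, fun Y => ?_⟩
  · rw [norm_mul, norm_div, Complex.norm_real, norm_norm, div_self (norm_ne_zero_iff.mpr (hG0ne s)),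
      one_mul, Complex.norm_exp]
    have : (-((j s : ℂ) * E1)).re = 0 := by
      rw [Complex.neg_re, show (j s : ℂ) = (((j s : ℝ)) : ℂ) by push_cast; rfl,
        Complex.re_ofReal_mul, hE1re]
      ring
    rw [this, Real.exp_zero]
  have T2 := pa_T2 (ς₀ := ς₀) hρ Y
  have T3 := ptw_Q2 (ς₀ := ς₀) h0 h1 hρ hj Y
  have T4 := ptw_Q1 (ς₀ := ς₀) h0 h1 hρ Y
  have T5 := pa_T5 (ς₀ := ς₀) hρ Y
  have T6 := (Complex.continuous_ofReal.tendsto _).comp (ptw_f h0 h1 hj)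
  have T1 : Tendsto (fun _ : ℕ => Complex.exp (Real.pi * Complex.I * a * (Y : ℂ) ^ 2)) atTop
    (𝓝 (Complex.exp (Real.pi * Complex.I * a * (Y : ℂ) ^ 2))) := tendsto_const_nhds
  rw [← hu] at T2 T3 T4 T5
  have TT := ((((T1.mul T2).mul T3).mul T4).mul T5).mul T6
  have hval : Complex.exp (Real.pi * Complex.I * a * (Y : ℂ) ^ 2) * 1 *
      Complex.exp (-(lp (u + η₀) - lp (u - η₀)) / 2 * X ^ 2 + cB η₀ u * X * Y) *
      Complex.exp (-(lp (u + η₀) - lp (u - η₀)) / 2 * Y ^ 2) * 1 *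
      ((Real.exp (-(Real.pi * Real.tan (Real.pi * η₀)) * X ^ 2) : ℝ) : ℂ) =
      Complex.exp (cA η₀ u * X ^ 2 + cB η₀ u * X * Y + cC a η₀ u * Y ^ 2) := by
    rw [Complex.ofReal_exp, mul_one, mul_one, ← Complex.exp_add, ← Complex.exp_add,
      ← Complex.exp_add]
    congr 1
    rw [cA, cC]
    push_cast
    ring
  rw [hval] at TT
  refine TT.congr' ?_
  filter_upwards [pa_range h0 h1 hj] with s hs
  simp only [Function.comp_apply]
  have hN : (0 : ℝ) < ((2 * s + 1 : ℕ) : ℝ) := by positivity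
  have hNc : ((2 * s + 1 : ℕ) : ℂ) ≠ 0 := by exact_mod_cast (by omega : 2 * s + 1 ≠ 0)
  have hsq : ((√((2 * s + 1 : ℕ) : ℝ) : ℝ) : ℂ) * ((√((2 * s + 1 : ℕ) : ℝ) : ℝ) : ℂ) =
      ((2 * s + 1 : ℕ) : ℂ) := by
    rw [← Complex.ofReal_mul, Real.mul_self_sqrt hN.le]
    norm_cast
  obtain ⟨k, hk⟩ : ∃ k, k = ((k0 η₀ s : ℤ) + j s).toNat := ⟨_, rfl⟩
  rw [← hk]
  have hk2 : k < 2 * s + 1 := by omega
  have hk3 : k0 η₀ s < 2 * s + 1 := by
    have := k0_le h0.le h1 s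
    omega
  have hcr := crit_complex h
  rw [← hu] at hcr
  change ll (u - η₀) - ll (u + η₀) + 2 * Real.pi * Complex.I * (a * u + 1 / 2 + η₀) = 0 at hcr
  set N : ℂ := ((2 * s + 1 : ℕ) : ℂ) with hNd
  set r : ℂ := ((√((2 * s + 1 : ℕ) : ℝ) : ℝ) : ℂ) with hrd
  set f1 : ℝ := fS (2 * s + 1) k with hf1
  set f0 : ℝ := fS (2 * s + 1) (k0 η₀ s) with hf0
  have hf1p : 0 < f1 := fS_pos hk2
  have hf0p : 0 < f0 := fS_pos hk3
  have hP0 : P0 a η₀ ς₀ ρ₀ s = f0 ^ 2 * ‖G0 s‖ := rfl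
  have hui : u.im = ρ₀ := by
    rw [hu, Complex.add_im, Complex.ofReal_im, Complex.im_ofReal_mul, Complex.I_im]
    ring
  have hNR : N = (((2 * s + 1 : ℕ) : ℝ) : ℂ) := by
    rw [hNd]
    norm_cast
  have hz0i : (N * u).im = ((2 * s + 1 : ℕ) : ℝ) * ρ₀ := by
    rw [hNR, Complex.im_ofReal_mul, hui]
  have hrY : (r * Y).im = 0 := by
    rw [hrd, ← Complex.ofReal_mul, Complex.ofReal_im]
  have hzi : (N * u + r * Y).im = ((2 * s + 1 : ℕ) : ℝ) * ρ₀ := by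
    rw [Complex.add_im, hz0i, hrY, add_zero]
  have hpos : 0 < ((2 * s + 1 : ℕ) : ℝ) * ρ₀ := by positivity
  have hQ1 : Qk s (k0 η₀ s) (N * u + r * Y) ≠ 0 := pa_Qk_ne (by rw [hzi]; exact hpos.ne')
  have hQ2 : Qk s (k0 η₀ s) (N * u) ≠ 0 := pa_Qk_ne (by rw [hz0i]; exact hpos.ne')
  have hsin : ∀ w : ℂ, w.im = ((2 * s + 1 : ℕ) : ℝ) * ρ₀ → Complex.sin (Real.pi * w) ≠ 0 := by
    intro w hw
    apply pa_sin_ne
    rw [Complex.im_ofReal_mul, hw]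
    have := Real.pi_pos
    positivity
  have hs0 := hsin _ hz0i
  have hs1 := hsin _ hzi
  have hS0 : Complex.sin (2 * Real.pi * (N * u) / N) ≠ 0 := by
    apply pa_sin_ne
    rw [hNd, pa_im, ← hNd, hz0i]
    have := Real.pi_pos
    positivity
  have hG0s : G0 s = Complex.exp (Real.pi * Complex.I * a * (N * u) ^ 2 / N) *
    Complex.sin (2 * Real.pi * (N * u) / N) * Qk s (k0 η₀ s) (N * u) /
      Complex.sin (Real.pi * (N * u)) ^ 2 := rfl
  have hGk : Gk a s k (N * u + r * Y) =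
    Complex.exp (Real.pi * Complex.I * a * (N * u + r * Y) ^ 2 / N) *
    Complex.sin (2 * Real.pi * (N * u + r * Y) / N) * Qk s k (N * u + r * Y) /
      Complex.sin (Real.pi * (N * u + r * Y)) ^ 2 := rfl
  have hexp : Complex.exp (Real.pi * Complex.I * a * (N * u + r * Y) ^ 2 / N) =
      Complex.exp (Real.pi * Complex.I * a * (N * u) ^ 2 / N) *
        Complex.exp (2 * Real.pi * Complex.I * a * u * (r * Y)) *
        Complex.exp (Real.pi * Complex.I * a * (Y : ℂ) ^ 2) := by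
    rw [← Complex.exp_add, ← Complex.exp_add]
    congr 1
    field_simp
    linear_combination (a * (Y : ℂ) ^ 2) * hsq
  have hE : Complex.exp (j s * (-(2 * Real.pi * Complex.I * u) + ll (u + η₀) + ll (u - η₀))) *
      Complex.exp (-(r * Y * (-(Real.pi * Complex.I) + 2 * Real.pi * Complex.I * η₀ - ll (u + η₀) +
        ll (u - η₀)))) * Complex.exp (-(2 * Real.pi * Complex.I * (r * Y))) *
      Complex.exp (-(j s * ((2 * Real.log (2 * Real.cos (Real.pi * η₀)) : ℝ) : ℂ))) =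
      Complex.exp (-(j s * E1)) * Complex.exp (2 * Real.pi * Complex.I * a * u * (r * Y)) := by
    rw [← Complex.exp_add, ← Complex.exp_add, ← Complex.exp_add, ← Complex.exp_add]
    congr 1
    rw [hE1]
    linear_combination (-(r * Y)) * hcr
  have hf6 : ((f1 ^ 2 / f0 ^ 2 * Real.exp (-(j s * (2 * Real.log (2 * Real.cos
      (Real.pi * η₀))))) : ℝ) : ℂ) = (f1 : ℂ) ^ 2 / (f0 : ℂ) ^ 2 *
      Complex.exp (-(j s * ((2 * Real.log (2 * Real.cos (Real.pi * η₀)) : ℝ) : ℂ))) := by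
    push_cast
    rfl
  rw [hf6, hP0]
  have hG0n : ((‖G0 s‖ : ℝ) : ℂ) ≠ 0 := by
    exact_mod_cast norm_ne_zero_iff.mpr (hG0ne s)
  have hf0c : (f0 : ℂ) ≠ 0 := by exact_mod_cast hf0p.ne'
  have hee := Complex.exp_ne_zero (Real.pi * Complex.I * a * (N * u) ^ 2 / N)
  have hR : ((‖G0 s‖ : ℝ) : ℂ) / G0 s * Complex.exp (-(j s * E1)) *
      (((f1 ^ 2 / (f0 ^ 2 * ‖G0 s‖) : ℝ) : ℂ) * Gk a s k (N * u + r * Y)) =
      (f1 : ℂ) ^ 2 / (f0 : ℂ) ^ 2 * (Gk a s k (N * u + r * Y) / G0 s) *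
        Complex.exp (-(j s * E1)) := by
    have hG0' := hG0ne s
    push_cast
    field_simp
  rw [hR, hGk, hexp, hG0s]
  have hL : Complex.exp (Real.pi * Complex.I * a * (Y : ℂ) ^ 2) *
      (Complex.sin (2 * Real.pi * (N * u + r * Y) / N) / Complex.sin (2 * Real.pi * (N * u) / N)) *
      (Qk s k (N * u + r * Y) / Qk s (k0 η₀ s) (N * u + r * Y) *
        Complex.exp (j s * (-(2 * Real.pi * Complex.I * u) + ll (u + η₀) + ll (u - η₀)))) *
      (Qk s (k0 η₀ s) (N * u + r * Y) / Qk s (k0 η₀ s) (N * u) *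
        Complex.exp (-(r * Y * (-(Real.pi * Complex.I) + 2 * Real.pi * Complex.I * η₀ -
          ll (u + η₀) + ll (u - η₀))))) *
      (Complex.sin (Real.pi * (N * u)) ^ 2 / Complex.sin (Real.pi * (N * u + r * Y)) ^ 2 *
        Complex.exp (-(2 * Real.pi * Complex.I * (r * Y)))) *
      ((f1 : ℂ) ^ 2 / (f0 : ℂ) ^ 2 *
        Complex.exp (-(j s * ((2 * Real.log (2 * Real.cos (Real.pi * η₀)) : ℝ) : ℂ)))) =
      (Complex.exp (j s * (-(2 * Real.pi * Complex.I * u) + ll (u + η₀) + ll (u - η₀))) *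
      Complex.exp (-(r * Y * (-(Real.pi * Complex.I) + 2 * Real.pi * Complex.I * η₀ - ll (u + η₀) +
        ll (u - η₀)))) * Complex.exp (-(2 * Real.pi * Complex.I * (r * Y))) *
      Complex.exp (-(j s * ((2 * Real.log (2 * Real.cos (Real.pi * η₀)) : ℝ) : ℂ)))) *
      (Complex.exp (Real.pi * Complex.I * a * (Y : ℂ) ^ 2) *
      (Complex.sin (2 * Real.pi * (N * u + r * Y) / N) / Complex.sin (2 * Real.pi * (N * u) / N)) *
      (Qk s k (N * u + r * Y) / Qk s (k0 η₀ s) (N * u)) *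
      (Complex.sin (Real.pi * (N * u)) ^ 2 / Complex.sin (Real.pi * (N * u + r * Y)) ^ 2) *
      ((f1 : ℂ) ^ 2 / (f0 : ℂ) ^ 2)) := by
    have e1 : Qk s k (N * u + r * Y) / Qk s (k0 η₀ s) (N * u) =
        Qk s k (N * u + r * Y) / Qk s (k0 η₀ s) (N * u + r * Y) *
          (Qk s (k0 η₀ s) (N * u + r * Y) / Qk s (k0 η₀ s) (N * u)) := by
      field_simp
    rw [e1]
    ring
  rw [hL, hE]
  field_simp

end Pool.Agent.Work.MP_b30479_gt.DT
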