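import Mathlib

/-!
# Real and complex functions for the volume conjecture of the double twist links `C(a,a)`

Notation of `DT/HINTS.md`: `n = 2s+1`, `0 ≤ k ≤ 2s`, `η = (k-s)/n`, `z = n (ς + iρ)`, `u = ς + iρ`.
-/

namespace Pool.Agent.Work.MP_b30479_gt.TB

end Pool.Agent.Work.MP_b30479_gt.TB

namespace Pool.Agent.Work.MP_b30479_gt.AX

end Pool.Agent.Work.MP_b30479_gt.AX

namespace Pool.Agent.Work.MP_b30479_gt.DT

open Finset TB AX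


/-! ### real functions -/

/-- `log |2 sin π(v + iρ)|` -/
noncomputable def el (ρ v : ℝ) : ℝ :=
  Real.log (2 * Real.cosh (2 * Real.pi * ρ) - 2 * Real.cos (2 * Real.pi * v)) / 2

/-- `∫_0^x log |2 sin π(v + iρ)| dv` -/
noncomputable def Lr (ρ x : ℝ) : ℝ := ∫ v in (0 : ℝ)..x, el ρ v

/-- the derivative of `Lr ρ x` with respect to `ρ` -/
noncomputable def Tr (ρ x : ℝ) : ℝ :=
  Real.pi * x - (1 - Complex.exp (2 * Real.pi * Complex.I * (x + ρ * Complex.I))).arg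

/-- the derivative of `el ρ v` with respect to `v` is `π (rr ρ v)`, the derivative of `Tr ρ x` with
respect to `ρ` is `-π (rr ρ x)` -/
noncomputable def rr (ρ v : ℝ) : ℝ :=
  Real.sin (2 * Real.pi * v) / (Real.cosh (2 * Real.pi * ρ) - Real.cos (2 * Real.pi * v))

/-- the exponent -/
noncomputable def H (a : ℕ) (η ς ρ : ℝ) : ℝ :=
  2 * Lr 0 (1 / 2 + η) - Lr ρ (η + ς) - Lr ρ (η - ς) - Real.pi * ρ * (1 + 2 * a * ς)

/-- the domain on which `H` is concave in `(η, ς)` -/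
def KK : Set (ℝ × ℝ) := {p | 0 ≤ p.1 ∧ p.1 ≤ 1 / 2 ∧ |p.2| ≤ p.1 ∧ |p.2| ≤ 1 / 4}

/-- the part of the rectangle `|η| ≤ 1/2, |ς| ≤ 1/2` where the path runs near the real axis -/
def Low (η ς : ℝ) : Prop :=
  |ς| ≤ 1 / 2 ∧ ((0 ≤ η ∧ η ≤ 1 / 2 ∧ min η (1 / 4) ≤ |ς|) ∨ (-(1 / 2) ≤ η ∧ η ≤ 0))

/-- the saddle point -/
structure IsSad (a : ℕ) (η₀ ς₀ ρ₀ : ℝ) : Prop where
  ρpos : 0 < ρ₀
  h1 : |ς₀| < η₀
  h2 : |ς₀| < 1 / 4
  h3 : η₀ < 1 / 2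
  max : ∀ η ς, (η, ς) ∈ KK → H a η ς ρ₀ ≤ H a η₀ ς₀ ρ₀
  min : ∀ ρ, 0 ≤ ρ → H a η₀ ς₀ ρ₀ ≤ H a η₀ ς₀ ρ
  low : ∀ η ς, Low η ς → H a η ς 0 < H a η₀ ς₀ ρ₀
  pos : 0 < H a η₀ ς₀ ρ₀

/-! ### the integrand -/

/-- `2 cos (2π z / n)` -/
noncomputable def cc (n : ℕ) (z : ℂ) : ℂ := 2 * Complex.cos (2 * Real.pi * z / n)

/-- `∏_{l=k+1}^{2s} (2 cos (2πz/n) - 2 cos (2π(l-s)/n))`, `n = 2s+1` -/
noncomputable def Qk (s k : ℕ) (z : ℂ) : ℂ :=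
  ∏ l ∈ Ioc k (2 * s), (cc (2 * s + 1) z - cc (2 * s + 1) ((l : ℂ) - s))

/-- the integrand -/
noncomputable def Gk (a s k : ℕ) (z : ℂ) : ℂ :=
  Complex.exp (Real.pi * Complex.I * a * z ^ 2 / ((2 * s + 1 : ℕ) : ℂ)) *
    Complex.sin (2 * Real.pi * z / ((2 * s + 1 : ℕ) : ℂ)) * Qk s k z / Complex.sin (Real.pi * z) ^ 2

/-- integral of `F` along `n/2 → n/2 + i h₁ → x₁ + i h₁ → x₁ + i h₂ → -n/2 + i h₂ → -n/2`
(`n/2 = b`) -/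
noncomputable def pathInt (F : ℂ → ℂ) (b x₁ h₁ h₂ : ℝ) : ℂ :=
  Complex.I * (∫ y in (0 : ℝ)..h₁, F ((b : ℂ) + y * Complex.I)) -
    (∫ x in x₁..b, F ((x : ℂ) + h₁ * Complex.I)) -
    Complex.I * (∫ y in h₂..h₁, F ((x₁ : ℂ) + y * Complex.I)) -
    (∫ x in (-b)..x₁, F ((x : ℂ) + h₂ * Complex.I)) -
    Complex.I * (∫ y in (0 : ℝ)..h₂, F (((-b : ℝ) : ℂ) + y * Complex.I))

/-- half of `n = 2s+1` -/
noncomputable def hn (s : ℕ) : ℝ := ((2 * s + 1 : ℕ) : ℝ) / 2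

/-- `η` as a function of `k` -/
noncomputable def et (s k : ℕ) : ℝ := ((k : ℝ) - s) / ((2 * s + 1 : ℕ) : ℝ)

/-- the left end of the high part of the path (for `k ≥ s`) -/
noncomputable def xk (s k : ℕ) : ℝ := -(((2 * s + 1 : ℕ) : ℝ) * min (et s k) (1 / 4))

/-- the main integral -/
noncomputable def Mk (a : ℕ) (ρ₀ : ℝ) (s k : ℕ) : ℂ :=
  if s ≤ k then ∫ x in (xk s k)..(hn s),
    Gk a s k ((x : ℂ) + ((((2 * s + 1 : ℕ) : ℝ) * ρ₀ : ℝ) : ℂ) * Complex.I) else 0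

/-! ### the summand near the saddle point -/

/-- the central index -/
noncomputable def k0 (η₀ : ℝ) (s : ℕ) : ℕ := s + ⌊η₀ * ((2 * s + 1 : ℕ) : ℝ)⌋₊

/-- the derivative of `log (1 - e^{2πiw})` -/
noncomputable def lp (w : ℂ) : ℂ :=
  -(2 * Real.pi * Complex.I * Complex.exp (2 * Real.pi * Complex.I * w) /
    (1 - Complex.exp (2 * Real.pi * Complex.I * w)))

/-- `log (1 - e^{2πiw})` -/
noncomputable def ll (w : ℂ) : ℂ := Complex.log (1 - Complex.exp (2 * Real.pi * Complex.I * w))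

/-- coefficient of `X²` -/
noncomputable def cA (η₀ : ℝ) (u : ℂ) : ℂ :=
  -(Real.pi * Real.tan (Real.pi * η₀)) - (lp (u + η₀) - lp (u - η₀)) / 2

/-- coefficient of `XY` -/
noncomputable def cB (η₀ : ℝ) (u : ℂ) : ℂ := 2 * Real.pi * Complex.I - lp (u + η₀) - lp (u - η₀)

/-- coefficient of `Y²` -/
noncomputable def cC (a : ℕ) (η₀ : ℝ) (u : ℂ) : ℂ :=
  Real.pi * Complex.I * a - (lp (u + η₀) - lp (u - η₀)) / 2

/-- the limit of `‖Uk‖` -/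
noncomputable def gg (a : ℕ) (η₀ : ℝ) (u : ℂ) (X : ℝ) : ℝ :=
  ‖∫ Y : ℝ, Complex.exp (cA η₀ u * X ^ 2 + cB η₀ u * X * Y + cC a η₀ u * Y ^ 2)‖

end Pool.Agent.Work.MP_b30479_gt.DT
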