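import Pool.Agent.Work.MP_b30479_gt.DT.LrCont
import Pool.Agent.Work.MP_b30479_gt.TB.Lob2

/-!
# Inequalities on the real axis
-/

namespace Pool.Agent.Work.MP_b30479_gt.DT

open Finset TB AX

lemma realAx_LF_deriv {x : ℝ} (h0 : 0 < x) (h1 : x < Real.pi) :
    HasDerivAt Lob.LF (Lob.ff x) x := by
  have hs : 0 < Real.sin x := Real.sin_pos_of_pos_of_lt_pi h0 h1
  have hd : HasDerivAt Lob.ff (2 * Real.cos x / (2 * Real.sin x)) x :=
    ((Real.hasDerivAt_sin x).const_mul 2).log (by positivity)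
  have hm : Measurable Lob.ff := by
    unfold Lob.ff
    fun_prop
  exact intervalIntegral.integral_hasDerivAt_right (Lob.ii 0 x)
    (hm.stronglyMeasurable.stronglyMeasurableAtFilter) hd.continuousAt

theorem realAx_H (a : ℕ) (η ς : ℝ) : H a η ς 0 =
    (2 * Lob.LF (Real.pi * (1 / 2 + η)) -
      (Lob.LF (Real.pi * ς + Real.pi * η) - Lob.LF (Real.pi * ς - Real.pi * η))) / Real.pi := by
  unfold H
  rw [Lr_zero_left, Lr_zero_left, Lr_zero_left]
  have e1 : Lob.LF (Real.pi * (η - ς)) = -Lob.LF (Real.pi * ς - Real.pi * η) := by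
    rw [← Lob.LF_neg]
    congr 1
    ring
  have e2 : Real.pi * (η + ς) = Real.pi * ς + Real.pi * η := by ring
  rw [e1, e2]
  ring

theorem realAx_even (a : ℕ) (η ς : ℝ) : H a η ς 0 = H a η |ς| 0 := by
  rcases abs_choice ς with h | h
  · rw [h]
  · rw [h]
    unfold H
    rw [sub_neg_eq_add, ← sub_eq_add_neg]
    ring

/-- `H(η, ς, 0)` is even in `ς` and decreases with `|ς|` for `0 ≤ η ≤ 1/2` -/
theorem H_zero_anti (a : ℕ) {η ς ς' : ℝ} (h0 : 0 ≤ η) (h1 : η ≤ 1 / 2) (h2 : |ς| ≤ |ς'|)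
    (h3 : |ς'| ≤ 1 / 2) : H a η ς' 0 ≤ H a η ς 0 := by
  have hpi := Real.pi_pos
  rw [realAx_even a η ς, realAx_even a η ς', realAx_H, realAx_H]
  apply div_le_div_of_nonneg_right _ hpi.le
  have h := Lob.Q_mono (a := Real.pi * |ς|) (b := Real.pi * |ς'|) (j := Real.pi * η)
    (mul_le_mul_of_nonneg_left h2 hpi.le) (fun v hv1 hv2 => by
      have hv3 : 0 ≤ v := le_trans (by positivity) hv1
      have hv4 : v ≤ Real.pi / 2 := hv2.trans (by nlinarith only [h3, hpi])
      apply mul_nonneg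
      · exact Real.sin_nonneg_of_nonneg_of_le_pi (by linarith only [hv3]) (by linarith only [hv4])
      · exact Real.sin_nonneg_of_nonneg_of_le_pi (by positivity) (by nlinarith only [h1, hpi]))
  linarith only [h]

theorem realAx_mono (a : ℕ) {η ς ς' : ℝ} (h0 : -(1 / 2) ≤ η) (h1 : η ≤ 0) (h2 : |ς| ≤ |ς'|)
    (h3 : |ς'| ≤ 1 / 2) : H a η ς 0 ≤ H a η ς' 0 := by
  have hpi := Real.pi_pos
  rw [realAx_even a η ς, realAx_even a η ς', realAx_H, realAx_H]
  apply div_le_div_of_nonneg_right _ hpi.le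
  have h := Lob.Q_anti (a := Real.pi * |ς|) (b := Real.pi * |ς'|) (j := Real.pi * η)
    (mul_le_mul_of_nonneg_left h2 hpi.le) (fun v hv1 hv2 => by
      have hv3 : 0 ≤ v := le_trans (by positivity) hv1
      have hv4 : v ≤ Real.pi / 2 := hv2.trans (by nlinarith only [h3, hpi])
      apply mul_nonpos_of_nonneg_of_nonpos
      · exact Real.sin_nonneg_of_nonneg_of_le_pi (by linarith only [hv3]) (by linarith only [hv4])
      · have h4 := Real.sin_nonneg_of_nonneg_of_le_pi (x := -(2 * (Real.pi * η)))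
          (by nlinarith only [h1, hpi]) (by nlinarith only [h0, hpi])
        rw [Real.sin_neg] at h4
        linarith only [h4])
  linarith only [h]

theorem realAx_dup (x : ℝ) : Lr 0 (2 * x) = 2 * Lr 0 x + 2 * Lr 0 (1 / 2 + x) := by
  have h1 := Lob.LF_dup (x := Real.pi * (2 * x))
  have h2 := Lr_half_add le_rfl x
  rw [Lr_zero_left, Lr_zero_left] at h2
  rw [Lr_zero_left, Lr_zero_left, Lr_zero_left, h1]
  have e1 : Real.pi * (2 * x) / 2 = Real.pi * x := by ring
  have e2 : Real.pi / 2 - Real.pi * x = Real.pi * (1 / 2 - x) := by ring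
  rw [e1, e2]
  rw [mul_zero, ← add_div, div_eq_zero_iff] at h2
  have h3 := h2.resolve_right Real.pi_ne_zero
  have h4 : Lob.LF (Real.pi * (1 / 2 - x)) = -Lob.LF (Real.pi * (1 / 2 + x)) := by linarith only [h3]
  rw [h4]
  ring

theorem realAx_six : Lr 0 (1 / 6) < 0 := by
  have hpi := Real.pi_pos
  rw [Lr_zero_left]
  apply div_neg_of_neg_of_pos _ hpi
  have hc : Continuous Lob.LF := by
    unfold Lob.LF
    exact intervalIntegral.continuous_primitive (fun a b => Lob.ii a b) 0
  have h : StrictAntiOn Lob.LF (Set.Icc 0 (Real.pi / 6)) := by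
    apply strictAntiOn_of_deriv_neg (convex_Icc _ _) hc.continuousOn
    rw [interior_Icc]
    intro x hx
    rw [(realAx_LF_deriv hx.1 (by linarith only [hpi, hx, hx.2])).deriv]
    unfold Lob.ff
    have h1 : 0 < Real.sin x := Real.sin_pos_of_pos_of_lt_pi hx.1 (by linarith only [hpi, hx, hx.2])
    have h2 : Real.sin x < 1 / 2 := by
      rw [← Real.sin_pi_div_six]
      exact Real.sin_lt_sin_of_lt_of_le_pi_div_two (by linarith only [hpi, hx, hx.1]) (by linarith only [hpi]) hx.2
    exact Real.log_neg (by linarith only [h1]) (by linarith only [h2])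
  have h1 := h (a := 0) (b := Real.pi / 6) ⟨le_rfl, by positivity⟩ ⟨by positivity, le_rfl⟩
    (by positivity)
  rw [Lob.LF_zero] at h1
  rw [show Real.pi * (1 / 6) = Real.pi / 6 by ring]
  exact h1

theorem H_zero_low (a : ℕ) : ∃ η₁ : ℝ, 1 / 4 ≤ η₁ ∧ η₁ < 1 / 2 ∧ 0 < H a η₁ (1 / 4) 0 ∧
    (∀ η ς, Low η ς → H a η ς 0 ≤ H a η₁ (1 / 4) 0) ∧
    (∀ ς, |ς| ≤ 1 / 4 → H a (1 / 2) ς 0 ≤ H a η₁ (1 / 4) 0) := by
  have hc : Continuous fun η : ℝ => H a η (1 / 4) 0 :=
    (continuous_H a).comp (by fun_prop : Continuous fun η : ℝ => ((η, (1 / 4 : ℝ), (0 : ℝ)) :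
      ℝ × ℝ × ℝ))
  obtain ⟨η₁, h1, h2⟩ := isCompact_Icc.exists_isMaxOn (s := Set.Icc (1 / 4 : ℝ) (1 / 2))
    ⟨1 / 4, le_rfl, by norm_num⟩ hc.continuousOn
  have hmax : ∀ η : ℝ, 1 / 4 ≤ η → η ≤ 1 / 2 → H a η (1 / 4) 0 ≤ H a η₁ (1 / 4) 0 :=
    fun η ha hb => h2 ⟨ha, hb⟩
  have h6 := realAx_six
  -- the value at `1/3`
  have hthird : H a (1 / 3) (1 / 4) 0 = -(5 / 2) * Lr 0 (1 / 6) := by
    have d := realAx_dup (1 / 12)
    have r := Lr_one_sub le_rfl (1 / 6)
    unfold H
    rw [show (2 : ℝ) * (1 / 12) = 1 / 6 by norm_num,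
      show (1 / 2 : ℝ) + 1 / 12 = 7 / 12 by norm_num] at d
    rw [show (1 : ℝ) - 1 / 6 = 5 / 6 by norm_num] at r
    rw [show (1 / 2 : ℝ) + 1 / 3 = 5 / 6 by norm_num, show (1 / 3 : ℝ) + 1 / 4 = 7 / 12 by norm_num,
      show (1 / 3 : ℝ) - 1 / 4 = 1 / 12 by norm_num, r]
    linarith only [d]
  have hthird2 := hmax (1 / 3) (by norm_num) (by norm_num)
  have hpos : 0 < H a η₁ (1 / 4) 0 := by
    rw [hthird] at hthird2
    linarith only [h6, hthird2]
  -- the value at `1/2`
  have hhalf : ∀ ς : ℝ, H a (1 / 2) ς 0 = 0 := by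
    intro ς
    have d := Lr_half_add le_rfl ς
    have e := Lr_one le_rfl
    unfold H
    rw [show (1 / 2 : ℝ) + 1 / 2 = 1 by norm_num, e]
    linarith only [d]
  refine ⟨η₁, h1.1, ?_, hpos, ?_, ?_⟩
  · rcases h1.2.lt_or_eq with h | h
    · exact h
    · rw [h, hhalf] at hpos
      exact absurd hpos (lt_irrefl _)
  · rintro η ς ⟨hς, ⟨h0, h1', hm⟩ | ⟨h0, h1'⟩⟩
    · rcases le_total (1 / 4) η with h4 | h4
      · rw [min_eq_right h4] at hm
        refine le_trans (H_zero_anti a h0 h1' (ς := 1 / 4) (ς' := ς) ?_ hς) (hmax η h4 h1')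
        rw [abs_of_pos (by norm_num : (0 : ℝ) < 1 / 4)]
        exact hm
      · rw [min_eq_left h4] at hm
        refine le_trans (H_zero_anti a h0 h1' (ς := η) (ς' := ς) ?_ hς) ?_
        · rw [abs_of_nonneg h0]
          exact hm
        · have d := realAx_dup η
          have e : H a η η 0 = -(2 * Lr 0 η) := by
            unfold H
            rw [sub_self, Lr_zero_right, ← two_mul, d]
            ring
          rw [e]
          have h5 : Lr 0 (1 / 6) ≤ Lr 0 η := by
            have hpi := Real.pi_pos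
            rw [Lr_zero_left, Lr_zero_left, show Real.pi * (1 / 6) = Real.pi / 6 by ring]
            exact div_le_div_of_nonneg_right (Lob.LF_ge (by positivity) (by nlinarith only [h1', hpi])) hpi.le
          rw [hthird] at hthird2
          linarith only [h6, hthird2, h5]
    · refine le_trans (realAx_mono a h0 h1' (ς := ς) (ς' := 1 / 2) ?_ ?_) ?_
      · rw [abs_of_pos (by norm_num : (0 : ℝ) < 1 / 2)]
        exact hς
      · rw [abs_of_pos (by norm_num : (0 : ℝ) < 1 / 2)]
      · have e : H a η (1 / 2) 0 = 0 := by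
          have d := Lr_add_one le_rfl (η - 1 / 2)
          rw [show η - 1 / 2 + 1 = η + 1 / 2 by ring] at d
          unfold H
          rw [add_comm (1 / 2) η, d]
          ring
        rw [e]
        exact hpos.le
  · intro ς _
    rw [hhalf]
    exact hpos.le

theorem realAx_lt {ρ v : ℝ} (hρ : 0 < ρ) (hv : Real.sin (Real.pi * v) ≠ 0) :
    el 0 v < el ρ v := by
  have h1 := el_arg_pos' (ρ := 0) (v := v) fun _ => hv
  have hpi := Real.pi_pos
  have h2 : Real.cosh (2 * Real.pi * 0) < Real.cosh (2 * Real.pi * ρ) := by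
    rw [Real.cosh_lt_cosh, mul_zero, abs_zero, abs_of_pos (by positivity)]
    positivity
  rw [el, el]
  apply div_lt_div_of_pos_right _ (by norm_num)
  apply Real.log_lt_log h1
  linarith only [h2]

/-- `Lr ρ - Lr 0` is strictly increasing on `[0,1]` -/
theorem realAx_D {ρ x y : ℝ} (hρ : 0 < ρ) (hx : 0 ≤ x) (hxy : x < y) (hy : y ≤ 1) :
    Lr ρ x - Lr 0 x < Lr ρ y - Lr 0 y := by
  have hpi := Real.pi_pos
  have h := intervalIntegral.intervalIntegral_pos_of_pos_on
    (f := fun v => el ρ v - el 0 v) (a := x) (b := y)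
    ((el_intble ρ x y).sub (el_intble 0 x y)) (fun v hv => by
      have h1 : 0 < Real.sin (Real.pi * v) := by
        apply Real.sin_pos_of_pos_of_lt_pi
        · have : 0 < v := lt_of_le_of_lt hx hv.1
          positivity
        · have : v < 1 := lt_of_lt_of_le hv.2 hy
          nlinarith only [hpi, this]
      exact sub_pos.mpr (realAx_lt hρ h1.ne')) hxy
  rw [intervalIntegral.integral_sub (el_intble ρ x y) (el_intble 0 x y), ← Lr_sub, ← Lr_sub] at h
  linarith only [h]

theorem gap1 {a : ℕ} (ha : 4 ≤ a) {η ρ : ℝ} (h1 : 1 / 4 ≤ η) (h2 : η < 1 / 2) (hρ : 0 < ρ) :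
    H a η (1 / 4) 0 < H a η (-(1 / a)) ρ := by
  have ha' : (4 : ℝ) ≤ a := by exact_mod_cast ha
  have ha0 : (0 : ℝ) < a := by linarith only [h1, h2, ha']
  have hia : (1 : ℝ) / a ≤ 1 / 4 := one_div_le_one_div_of_le (by norm_num) ha'
  have hia0 : (0 : ℝ) < 1 / a := by positivity
  have h3 : H a η (1 / 4) 0 ≤ H a η (-(1 / a)) 0 := by
    apply H_zero_anti a (by linarith only [h1, hia, hia0]) h2.le
    · rw [abs_neg, abs_of_pos hia0, abs_of_pos (by norm_num : (0 : ℝ) < 1 / 4)]
      exact hia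
    · rw [abs_of_pos (by norm_num : (0 : ℝ) < 1 / 4)]
      norm_num
  refine lt_of_le_of_lt h3 ?_
  have hD := realAx_D hρ (x := η - 1 / a) (y := 1 - (η + 1 / a)) (by linarith only [h1, hia]) (by linarith only [h2])
    (by linarith only [h1, hia, hia0])
  rw [Lr_one_sub hρ.le, Lr_one_sub le_rfl] at hD
  unfold H
  rw [← sub_eq_add_neg, sub_neg_eq_add]
  have e : 2 * (a : ℝ) * -(1 / a) = -2 := by
    field_simp
  rw [e]
  linarith only [hD]

theorem gap2 (a : ℕ) {ρ : ℝ} (hρ : 0 < ρ) : H a (1 / 4) 0 ρ < H a (1 / 4) 0 0 := by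
  have hD := realAx_D hρ (x := 0) (y := 1 / 4) le_rfl (by norm_num) (by norm_num)
  rw [Lr_zero_right, Lr_zero_right] at hD
  have h1 : 0 < Real.pi * ρ := mul_pos Real.pi_pos hρ
  unfold H
  rw [add_zero, sub_zero]
  linarith only [hD, h1]

theorem realAx_cmp {v w : ℝ} (h0 : 0 < Real.sin (Real.pi * v))
    (h : Real.sin (Real.pi * v) < Real.sin (Real.pi * w)) : el 0 v < el 0 w := by
  rw [el_zero, el_zero]
  unfold Lob.ff
  apply Real.log_lt_log (by positivity)
  linarith only [h]

theorem gap3 (a : ℕ) {η ς : ℝ} (h : (η, ς) ∈ KK) (hne : (η, ς) ≠ (1 / 4, 0)) :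
    H a η ς 0 < H a (1 / 4) 0 0 := by
  have hpi := Real.pi_pos
  obtain ⟨h0, h1, h2, h3⟩ := h
  simp only at h0 h1 h2 h3
  have hcos : ∀ v : ℝ, Real.sin (Real.pi * (1 / 2 + v)) = Real.cos (Real.pi * v) := by
    intro v
    rw [← Real.sin_add_pi_div_two]
    congr 1
    ring
  have hii : ∀ x y : ℝ, IntervalIntegrable (fun v => el 0 (1 / 2 + v)) MeasureTheory.volume x y := by
    intro x y
    have h := (el_intble 0 (x + 1 / 2) (y + 1 / 2)).comp_add_right (1 / 2)
    simp only [add_sub_cancel_right] at h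
    refine h.congr ?_
    intro v _
    show el 0 (v + 1 / 2) = el 0 (1 / 2 + v)
    rw [add_comm]
  have hint : ∀ x y : ℝ, ∫ v in x..y, el 0 (1 / 2 + v) = Lr 0 (1 / 2 + y) - Lr 0 (1 / 2 + x) := by
    intro x y
    rw [Lr_sub, intervalIntegral.integral_comp_add_left (fun v => el 0 v)]
  by_cases hη : η = 1 / 4
  · have hς : ς ≠ 0 := fun h => hne (by rw [hη, h])
    have hς0 : 0 < |ς| := abs_pos.mpr hς
    rw [realAx_even a η ς, hη]
    have hi1 : IntervalIntegrable (fun v => el 0 (1 / 4 + v)) MeasureTheory.volume 0 |ς| := by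
      have h := (el_intble 0 (0 + 1 / 4) (|ς| + 1 / 4)).comp_add_right (1 / 4)
      simp only [add_sub_cancel_right] at h
      refine h.congr ?_
      intro v _
      show el 0 (v + 1 / 4) = el 0 (1 / 4 + v)
      rw [add_comm]
    have hi2 : IntervalIntegrable (fun v => el 0 (1 / 4 - v)) MeasureTheory.volume 0 |ς| := by
      have h := (el_intble 0 (1 / 4 - 0) (1 / 4 - |ς|)).comp_sub_left (1 / 4)
      simpa using h
    have hp := intervalIntegral.intervalIntegral_pos_of_pos_on
      (f := fun v => el 0 (1 / 4 + v) - el 0 (1 / 4 - v)) (a := 0) (b := |ς|)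
      (hi1.sub hi2) (fun v hv => by
        have hv1 := hv.1
        have hv2 := hv.2
        apply sub_pos.mpr
        apply realAx_cmp
        · apply Real.sin_pos_of_pos_of_lt_pi
          · have : 0 < 1 / 4 - v := by linarith only [h3, hv2]
            positivity
          · nlinarith only [hpi, hv1]
        · apply Real.sin_lt_sin_of_lt_of_le_pi_div_two
          · nlinarith only [hpi, h1, h2, hv2]
          · nlinarith only [hpi, h3, hv2]
          · nlinarith only [hpi, hv1]) hς0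
    rw [intervalIntegral.integral_sub hi1 hi2,
      intervalIntegral.integral_comp_add_left (fun v => el 0 v),
      intervalIntegral.integral_comp_sub_left (fun v => el 0 v), ← Lr_sub, ← Lr_sub] at hp
    unfold H
    rw [add_zero, sub_zero] at hp
    rw [add_zero, sub_zero]
    linarith only [hp]
  · have hle : H a η ς 0 ≤ H a η 0 0 := by
      apply H_zero_anti a h0 h1
      · rw [abs_zero]
        exact abs_nonneg _
      · linarith only [h1, h2]
    refine lt_of_le_of_lt hle ?_
    rcases lt_or_gt_of_ne hη with h4 | h4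
    · have hp := intervalIntegral.intervalIntegral_pos_of_pos_on
        (f := fun v => el 0 (1 / 2 + v) - el 0 v) (a := η) (b := 1 / 4)
        ((hii _ _).sub (el_intble 0 _ _)) (fun v hv => by
          have hv1 := hv.1
          have hv2 := hv.2
          apply sub_pos.mpr
          apply realAx_cmp
          · apply Real.sin_pos_of_pos_of_lt_pi
            · have : 0 < v := by linarith only [h0, hv1]
              positivity
            · nlinarith only [hpi, hv2]
          · rw [hcos, ← Real.sin_pi_div_two_sub]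
            apply Real.sin_lt_sin_of_lt_of_le_pi_div_two
            · nlinarith only [hpi, h0, hv1]
            · nlinarith only [hpi, h0, hv1]
            · nlinarith only [hpi, hv2]) h4
      rw [intervalIntegral.integral_sub (hii _ _) (el_intble 0 _ _), hint, ← Lr_sub] at hp
      unfold H
      rw [add_zero, sub_zero, add_zero, sub_zero]
      linarith only [hp]
    · have hp := intervalIntegral.intervalIntegral_pos_of_pos_on
        (f := fun v => el 0 v - el 0 (1 / 2 + v)) (a := 1 / 4) (b := η)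
        ((el_intble 0 _ _).sub (hii _ _)) (fun v hv => by
          have hv1 := hv.1
          have hv2 := hv.2
          apply sub_pos.mpr
          apply realAx_cmp
          · rw [hcos]
            apply Real.cos_pos_of_mem_Ioo
            constructor
            · nlinarith only [hpi, hv1]
            · nlinarith only [hpi, h1, hv2]
          · rw [hcos, ← Real.sin_pi_div_two_sub]
            apply Real.sin_lt_sin_of_lt_of_le_pi_div_two
            · nlinarith only [hpi, h1, hv2]
            · nlinarith only [hpi, h1, hv2]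
            · nlinarith only [hpi, hv1]) h4
      rw [intervalIntegral.integral_sub (el_intble 0 _ _) (hii _ _), hint, ← Lr_sub] at hp
      unfold H
      rw [add_zero, sub_zero, add_zero, sub_zero]
      linarith only [hp]

theorem gap4 {a : ℕ} (ha : 4 ≤ a) :
    ∃ B : ℝ, 0 < B ∧ ∀ ρ, B ≤ ρ → H a (1 / 4) 0 0 < H a (1 / 4) (-(1 / 4)) ρ := by
  have hpi := Real.pi_pos
  have ha' : (4 : ℝ) ≤ a := by exact_mod_cast ha
  refine ⟨1 + 4 * |Lr 0 (1 / 4)| / Real.pi, by positivity, fun ρ hρ => ?_⟩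
  have hρ0 : 0 < ρ := lt_of_lt_of_le (by positivity) hρ
  have h1 : Real.pi * (1 + 4 * |Lr 0 (1 / 4)| / Real.pi) ≤ Real.pi * ρ :=
    mul_le_mul_of_nonneg_left hρ hpi.le
  have e1 : Real.pi * (1 + 4 * |Lr 0 (1 / 4)| / Real.pi) = Real.pi + 4 * |Lr 0 (1 / 4)| := by
    field_simp
  rw [e1] at h1
  have h2 := neg_abs_le (Lr 0 (1 / 4))
  have h3 := Lr_half hρ0.le
  unfold H
  rw [add_zero, sub_zero, ← sub_eq_add_neg, sub_self, Lr_zero_right, sub_neg_eq_add,
    show (1 / 4 : ℝ) + 1 / 4 = 1 / 2 by norm_num, h3]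
  have h4 : 0 ≤ Real.pi * ρ * ((a : ℝ) - 4) := by
    have : 0 ≤ (a : ℝ) - 4 := by linarith only [ha']
    positivity
  have e2 : Real.pi * ρ * (1 + 2 * a * -(1 / 4)) = Real.pi * ρ - Real.pi * ρ * a / 2 := by ring
  rw [e2]
  nlinarith only [hpi, h1, h2, h4]

end Pool.Agent.Work.MP_b30479_gt.DT
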