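import Pool.Agent.Work.MP_b30479_gt.DT.ConvR
import Pool.Agent.Work.MP_b30479_gt.DT.RealAx
import Mathlib.Topology.Sion

/-!
# Existence of the saddle point
-/

namespace Pool.Agent.Work.MP_b30479_gt.DT

open Finset TB AX

theorem exists_saddle_aux (a : ℕ) {B : ℝ} (hB : 0 < B) :
    ∃ ρ₀ ∈ Set.Icc (0 : ℝ) B, ∃ p₀ ∈ KK, ∀ ρ ∈ Set.Icc (0 : ℝ) B, ∀ p ∈ KK,
      H a p.1 p.2 ρ₀ ≤ H a p₀.1 p₀.2 ρ := by
  have hc := continuous_H a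
  have h := Sion.exists_isSaddlePointOn' (X := Set.Icc (0 : ℝ) B) (Y := KK)
    (f := fun (ρ : ℝ) (p : ℝ × ℝ) => H a p.1 p.2 ρ)
    (ne_X := ⟨0, Set.mem_Icc.2 ⟨le_refl 0, hB.le⟩⟩) (cX := convex_Icc 0 B) (kX := isCompact_Icc)
    (hfy := ?_) (hfy' := ?_) (cY := convex_KK) (ne_Y := ⟨(1 / 4, 0), ?_⟩) (kY := isCompact_KK)
    (hfx := ?_) (hfx' := ?_)
  · obtain ⟨ρ₀, h1, p₀, h2, h3⟩ := h
    exact ⟨ρ₀, h1, p₀, h2, h3⟩
  · intro p hp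
    exact (Continuous.comp hc
      (continuous_const.prodMk (continuous_const.prodMk continuous_id) :
        Continuous fun ρ : ℝ => ((p.1, p.2, ρ) : ℝ × ℝ × ℝ))).continuousOn.lowerSemicontinuousOn
  · intro p hp
    exact ((convexOn_H a (η := p.1) (ς := p.2) hp).subset Set.Icc_subset_Ici_self
      (convex_Icc 0 B)).quasiconvexOn
  · intro ρ hρ
    exact (Continuous.comp hc
      (continuous_fst.prodMk (continuous_snd.prodMk continuous_const) :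
        Continuous fun p : ℝ × ℝ => ((p.1, p.2, ρ) : ℝ × ℝ × ℝ))).continuousOn.upperSemicontinuousOn
  · intro ρ hρ
    exact (concaveOn_H a hρ.1).quasiconcaveOn
  · refine ⟨by norm_num, by norm_num, by norm_num, by norm_num⟩

theorem exists_saddle {a : ℕ} (ha : 4 ≤ a) : ∃ η₀ ς₀ ρ₀ : ℝ, IsSad a η₀ ς₀ ρ₀ := by
  obtain ⟨B, hB, hgap4⟩ := gap4 ha
  obtain ⟨ρ₀, hρ₀, ⟨η₀, ς₀⟩, hp₀, hs⟩ := exists_saddle_aux a hB
  simp only at hs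
  have hK0 : ((1 / 4 : ℝ), (0 : ℝ)) ∈ KK := by
    refine ⟨by norm_num, by norm_num, by norm_num, by norm_num⟩
  have hK1 : ((1 / 4 : ℝ), (-(1 / 4) : ℝ)) ∈ KK := by
    refine ⟨by norm_num, by norm_num, ?_, ?_⟩ <;> simp only [abs_neg] <;>
      rw [abs_of_pos (by norm_num : (0 : ℝ) < 1 / 4)]
  have hBmem : B ∈ Set.Icc (0 : ℝ) B := ⟨hB.le, le_refl B⟩
  have h0mem : (0 : ℝ) ∈ Set.Icc (0 : ℝ) B := ⟨le_refl 0, hB.le⟩
  have hne0 : ρ₀ ≠ 0 := by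
    intro h0
    subst h0
    have h1 := hs 0 h0mem (1 / 4, 0) hK0
    simp only at h1
    have h2 : (η₀, ς₀) = ((1 / 4 : ℝ), (0 : ℝ)) := by
      by_contra hne
      exact absurd (gap3 a hp₀ hne) (not_lt.2 h1)
    rw [Prod.mk.injEq] at h2
    obtain ⟨h3, h4⟩ := h2
    subst h3 h4
    have h5 := hs B hBmem (1 / 4, 0) hK0
    simp only at h5
    exact absurd (gap2 a hB) (not_lt.2 h5)
  have hneB : ρ₀ ≠ B := by
    intro h0
    subst h0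
    have h1 := hs 0 h0mem (1 / 4, -(1 / 4)) hK1
    simp only at h1
    have h2 : H a η₀ ς₀ 0 ≤ H a (1 / 4) 0 0 := by
      by_cases hne : (η₀, ς₀) = ((1 / 4 : ℝ), (0 : ℝ))
      · rw [Prod.mk.injEq] at hne
        rw [hne.1, hne.2]
      · exact (gap3 a hp₀ hne).le
    have h3 := hgap4 ρ₀ (le_refl _)
    linarith
  have hpos : 0 < ρ₀ := lt_of_le_of_ne hρ₀.1 (Ne.symm hne0)
  have hltB : ρ₀ < B := lt_of_le_of_ne hρ₀.2 hneB
  have hmax : ∀ η ς, (η, ς) ∈ KK → H a η ς ρ₀ ≤ H a η₀ ς₀ ρ₀ := by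
    intro η ς h
    exact hs ρ₀ hρ₀ (η, ς) h
  have hmin : ∀ ρ, 0 ≤ ρ → H a η₀ ς₀ ρ₀ ≤ H a η₀ ς₀ ρ := by
    have hl : IsLocalMinOn (fun ρ : ℝ => H a η₀ ς₀ ρ) (Set.Ici 0) ρ₀ := by
      have : IsLocalMin (fun ρ : ℝ => H a η₀ ς₀ ρ) ρ₀ := by
        filter_upwards [Icc_mem_nhds hpos hltB] with ρ hρ
        exact hs ρ hρ (η₀, ς₀) hp₀
      exact this.on _
    have := IsMinOn.of_isLocalMinOn_of_convexOn (Set.mem_Ici.2 hpos.le) hl (convexOn_H a hp₀)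
    intro ρ hρ
    exact this (Set.mem_Ici.2 hρ)
  obtain ⟨η₁, h11, h12, hm1, hlow, hhalf⟩ := H_zero_low a
  have ha' : (4 : ℝ) ≤ a := by exact_mod_cast ha
  have hinv : 1 / (a : ℝ) ≤ 1 / 4 := one_div_le_one_div_of_le (by norm_num) ha'
  have hinv0 : 0 < 1 / (a : ℝ) := by positivity
  have hmem1 : (η₁, -(1 / (a : ℝ))) ∈ KK := by
    refine ⟨by linarith, h12.le, ?_, ?_⟩ <;> simp only [abs_neg] <;>
      rw [abs_of_pos hinv0] <;> linarith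
  have hw : H a η₁ (1 / 4) 0 < H a η₀ ς₀ ρ₀ :=
    lt_of_lt_of_le (gap1 ha h11 h12 hpos) (hmax _ _ hmem1)
  have hw0 : H a η₀ ς₀ ρ₀ ≤ H a η₀ ς₀ 0 := hmin 0 (le_refl 0)
  obtain ⟨hk1, hk2, hk3, hk4⟩ := hp₀
  simp only at hk1 hk2 hk3 hk4
  have hnlow : ¬ Low η₀ ς₀ := fun hL => by
    have := hlow _ _ hL
    linarith
  have hA : |ς₀| < min η₀ (1 / 4) := by
    by_contra hcon
    rw [not_lt] at hcon
    exact hnlow ⟨by linarith, Or.inl ⟨hk1, hk2, hcon⟩⟩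
  refine ⟨η₀, ς₀, ρ₀, ⟨hpos, lt_of_lt_of_le hA (min_le_left _ _),
    lt_of_lt_of_le hA (min_le_right _ _), ?_, hmax, hmin, ?_, lt_trans hm1 hw⟩⟩
  · refine lt_of_le_of_ne hk2 ?_
    intro h
    subst h
    have := hhalf ς₀ hk4
    linarith
  · intro η ς hL
    exact lt_of_le_of_lt (hlow _ _ hL) hw

end Pool.Agent.Work.MP_b30479_gt.DT
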